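import Pool.Agent.H24.Near.Carleman

set_option autoImplicit false

/-!
# The Carleman estimate with a weaker hypothesis on the potential

Same as `Pool.Agent.H24.Near.carleman`, but `|q|` itself may be large: only
`(A² + 2B² + C²) q²` and the first derivatives of `q` are restricted.
-/

namespace Pool.Agent.H5.Yau

open MeasureTheory Set Metric Pool.Agent.H24.Near

namespace CarlX

/-- Cauchy-Schwarz in the plane. -/
private lemma cs2 (a b c d : ℝ) : (a * c + b * d) ^ 2 ≤ (a ^ 2 + b ^ 2) * (c ^ 2 + d ^ 2) := by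
  nlinarith [sq_nonneg (a * d - b * c)]

private lemma abs_le_of_sq {a c : ℝ} (hc : 0 ≤ c) (h : a ^ 2 ≤ c ^ 2) : |a| ≤ c :=
  abs_le_of_sq_le_sq h hc

private lemma eta_le {A B C η : ℝ} (htr : A + C = -η) (hη : 0 < η)
    (hM : A ^ 2 + 2 * B ^ 2 + C ^ 2 ≤ η / 100) : η ≤ 1 / 50 := by
  have e1 : η ^ 2 = (A + C) ^ 2 := by rw [htr]; ring
  have e2 : η ^ 2 ≤ 2 * (η / 100) := by
    have : (A + C) ^ 2 ≤ 2 * (A ^ 2 + 2 * B ^ 2 + C ^ 2) := by
      nlinarith only [sq_nonneg (A - C), sq_nonneg B]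
    linarith only [hM, e1, this]
  by_contra hcon
  push Not at hcon
  have := mul_pos hη (sub_pos.2 hcon)
  have e3 : η * (η - 1 / 50) = η ^ 2 - 2 * (η / 100) := by ring
  linarith only [e2, this]

/-- The lower bound for `β |a|² - aᵀ M₀ a`. -/
private lemma K_bound {A0 B b1 b2 h1 h2 η : ℝ} (hb : b1 ^ 2 + b2 ^ 2 = 1) (hη : 0 < η)
    (hη1 : η ≤ 1 / 50) (hν : A0 ^ 2 + B ^ 2 ≤ η / 200) (hh : h1 ^ 2 + h2 ^ 2 ≤ η / 50)
    {c1 c2 β bh : ℝ} (hc1 : c1 = A0 * b1 + B * b2) (hc2 : c2 = B * b1 - A0 * b2)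
    (hc : c1 ^ 2 + c2 ^ 2 ≤ η / 200) (hβ : β = b1 * c1 + b2 * c2) (hβ2 : β ^ 2 ≤ η / 200)
    (hβabs : |β| ≤ 1 / 100) (hbh : bh = b1 * h1 + b2 * h2) (hbh2 : bh ^ 2 ≤ η / 50) :
    -(41 / 1000) * η ≤ β * ((b1 + h1) ^ 2 + (b2 + h2) ^ 2)
      - (A0 * (b1 + h1) ^ 2 + 2 * B * (b1 + h1) * (b2 + h2) - A0 * (b2 + h2) ^ 2) := by
  have e : β * ((b1 + h1) ^ 2 + (b2 + h2) ^ 2)
      - (A0 * (b1 + h1) ^ 2 + 2 * B * (b1 + h1) * (b2 + h2) - A0 * (b2 + h2) ^ 2)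
      = 2 * (β * bh) + β * (h1 ^ 2 + h2 ^ 2) - 2 * (c1 * h1 + c2 * h2)
      - (A0 * h1 ^ 2 + 2 * B * h1 * h2 - A0 * h2 ^ 2) := by
    have e1 : A0 * b1 ^ 2 + 2 * B * b1 * b2 - A0 * b2 ^ 2 = β := by rw [hβ, hc1, hc2]; ring
    rw [hbh, hc1, hc2]
    linear_combination -e1 + β * hb
  have t1 : -(η / 50) ≤ 2 * (β * bh) := by
    have := sq_nonneg (β + bh / 2)
    have e2 : (β + bh / 2) ^ 2 = β ^ 2 + β * bh + bh ^ 2 / 4 := by ring
    linarith only [hβ2, hbh2, this]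
  have t2 : -(η / 5000) ≤ β * (h1 ^ 2 + h2 ^ 2) := by
    have h3 := (abs_le.1 hβabs).1
    have h4 : 0 ≤ h1 ^ 2 + h2 ^ 2 := by positivity
    have h5 : -(1 / 100) * (h1 ^ 2 + h2 ^ 2) ≤ β * (h1 ^ 2 + h2 ^ 2) :=
      mul_le_mul_of_nonneg_right (by linarith only [h3]) h4
    linarith only [hh, h5]
  have t3 : 2 * (c1 * h1 + c2 * h2) ≤ η / 50 := by
    have s1 := sq_nonneg (c1 - h1 / 2)
    have s2 := sq_nonneg (c2 - h2 / 2)
    have e1 : (c1 - h1 / 2) ^ 2 = c1 ^ 2 - c1 * h1 + h1 ^ 2 / 4 := by ring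
    have e2 : (c2 - h2 / 2) ^ 2 = c2 ^ 2 - c2 * h2 + h2 ^ 2 / 4 := by ring
    linarith only [hh, hc, s1, s2]
  have t4 : A0 * h1 ^ 2 + 2 * B * h1 * h2 - A0 * h2 ^ 2 ≤ η / 5000 := by
    have s1 := cs2 A0 B (h1 ^ 2 - h2 ^ 2) (2 * h1 * h2)
    have s2 : (h1 ^ 2 - h2 ^ 2) ^ 2 + (2 * h1 * h2) ^ 2 = (h1 ^ 2 + h2 ^ 2) ^ 2 := by ring
    rw [s2] at s1
    have s3 : (A0 ^ 2 + B ^ 2) * (h1 ^ 2 + h2 ^ 2) ^ 2 ≤ (1 / 100) ^ 2 * (η / 50) ^ 2 := by
      apply mul_le_mul (by linarith only [hη1, hν]) _ (by positivity) (by positivity)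
      exact pow_le_pow_left₀ (by positivity) hh 2
    have s4 : |A0 * (h1 ^ 2 - h2 ^ 2) + B * (2 * h1 * h2)| ≤ η / 5000 := by
      apply abs_le_of_sq (by positivity)
      calc _ ≤ _ := s1
        _ ≤ _ := s3
        _ = _ := by ring
    have := (abs_le.1 s4).2
    linarith only [this]
  rw [e]; linarith only [hη, t1, t2, t3, t4]

/-- The linear algebra facts used in the pointwise inequality. -/
private lemma aux_bounds {x y A B C η : ℝ} (hη : 0 < η)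
    (hM : A ^ 2 + 2 * B ^ 2 + C ^ 2 ≤ η / 100) (hx : |x| ≤ 1) (hy : |y| ≤ 1) :
    ((A - C) / 2) ^ 2 + B ^ 2 ≤ η / 200 ∧
      (A * x + B * y) ^ 2 + (B * x + C * y) ^ 2 ≤ η / 50 := by
  constructor
  · have e : A ^ 2 + 2 * B ^ 2 + C ^ 2
        = 2 * (((A - C) / 2) ^ 2 + B ^ 2) + (A + C) ^ 2 / 2 := by ring
    rw [e] at hM
    have := sq_nonneg (A + C)
    linarith only [hM, this]
  · have hx2 : x ^ 2 ≤ 1 := (sq_le_one_iff_abs_le_one x).2 hx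
    have hy2 : y ^ 2 ≤ 1 := (sq_le_one_iff_abs_le_one y).2 hy
    have e1 := cs2 A B x y
    have e2 := cs2 B C x y
    have e3 : (A ^ 2 + 2 * B ^ 2 + C ^ 2) * (x ^ 2 + y ^ 2) ≤ η / 100 * 2 :=
      mul_le_mul hM (by linarith only [hx2, hy2]) (by positivity) (by positivity)
    calc (A * x + B * y) ^ 2 + (B * x + C * y) ^ 2
        ≤ (A ^ 2 + B ^ 2) * (x ^ 2 + y ^ 2) + (B ^ 2 + C ^ 2) * (x ^ 2 + y ^ 2) :=
          add_le_add e1 e2
      _ = (A ^ 2 + 2 * B ^ 2 + C ^ 2) * (x ^ 2 + y ^ 2) := by ring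
      _ ≤ η / 100 * 2 := e3
      _ = η / 50 := by ring

/-- The coefficient of `v²`. -/
private lemma coef_bound {A B C A0 η m q q1 q2 a1 a2 b1 b2 h1 h2 β N aMa : ℝ}
    (hη : 0 < η) (hm : 20 ≤ m) (hη1 : η ≤ 1 / 50)
    (hb : b1 ^ 2 + b2 ^ 2 = 1)
    (hA : A = A0 - η / 2) (hC : C = -A0 - η / 2)
    (ha1 : a1 = b1 + h1) (ha2 : a2 = b2 + h2) (hh : h1 ^ 2 + h2 ^ 2 ≤ η / 50)
    (hN : N = a1 ^ 2 + a2 ^ 2) (haMa : aMa = A0 * a1 ^ 2 + 2 * B * a1 * a2 - A0 * a2 ^ 2)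
    (hK : -(41 / 1000) * η ≤ β * N - aMa) (hNlow : 24 / 25 ≤ N)
    (hq : |β * q| ≤ 71 / 10000 * (η * m ^ 2)) (hq1 : |q1| ≤ η * m ^ 2 / 100)
    (hq2 : |q2| ≤ η * m ^ 2 / 100) :
    3 / 2 * (η * m ^ 3)
      ≤ 4 * m * β * (m ^ 2 * N + q) - 2 * m * (a1 * (2 * m ^ 2 * (a1 * A + a2 * B) + q1)
        + a2 * (2 * m ^ 2 * (a1 * B + a2 * C) + q2)) := by
  have hm0 : 0 < m := by linarith only [hm]
  have h5 : 0 < η * m ^ 3 := by positivity
  have hq' : -(284 / 10000 * (η * m ^ 3)) ≤ 4 * m * β * q := by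
    have h3 := (abs_le.1 hq).1
    have h4 : 4 * m * (-(71 / 10000 * (η * m ^ 2))) ≤ 4 * m * (β * q) :=
      mul_le_mul_of_nonneg_left h3 (by positivity)
    have e1 : 4 * m * (-(71 / 10000 * (η * m ^ 2))) = -(284 / 10000 * (η * m ^ 3)) := by ring
    have e2 : 4 * m * (β * q) = 4 * m * β * q := by ring
    linarith only [h4]
  have hha : ∀ z : ℝ, z ^ 2 ≤ η / 50 → |z| ≤ 1 / 50 := fun z hz =>
    abs_le_of_sq (by norm_num) (by linarith only [hη1, hz])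
  have hh1a : |h1| ≤ 1 / 50 := hha _ (by have := sq_nonneg h2; linarith only [hh, this])
  have hh2a : |h2| ≤ 1 / 50 := hha _ (by have := sq_nonneg h1; linarith only [hh, this])
  have hb1a : |b1| ≤ 1 := abs_le_of_sq (by norm_num) (by have := sq_nonneg b2; linarith only [hb, this])
  have hb2a : |b2| ≤ 1 := abs_le_of_sq (by norm_num) (by have := sq_nonneg b1; linarith only [hb, this])
  have ha1a : |a1| ≤ 51 / 50 := by
    rw [ha1]; exact (abs_add_le _ _).trans (by linarith only [hh1a, hb1a])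
  have ha2a : |a2| ≤ 51 / 50 := by
    rw [ha2]; exact (abs_add_le _ _).trans (by linarith only [hh2a, hb2a])
  have hgq : 2 * m * (a1 * q1 + a2 * q2) ≤ 41 / 1000 * (η * m ^ 3) := by
    have e1 : |a1 * q1| ≤ 51 / 50 * (η * m ^ 2 / 100) := by
      rw [abs_mul]; exact mul_le_mul ha1a hq1 (abs_nonneg _) (by norm_num)
    have e2 : |a2 * q2| ≤ 51 / 50 * (η * m ^ 2 / 100) := by
      rw [abs_mul]; exact mul_le_mul ha2a hq2 (abs_nonneg _) (by norm_num)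
    have e3 : a1 * q1 + a2 * q2 ≤ 51 / 25 * (η * m ^ 2 / 100) := by
      have f1 := (abs_le.1 e1).2
      have f2 := (abs_le.1 e2).2
      linarith only [f1, f2]
    have e4 : 2 * m * (a1 * q1 + a2 * q2) ≤ 2 * m * (51 / 25 * (η * m ^ 2 / 100)) :=
      mul_le_mul_of_nonneg_left e3 (by positivity)
    have e5 : 2 * m * (51 / 25 * (η * m ^ 2 / 100)) = 102 / 2500 * (η * m ^ 3) := by ring
    linarith only [h5, e4]
  have e : 4 * m * β * (m ^ 2 * N + q) - 2 * m * (a1 * (2 * m ^ 2 * (a1 * A + a2 * B) + q1)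
        + a2 * (2 * m ^ 2 * (a1 * B + a2 * C) + q2))
      = 4 * m ^ 3 * (β * N - aMa) + 2 * m ^ 3 * η * N + 4 * m * β * q
        - 2 * m * (a1 * q1 + a2 * q2) := by
    rw [hN, haMa, hA, hC]; ring
  have e1 : 4 * m ^ 3 * (-(41 / 1000) * η) ≤ 4 * m ^ 3 * (β * N - aMa) :=
    mul_le_mul_of_nonneg_left hK (by positivity)
  have e2 : 2 * m ^ 3 * η * (24 / 25) ≤ 2 * m ^ 3 * η * N :=
    mul_le_mul_of_nonneg_left hNlow (by positivity)
  have e3 : 4 * m ^ 3 * (-(41 / 1000) * η) = -(164 / 1000) * (η * m ^ 3) := by ring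
  have e4 : 2 * m ^ 3 * η * (24 / 25) = 48 / 25 * (η * m ^ 3) := by ring
  rw [e]
  linarith only [h5, hq', hgq, e1, e2]

/-- The remaining quadratic terms. -/
private lemma rest_bound {η m v β ζ θ X : ℝ} (hη : 0 < η) (hm : 20 ≤ m)
    (hX0 : 0 ≤ X) (hη1 : η ≤ 1 / 50)
    (hβ2 : β ^ 2 ≤ η / 200) (hζ2 : ζ ^ 2 ≤ η / 200 * X) (hθ2 : θ ^ 2 ≤ η / 50 * X) :
    4 * m ^ 2 * β ^ 2 * v ^ 2 + 4 * ζ ^ 2 + 4 * m * η * (v * ζ) - 8 * m * (θ * ζ)
      ≤ 2 * m * η * X + 1 / 100 * (η * m ^ 3) * v ^ 2 := by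
  have hm0 : 0 < m := by linarith only [hη, hm]
  have hv : 0 ≤ v ^ 2 := sq_nonneg v
  have hm3 : η * m ^ 2 ≤ η * m ^ 3 / 20 := by
    have : η * m ^ 2 * 20 ≤ η * m ^ 2 * m := mul_le_mul_of_nonneg_left hm (by positivity)
    have e : η * m ^ 2 * m = η * m ^ 3 := by ring
    linarith only [this]
  have hm3v : η * m ^ 2 * v ^ 2 ≤ η * m ^ 3 / 20 * v ^ 2 := mul_le_mul_of_nonneg_right hm3 hv
  have r1 : 4 * m ^ 2 * β ^ 2 * v ^ 2 ≤ 1 / 1000 * (η * m ^ 3) * v ^ 2 := by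
    have : 4 * m ^ 2 * v ^ 2 * β ^ 2 ≤ 4 * m ^ 2 * v ^ 2 * (η / 200) :=
      mul_le_mul_of_nonneg_left hβ2 (by positivity)
    have e : 4 * m ^ 2 * v ^ 2 * (η / 200) = 1 / 50 * (η * m ^ 2 * v ^ 2) := by ring
    have e' : 4 * m ^ 2 * β ^ 2 * v ^ 2 = 4 * m ^ 2 * v ^ 2 * β ^ 2 := by ring
    linarith only [hm3v, this]
  have r2 : 4 * ζ ^ 2 ≤ η / 50 * X := by linarith only [hζ2]
  have r3 : 4 * m * η * (v * ζ) ≤ 1 / 500 * (η * m ^ 3) * v ^ 2 + η / 100 * X := by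
    have e1 : v * ζ ≤ m / 100 * v ^ 2 + 25 / m * ζ ^ 2 := by
      have e2 : m / 100 * v ^ 2 + 25 / m * ζ ^ 2 - v * ζ = (m * v - 50 * ζ) ^ 2 / (100 * m) := by
        field_simp; ring
      have : 0 ≤ (m * v - 50 * ζ) ^ 2 / (100 * m) := by positivity
      linarith only [e2, this]
    have e3 : 4 * m * η * (v * ζ) ≤ 4 * m * η * (m / 100 * v ^ 2 + 25 / m * ζ ^ 2) :=
      mul_le_mul_of_nonneg_left e1 (by positivity)
    have e4 : 4 * m * η * (m / 100 * v ^ 2 + 25 / m * ζ ^ 2)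
        = 1 / 25 * (η * m ^ 2 * v ^ 2) + 100 * η * ζ ^ 2 := by
      field_simp; ring
    have e6 : 100 * η * ζ ^ 2 ≤ η / 100 * X := by
      have h8 : 100 * η * ζ ^ 2 ≤ 100 * η * (η / 200 * X) :=
        mul_le_mul_of_nonneg_left hζ2 (by positivity)
      have h9 : η * X * η ≤ η * X * (1 / 50) :=
        mul_le_mul_of_nonneg_left hη1 (by positivity)
      have e7 : 100 * η * (η / 200 * X) = 1 / 2 * (η * X * η) := by ring
      linarith only [h8, h9]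
    linarith only [hm3v, e3, e4, e6]
  have r4 : -(8 * m * (θ * ζ)) ≤ 8 * m * (η / 100 * X) := by
    have e1 : -(θ * ζ) ≤ η / 100 * X := by
      have := sq_nonneg (θ / 2 + ζ)
      have e2 : (θ / 2 + ζ) ^ 2 = θ ^ 2 / 4 + θ * ζ + ζ ^ 2 := by ring
      linarith only [hζ2, hθ2, this]
    have := mul_le_mul_of_nonneg_left e1 (by positivity : 0 ≤ 8 * m)
    linarith only [this]
  have hXη : 20 * (η * X) ≤ m * (η * X) := mul_le_mul_of_nonneg_right hm (by positivity)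
  have e8 : 8 * m * (η / 100 * X) = 8 / 100 * (m * (η * X)) := by ring
  have e9 : 2 * m * η * X = 2 * (m * (η * X)) := by ring
  have e10 : 0 ≤ η * m ^ 3 * v ^ 2 := by positivity
  have e11 : 0 ≤ m * (η * X) := by positivity
  linarith only [hζ2, r1, r3, r4, hXη, e10, e11]

/-- The pointwise inequality behind the Carleman estimate. -/
private lemma pointwise {x y v v1 v2 v11 v22 q q1 q2 b1 b2 A B C η m : ℝ}
    (hb : b1 ^ 2 + b2 ^ 2 = 1) (htr : A + C = -η) (hη : 0 < η)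
    (hM : A ^ 2 + 2 * B ^ 2 + C ^ 2 ≤ η / 100) (hm : 20 ≤ m) (hx : |x| ≤ 1) (hy : |y| ≤ 1)
    (hq : (A ^ 2 + 2 * B ^ 2 + C ^ 2) * q ^ 2 ≤ (η * m ^ 2 / 100) ^ 2)
    (hq1 : |q1| ≤ η * m ^ 2 / 100) (hq2 : |q2| ≤ η * m ^ 2 / 100)
    {a1 a2 Q Q1 Q2 S T β : ℝ} (ha1 : a1 = b1 + A * x + B * y) (ha2 : a2 = b2 + B * x + C * y)
    (hQ : Q = m ^ 2 * (a1 ^ 2 + a2 ^ 2) + q)
    (hQ1 : Q1 = 2 * m ^ 2 * (a1 * A + a2 * B) + q1)
    (hQ2 : Q2 = 2 * m ^ 2 * (a1 * B + a2 * C) + q2)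
    (hS : S = v11 + v22 + Q * v) (hT : T = 2 * m * (a1 * v1 + a2 * v2) + m * (A + C) * v)
    (hβ : β = (A - C) / 2 * (b1 ^ 2 - b2 ^ 2) + 2 * B * b1 * b2) :
    (2 * S * T + 4 * m * (A * v1 ^ 2 + 2 * B * v1 * v2 + C * v2 ^ 2)
        + 2 * m * (a1 * Q1 + a2 * Q2) * v ^ 2)
      + 4 * m * β * (v1 ^ 2 + v2 ^ 2 + v * (v11 + v22)) + η * m ^ 3 / 4 * v ^ 2
      ≤ (S + T) ^ 2 := by
  have hm0 : 0 < m := by linarith only [hm]
  have hη1 : η ≤ 1 / 50 := eta_le htr hη hM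
  obtain ⟨hν, hh⟩ := aux_bounds hη hM hx hy
  have hA : A = (A - C) / 2 - η / 2 := by linarith only [htr]
  have hC : C = -((A - C) / 2) - η / 2 := by linarith only [htr]
  have hc : ((A - C) / 2 * b1 + B * b2) ^ 2 + (B * b1 - (A - C) / 2 * b2) ^ 2 ≤ η / 200 := by
    have e : ((A - C) / 2 * b1 + B * b2) ^ 2 + (B * b1 - (A - C) / 2 * b2) ^ 2
        = (((A - C) / 2) ^ 2 + B ^ 2) * (b1 ^ 2 + b2 ^ 2) := by ring
    rw [e, hb]; linarith only [hν]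
  have hβ' : β = b1 * ((A - C) / 2 * b1 + B * b2) + b2 * (B * b1 - (A - C) / 2 * b2) := by
    rw [hβ]; ring
  have hβ2 : β ^ 2 ≤ η / 200 := by
    have := cs2 b1 b2 ((A - C) / 2 * b1 + B * b2) (B * b1 - (A - C) / 2 * b2)
    rw [hb] at this; rw [hβ']; linarith only [hc, this]
  have hβabs : |β| ≤ 1 / 100 := abs_le_of_sq (by norm_num) (by linarith only [hη1, hβ2])
  have hbh2 : (b1 * (A * x + B * y) + b2 * (B * x + C * y)) ^ 2 ≤ η / 50 := by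
    have := cs2 b1 b2 (A * x + B * y) (B * x + C * y)
    rw [hb] at this; linarith only [hh, this]
  have hbhabs : |b1 * (A * x + B * y) + b2 * (B * x + C * y)| ≤ 1 / 50 :=
    abs_le_of_sq (by norm_num) (by linarith only [hη1, hbh2])
  have hK := K_bound hb hη hη1 hν hh rfl rfl hc hβ' hβ2 hβabs rfl hbh2
  have ha1' : a1 = b1 + (A * x + B * y) := by rw [ha1]; ring
  have ha2' : a2 = b2 + (B * x + C * y) := by rw [ha2]; ring
  rw [← ha1', ← ha2'] at hK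
  have hNlow : 24 / 25 ≤ a1 ^ 2 + a2 ^ 2 := by
    have h3 := (abs_le.1 hbhabs).1
    have e : a1 ^ 2 + a2 ^ 2 = 1 + 2 * (b1 * (A * x + B * y) + b2 * (B * x + C * y))
        + ((A * x + B * y) ^ 2 + (B * x + C * y) ^ 2) := by
      rw [ha1', ha2']; linear_combination hb
    have h4 : 0 ≤ (A * x + B * y) ^ 2 + (B * x + C * y) ^ 2 := by positivity
    linarith only [h3, e, h4]
  have hβq : |β * q| ≤ 71 / 10000 * (η * m ^ 2) := by
    apply abs_le_of_sq (by positivity)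
    have f1 : β ^ 2 ≤ (A ^ 2 + 2 * B ^ 2 + C ^ 2) / 2 := by
      have g1 := cs2 b1 b2 ((A - C) / 2 * b1 + B * b2) (B * b1 - (A - C) / 2 * b2)
      rw [hb, ← hβ', one_mul] at g1
      have g2 : ((A - C) / 2 * b1 + B * b2) ^ 2 + (B * b1 - (A - C) / 2 * b2) ^ 2
          = (((A - C) / 2) ^ 2 + B ^ 2) * (b1 ^ 2 + b2 ^ 2) := by ring
      rw [g2, hb, mul_one] at g1
      have g3 : A ^ 2 + 2 * B ^ 2 + C ^ 2
          = 2 * (((A - C) / 2) ^ 2 + B ^ 2) + (A + C) ^ 2 / 2 := by ring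
      have g4 := sq_nonneg (A + C)
      linarith only [g1, g4]
    have f2 : β ^ 2 * q ^ 2 ≤ (A ^ 2 + 2 * B ^ 2 + C ^ 2) / 2 * q ^ 2 :=
      mul_le_mul_of_nonneg_right f1 (sq_nonneg q)
    have f3 : (β * q) ^ 2 = β ^ 2 * q ^ 2 := by ring
    have f4 : (A ^ 2 + 2 * B ^ 2 + C ^ 2) / 2 * q ^ 2
        = (A ^ 2 + 2 * B ^ 2 + C ^ 2) * q ^ 2 / 2 := by ring
    have f5 : (71 / 10000 * (η * m ^ 2)) ^ 2 = 5041 / 100000000 * (η * m ^ 2) ^ 2 := by ring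
    have f6 : (η * m ^ 2 / 100) ^ 2 = 1 / 10000 * (η * m ^ 2) ^ 2 := by ring
    have f7 : 0 ≤ (η * m ^ 2) ^ 2 := sq_nonneg _
    rw [f3, f5]
    rw [f6] at hq
    linarith only [hq, f2, f7]
  have hcoef := coef_bound (q := q) (q1 := q1) (q2 := q2) hη hm hη1 hb hA hC ha1' ha2' hh rfl rfl
    hK hNlow hβq hq1 hq2
  rw [← hQ, ← hQ1, ← hQ2] at hcoef
  have hX0 : 0 ≤ v1 ^ 2 + v2 ^ 2 := by positivity
  have hζ2 : (v1 * ((A - C) / 2 * b1 + B * b2) + v2 * (B * b1 - (A - C) / 2 * b2)) ^ 2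
      ≤ η / 200 * (v1 ^ 2 + v2 ^ 2) := by
    have := cs2 v1 v2 ((A - C) / 2 * b1 + B * b2) (B * b1 - (A - C) / 2 * b2)
    have e := mul_le_mul_of_nonneg_left hc hX0
    linarith only [this, e]
  have hθ2 : ((A * x + B * y) * v1 + (B * x + C * y) * v2) ^ 2 ≤ η / 50 * (v1 ^ 2 + v2 ^ 2) :=
    (cs2 _ _ _ _).trans (mul_le_mul_of_nonneg_right hh hX0)
  have hrest := rest_bound (v := v) hη hm hX0 hη1 hβ2 hζ2 hθ2
  have key : (S + T) ^ 2 - ((2 * S * T + 4 * m * (A * v1 ^ 2 + 2 * B * v1 * v2 + C * v2 ^ 2)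
        + 2 * m * (a1 * Q1 + a2 * Q2) * v ^ 2)
      + 4 * m * β * (v1 ^ 2 + v2 ^ 2 + v * (v11 + v22)) + η * m ^ 3 / 4 * v ^ 2)
      = (S - 2 * m * β * v) ^ 2 +
        (T - 2 * (v1 * ((A - C) / 2 * b1 + B * b2) + v2 * (B * b1 - (A - C) / 2 * b2))) ^ 2
        - (4 * m ^ 2 * β ^ 2 * v ^ 2
        + 4 * (v1 * ((A - C) / 2 * b1 + B * b2) + v2 * (B * b1 - (A - C) / 2 * b2)) ^ 2
        + 4 * m * η * (v * (v1 * ((A - C) / 2 * b1 + B * b2) + v2 * (B * b1 - (A - C) / 2 * b2)))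
        - 8 * m * (((A * x + B * y) * v1 + (B * x + C * y) * v2)
          * (v1 * ((A - C) / 2 * b1 + B * b2) + v2 * (B * b1 - (A - C) / 2 * b2))))
        + 2 * m * η * (v1 ^ 2 + v2 ^ 2)
        + (4 * m * β * Q - 2 * m * (a1 * Q1 + a2 * Q2) - η * m ^ 3 / 4) * v ^ 2 := by
    have hS' : v11 + v22 = S - Q * v := by rw [hS]; ring
    have hη' : η = -(A + C) := by linarith only [htr]
    rw [hS', hβ, hT, ha1', ha2', hη']
    linear_combination (4 * m * ((A - C) * v1 ^ 2 / 2 - (A - C) * v2 ^ 2 / 2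
      + 2 * B * v1 * v2)) * hb
  have h5 : 0 < η * m ^ 3 := by positivity
  have hcv : (3 / 2 * (η * m ^ 3) - η * m ^ 3 / 4) * v ^ 2
      ≤ (4 * m * β * Q - 2 * m * (a1 * Q1 + a2 * Q2) - η * m ^ 3 / 4) * v ^ 2 :=
    mul_le_mul_of_nonneg_right (by linarith only [hcoef]) (sq_nonneg v)
  have hv2 : 0 ≤ η * m ^ 3 * v ^ 2 := by positivity
  have s1 := sq_nonneg (S - 2 * m * β * v)
  have s2 := sq_nonneg
    (T - 2 * (v1 * ((A - C) / 2 * b1 + B * b2) + v2 * (B * b1 - (A - C) / 2 * b2)))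
  linarith only [hrest, key, hcv, hv2, s1, s2]


/-! ### Calculus -/

/-- `f` is differentiable at `p` with first derivatives `f1`, `f2`. -/
private structure HD (f : ℝ × ℝ → ℝ) (f1 f2 : ℝ) (p : ℝ × ℝ) : Prop where
  diff : DifferentiableAt ℝ f p
  e1 : d1 f p = f1
  e2 : d2 f p = f2

private lemma HD.add {f g : ℝ × ℝ → ℝ} {f1 f2 g1 g2 : ℝ} {p : ℝ × ℝ} (hf : HD f f1 f2 p)
    (hg : HD g g1 g2 p) : HD (fun x => f x + g x) (f1 + g1) (f2 + g2) p where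
  diff := hf.diff.add hg.diff
  e1 := by rw [d1_add hf.diff hg.diff, hf.e1, hg.e1]
  e2 := by rw [d2_add hf.diff hg.diff, hf.e2, hg.e2]

private lemma HD.mul {f g : ℝ × ℝ → ℝ} {f1 f2 g1 g2 : ℝ} {p : ℝ × ℝ} (hf : HD f f1 f2 p)
    (hg : HD g g1 g2 p) :
    HD (fun x => f x * g x) (f1 * g p + f p * g1) (f2 * g p + f p * g2) p where
  diff := hf.diff.mul hg.diff
  e1 := by rw [d1_mul hf.diff hg.diff, hf.e1, hg.e1]
  e2 := by rw [d2_mul hf.diff hg.diff, hf.e2, hg.e2]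

private lemma HD.const (c : ℝ) (p : ℝ × ℝ) : HD (fun _ => c) 0 0 p :=
  ⟨by fun_prop, d1_const c p, d2_const c p⟩

private lemma HD.fst (p : ℝ × ℝ) : HD (fun x => x.1) 1 0 p :=
  ⟨by fun_prop, d1_fst p, d2_fst p⟩

private lemma HD.snd (p : ℝ × ℝ) : HD (fun x => x.2) 0 1 p :=
  ⟨by fun_prop, d1_snd p, d2_snd p⟩

private lemma HD.of {f : ℝ × ℝ → ℝ} (hf : Smooth f) (p : ℝ × ℝ) : HD f (d1 f p) (d2 f p) p :=
  ⟨hf.differentiable p, rfl, rfl⟩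

private lemma d2_d1 {v : ℝ × ℝ → ℝ} (hv : Smooth v) (p : ℝ × ℝ) :
    d1 (d2 v) p = d2 (d1 v) p := by
  have hsym : IsSymmSndFDerivAt ℝ v p := by
    apply ContDiffAt.isSymmSndFDerivAt (n := (⊤ : ℕ∞)) hv.contDiffAt
    simp only [minSmoothness_of_isRCLikeNormedField]
    have : ((2 : ℕ∞) : WithTop ℕ∞) ≤ ((⊤ : ℕ∞) : WithTop ℕ∞) := WithTop.coe_le_coe.2 le_top
    exact this
  have hd : DifferentiableAt ℝ (fderiv ℝ v) p := by
    have h1 : ContDiff ℝ (⊤ : ℕ∞) (fderiv ℝ v) := ContDiff.fderiv_right hv (by simp)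
    exact (h1.differentiable (by simp)) p
  have e : ∀ w w' : ℝ × ℝ, fderiv ℝ (fun x => fderiv ℝ v x w) p w'
      = fderiv ℝ (fderiv ℝ v) p w' w := by
    intro w w'
    have h2 := (ContinuousLinearMap.hasFDerivAt (ContinuousLinearMap.apply ℝ ℝ w)).comp p
      hd.hasFDerivAt
    have h3 : fderiv ℝ (fun x => fderiv ℝ v x w) p
        = (ContinuousLinearMap.apply ℝ ℝ w).comp (fderiv ℝ (fderiv ℝ v) p) := h2.fderiv
    rw [h3]
    rfl
  show fderiv ℝ (fun x => fderiv ℝ v x (0, 1)) p (1, 0)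
    = fderiv ℝ (fun x => fderiv ℝ v x (1, 0)) p (0, 1)
  rw [e, e]
  exact hsym _ _

/-- The vector field whose divergence is subtracted. -/
private noncomputable def Z (b1 b2 A B C m β : ℝ) (e1 e2 : ℝ) (q v w : ℝ × ℝ → ℝ)
    (p : ℝ × ℝ) : ℝ :=
  4 * m * (((b1 + A * p.1 + B * p.2) * d1 v p + (b2 + B * p.1 + C * p.2) * d2 v p) * w p) +
  (-2 * m * ((e1 * (b1 + A * p.1 + B * p.2) + e2 * (b2 + B * p.1 + C * p.2)) *
      (d1 v p * d1 v p + d2 v p * d2 v p)) +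
  (2 * m * (A + C) * (v p * w p) +
  (2 * m * ((m ^ 2 * ((b1 + A * p.1 + B * p.2) * (b1 + A * p.1 + B * p.2)
        + (b2 + B * p.1 + C * p.2) * (b2 + B * p.1 + C * p.2)) + q p) *
      ((e1 * (b1 + A * p.1 + B * p.2) + e2 * (b2 + B * p.1 + C * p.2)) * (v p * v p))) +
  4 * m * β * (v p * w p))))

private lemma HD_Z {b1 b2 A B C m β e1 e2 : ℝ} {q v w : ℝ × ℝ → ℝ} (hq : Smooth q)
    (hv : Smooth v) (hw : Smooth w) (p : ℝ × ℝ) :
    ∃ z1 z2, HD (Z b1 b2 A B C m β e1 e2 q v w) z1 z2 p ∧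
    z1 = 4 * m * ((A * d1 v p + (b1 + A * p.1 + B * p.2) * d1 (d1 v) p
        + (B * d2 v p + (b2 + B * p.1 + C * p.2) * d1 (d2 v) p)) * w p
        + ((b1 + A * p.1 + B * p.2) * d1 v p + (b2 + B * p.1 + C * p.2) * d2 v p) * d1 w p)
      - 2 * m * ((e1 * A + e2 * B) * (d1 v p ^ 2 + d2 v p ^ 2)
        + (e1 * (b1 + A * p.1 + B * p.2) + e2 * (b2 + B * p.1 + C * p.2)) *
          (2 * d1 v p * d1 (d1 v) p + 2 * d2 v p * d1 (d2 v) p))
      + 2 * m * (A + C) * (d1 v p * w p + v p * d1 w p)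
      + 2 * m * ((m ^ 2 * (2 * (b1 + A * p.1 + B * p.2) * A
          + 2 * (b2 + B * p.1 + C * p.2) * B) + d1 q p) *
          ((e1 * (b1 + A * p.1 + B * p.2) + e2 * (b2 + B * p.1 + C * p.2)) * v p ^ 2)
        + (m ^ 2 * ((b1 + A * p.1 + B * p.2) ^ 2 + (b2 + B * p.1 + C * p.2) ^ 2) + q p) *
          ((e1 * A + e2 * B) * v p ^ 2
          + (e1 * (b1 + A * p.1 + B * p.2) + e2 * (b2 + B * p.1 + C * p.2)) *
            (2 * v p * d1 v p)))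
      + 4 * m * β * (d1 v p * w p + v p * d1 w p) ∧
    z2 = 4 * m * ((B * d1 v p + (b1 + A * p.1 + B * p.2) * d2 (d1 v) p
        + (C * d2 v p + (b2 + B * p.1 + C * p.2) * d2 (d2 v) p)) * w p
        + ((b1 + A * p.1 + B * p.2) * d1 v p + (b2 + B * p.1 + C * p.2) * d2 v p) * d2 w p)
      - 2 * m * ((e1 * B + e2 * C) * (d1 v p ^ 2 + d2 v p ^ 2)
        + (e1 * (b1 + A * p.1 + B * p.2) + e2 * (b2 + B * p.1 + C * p.2)) *
          (2 * d1 v p * d2 (d1 v) p + 2 * d2 v p * d2 (d2 v) p))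
      + 2 * m * (A + C) * (d2 v p * w p + v p * d2 w p)
      + 2 * m * ((m ^ 2 * (2 * (b1 + A * p.1 + B * p.2) * B
          + 2 * (b2 + B * p.1 + C * p.2) * C) + d2 q p) *
          ((e1 * (b1 + A * p.1 + B * p.2) + e2 * (b2 + B * p.1 + C * p.2)) * v p ^ 2)
        + (m ^ 2 * ((b1 + A * p.1 + B * p.2) ^ 2 + (b2 + B * p.1 + C * p.2) ^ 2) + q p) *
          ((e1 * B + e2 * C) * v p ^ 2
          + (e1 * (b1 + A * p.1 + B * p.2) + e2 * (b2 + B * p.1 + C * p.2)) *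
            (2 * v p * d2 v p)))
      + 4 * m * β * (d2 v p * w p + v p * d2 w p) := by
  have ha1 : HD (fun x : ℝ × ℝ => b1 + A * x.1 + B * x.2) _ _ p :=
    ((HD.const b1 p).add ((HD.const A p).mul (HD.fst p))).add ((HD.const B p).mul (HD.snd p))
  have ha2 : HD (fun x : ℝ × ℝ => b2 + B * x.1 + C * x.2) _ _ p :=
    ((HD.const b2 p).add ((HD.const B p).mul (HD.fst p))).add ((HD.const C p).mul (HD.snd p))
  have hv0 := HD.of hv p
  have hv1 := HD.of hv.d1 p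
  have hv2 := HD.of hv.d2 p
  have hq0 := HD.of hq p
  have hw0 := HD.of hw p
  have he := ((HD.const e1 p).mul ha1).add ((HD.const e2 p).mul ha2)
  have t1 := (HD.const (4 * m) p).mul (((ha1.mul hv1).add (ha2.mul hv2)).mul hw0)
  have t2 := (HD.const (-2 * m) p).mul (he.mul ((hv1.mul hv1).add (hv2.mul hv2)))
  have t3 := (HD.const (2 * m * (A + C)) p).mul (hv0.mul hw0)
  have t4 := (HD.const (2 * m) p).mul ((((HD.const (m ^ 2) p).mul
    ((ha1.mul ha1).add (ha2.mul ha2))).add hq0).mul (he.mul (hv0.mul hv0)))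
  have t5 := (HD.const (4 * m * β) p).mul (hv0.mul hw0)
  refine ⟨_, _, t1.add (t2.add (t3.add (t4.add t5))), ?_, ?_⟩
  · ring
  · ring

private lemma Z_smooth {b1 b2 A B C m β e1 e2 : ℝ} {q v w : ℝ × ℝ → ℝ} (hq : Smooth q)
    (hv : Smooth v) (hw : Smooth w) : Smooth (Z b1 b2 A B C m β e1 e2 q v w) := by
  have h1 : ContDiff ℝ (⊤ : ℕ∞) (d1 v) := hv.d1
  have h2 : ContDiff ℝ (⊤ : ℕ∞) (d2 v) := hv.d2
  unfold Smooth at *
  unfold Z
  fun_prop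

/-- The integral of a divergence of a smooth field vanishing outside the unit square. -/
private lemma integral_dir_zero {F : ℝ × ℝ → ℝ} (hF : Smooth F)
    (h0 : ∀ p, p ∉ closedBall (0 : ℝ × ℝ) 1 → F p = 0) (w : ℝ × ℝ) :
    ∫ p, fderiv ℝ F p w = 0 := by
  have hc : HasCompactSupport F := HasCompactSupport.intro (isCompact_closedBall _ _) h0
  have hcont : Continuous F := hF.continuous
  have hc' : HasCompactSupport (fun p => fderiv ℝ F p w) := hc.fderiv_apply (𝕜 := ℝ) w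
  have hcont' : Continuous (fun p => fderiv ℝ F p w) := by
    have h1 : ContDiff ℝ (⊤ : ℕ∞) (fderiv ℝ F) := ContDiff.fderiv_right hF (by simp)
    exact (h1.clm_apply contDiff_const).continuous
  have key := integral_mul_fderiv_eq_neg_fderiv_mul_of_integrable (μ := (volume : Measure (ℝ × ℝ)))
    (f := fun _ : ℝ × ℝ => (1 : ℝ)) (g := F) (v := w) (by simp)
    (by simpa using hcont'.integrable_of_hasCompactSupport hc')
    (by simpa using hcont.integrable_of_hasCompactSupport hc)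
    (fun x _ => by fun_prop) (fun x _ => hF.differentiable x)
  simpa using key

private lemma dir_zero_off {f : ℝ × ℝ → ℝ} (h0 : ∀ p, p ∉ closedBall (0 : ℝ × ℝ) 1 → f p = 0)
    {p : ℝ × ℝ} (hp : p ∉ closedBall (0 : ℝ × ℝ) 1) (w : ℝ × ℝ) : fderiv ℝ f p w = 0 := by
  have : f =ᶠ[nhds p] fun _ => 0 := by
    filter_upwards [isClosed_closedBall.isOpen_compl.mem_nhds hp] with x hx using h0 x hx
  rw [this.fderiv_eq]
  simp

private lemma conjOp_smooth {b1 b2 A B C m : ℝ} {q v : ℝ × ℝ → ℝ} (hq : Smooth q)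
    (hv : Smooth v) : Smooth (conjOp b1 b2 A B C m q v) := by
  have h1 : ContDiff ℝ (⊤ : ℕ∞) (d1 v) := hv.d1
  have h2 : ContDiff ℝ (⊤ : ℕ∞) (d2 v) := hv.d2
  have h3 : ContDiff ℝ (⊤ : ℕ∞) (lap v) := hv.lap
  unfold Smooth at *
  unfold conjOp
  fun_prop

end CarlX

open CarlX in
theorem carleman2 {b1 b2 A B C η m : ℝ} {q v : ℝ × ℝ → ℝ} (hq : Smooth q) (hv : Smooth v)
    (hvc : HasCompactSupport v) (hsupp : ∀ p, v p ≠ 0 → p ∈ closedBall (0 : ℝ × ℝ) 1)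
    (hb : b1 ^ 2 + b2 ^ 2 = 1) (htr : A + C = -η) (hη : 0 < η)
    (hM : A ^ 2 + 2 * B ^ 2 + C ^ 2 ≤ η / 100) (hm : 20 ≤ m)
    (hq0 : ∀ p ∈ closedBall (0 : ℝ × ℝ) 1,
      (A ^ 2 + 2 * B ^ 2 + C ^ 2) * (q p) ^ 2 ≤ (η * m ^ 2 / 100) ^ 2 ∧
      |d1 q p| ≤ η * m ^ 2 / 100 ∧ |d2 q p| ≤ η * m ^ 2 / 100) :
    η * m ^ 3 / 4 * ∫ p, (v p) ^ 2 ≤ ∫ p, (conjOp b1 b2 A B C m q v p) ^ 2 := by
  have hv0 : ∀ p, p ∉ closedBall (0 : ℝ × ℝ) 1 → v p = 0 := fun p hp => by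
    by_contra h; exact hp (hsupp p h)
  have hv1 : ∀ p, p ∉ closedBall (0 : ℝ × ℝ) 1 → d1 v p = 0 := fun p hp =>
    dir_zero_off hv0 hp _
  have hv2 : ∀ p, p ∉ closedBall (0 : ℝ × ℝ) 1 → d2 v p = 0 := fun p hp =>
    dir_zero_off hv0 hp _
  have hl : ∀ p, p ∉ closedBall (0 : ℝ × ℝ) 1 → lap v p = 0 := fun p hp => by
    show fderiv ℝ (d1 v) p (1, 0) + fderiv ℝ (d2 v) p (0, 1) = 0
    rw [dir_zero_off hv1 hp, dir_zero_off hv2 hp, add_zero]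
  set β : ℝ := (A - C) / 2 * (b1 ^ 2 - b2 ^ 2) + 2 * B * b1 * b2 with hβ
  set Z1 : ℝ × ℝ → ℝ := Z b1 b2 A B C m β 1 0 q v (d1 v) with hZ1
  set Z2 : ℝ × ℝ → ℝ := Z b1 b2 A B C m β 0 1 q v (d2 v) with hZ2
  have hZ1s : Smooth Z1 := Z_smooth hq hv hv.d1
  have hZ2s : Smooth Z2 := Z_smooth hq hv hv.d2
  have hZ10 : ∀ p, p ∉ closedBall (0 : ℝ × ℝ) 1 → Z1 p = 0 := fun p hp => by
    simp [hZ1, Z, hv0 p hp, hv1 p hp, hv2 p hp]
  have hZ20 : ∀ p, p ∉ closedBall (0 : ℝ × ℝ) 1 → Z2 p = 0 := fun p hp => by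
    simp [hZ2, Z, hv0 p hp, hv1 p hp, hv2 p hp]
  have hi1 : ∫ p, d1 Z1 p = 0 := integral_dir_zero hZ1s hZ10 _
  have hi2 : ∫ p, d2 Z2 p = 0 := integral_dir_zero hZ2s hZ20 _
  -- the pointwise inequality
  have hpt : ∀ p, d1 Z1 p + d2 Z2 p + η * m ^ 3 / 4 * (v p) ^ 2
      ≤ (conjOp b1 b2 A B C m q v p) ^ 2 := by
    intro p
    by_cases hp : p ∈ closedBall (0 : ℝ × ℝ) 1
    · have hx : |p.1| ≤ 1 ∧ |p.2| ≤ 1 := by
        rw [mem_closedBall, dist_zero_right, Prod.norm_def, max_le_iff, Real.norm_eq_abs,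
          Real.norm_eq_abs] at hp
        exact hp
      obtain ⟨hqa, hqb, hqc⟩ := hq0 p hp
      obtain ⟨z1, z2, hz, hz1, -⟩ := HD_Z (b1 := b1) (b2 := b2) (A := A) (B := B) (C := C)
        (m := m) (β := β) (e1 := 1) (e2 := 0) hq hv hv.d1 p
      obtain ⟨y1, y2, hy, -, hy2⟩ := HD_Z (b1 := b1) (b2 := b2) (A := A) (B := B) (C := C)
        (m := m) (β := β) (e1 := 0) (e2 := 1) hq hv hv.d2 p
      have hd1 : d1 Z1 p = z1 := hz.e1
      have hd2 : d2 Z2 p = y2 := hy.e2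
      have h12 := d2_d1 hv p
      have := pointwise (x := p.1) (y := p.2) (v := v p) (v1 := d1 v p) (v2 := d2 v p)
        (v11 := d1 (d1 v) p) (v22 := d2 (d2 v) p) (q := q p) (q1 := d1 q p) (q2 := d2 q p)
        (b1 := b1) (b2 := b2) hb htr hη hM hm hx.1 hx.2 hqa hqb hqc rfl rfl rfl rfl rfl rfl rfl hβ
      have e1 : (conjOp b1 b2 A B C m q v p) = (d1 (d1 v) p + d2 (d2 v) p +
          (m ^ 2 * ((b1 + A * p.1 + B * p.2) ^ 2 + (b2 + B * p.1 + C * p.2) ^ 2) + q p) * v p) +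
          (2 * m * ((b1 + A * p.1 + B * p.2) * d1 v p + (b2 + B * p.1 + C * p.2) * d2 v p)
            + m * (A + C) * v p) := by
        unfold conjOp lap
        ring
      rw [e1]
      refine le_trans (le_of_eq ?_) this
      rw [hd1, hd2, hz1, hy2, h12]
      ring
    · have e1 : d1 Z1 p = 0 := dir_zero_off hZ10 hp _
      have e2 : d2 Z2 p = 0 := dir_zero_off hZ20 hp _
      rw [e1, e2, hv0 p hp]
      simp only [ne_eq, OfNat.ofNat_ne_zero, not_false_eq_true, zero_pow, mul_zero, add_zero]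
      positivity
  -- integrability
  have ibl : ∀ f : ℝ × ℝ → ℝ, Continuous f → (∀ p, p ∉ closedBall (0 : ℝ × ℝ) 1 → f p = 0) →
      Integrable f := fun f hf h0 =>
    hf.integrable_of_hasCompactSupport (HasCompactSupport.intro (isCompact_closedBall _ _) h0)
  have hI1 : Integrable (fun p => d1 Z1 p) := ibl _ hZ1s.d1.continuous fun p hp =>
    dir_zero_off hZ10 hp _
  have hI2 : Integrable (fun p => d2 Z2 p) := ibl _ hZ2s.d2.continuous fun p hp =>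
    dir_zero_off hZ20 hp _
  have hI3 : Integrable (fun p => η * m ^ 3 / 4 * (v p) ^ 2) :=
    (ibl (fun p => (v p) ^ 2) (hv.continuous.pow 2) fun p hp => by
      simp [hv0 p hp]).const_mul _
  have hI4 : Integrable (fun p => (conjOp b1 b2 A B C m q v p) ^ 2) :=
    ibl (fun p => (conjOp b1 b2 A B C m q v p) ^ 2) ((conjOp_smooth hq hv).continuous.pow 2)
      fun p hp => by
      simp [conjOp, hv0 p hp, hv1 p hp, hv2 p hp, hl p hp]
  have hI12 : Integrable (fun p => d1 Z1 p + d2 Z2 p) := hI1.add hI2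
  have hI123 : Integrable (fun p => d1 Z1 p + d2 Z2 p + η * m ^ 3 / 4 * (v p) ^ 2) :=
    hI12.add hI3
  have hmono := integral_mono hI123 hI4 hpt
  have e : ∫ p, (d1 Z1 p + d2 Z2 p + η * m ^ 3 / 4 * (v p) ^ 2)
      = η * m ^ 3 / 4 * ∫ p, (v p) ^ 2 := by
    rw [integral_add hI12 hI3, integral_add hI1 hI2, hi1, hi2, integral_const_mul]
    ring
  calc η * m ^ 3 / 4 * ∫ p, (v p) ^ 2
      = ∫ p, (d1 Z1 p + d2 Z2 p + η * m ^ 3 / 4 * (v p) ^ 2) := e.symm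
    _ ≤ _ := hmono

end Pool.Agent.H5.Yau
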