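import Pool.Agent.H5.Yau.Structure

set_option autoImplicit false

/-!
# Affine majorants at a smaller scale
-/

namespace Pool.Agent.H5.Yau

open MeasureTheory Set Metric Pool.Agent.H24.Near

namespace ChildX

lemma vol_sq (c : ℝ × ℝ) {ρ : ℝ} (hρ : 0 ≤ ρ) :
    (volume : Measure (ℝ × ℝ)).real (closedBall c ρ) = (2 * ρ) ^ 2 := by
  obtain ⟨a, b⟩ := c
  rw [← closedBall_prod_same, measureReal_def, Measure.volume_eq_prod, Measure.prod_prod,
    Real.volume_closedBall, Real.volume_closedBall, ENNReal.toReal_mul,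
    ENNReal.toReal_ofReal (by positivity)]
  ring

lemma integrableOn_ball {f : ℝ × ℝ → ℝ} (hf : Continuous f) (c : ℝ × ℝ) (r : ℝ) :
    IntegrableOn f (closedBall c r) :=
  hf.continuousOn.integrableOn_compact (isCompact_closedBall c r)

lemma mono_ball {f : ℝ × ℝ → ℝ} (hf : Continuous f) (h0 : ∀ z, 0 ≤ f z) {c c' : ℝ × ℝ} {r r' : ℝ}
    (h : closedBall c r ⊆ closedBall c' r') :
    ∫ z in closedBall c r, f z ≤ ∫ z in closedBall c' r', f z :=
  setIntegral_mono_set (integrableOn_ball hf c' r') (Filter.Eventually.of_forall h0)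
    h.eventuallyLE

/-- Integrals over translated squares. -/
lemma integral_translate (F : ℝ × ℝ → ℝ) (x : ℝ × ℝ) (r : ℝ) :
    ∫ z in closedBall x r, F z = ∫ ζ in closedBall (0 : ℝ × ℝ) r, F (x + ζ) := by
  rw [← integral_indicator measurableSet_closedBall, ← integral_indicator measurableSet_closedBall,
    ← integral_add_left_eq_self _ x]
  congr 1
  funext ζ
  by_cases h : ζ ∈ closedBall (0 : ℝ × ℝ) r
  · rw [indicator_of_mem h, indicator_of_mem]
    rw [mem_closedBall] at h ⊢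
    simpa using h
  · rw [indicator_of_notMem h, indicator_of_notMem]
    intro h1
    apply h
    rw [mem_closedBall] at h1 ⊢
    simpa using h1

/-- The mean value of an affine function over a square is its value at the centre. -/
lemma integral_aff (c : ℝ) (g w : ℝ × ℝ) {ρ : ℝ} (hρ : 0 ≤ ρ) :
    ∫ z in closedBall w ρ, aff c g z = (2 * ρ) ^ 2 * aff c g w := by
  have h1 : ∫ z in closedBall w ρ, (aff c g z - aff c g w) = 0 := by
    rw [integral_translate, ← integral_indicator measurableSet_closedBall]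
    set f : ℝ × ℝ → ℝ := (closedBall (0 : ℝ × ℝ) ρ).indicator
      fun ζ => aff c g (w + ζ) - aff c g w with hf
    have h2 : ∀ ζ, f (0 - ζ) = - f ζ := by
      intro ζ
      rw [zero_sub]
      by_cases h : ζ ∈ closedBall (0 : ℝ × ℝ) ρ
      · rw [hf, indicator_of_mem h, indicator_of_mem]
        · simp only [aff, Prod.fst_add, Prod.snd_add, Prod.fst_neg, Prod.snd_neg]
          ring
        · rw [mem_closedBall_zero_iff] at h ⊢
          rwa [norm_neg]
      · rw [hf, indicator_of_notMem h, indicator_of_notMem, neg_zero]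
        intro h3
        apply h
        rw [mem_closedBall_zero_iff] at h3 ⊢
        rwa [norm_neg] at h3
    have h3 := integral_sub_left_eq_self f (volume : Measure (ℝ × ℝ)) 0
    rw [integral_congr_ae (Filter.Eventually.of_forall h2), integral_neg] at h3
    linarith only [h3]
  rw [integral_sub (integrableOn_ball (continuous_aff c g) w ρ)
    (integrableOn_ball continuous_const w ρ), setIntegral_const, vol_sq w hρ, smul_eq_mul] at h1
  linarith

/-- Interchange of two integrals of a continuous function over compact sets. -/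
lemma swap_le {β : Type*} [TopologicalSpace β] [T2Space β] [MeasurableSpace β] [OpensMeasurableSpace β]
    [SecondCountableTopology β] {ν : Measure β} [SFinite ν] [IsFiniteMeasureOnCompacts ν]
    [IsLocallyFiniteMeasure ν]
    {F : ℝ × ℝ → β → ℝ} (hF : Continuous (Function.uncurry F)) {A : Set (ℝ × ℝ)} {B : Set β}
    (hA : IsCompact A) (hB : IsCompact B) (hBm : MeasurableSet B) {C : ℝ}
    (h : ∀ y ∈ B, ∫ x in A, F x y ≤ C) :
    ∫ x in A, ∫ y in B, F x y ∂ν ≤ C * ν.real B := by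
  have hint : Integrable (Function.uncurry F)
      (((volume : Measure (ℝ × ℝ)).restrict A).prod (ν.restrict B)) := by
    rw [Measure.prod_restrict]
    exact hF.continuousOn.integrableOn_compact (hA.prod hB)
  rw [integral_integral_swap hint]
  have hint2 : Integrable (fun y => ∫ x in A, F x y) (ν.restrict B) := hint.integral_prod_right
  calc ∫ y in B, (∫ x in A, F x y) ∂ν ≤ ∫ y in B, C ∂ν := by
        apply setIntegral_mono_on hint2 _ hBm h
        exact integrableOn_const hB.measure_lt_top.ne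
    _ = C * ν.real B := by
        rw [setIntegral_const, smul_eq_mul, mul_comm]

/-- The sum of the absolute values of the second derivatives. -/
noncomputable def S2 (ψ : ℝ × ℝ → ℝ) (z : ℝ × ℝ) : ℝ :=
  |d1 (d1 ψ) z| + |d1 (d2 ψ) z| + |d2 (d1 ψ) z| + |d2 (d2 ψ) z|

lemma S2_nonneg (ψ : ℝ × ℝ → ℝ) (z : ℝ × ℝ) : 0 ≤ S2 ψ z := by
  unfold S2
  positivity

lemma continuous_S2 {ψ : ℝ × ℝ → ℝ} (hψ : Smooth ψ) : Continuous (S2 ψ) := by
  unfold S2
  have h1 := hψ.d1.d1.continuous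
  have h2 := hψ.d2.d1.continuous
  have h3 := hψ.d1.d2.continuous
  have h4 := hψ.d2.d2.continuous
  fun_prop

lemma hasDerivAt_line {f : ℝ × ℝ → ℝ} (hf : Smooth f) (x ζ : ℝ × ℝ) (τ : ℝ) :
    HasDerivAt (fun τ : ℝ => f (x + τ • ζ))
      (d1 f (x + τ • ζ) * ζ.1 + d2 f (x + τ • ζ) * ζ.2) τ := by
  have h1 : HasDerivAt (fun τ : ℝ => x + τ • ζ) ζ τ := by
    have h := ((hasDerivAt_id τ).smul_const ζ).const_add x
    simpa using h
  have h2 := (hf.hasFDerivAt (x + τ • ζ)).comp_hasDerivAt τ h1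
  rw [fderiv_apply_eq] at h2
  exact h2

lemma continuous_line {f : ℝ × ℝ → ℝ} (hf : Continuous f) (x ζ : ℝ × ℝ) :
    Continuous (fun τ : ℝ => f (x + τ • ζ)) := by
  fun_prop

lemma taylor {ψ : ℝ × ℝ → ℝ} (hψ : Smooth ψ) (x ζ : ℝ × ℝ) :
    |ψ (x + ζ) - (ψ x + d1 ψ x * ζ.1 + d2 ψ x * ζ.2)| ≤
      ∫ τ in Icc (0 : ℝ) 1, ‖ζ‖ ^ 2 * S2 ψ (x + τ • ζ) := by
  set h1 : ℝ → ℝ := fun τ => d1 ψ (x + τ • ζ) * ζ.1 + d2 ψ (x + τ • ζ) * ζ.2 with hh1
  set h2 : ℝ → ℝ := fun τ => (d1 (d1 ψ) (x + τ • ζ) * ζ.1 + d2 (d1 ψ) (x + τ • ζ) * ζ.2) * ζ.1 +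
    (d1 (d2 ψ) (x + τ • ζ) * ζ.1 + d2 (d2 ψ) (x + τ • ζ) * ζ.2) * ζ.2 with hh2
  have hd1 : ∀ τ, HasDerivAt h1 (h2 τ) τ := fun τ =>
    ((hasDerivAt_line hψ.d1 x ζ τ).mul_const ζ.1).add
      ((hasDerivAt_line hψ.d2 x ζ τ).mul_const ζ.2)
  have hG : ∀ τ, HasDerivAt (fun τ => (1 - τ) * h1 τ + ψ (x + τ • ζ)) ((1 - τ) * h2 τ) τ := by
    intro τ
    have e1 : HasDerivAt (fun τ : ℝ => 1 - τ) (-1) τ := by
      simpa using (hasDerivAt_id τ).const_sub 1
    have e2 := (e1.mul (hd1 τ)).add (hasDerivAt_line hψ x ζ τ)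
    have e3 : (1 - τ) * h2 τ = -1 * h1 τ + (1 - τ) * h2 τ +
        (d1 ψ (x + τ • ζ) * ζ.1 + d2 ψ (x + τ • ζ) * ζ.2) := by
      rw [show d1 ψ (x + τ • ζ) * ζ.1 + d2 ψ (x + τ • ζ) * ζ.2 = h1 τ from rfl]
      ring
    rw [e3]
    exact e2
  have hcont : Continuous fun τ : ℝ => (1 - τ) * h2 τ := by
    have c1 := continuous_line hψ.d1.d1.continuous x ζ
    have c2 := continuous_line hψ.d2.d1.continuous x ζ
    have c3 := continuous_line hψ.d1.d2.continuous x ζ
    have c4 := continuous_line hψ.d2.d2.continuous x ζ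
    simp only [hh2]
    fun_prop
  have hint := intervalIntegral.integral_eq_sub_of_hasDerivAt (a := 0) (b := 1)
    (fun τ _ => hG τ) (hcont.intervalIntegrable 0 1)
  have hval : ∫ τ in (0 : ℝ)..1, (1 - τ) * h2 τ =
      ψ (x + ζ) - (ψ x + d1 ψ x * ζ.1 + d2 ψ x * ζ.2) := by
    rw [hint]
    simp only [hh1, sub_self, zero_mul, one_smul, zero_add, sub_zero, one_mul, zero_smul, add_zero]
    ring
  rw [← hval, ← Real.norm_eq_abs]
  refine (intervalIntegral.norm_integral_le_integral_norm zero_le_one).trans ?_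
  rw [intervalIntegral.integral_of_le zero_le_one, ← integral_Icc_eq_integral_Ioc]
  have hc2 : Continuous fun τ : ℝ => ‖ζ‖ ^ 2 * S2 ψ (x + τ • ζ) :=
    continuous_const.mul (continuous_line (continuous_S2 hψ) x ζ)
  apply setIntegral_mono_on (hcont.norm.continuousOn.integrableOn_compact isCompact_Icc)
    (hc2.continuousOn.integrableOn_compact isCompact_Icc) measurableSet_Icc
  intro τ hτ
  rw [Real.norm_eq_abs, abs_mul]
  have b1 : |1 - τ| ≤ 1 := by
    rw [abs_le]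
    constructor <;> linarith [hτ.1, hτ.2]
  have z1 : |ζ.1| ≤ ‖ζ‖ := by
    have := norm_fst_le ζ
    rwa [Real.norm_eq_abs] at this
  have z2 : |ζ.2| ≤ ‖ζ‖ := by
    have := norm_snd_le ζ
    rwa [Real.norm_eq_abs] at this
  have hterm : ∀ p a b : ℝ, |a| ≤ ‖ζ‖ → |b| ≤ ‖ζ‖ → |p * a * b| ≤ ‖ζ‖ ^ 2 * |p| := by
    intro p a b ha hb
    rw [abs_mul, abs_mul]
    have : |a| * |b| ≤ ‖ζ‖ * ‖ζ‖ := mul_le_mul ha hb (abs_nonneg _) (norm_nonneg _)
    nlinarith only [abs_nonneg p, this]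
  have b2 : |h2 τ| ≤ ‖ζ‖ ^ 2 * S2 ψ (x + τ • ζ) := by
    have e : h2 τ = d1 (d1 ψ) (x + τ • ζ) * ζ.1 * ζ.1 + d1 (d2 ψ) (x + τ • ζ) * ζ.1 * ζ.2 +
        d2 (d1 ψ) (x + τ • ζ) * ζ.2 * ζ.1 + d2 (d2 ψ) (x + τ • ζ) * ζ.2 * ζ.2 := by
      simp only [hh2]
      ring
    rw [e]
    refine (abs_add_le _ _).trans ?_
    have e1 := abs_add_le (d1 (d1 ψ) (x + τ • ζ) * ζ.1 * ζ.1 +
      d1 (d2 ψ) (x + τ • ζ) * ζ.1 * ζ.2) (d2 (d1 ψ) (x + τ • ζ) * ζ.2 * ζ.1)
    have e2 := abs_add_le (d1 (d1 ψ) (x + τ • ζ) * ζ.1 * ζ.1)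
      (d1 (d2 ψ) (x + τ • ζ) * ζ.1 * ζ.2)
    have f1 := hterm (d1 (d1 ψ) (x + τ • ζ)) _ _ z1 z1
    have f2 := hterm (d1 (d2 ψ) (x + τ • ζ)) _ _ z1 z2
    have f3 := hterm (d2 (d1 ψ) (x + τ • ζ)) _ _ z2 z1
    have f4 := hterm (d2 (d2 ψ) (x + τ • ζ)) _ _ z2 z2
    unfold S2
    linarith
  calc |1 - τ| * |h2 τ| ≤ 1 * |h2 τ| := by gcongr
    _ = |h2 τ| := one_mul _
    _ ≤ _ := b2

/-- The integral of the remainder in Taylor's formula. -/
lemma integral_taylor {ψ : ℝ × ℝ → ℝ} (hψ : Smooth ψ) {R : ℝ} {ζ : ℝ × ℝ}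
    (hζ : ‖ζ‖ ≤ 1) :
    ∫ x in closedBall (0 : ℝ × ℝ) R, |ψ (x + ζ) - (ψ x + d1 ψ x * ζ.1 + d2 ψ x * ζ.2)| ≤
      ‖ζ‖ ^ 2 * ∫ z in closedBall (0 : ℝ × ℝ) (R + 1), S2 ψ z := by
  have hS := continuous_S2 hψ
  set F : ℝ × ℝ → ℝ → ℝ := fun x τ => ‖ζ‖ ^ 2 * S2 ψ (x + τ • ζ) with hF
  have hFc : Continuous (Function.uncurry F) := by
    simp only [hF, Function.uncurry_def]
    fun_prop
  have h1 : ∀ τ ∈ Icc (0 : ℝ) 1, ∫ x in closedBall (0 : ℝ × ℝ) R, F x τ ≤
      ‖ζ‖ ^ 2 * ∫ z in closedBall (0 : ℝ × ℝ) (R + 1), S2 ψ z := by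
    intro τ hτ
    simp only [hF]
    rw [integral_const_mul]
    apply mul_le_mul_of_nonneg_left _ (by positivity)
    have e : ∫ x in closedBall (0 : ℝ × ℝ) R, S2 ψ (x + τ • ζ) =
        ∫ z in closedBall (τ • ζ) R, S2 ψ z := by
      rw [integral_translate (S2 ψ) (τ • ζ) R]
      congr 1
      funext x
      rw [add_comm]
    rw [e]
    apply mono_ball hS (S2_nonneg ψ)
    apply closedBall_subset_closedBall'
    rw [dist_zero_right, norm_smul, Real.norm_eq_abs, abs_of_nonneg hτ.1]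
    have : τ * ‖ζ‖ ≤ 1 * 1 := mul_le_mul hτ.2 hζ (norm_nonneg _) zero_le_one
    linarith
  have h2 := swap_le (ν := (volume : Measure ℝ)) hFc (isCompact_closedBall (0 : ℝ × ℝ) R)
    (isCompact_Icc (a := (0 : ℝ)) (b := 1)) measurableSet_Icc h1
  have e1 : (volume : Measure ℝ).real (Icc (0 : ℝ) 1) = 1 := by
    simp [measureReal_def]
  rw [e1, mul_one] at h2
  refine le_trans ?_ h2
  apply setIntegral_mono_on _ _ measurableSet_closedBall
  · intro x _
    exact taylor hψ x ζ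
  · apply integrableOn_ball
    have c0 := hψ.continuous
    have c1 := hψ.d1.continuous
    have c2 := hψ.d2.continuous
    fun_prop
  · apply integrableOn_ball
    exact continuous_parametric_integral_of_continuous hFc isCompact_Icc

/-- The tangent plane of `ψ` at `x`. -/
noncomputable def lin (ψ : ℝ × ℝ → ℝ) (x : ℝ × ℝ) : ℝ × ℝ → ℝ :=
  aff (ψ x - d1 ψ x * x.1 - d2 ψ x * x.2) (d1 ψ x, d2 ψ x)

lemma lin_apply (ψ : ℝ × ℝ → ℝ) (x z : ℝ × ℝ) :
    lin ψ x z = ψ x + d1 ψ x * (z.1 - x.1) + d2 ψ x * (z.2 - x.2) := by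
  unfold lin aff
  ring

lemma lin_add (ψ : ℝ × ℝ → ℝ) (x ζ : ℝ × ℝ) :
    lin ψ x (x + ζ) = ψ x + d1 ψ x * ζ.1 + d2 ψ x * ζ.2 := by
  rw [lin_apply, Prod.fst_add, Prod.snd_add, add_sub_cancel_left, add_sub_cancel_left]

/-- The integral over a square of the distance of `H` and the tangent plane of `ψ`. -/
noncomputable def C2 (H ψ : ℝ × ℝ → ℝ) (s : ℝ) (x : ℝ × ℝ) : ℝ :=
  ∫ ζ in closedBall (0 : ℝ × ℝ) s, |H (x + ζ) - (ψ x + d1 ψ x * ζ.1 + d2 ψ x * ζ.2)|

lemma C2_eq (H ψ : ℝ × ℝ → ℝ) (s : ℝ) (x : ℝ × ℝ) :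
    C2 H ψ s x = ∫ z in closedBall x s, |H z - lin ψ x z| := by
  rw [integral_translate, C2]
  simp only [lin_add]

lemma C2_nonneg (H ψ : ℝ × ℝ → ℝ) (s : ℝ) (x : ℝ × ℝ) : 0 ≤ C2 H ψ s x :=
  integral_nonneg fun _ => abs_nonneg _

lemma continuous_err {H ψ : ℝ × ℝ → ℝ} (hH : Continuous H) (hψ : Smooth ψ) :
    Continuous (Function.uncurry fun x ζ : ℝ × ℝ =>
      |H (x + ζ) - (ψ x + d1 ψ x * ζ.1 + d2 ψ x * ζ.2)|) := by
  have c0 := hψ.continuous
  have c1 := hψ.d1.continuous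
  have c2 := hψ.d2.continuous
  simp only [Function.uncurry_def]
  fun_prop

lemma continuous_C2 {H ψ : ℝ × ℝ → ℝ} (hH : Continuous H) (hψ : Smooth ψ) (s : ℝ) :
    Continuous (C2 H ψ s) :=
  continuous_parametric_integral_of_continuous (continuous_err hH hψ)
    (isCompact_closedBall (0 : ℝ × ℝ) s)

lemma continuous_lin (ψ : ℝ × ℝ → ℝ) (x : ℝ × ℝ) : Continuous (lin ψ x) := continuous_aff _ _

/-- The affine majorant. -/
lemma upper {v H ψ : ℝ × ℝ → ℝ} (hv : Continuous v) (hH : Continuous H) {m ρ s : ℝ}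
    (hm : 0 < m) (hρ : 0 < ρ) {x w : ℝ × ℝ} (hw : closedBall w ρ ⊆ closedBall x s)
    (hHv : ∀ z ∈ closedBall w ρ, 0 < M v z ρ ∧ H z = 1 / m * Real.log (M v z ρ)) :
    |v w| ≤ Real.exp (m * (lin ψ x w + C2 H ψ s x / (2 * ρ) ^ 2)) := by
  by_cases h0 : v w = 0
  · rw [h0, abs_zero]
    exact (Real.exp_pos _).le
  have hv0 : 0 < |v w| := abs_pos.2 h0
  have h1 : ∀ z ∈ closedBall w ρ, 1 / m * Real.log |v w| ≤ H z := by
    intro z hz
    rw [(hHv z hz).2]
    apply mul_le_mul_of_nonneg_left _ (by positivity)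
    apply Real.log_le_log hv0
    exact le_M hv (mem_closedBall_comm.1 hz)
  have h2 : ∫ z in closedBall w ρ, (1 / m * Real.log |v w|) ≤ ∫ z in closedBall w ρ, H z :=
    setIntegral_mono_on (integrableOn_ball continuous_const w ρ) (integrableOn_ball hH w ρ)
      measurableSet_closedBall h1
  have hc : Continuous fun z => |H z - lin ψ x z| := (hH.sub (continuous_lin ψ x)).abs
  have h3 : ∫ z in closedBall w ρ, H z ≤
      ∫ z in closedBall w ρ, (|H z - lin ψ x z| + lin ψ x z) :=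
    setIntegral_mono_on (integrableOn_ball hH w ρ)
      (integrableOn_ball (hc.add (continuous_lin ψ x)) w ρ) measurableSet_closedBall
      fun z _ => by linarith [le_abs_self (H z - lin ψ x z)]
  rw [integral_add (integrableOn_ball hc w ρ) (integrableOn_ball (continuous_lin ψ x) w ρ)] at h3
  have h4 : ∫ z in closedBall w ρ, lin ψ x z = (2 * ρ) ^ 2 * lin ψ x w := integral_aff _ _ w hρ.le
  have h5 : ∫ z in closedBall w ρ, |H z - lin ψ x z| ≤ C2 H ψ s x := by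
    rw [C2_eq]
    exact mono_ball hc (fun z => abs_nonneg _) hw
  rw [setIntegral_const, vol_sq w hρ.le, smul_eq_mul] at h2
  rw [h4] at h3
  have h6 : 0 < (2 * ρ) ^ 2 := by positivity
  have h7 : 1 / m * Real.log |v w| ≤ lin ψ x w + C2 H ψ s x / (2 * ρ) ^ 2 := by
    rw [← mul_le_mul_iff_right₀ h6, mul_add, mul_div_cancel₀ _ h6.ne']
    linarith
  rw [← Real.log_le_iff_le_exp hv0]
  calc Real.log |v w| = m * (1 / m * Real.log |v w|) := by field_simp
    _ ≤ _ := mul_le_mul_of_nonneg_left h7 hm.le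

lemma aff_eq (ψ : ℝ × ℝ → ℝ) (m κ : ℝ) (x z : ℝ × ℝ) :
    aff (m * (ψ x - d1 ψ x * x.1 - d2 ψ x * x.2 + κ)) (m * d1 ψ x, m * d2 ψ x) z =
      m * (lin ψ x z + κ) := by
  unfold lin aff
  ring

/-- The deficit of the affine majorant. -/
lemma deficit {v H ψ : ℝ × ℝ → ℝ} (hv : Continuous v) (hH : Continuous H) {m ρ r s : ℝ}
    (hm : 0 < m) (hρ : 0 < ρ) (hρr : ρ ≤ r) {x y : ℝ × ℝ}
    (hy : closedBall y (64 * r) ⊆ closedBall x s)
    (hHv : ∀ z ∈ closedBall y (64 * r), 0 < M v z ρ ∧ H z = 1 / m * Real.log (M v z ρ)) :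
    dfc v (m * (ψ x - d1 ψ x * x.1 - d2 ψ x * x.2 + C2 H ψ s x / (2 * ρ) ^ 2))
      (m * d1 ψ x, m * d2 ψ x) y r ≤
        m * (2 * (C2 H ψ s x / (2 * ρ) ^ 2) + ρ * (|d1 ψ x| + |d2 ψ x|)) := by
  set κ : ℝ := C2 H ψ s x / (2 * ρ) ^ 2 with hκ
  set c : ℝ := m * (ψ x - d1 ψ x * x.1 - d2 ψ x * x.2 + κ) with hc
  set g : ℝ × ℝ := (m * d1 ψ x, m * d2 ψ x) with hg
  have hκ0 : 0 ≤ κ := div_nonneg (C2_nonneg _ _ _ _) (by positivity)
  have hr : 0 < r := lt_of_lt_of_le hρ hρr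
  have hpt : ∀ z ∈ closedBall y (64 * r), -(Real.log (M (tilt c g v) z r)) ≤
      m * |H z - lin ψ x z| + m * (ρ * (|d1 ψ x| + |d2 ψ x|) + κ) := by
    intro z hz
    obtain ⟨hM, hHz⟩ := hHv z hz
    obtain ⟨w, hw, hwM⟩ := exists_M hv (z := z) hρ.le
    have h1 : |tilt c g v w| ≤ M (tilt c g v) z r :=
      le_M (continuous_tilt hv c g) (closedBall_subset_closedBall hρr hw)
    rw [abs_tilt, hwM, aff_eq] at h1
    have h2 : Real.log (M v z ρ * Real.exp (-(m * (lin ψ x w + κ)))) ≤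
        Real.log (M (tilt c g v) z r) := Real.log_le_log (by positivity) h1
    rw [Real.log_mul hM.ne' (Real.exp_pos _).ne', Real.log_exp] at h2
    have h3 : Real.log (M v z ρ) = m * H z := by
      rw [hHz]
      field_simp
    rw [h3] at h2
    have h4 : lin ψ x w - lin ψ x z ≤ ρ * (|d1 ψ x| + |d2 ψ x|) := by
      rw [lin_apply, lin_apply]
      have hd : dist w z ≤ ρ := hw
      rw [dist_eq_norm] at hd
      have z1 : |(w - z).1| ≤ ρ := by
        have := norm_fst_le (w - z)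
        rw [Real.norm_eq_abs] at this
        exact this.trans hd
      have z2 : |(w - z).2| ≤ ρ := by
        have := norm_snd_le (w - z)
        rw [Real.norm_eq_abs] at this
        exact this.trans hd
      rw [Prod.fst_sub] at z1
      rw [Prod.snd_sub] at z2
      have a1 : d1 ψ x * (w.1 - z.1) ≤ |d1 ψ x| * ρ := by
        refine (le_abs_self _).trans ?_
        rw [abs_mul]
        exact mul_le_mul_of_nonneg_left z1 (abs_nonneg _)
      have a2 : d2 ψ x * (w.2 - z.2) ≤ |d2 ψ x| * ρ := by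
        refine (le_abs_self _).trans ?_
        rw [abs_mul]
        exact mul_le_mul_of_nonneg_left z2 (abs_nonneg _)
      nlinarith only [a1, a2]
    have h5 : lin ψ x z - H z ≤ |H z - lin ψ x z| := by
      rw [abs_sub_comm]
      exact le_abs_self _
    have h6 : m * (lin ψ x w + κ - H z) ≤
        m * (|H z - lin ψ x z| + (ρ * (|d1 ψ x| + |d2 ψ x|) + κ)) :=
      mul_le_mul_of_nonneg_left (by linarith) hm.le
    linarith
  have hcH : Continuous fun z => |H z - lin ψ x z| := (hH.sub (continuous_lin ψ x)).abs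
  have hcm : Continuous fun z => m * |H z - lin ψ x z| := continuous_const.mul hcH
  have hB : ∫ z in closedBall y (64 * r), |H z - lin ψ x z| ≤ C2 H ψ s x := by
    rw [C2_eq]
    exact mono_ball hcH (fun z => abs_nonneg _) hy
  have hB0 : 0 ≤ ∫ z in closedBall y (64 * r), |H z - lin ψ x z| :=
    integral_nonneg fun _ => abs_nonneg _
  have hfin : 1 / (128 * r) ^ 2 * (m * (∫ z in closedBall y (64 * r), |H z - lin ψ x z|) +
      (2 * (64 * r)) ^ 2 * (m * (ρ * (|d1 ψ x| + |d2 ψ x|) + κ))) ≤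
        m * (2 * κ + ρ * (|d1 ψ x| + |d2 ψ x|)) := by
    have e1 : (2 * (64 * r)) ^ 2 = (128 * r) ^ 2 := by ring
    have e2 : 0 < (128 * r) ^ 2 := by positivity
    have e3 : 1 / (128 * r) ^ 2 * (∫ z in closedBall y (64 * r), |H z - lin ψ x z|) ≤ κ := by
      rw [hκ, one_div, inv_mul_eq_div]
      apply div_le_div₀ (C2_nonneg _ _ _ _) hB (by positivity)
      apply pow_le_pow_left₀ (by positivity)
      linarith
    rw [e1, mul_add, ← mul_assoc (1 / (128 * r) ^ 2) ((128 * r) ^ 2),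
      one_div_mul_cancel e2.ne', one_mul]
    have e4 := mul_le_mul_of_nonneg_left e3 hm.le
    linarith only [e4]
  unfold dfc
  by_cases hint : IntegrableOn (fun z => -(Real.log (M (tilt c g v) z r)))
      (closedBall y (64 * r))
  · refine le_trans (mul_le_mul_of_nonneg_left ?_ (by positivity)) hfin
    calc ∫ z in closedBall y (64 * r), -(Real.log (M (tilt c g v) z r)) ≤
        ∫ z in closedBall y (64 * r), (m * |H z - lin ψ x z| +
          m * (ρ * (|d1 ψ x| + |d2 ψ x|) + κ)) :=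
          setIntegral_mono_on hint (integrableOn_ball (hcm.add continuous_const) _ _)
            measurableSet_closedBall hpt
      _ = _ := by
        rw [integral_add (integrableOn_ball hcm _ _)
          (integrableOn_ball continuous_const _ _), integral_const_mul, setIntegral_const,
          vol_sq y (by positivity), smul_eq_mul]
  · rw [integral_undef hint, mul_zero]
    positivity

/-- The integral of `C2`. -/
lemma integral_C2 {H ψ : ℝ × ℝ → ℝ} (hH : Continuous H) (hψ : Smooth ψ) {R s K1 K2 : ℝ}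
    (hs : 0 ≤ s) (hs1 : s ≤ 1) (h1 : ∫ z in closedBall (0 : ℝ × ℝ) (R + 1), |H z - ψ z| ≤ K1)
    (h2 : ∫ z in closedBall (0 : ℝ × ℝ) (R + 1), S2 ψ z ≤ K2) :
    ∫ x in closedBall (0 : ℝ × ℝ) R, C2 H ψ s x ≤ (K1 + s ^ 2 * K2) * (2 * s) ^ 2 := by
  have hK2 : 0 ≤ K2 := le_trans (integral_nonneg fun z => S2_nonneg ψ z) h2
  have key : ∀ ζ ∈ closedBall (0 : ℝ × ℝ) s, ∫ x in closedBall (0 : ℝ × ℝ) R,
      |H (x + ζ) - (ψ x + d1 ψ x * ζ.1 + d2 ψ x * ζ.2)| ≤ K1 + s ^ 2 * K2 := by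
    intro ζ hζ
    rw [mem_closedBall_zero_iff] at hζ
    have hζ1 : ‖ζ‖ ≤ 1 := hζ.trans hs1
    have c0 := hψ.continuous
    have c1 := hψ.d1.continuous
    have c2 := hψ.d2.continuous
    have a1 : Continuous fun x => |H (x + ζ) - ψ (x + ζ)| := by fun_prop
    have a2 : Continuous fun x => |ψ (x + ζ) - (ψ x + d1 ψ x * ζ.1 + d2 ψ x * ζ.2)| := by
      fun_prop
    have a3 : Continuous fun x => |H (x + ζ) - (ψ x + d1 ψ x * ζ.1 + d2 ψ x * ζ.2)| := by
      fun_prop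
    have b1 : ∫ x in closedBall (0 : ℝ × ℝ) R, |H (x + ζ) - ψ (x + ζ)| ≤ K1 := by
      have e : ∫ x in closedBall (0 : ℝ × ℝ) R, |H (x + ζ) - ψ (x + ζ)| =
          ∫ z in closedBall ζ R, |H z - ψ z| := by
        rw [integral_translate (fun z => |H z - ψ z|) ζ R]
        congr 1
        funext x
        rw [add_comm]
      rw [e]
      refine le_trans (mono_ball (hH.sub c0).abs (fun z => abs_nonneg _) ?_) h1
      apply closedBall_subset_closedBall'
      rw [dist_zero_right]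
      linarith
    have b2 := integral_taylor hψ (R := R) hζ1
    have b3 : ‖ζ‖ ^ 2 * ∫ z in closedBall (0 : ℝ × ℝ) (R + 1), S2 ψ z ≤ s ^ 2 * K2 := by
      apply mul_le_mul (pow_le_pow_left₀ (norm_nonneg _) hζ 2) h2
        (integral_nonneg fun z => S2_nonneg ψ z) (by positivity)
    calc ∫ x in closedBall (0 : ℝ × ℝ) R, |H (x + ζ) - (ψ x + d1 ψ x * ζ.1 + d2 ψ x * ζ.2)| ≤
        ∫ x in closedBall (0 : ℝ × ℝ) R, (|H (x + ζ) - ψ (x + ζ)| +
          |ψ (x + ζ) - (ψ x + d1 ψ x * ζ.1 + d2 ψ x * ζ.2)|) := by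
          apply setIntegral_mono_on (integrableOn_ball a3 _ _) (integrableOn_ball (a1.add a2) _ _)
            measurableSet_closedBall
          intro x _
          exact abs_sub_le _ _ _
      _ = _ := integral_add (integrableOn_ball a1 _ _) (integrableOn_ball a2 _ _)
      _ ≤ K1 + s ^ 2 * K2 := add_le_add b1 (b2.trans b3)
  have h := swap_le (ν := (volume : Measure (ℝ × ℝ))) (continuous_err hH hψ)
    (isCompact_closedBall (0 : ℝ × ℝ) R) (isCompact_closedBall (0 : ℝ × ℝ) s)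
    measurableSet_closedBall key
  rw [vol_sq 0 hs] at h
  exact h

/-- The integral of the second derivatives. -/
lemma integral_S2 {ψ : ℝ × ℝ → ℝ} (hψ : Smooth ψ) {R E t : ℝ} (hR : 0 ≤ R) (ht : 0 < t)
    (hE : ∫ z in closedBall (0 : ℝ × ℝ) R, ((d1 (d1 ψ) z) ^ 2 + (d1 (d2 ψ) z) ^ 2 +
      (d2 (d1 ψ) z) ^ 2 + (d2 (d2 ψ) z) ^ 2) ≤ E) :
    ∫ z in closedBall (0 : ℝ × ℝ) R, S2 ψ z ≤ E / (2 * t) + 2 * t * (2 * R) ^ 2 := by
  have c1 := hψ.d1.d1.continuous
  have c2 := hψ.d2.d1.continuous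
  have c3 := hψ.d1.d2.continuous
  have c4 := hψ.d2.d2.continuous
  have hc : Continuous fun z => ((d1 (d1 ψ) z) ^ 2 + (d1 (d2 ψ) z) ^ 2 +
      (d2 (d1 ψ) z) ^ 2 + (d2 (d2 ψ) z) ^ 2) / (2 * t) := by fun_prop
  have hel : ∀ p : ℝ, |p| ≤ p ^ 2 / (2 * t) + t / 2 := by
    intro p
    have h : 0 ≤ (|p| - t) ^ 2 := sq_nonneg _
    have h2 : p ^ 2 / (2 * t) + t / 2 = (p ^ 2 + t ^ 2) / (2 * t) := by
      field_simp
    rw [h2, le_div_iff₀ (by positivity)]
    nlinarith [sq_abs p]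
  calc ∫ z in closedBall (0 : ℝ × ℝ) R, S2 ψ z ≤
      ∫ z in closedBall (0 : ℝ × ℝ) R, (((d1 (d1 ψ) z) ^ 2 + (d1 (d2 ψ) z) ^ 2 +
      (d2 (d1 ψ) z) ^ 2 + (d2 (d2 ψ) z) ^ 2) / (2 * t) + 2 * t) := by
        apply setIntegral_mono_on (integrableOn_ball (continuous_S2 hψ) _ _)
          (integrableOn_ball (hc.add continuous_const) _ _) measurableSet_closedBall
        intro z _
        have e1 := hel (d1 (d1 ψ) z)
        have e2 := hel (d1 (d2 ψ) z)
        have e3 := hel (d2 (d1 ψ) z)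
        have e4 := hel (d2 (d2 ψ) z)
        unfold S2
        change _ ≤ (_ + _ + _ + _) / (2 * t) + 2 * t
        rw [add_div, add_div, add_div]
        linarith only [e1, e2, e3, e4]
    _ = (∫ z in closedBall (0 : ℝ × ℝ) R, ((d1 (d1 ψ) z) ^ 2 + (d1 (d2 ψ) z) ^ 2 +
      (d2 (d1 ψ) z) ^ 2 + (d2 (d2 ψ) z) ^ 2)) / (2 * t) + 2 * t * (2 * R) ^ 2 := by
        rw [integral_add (integrableOn_ball hc _ _) (integrableOn_ball continuous_const _ _),
          integral_div, setIntegral_const, vol_sq 0 hR, smul_eq_mul]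
        ring
    _ ≤ _ := by gcongr

/-- The integral of the first derivatives. -/
lemma integral_S1 {ψ : ℝ × ℝ → ℝ} (hψ : Smooth ψ) {R E t : ℝ} (hR : 0 ≤ R) (ht : 0 < t)
    (hE : ∫ z in closedBall (0 : ℝ × ℝ) R, ((d1 ψ z) ^ 2 + (d2 ψ z) ^ 2) ≤ E) :
    ∫ z in closedBall (0 : ℝ × ℝ) R, (|d1 ψ z| + |d2 ψ z|) ≤ E / (2 * t) + t * (2 * R) ^ 2 := by
  have c1 := hψ.d1.continuous
  have c2 := hψ.d2.continuous
  have hc : Continuous fun z => ((d1 ψ z) ^ 2 + (d2 ψ z) ^ 2) / (2 * t) := by fun_prop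
  have hc' : Continuous fun z => |d1 ψ z| + |d2 ψ z| := by fun_prop
  have hel : ∀ p : ℝ, |p| ≤ p ^ 2 / (2 * t) + t / 2 := by
    intro p
    have h : 0 ≤ (|p| - t) ^ 2 := sq_nonneg _
    have h2 : p ^ 2 / (2 * t) + t / 2 = (p ^ 2 + t ^ 2) / (2 * t) := by
      field_simp
    rw [h2, le_div_iff₀ (by positivity)]
    nlinarith [sq_abs p]
  calc ∫ z in closedBall (0 : ℝ × ℝ) R, (|d1 ψ z| + |d2 ψ z|) ≤
      ∫ z in closedBall (0 : ℝ × ℝ) R, (((d1 ψ z) ^ 2 + (d2 ψ z) ^ 2) / (2 * t) + t) := by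
        apply setIntegral_mono_on (integrableOn_ball hc' _ _)
          (integrableOn_ball (hc.add continuous_const) _ _) measurableSet_closedBall
        intro z _
        have e1 := hel (d1 ψ z)
        have e2 := hel (d2 ψ z)
        change _ ≤ (_ + _) / (2 * t) + t
        rw [add_div]
        linarith only [e1, e2]
    _ = (∫ z in closedBall (0 : ℝ × ℝ) R, ((d1 ψ z) ^ 2 + (d2 ψ z) ^ 2)) / (2 * t) +
        t * (2 * R) ^ 2 := by
        rw [integral_add (integrableOn_ball hc _ _) (integrableOn_ball continuous_const _ _),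
          integral_div, setIntegral_const, vol_sq 0 hR, smul_eq_mul]
        ring
    _ ≤ _ := by gcongr

end ChildX

open ChildX in
theorem child (R1 : ℝ) (hR1 : 1 ≤ R1) : ∃ Cs : ℝ, 1 ≤ Cs ∧ ∀ a : ℝ, 2 ≤ a →
    ∃ (P : Par) (K : ℝ), 1 ≤ K ∧ ∀ (v : ℝ × ℝ → ℝ) (m : ℝ), K ≤ m → Continuous v →
      Comp P v m (closedBall 0 (R1 + 20)) →
      (∀ p ∈ closedBall (0 : ℝ × ℝ) (R1 + 20), |v p| ≤ 1) →
      (∀ z ∈ closedBall (0 : ℝ × ℝ) (R1 + 8), ∃ w ∈ closedBall z 2, Real.exp (-m) ≤ |v w|) →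
      ∃ (ρ : ℝ) (ψ Φ : ℝ × ℝ → ℝ), 1 / (2 * a ^ 10) ≤ ρ ∧ ρ ≤ 1 / a ^ 10 ∧ Smooth ψ ∧
        Continuous Φ ∧ (∀ x, 0 ≤ Φ x) ∧
        (∀ z ∈ closedBall (0 : ℝ × ℝ) (R1 + 5), 0 < M v z (1 / (2 * a ^ 10))) ∧
        (∀ x' ∈ closedBall (0 : ℝ × ℝ) (R1 + 1), ∃ c' : ℝ,
          (∀ z ∈ closedBall x' (130 / a ^ 9),
            |v z| ≤ Real.exp (aff c' (m * d1 ψ x', m * d2 ψ x') z)) ∧
          ∀ x'' ∈ closedBall x' (1 / a ^ 9),
            dfc v c' (m * d1 ψ x', m * d2 ψ x') x'' (1 / a ^ 9) ≤ Φ x') ∧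
        ∫ x' in closedBall (0 : ℝ × ℝ) (R1 + 1), Φ x' ≤ Cs * Real.log a / a ^ 10 * m ∧
        ∫ x' in closedBall (0 : ℝ × ℝ) (R1 + 1), ((d1 ψ x') ^ 2 + (d2 ψ x') ^ 2) ≤
          Cs * (Real.log a) ^ 2 ∧
        ∫ z in closedBall (0 : ℝ × ℝ) (R1 + 1), |Real.log (M v z ρ) - m * ψ z| ≤
          Cs * Real.log a / a ^ 12 * m := by
  obtain ⟨Cs, hCs, hstruct⟩ := struct R1 hR1
  set V : ℝ := (2 * (R1 + 2)) ^ 2 with hV
  have hV0 : 0 ≤ V := sq_nonneg _
  set C1 : ℝ := Cs + 131 ^ 2 * (Cs / 2 + 2 * V) with hC1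
  have hC10 : 0 ≤ C1 := by positivity
  have hCs0 : 0 ≤ Cs := by linarith only [hCs]
  set Ct : ℝ := 2 * 262 ^ 2 * C1 + Cs + V with hCt
  have hCsCt : Cs ≤ Ct := by
    rw [hCt]
    have : 0 ≤ 2 * 262 ^ 2 * C1 := by positivity
    linarith
  refine ⟨Ct, hCs.trans hCsCt, fun a ha => ?_⟩
  obtain ⟨P, K, hK, hstr⟩ := hstruct a ha
  refine ⟨P, K, hK, fun v m hm hv hcomp hv1 hlow => ?_⟩
  obtain ⟨ρ, H, ψ, hρ1, hρ2, hH, hψ, hHv, hHψ, hE1, hE2⟩ := hstr v m hm hv hcomp hv1 hlow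
  have hm1 : 1 ≤ m := hK.trans hm
  have hm0 : 0 < m := by linarith only [hK, hm]
  have ha0 : 0 < a := by linarith
  have ha1 : 1 < a := by linarith only [ha]
  set L : ℝ := Real.log a with hL
  have hL0 : 0 < L := Real.log_pos ha1
  have hρ0 : 0 < ρ := lt_of_lt_of_le (by positivity) hρ1
  have ha9 : 512 ≤ a ^ 9 := by
    have h := pow_le_pow_left₀ (by norm_num : (0 : ℝ) ≤ 2) ha 9
    norm_num at h
    exact h
  set r : ℝ := 1 / a ^ 9 with hr
  have hr0 : 0 < r := by positivity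
  have hr1 : r ≤ 1 / 512 := by
    rw [hr]
    exact one_div_le_one_div_of_le (by norm_num) ha9
  have hρr : ρ ≤ r := by
    refine hρ2.trans ?_
    rw [hr]
    exact one_div_le_one_div_of_le (by positivity) (pow_le_pow_right₀ ha1.le (by norm_num))
  set s : ℝ := 131 * r with hs
  have hs0 : 0 ≤ s := by positivity
  have hs1 : s ≤ 1 := by
    rw [hs]
    linarith
  -- positivity of the maxima
  have hMρ : ∀ z ∈ closedBall (0 : ℝ × ℝ) (R1 + 5),
      0 < M v z ρ ∧ H z = 1 / m * Real.log (M v z ρ) := by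
    intro z hz
    refine ⟨lt_of_lt_of_le (hHv z hz).1 ?_, (hHv z hz).2⟩
    exact M_mono hv (by positivity) (closedBall_subset_closedBall hρ1)
  set κ : ℝ × ℝ → ℝ := fun x => C2 H ψ s x / (2 * ρ) ^ 2 with hκ
  have hκ0 : ∀ x, 0 ≤ κ x := fun x => div_nonneg (C2_nonneg _ _ _ _) (by positivity)
  have hκc : Continuous κ := (continuous_C2 hH hψ s).div_const _
  have hgc : Continuous fun x => |d1 ψ x| + |d2 ψ x| :=
    hψ.d1.continuous.abs.add hψ.d2.continuous.abs
  have hball : ∀ {x y : ℝ × ℝ} {t : ℝ}, x ∈ closedBall (0 : ℝ × ℝ) (R1 + 1) →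
      dist y x + t ≤ 4 → closedBall y t ⊆ closedBall (0 : ℝ × ℝ) (R1 + 5) := by
    intro x y t hx hy
    apply closedBall_subset_closedBall'
    have := dist_triangle y x 0
    rw [mem_closedBall] at hx
    linarith only [hx, hy, this]
  refine ⟨ρ, ψ, fun x => m * (2 * κ x + ρ * (|d1 ψ x| + |d2 ψ x|)), hρ1, hρ2, hψ, ?_, ?_,
    fun z hz => (hHv z hz).1, ?_, ?_, ?_, ?_⟩
  · exact continuous_const.mul ((continuous_const.mul hκc).add (continuous_const.mul hgc))
  · intro x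
    have := hκ0 x
    positivity
  · intro x hx
    refine ⟨m * (ψ x - d1 ψ x * x.1 - d2 ψ x * x.2 + κ x), fun z hz => ?_, fun y hy => ?_⟩
    · rw [aff_eq]
      have hz' : dist z x ≤ 130 * r := by
        rw [mem_closedBall] at hz
        rw [hr, mul_one_div]
        exact hz
      apply upper hv hH hm0 hρ0
      · apply closedBall_subset_closedBall'
        rw [hs]
        linarith only [hρr, hz']
      · intro w hw
        exact hMρ w (hball hx (by linarith only [hr1, hρr, hz']) hw)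
    · rw [mem_closedBall] at hy
      apply deficit hv hH hm0 hρ0 hρr
      · apply closedBall_subset_closedBall'
        rw [hs]
        linarith only [hr0, hy]
      · intro z hz
        exact hMρ z (hball hx (by linarith only [hr1, hy]) hz)
  · -- the integral of `Φ`
    have e2 : R1 + 1 + 1 = R1 + 2 := by ring
    have hS2 := integral_S2 hψ (t := L * a ^ 6) (by linarith only [hR1]) (by positivity) hE2
    have hS1 := integral_S1 hψ (t := L) (by linarith only [hR1]) hL0 hE1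
    rw [← e2] at hHψ hS2
    have hC2 := integral_C2 hH hψ (R := R1 + 1) (s := s) hs0 hs1 hHψ hS2
    rw [e2] at hHψ hS2 hC2
    have hκint : ∫ x in closedBall (0 : ℝ × ℝ) (R1 + 1), κ x ≤ 262 ^ 2 * C1 * L / a ^ 10 := by
      have h1 : ∫ x in closedBall (0 : ℝ × ℝ) (R1 + 1), κ x =
          (∫ x in closedBall (0 : ℝ × ℝ) (R1 + 1), C2 H ψ s x) / (2 * ρ) ^ 2 := by
        rw [hκ, integral_div]
      rw [h1]
      have h2 : (Cs * L / a ^ 12 + s ^ 2 * (Cs * L ^ 2 * a ^ 12 / (2 * (L * a ^ 6)) +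
          2 * (L * a ^ 6) * (2 * (R1 + 2)) ^ 2)) * (2 * s) ^ 2 = 262 ^ 2 * C1 * L / a ^ 30 := by
        rw [← hV, hs, hr, hC1]
        field_simp
        ring
      rw [h2] at hC2
      have h3 : 1 / a ^ 20 ≤ (2 * ρ) ^ 2 := by
        have h4 : 1 / a ^ 10 ≤ 2 * ρ := by
          have : 1 / a ^ 10 = 2 * (1 / (2 * a ^ 10)) := by field_simp
          rw [this]
          linarith only [hρ1]
        have h5 := pow_le_pow_left₀ (by positivity) h4 2
        calc 1 / a ^ 20 = (1 / a ^ 10) ^ 2 := by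
              rw [div_pow, one_pow, ← pow_mul]
          _ ≤ _ := h5
      calc (∫ x in closedBall (0 : ℝ × ℝ) (R1 + 1), C2 H ψ s x) / (2 * ρ) ^ 2 ≤
          (262 ^ 2 * C1 * L / a ^ 30) / (1 / a ^ 20) :=
            div_le_div₀ (by positivity) hC2 (by positivity) h3
        _ = 262 ^ 2 * C1 * L / a ^ 10 := by
            field_simp
    have hgint : ρ * ∫ x in closedBall (0 : ℝ × ℝ) (R1 + 1), (|d1 ψ x| + |d2 ψ x|) ≤
        (Cs / 2 + V) * L / a ^ 10 := by
      have h1 : ∫ x in closedBall (0 : ℝ × ℝ) (R1 + 1), (|d1 ψ x| + |d2 ψ x|) ≤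
          (Cs / 2 + V) * L := by
        refine le_trans (mono_ball hgc (fun z => by positivity)
          (closedBall_subset_closedBall (by linarith only []))) (hS1.trans (le_of_eq ?_))
        rw [← hV]
        field_simp
      calc ρ * ∫ x in closedBall (0 : ℝ × ℝ) (R1 + 1), (|d1 ψ x| + |d2 ψ x|) ≤
          1 / a ^ 10 * ((Cs / 2 + V) * L) :=
            mul_le_mul hρ2 h1 (integral_nonneg fun z => by positivity) (by positivity)
        _ = _ := by ring
    have hκi := integrableOn_ball hκc (0 : ℝ × ℝ) (R1 + 1)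
    have hgi := integrableOn_ball hgc (0 : ℝ × ℝ) (R1 + 1)
    calc ∫ x in closedBall (0 : ℝ × ℝ) (R1 + 1), m * (2 * κ x + ρ * (|d1 ψ x| + |d2 ψ x|)) =
        m * (2 * (∫ x in closedBall (0 : ℝ × ℝ) (R1 + 1), κ x) +
          ρ * ∫ x in closedBall (0 : ℝ × ℝ) (R1 + 1), (|d1 ψ x| + |d2 ψ x|)) := by
          rw [integral_const_mul, integral_add (hκi.const_mul 2) (hgi.const_mul ρ),
            integral_const_mul, integral_const_mul]
      _ ≤ m * (2 * (262 ^ 2 * C1 * L / a ^ 10) + (Cs / 2 + V) * L / a ^ 10) := by gcongr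
      _ ≤ Ct * L / a ^ 10 * m := by
          have h1 : m * (2 * (262 ^ 2 * C1 * L / a ^ 10) + (Cs / 2 + V) * L / a ^ 10) =
              (2 * 262 ^ 2 * C1 + Cs / 2 + V) * L / a ^ 10 * m := by ring
          rw [h1, hCt]
          gcongr
          linarith only [hCs]
  · have hc : Continuous fun x => (d1 ψ x) ^ 2 + (d2 ψ x) ^ 2 := by
      have c1 := hψ.d1.continuous
      have c2 := hψ.d2.continuous
      fun_prop
    refine le_trans (mono_ball hc (fun z => by positivity)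
      (closedBall_subset_closedBall (by linarith only [hr0]))) (hE1.trans ?_)
    gcongr
  · have h1 : ∫ z in closedBall (0 : ℝ × ℝ) (R1 + 1), |Real.log (M v z ρ) - m * ψ z| =
        ∫ z in closedBall (0 : ℝ × ℝ) (R1 + 1), m * |H z - ψ z| := by
      apply setIntegral_congr_fun measurableSet_closedBall
      intro z hz
      have h2 := (hMρ z (closedBall_subset_closedBall (by linarith only []) hz)).2
      have h3 : Real.log (M v z ρ) = m * H z := by
        rw [h2]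
        field_simp
      beta_reduce
      rw [h3, ← mul_sub, abs_mul, abs_of_pos hm0]
    rw [h1, integral_const_mul]
    have h2 : ∫ z in closedBall (0 : ℝ × ℝ) (R1 + 1), |H z - ψ z| ≤ Cs * L / a ^ 12 :=
      le_trans (mono_ball (hH.sub hψ.continuous).abs (fun z => abs_nonneg _)
        (closedBall_subset_closedBall (by linarith only []))) hHψ
    calc m * ∫ z in closedBall (0 : ℝ × ℝ) (R1 + 1), |H z - ψ z| ≤ m * (Cs * L / a ^ 12) := by
          gcongr
      _ = Cs * L / a ^ 12 * m := by ring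
      _ ≤ _ := by gcongr

end Pool.Agent.H5.Yau
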