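import Pool.Agent.H5.Yau.Carleman2
import Pool.Agent.H24.GradientEstimate
import Pool.Agent.H24.Near.Touching

set_option autoImplicit false

/-!
# Touching with explicit dependence on the strictness
-/

namespace Pool.Agent.H5.Yau

open MeasureTheory Set Metric Pool.Agent.H24.Near

private lemma touch2_final {κ K m U η' I : ℝ} (hη : 0 < η')
    (hU : 0 < U) (hm : 20 ≤ m)
    (hlow : Real.exp (-2) * U ^ 2 / 4 * (2 * (Real.exp (-6) / 12 / m)) ^ 2 ≤ I)
    (hup : η' * m ^ 3 / 4 * I ≤ (13 * m * K * (U * Real.exp (3 - m * κ / 5))) ^ 2 * 4) :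
    η' * (Real.exp (-2) * (Real.exp (-6) / 12) ^ 2 / 4) ≤
      676 * K ^ 2 * Real.exp 6 * (m * Real.exp (-(2 * κ / 5 * m))) := by
  have hm0 : 0 < m := by linarith only [hm]
  generalize hc : Real.exp (-6) / 12 = c at *
  have hc0 : 0 < c := by rw [← hc]; positivity
  generalize ha : 2 * κ / 5 = a at *
  have h1 : Real.exp (3 - m * κ / 5) ^ 2 = Real.exp 6 * Real.exp (-(a * m)) := by
    rw [← Real.exp_add, ← Real.exp_nat_mul, ← ha]
    congr 1
    push_cast
    ring
  have e5 : (13 * m * K * (U * Real.exp (3 - m * κ / 5))) ^ 2 * 4 =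
      U ^ 2 * m * (676 * K ^ 2 * Real.exp 6 * (m * Real.exp (-(a * m)))) := by
    linear_combination (676 * m ^ 2 * K ^ 2 * U ^ 2) * h1
  have e3 : η' * m ^ 3 / 4 * (Real.exp (-2) * U ^ 2 / 4 * (2 * (c / m)) ^ 2) ≤
      η' * m ^ 3 / 4 * I := mul_le_mul_of_nonneg_left hlow (by positivity)
  have e4 : η' * m ^ 3 / 4 * (Real.exp (-2) * U ^ 2 / 4 * (2 * (c / m)) ^ 2) =
      U ^ 2 * m * (η' * (Real.exp (-2) * c ^ 2 / 4)) := by
    field_simp
    ring
  rw [e4] at e3
  rw [e5] at hup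
  exact le_of_mul_le_mul_left (e3.trans hup) (by positivity)

open Pool.Agent.H24.Near.TouchingX in
theorem touching2 : ∃ K : ℝ, 20 ≤ K ∧
    ∀ (m b1 b2 A B C κ : ℝ) (q u : ℝ × ℝ → ℝ), K ≤ m → b1 ^ 2 + b2 ^ 2 = 1 → 0 < -(A + C) →
      A ^ 2 + 2 * B ^ 2 + C ^ 2 ≤ -(A + C) / 100 → 0 < κ →
      K * (1 + Real.log (m / -(A + C))) ≤ κ * m → Smooth q → Smooth u →
      (∀ p ∈ closedBall (0 : ℝ × ℝ) 1, lap u p + q p * u p = 0) →
      (∀ p ∈ closedBall (0 : ℝ × ℝ) 1, |q p| ≤ m ^ 2 / 5000 ∧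
        (A ^ 2 + 2 * B ^ 2 + C ^ 2) * (q p) ^ 2 ≤ (-(A + C) * m ^ 2 / 100) ^ 2 ∧
        |d1 q p| ≤ -(A + C) * m ^ 2 / 100 ∧ |d2 q p| ≤ -(A + C) * m ^ 2 / 100) →
      (∀ p ∈ closedBall (0 : ℝ × ℝ) 1, |u p| ≤ |u 0| * Real.exp (m * (b1 * p.1 + b2 * p.2 +
        (A * p.1 ^ 2 + 2 * B * p.1 * p.2 + C * p.2 ^ 2) / 2 - κ * (p.1 ^ 2 + p.2 ^ 2)))) →
      u 0 = 0 := by
  obtain ⟨χ, Kχ, hKχ, hχs, hχc, hχ1, hχ0, hχb, hχK⟩ := exists_cutoff
  set D : ℝ := 676 * Kχ ^ 2 * Real.exp 6 with hD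
  set E : ℝ := Real.exp (-2) * (Real.exp (-6) / 12) ^ 2 / 4 with hE
  have hE0 : 0 < E := by positivity
  have hD0 : 0 ≤ D := by positivity
  refine ⟨max 20 (5 / 2 * (D / E)), le_max_left _ _, ?_⟩
  intro m b1 b2 A B C κ q u hm hb htr hM hκ hlog hqs hus hsol hq H
  set K : ℝ := max 20 (5 / 2 * (D / E)) with hK
  have hK20 : 20 ≤ K := le_max_left _ _
  have hKD : 5 / 2 * (D / E) ≤ K := le_max_right _ _
  have hm20 : 20 ≤ m := hK20.trans hm
  have hm0 : 0 < m := by linarith only [hm, hK20]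
  by_contra hu0
  have hU0 : 0 < |u 0| := abs_pos.2 hu0
  have hη' : -(A + C) ≤ 1 / 50 := by
    nlinarith only [hM, sq_nonneg (A - C), sq_nonneg B]
  have hder : -(A + C) * m ^ 2 / 100 ≤ m ^ 2 / 5000 := by nlinarith only [hη']
  have hsol' : Sol q u (m ^ 2 / 5000) (closedBall (0 : ℝ × ℝ) 1) :=
    ⟨hqs, hus, hsol, fun p hp => (hq p hp).1, fun p hp => (hq p hp).2.2.1.trans hder,
      fun p hp => (hq p hp).2.2.2.trans hder⟩
  have X : Ctx m b1 b2 A B C κ (m ^ 2 / 5000) q u := by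
    refine ⟨hm20, ?_, ?_, ?_, ?_, ?_, hκ, le_refl _, hsol', H⟩
    · exact abs_le_one_iff_mul_self_le_one.2 (by nlinarith only [hb, sq_nonneg b2])
    · exact abs_le_one_iff_mul_self_le_one.2 (by nlinarith only [hb])
    · exact abs_le_of_sq_le_sq (by nlinarith only [hM, hη', sq_nonneg B]) (by norm_num)
    · exact abs_le_of_sq_le_sq (by nlinarith only [hM, hη', sq_nonneg A, sq_nonneg C]) (by norm_num)
    · exact abs_le_of_sq_le_sq (by nlinarith only [hM, hη']) (by norm_num)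
  have hvs : Smooth (fun x => W m b1 b2 A B C x * (χ x * u x)) :=
    ContDiff.mul (W_smooth m b1 b2 A B C) (ContDiff.mul hχs hus)
  have hvc : HasCompactSupport (fun x => W m b1 b2 A B C x * (χ x * u x)) := by
    apply HasCompactSupport.mul_left
    exact hχc.mul_right
  have hvsupp : ∀ p, W m b1 b2 A B C p * (χ p * u p) ≠ 0 → p ∈ closedBall (0 : ℝ × ℝ) 1 := by
    intro p hp
    by_contra hcon
    have h1 : p ∉ closedBall (0 : ℝ × ℝ) (3 / 4) := fun h =>
      hcon (closedBall_subset_closedBall (by norm_num) h)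
    apply hp
    rw [(hχ0 p h1).1]
    ring
  have hup := X.up hKχ hχs hχ0 hχb hχK
  have hupi := int_up (conj_cont hqs hvs b1 b2 A B C m) (fun p => (hup p).1)
    (fun p => (hup p).2)
  have hcar := carleman2 (b1 := b1) (b2 := b2) (A := A) (B := B) (C := C) (η := -(A + C)) (m := m)
    hqs hvs hvc hvsupp hb (by ring) htr hM hm20 (fun p hp => (hq p hp).2)
  have hfin := touch2_final htr hU0 hm20 (X.int_low hχs hχc hχ1) (hcar.trans hupi)
  rw [← hD, ← hE] at hfin
  -- the numerical contradiction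
  generalize -(A + C) = η' at *
  have hratio : 1 ≤ m / η' := by
    rw [le_div_iff₀ htr]
    linarith only [hm, hK20, htr, hη']
  have hL0 : 0 ≤ Real.log (m / η') := Real.log_nonneg hratio
  have hexpL : Real.exp (Real.log (m / η')) = m / η' := Real.exp_log (by linarith only [hratio])
  have hK25 : D / E + 1 ≤ Real.exp (2 * K / 5) := by
    have h1 := Real.add_one_le_exp (2 * K / 5)
    linarith only [hKD, h1]
  have hbig : Real.exp (2 * K / 5) * (m / η') ≤ Real.exp (2 * κ / 5 * m) := by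
    have h0 : Real.exp (2 * K / 5) * (m / η')
        = Real.exp (2 * K / 5 + Real.log (m / η')) := by
      rw [Real.exp_add, hexpL]
    rw [h0]
    apply Real.exp_le_exp.2
    have h1 : K * Real.log (m / η') ≥ 20 * Real.log (m / η') :=
      mul_le_mul_of_nonneg_right hK20 hL0
    nlinarith only [hlog, h1, hL0]
  have hlt : D / E * (m / η') < Real.exp (2 * κ / 5 * m) := by
    calc D / E * (m / η') < (D / E + 1) * (m / η') := by
          apply mul_lt_mul_of_pos_right (by linarith only []) (by linarith only [hratio])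
      _ ≤ Real.exp (2 * K / 5) * (m / η') := mul_le_mul_of_nonneg_right hK25 (by linarith only [hratio])
      _ ≤ _ := hbig
  have hle : η' * E * Real.exp (2 * κ / 5 * m) ≤ D * m := by
    have h1 : Real.exp (-(2 * κ / 5 * m)) * Real.exp (2 * κ / 5 * m) = 1 := by
      rw [← Real.exp_add]; simp
    calc η' * E * Real.exp (2 * κ / 5 * m)
        ≤ D * (m * Real.exp (-(2 * κ / 5 * m))) * Real.exp (2 * κ / 5 * m) :=
          mul_le_mul_of_nonneg_right hfin (Real.exp_pos _).le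
      _ = D * m := by linear_combination (D * m) * h1
  have h2 : D / E * (m / η') * (η' * E) = D * m := by
    field_simp
  have h3 : D / E * (m / η') * (η' * E) < Real.exp (2 * κ / 5 * m) * (η' * E) :=
    mul_lt_mul_of_pos_right hlt (by positivity)
  linarith only [hle, h2, h3]

end Pool.Agent.H5.Yau
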