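import Pool.Agent.H5.Yau.Defs
import Pool.Agent.H5.Yau.Touching2

set_option autoImplicit false

/-!
# The comparison principle for tilted solutions, large slope
-/

namespace Pool.Agent.H5.Yau

open MeasureTheory Set Metric Pool.Agent.H24.Near

namespace CompAffX

lemma d2_d1 {v : ℝ × ℝ → ℝ} (hv : Smooth v) (p : ℝ × ℝ) :
    d1 (d2 v) p = d2 (d1 v) p := by
  have hsym : IsSymmSndFDerivAt ℝ v p := by
    apply ContDiffAt.isSymmSndFDerivAt (n := (⊤ : ℕ∞)) hv.contDiffAt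
    simp only [minSmoothness_of_isRCLikeNormedField]
    have : ((2 : ℕ∞) : WithTop ℕ∞) ≤ ((⊤ : ℕ∞) : WithTop ℕ∞) := WithTop.coe_le_coe.2 le_top
    exact this
  have hd : DifferentiableAt ℝ (fderiv ℝ v) p := by
    have h1 : ContDiff ℝ (⊤ : ℕ∞) (fderiv ℝ v) := ContDiff.fderiv_right hv (by simp)
    exact (h1.differentiable (by simp)) p
  have e : ∀ w w' : ℝ × ℝ, fderiv ℝ (fun x => fderiv ℝ v x w) p w'
      = fderiv ℝ (fderiv ℝ v) p w' w := by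
    intro w w'
    have h2 := (ContinuousLinearMap.hasFDerivAt (ContinuousLinearMap.apply ℝ ℝ w)).comp p
      hd.hasFDerivAt
    have h3 : fderiv ℝ (fun x => fderiv ℝ v x w) p
        = (ContinuousLinearMap.apply ℝ ℝ w).comp (fderiv ℝ (fderiv ℝ v) p) := h2.fderiv
    rw [h3]
    rfl
  show fderiv ℝ (fun x => fderiv ℝ v x (0, 1)) p (1, 0)
    = fderiv ℝ (fun x => fderiv ℝ v x (1, 0)) p (0, 1)
  rw [e, e]
  exact hsym _ _

lemma nonpos_of_deriv {g g' : ℝ → ℝ} (h : ∀ t ∈ Icc (0 : ℝ) 1, HasDerivAt g (g' t) t)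
    (hg' : ∀ t ∈ Icc (0 : ℝ) 1, g' t ≤ 0) (h0 : g 0 ≤ 0) : ∀ t ∈ Icc (0 : ℝ) 1, g t ≤ 0 := by
  have hanti : AntitoneOn g (Icc (0 : ℝ) 1) := by
    apply antitoneOn_of_deriv_nonpos (convex_Icc 0 1)
    · exact fun t ht => (h t ht).continuousAt.continuousWithinAt
    · intro t ht
      exact (h t (interior_subset ht)).differentiableAt.differentiableWithinAt
    · intro t ht
      rw [(h t (interior_subset ht)).deriv]
      exact hg' t (interior_subset ht)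
  intro t ht
  exact (hanti (left_mem_Icc.2 zero_le_one) ht ht.1).trans h0

lemma taylor3 {f f1 f2 f3 : ℝ → ℝ} {C : ℝ}
    (h0 : ∀ t ∈ Icc (0 : ℝ) 1, HasDerivAt f (f1 t) t)
    (h1 : ∀ t ∈ Icc (0 : ℝ) 1, HasDerivAt f1 (f2 t) t)
    (h2 : ∀ t ∈ Icc (0 : ℝ) 1, HasDerivAt f2 (f3 t) t)
    (h3 : ∀ t ∈ Icc (0 : ℝ) 1, f3 t ≤ C) :
    f 1 ≤ f 0 + f1 0 + f2 0 / 2 + C / 6 := by
  have s2 : ∀ t ∈ Icc (0 : ℝ) 1, f2 t - f2 0 - C * t ≤ 0 := by
    apply nonpos_of_deriv (g' := fun t => f3 t - C)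
    · intro t ht
      have := ((h2 t ht).sub_const (f2 0)).sub ((hasDerivAt_id t).const_mul C)
      exact this.congr_deriv (by simp)
    · intro t ht
      linarith [h3 t ht]
    · simp
  have s1 : ∀ t ∈ Icc (0 : ℝ) 1, f1 t - f1 0 - f2 0 * t - C * t ^ 2 / 2 ≤ 0 := by
    apply nonpos_of_deriv (g' := fun t => f2 t - f2 0 - C * t)
    · intro t ht
      have e1 := ((h1 t ht).sub_const (f1 0)).sub ((hasDerivAt_id t).const_mul (f2 0))
      have e2 := ((hasDerivAt_pow 2 t).const_mul C).div_const 2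
      have e3 := e1.sub e2
      exact e3.congr_deriv (by simp; ring)
    · intro t ht
      exact s2 t ht
    · simp
  have s0 : ∀ t ∈ Icc (0 : ℝ) 1, f t - f 0 - f1 0 * t - f2 0 * t ^ 2 / 2 - C * t ^ 3 / 6 ≤ 0 := by
    apply nonpos_of_deriv (g' := fun t => f1 t - f1 0 - f2 0 * t - C * t ^ 2 / 2)
    · intro t ht
      have e1 := ((h0 t ht).sub_const (f 0)).sub ((hasDerivAt_id t).const_mul (f1 0))
      have e2 := ((hasDerivAt_pow 2 t).const_mul (f2 0)).div_const 2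
      have e3 := ((hasDerivAt_pow 3 t).const_mul C).div_const 6
      have e4 := (e1.sub e2).sub e3
      exact e4.congr_deriv (by simp; ring)
    · intro t ht
      exact s1 t ht
    · simp
  have := s0 1 (right_mem_Icc.2 zero_le_one)
  norm_num at this
  linarith

lemma hasDerivAt_line {F : ℝ × ℝ → ℝ} (hF : Smooth F) (z w : ℝ × ℝ) (t : ℝ) :
    HasDerivAt (fun t : ℝ => F (z + t • w)) (d1 F (z + t • w) * w.1 + d2 F (z + t • w) * w.2) t := by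
  have h1 : HasDerivAt (fun t : ℝ => z + t • w) w t := by
    have := ((hasDerivAt_id t).smul_const w).const_add z
    simpa using this
  have h2 := (hF.hasFDerivAt (z + t • w)).comp_hasDerivAt t h1
  rw [fderiv_apply_eq] at h2
  exact h2

lemma taylor_psi {ψ : ℝ × ℝ → ℝ} (hψ : Smooth ψ) {L : ℝ} (z w : ℝ × ℝ)
    (hL : ∀ l : List Bool, l.length = 3 → ∀ y ∈ closedBall z ‖w‖, |der l ψ y| ≤ L) :
    ψ (z + w) ≤ ψ z + (d1 ψ z * w.1 + d2 ψ z * w.2) + (d1 (d1 ψ) z * w.1 ^ 2 +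
      2 * d1 (d2 ψ) z * w.1 * w.2 + d2 (d2 ψ) z * w.2 ^ 2) / 2 + 8 * L * ‖w‖ ^ 3 / 6 := by
  have hball : ∀ t ∈ Icc (0 : ℝ) 1, z + t • w ∈ closedBall z ‖w‖ := by
    intro t ht
    rw [mem_closedBall, dist_eq_norm, add_sub_cancel_left, norm_smul, Real.norm_eq_abs,
      abs_of_nonneg ht.1]
    exact mul_le_of_le_one_left (norm_nonneg _) ht.2
  have hw1 : |w.1| ≤ ‖w‖ := by
    have := norm_fst_le w; rwa [Real.norm_eq_abs] at this
  have hw2 : |w.2| ≤ ‖w‖ := by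
    have := norm_snd_le w; rwa [Real.norm_eq_abs] at this
  have key := taylor3 (f := fun t => ψ (z + t • w))
    (f1 := fun t => d1 ψ (z + t • w) * w.1 + d2 ψ (z + t • w) * w.2)
    (f2 := fun t => (d1 (d1 ψ) (z + t • w) * w.1 + d2 (d1 ψ) (z + t • w) * w.2) * w.1 +
      (d1 (d2 ψ) (z + t • w) * w.1 + d2 (d2 ψ) (z + t • w) * w.2) * w.2)
    (f3 := fun t => ((d1 (d1 (d1 ψ)) (z + t • w) * w.1 + d2 (d1 (d1 ψ)) (z + t • w) * w.2) * w.1 +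
        (d1 (d2 (d1 ψ)) (z + t • w) * w.1 + d2 (d2 (d1 ψ)) (z + t • w) * w.2) * w.2) * w.1 +
      ((d1 (d1 (d2 ψ)) (z + t • w) * w.1 + d2 (d1 (d2 ψ)) (z + t • w) * w.2) * w.1 +
        (d1 (d2 (d2 ψ)) (z + t • w) * w.1 + d2 (d2 (d2 ψ)) (z + t • w) * w.2) * w.2) * w.2)
    (C := 8 * L * ‖w‖ ^ 3)
    (fun t _ => hasDerivAt_line hψ z w t)
    (fun t _ => ((hasDerivAt_line hψ.d1 z w t).mul_const _).add
      ((hasDerivAt_line hψ.d2 z w t).mul_const _))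
    (fun t _ => ((((hasDerivAt_line hψ.d1.d1 z w t).mul_const _).add
      ((hasDerivAt_line hψ.d1.d2 z w t).mul_const _)).mul_const _).add
      ((((hasDerivAt_line hψ.d2.d1 z w t).mul_const _).add
      ((hasDerivAt_line hψ.d2.d2 z w t).mul_const _)).mul_const _))
    (by
      intro t ht
      have hy := hball t ht
      set y := z + t • w
      have hL0 : 0 ≤ L := (abs_nonneg _).trans (hL [false, false, false] rfl y hy)
      have b : ∀ (c x1 x2 x3 : ℝ), |c| ≤ L → |x1| ≤ ‖w‖ → |x2| ≤ ‖w‖ → |x3| ≤ ‖w‖ →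
          c * x1 * x2 * x3 ≤ L * ‖w‖ ^ 3 := by
        intro c x1 x2 x3 hc h1 h2 h3
        calc c * x1 * x2 * x3 ≤ |c * x1 * x2 * x3| := le_abs_self _
          _ = |c| * |x1| * |x2| * |x3| := by rw [abs_mul, abs_mul, abs_mul]
          _ ≤ L * ‖w‖ * ‖w‖ * ‖w‖ := by gcongr
          _ = L * ‖w‖ ^ 3 := by ring
      have b1 := b (d1 (d1 (d1 ψ)) y) w.1 w.1 w.1 (hL [false, false, false] rfl y hy) hw1 hw1 hw1
      have b2 := b (d2 (d1 (d1 ψ)) y) w.2 w.1 w.1 (hL [true, false, false] rfl y hy) hw2 hw1 hw1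
      have b3 := b (d1 (d2 (d1 ψ)) y) w.1 w.2 w.1 (hL [false, true, false] rfl y hy) hw1 hw2 hw1
      have b4 := b (d2 (d2 (d1 ψ)) y) w.2 w.2 w.1 (hL [true, true, false] rfl y hy) hw2 hw2 hw1
      have b5 := b (d1 (d1 (d2 ψ)) y) w.1 w.1 w.2 (hL [false, false, true] rfl y hy) hw1 hw1 hw2
      have b6 := b (d2 (d1 (d2 ψ)) y) w.2 w.1 w.2 (hL [true, false, true] rfl y hy) hw2 hw1 hw2
      have b7 := b (d1 (d2 (d2 ψ)) y) w.1 w.2 w.2 (hL [false, true, true] rfl y hy) hw1 hw2 hw2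
      have b8 := b (d2 (d2 (d2 ψ)) y) w.2 w.2 w.2 (hL [true, true, true] rfl y hy) hw2 hw2 hw2
      linarith)
  simp only [one_smul, zero_smul, add_zero] at key
  rw [← d2_d1 hψ z] at key
  linarith

/-- The statement of `touching2` with the constant `Kt`. -/
def Touch (Kt : ℝ) : Prop :=
    ∀ (m b1 b2 A B C κ : ℝ) (q u : ℝ × ℝ → ℝ), Kt ≤ m → b1 ^ 2 + b2 ^ 2 = 1 → 0 < -(A + C) →
      A ^ 2 + 2 * B ^ 2 + C ^ 2 ≤ -(A + C) / 100 → 0 < κ →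
      Kt * (1 + Real.log (m / -(A + C))) ≤ κ * m → Smooth q → Smooth u →
      (∀ p ∈ closedBall (0 : ℝ × ℝ) 1, lap u p + q p * u p = 0) →
      (∀ p ∈ closedBall (0 : ℝ × ℝ) 1, |q p| ≤ m ^ 2 / 5000 ∧
        (A ^ 2 + 2 * B ^ 2 + C ^ 2) * (q p) ^ 2 ≤ (-(A + C) * m ^ 2 / 100) ^ 2 ∧
        |d1 q p| ≤ -(A + C) * m ^ 2 / 100 ∧ |d2 q p| ≤ -(A + C) * m ^ 2 / 100) →
      (∀ p ∈ closedBall (0 : ℝ × ℝ) 1, |u p| ≤ |u 0| * Real.exp (m * (b1 * p.1 + b2 * p.2 +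
        (A * p.1 ^ 2 + 2 * B * p.1 * p.2 + C * p.2 ^ 2) / 2 - κ * (p.1 ^ 2 + p.2 ^ 2)))) →
      u 0 = 0

/-- The size of the gradient of the weight. -/
lemma slope_bounds {m L K : ℝ} {g : ℝ × ℝ} {e1 e2 : ℝ} (hm : 0 ≤ m) (hKL : 2 * L ≤ K)
    (he1 : |e1| ≤ L) (he2 : |e2| ≤ L) (hg : K * m ≤ ‖g‖) :
    ‖g‖ / 2 ≤ √((g.1 + m * e1) ^ 2 + (g.2 + m * e2) ^ 2) ∧
      √((g.1 + m * e1) ^ 2 + (g.2 + m * e2) ^ 2) ≤ 3 * ‖g‖ := by
  have hL0 : 0 ≤ L := (abs_nonneg _).trans he1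
  have hG : 0 ≤ ‖g‖ := norm_nonneg _
  have hmL : m * L ≤ ‖g‖ / 2 := by nlinarith
  have h1 : |m * e1| ≤ ‖g‖ / 2 := by
    rw [abs_mul, abs_of_nonneg hm]
    exact (mul_le_mul_of_nonneg_left he1 hm).trans hmL
  have h2 : |m * e2| ≤ ‖g‖ / 2 := by
    rw [abs_mul, abs_of_nonneg hm]
    exact (mul_le_mul_of_nonneg_left he2 hm).trans hmL
  have hg1 : |g.1| ≤ ‖g‖ := by
    have := norm_fst_le g; rwa [Real.norm_eq_abs] at this
  have hg2 : |g.2| ≤ ‖g‖ := by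
    have := norm_snd_le g; rwa [Real.norm_eq_abs] at this
  have hmax : ‖g‖ = |g.1| ∨ ‖g‖ = |g.2| := by
    rw [Prod.norm_def, Real.norm_eq_abs, Real.norm_eq_abs]
    exact max_choice _ _
  constructor
  · rw [Real.le_sqrt (by positivity) (by positivity)]
    rcases hmax with h | h
    · have h3 : ‖g‖ / 2 ≤ |g.1 + m * e1| := by
        have := abs_sub_abs_le_abs_sub g.1 (-(m * e1))
        rw [abs_neg, sub_neg_eq_add] at this
        linarith only [h1, h, this]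
      have h4 : (‖g‖ / 2) ^ 2 ≤ (g.1 + m * e1) ^ 2 := by
        rw [← sq_abs (g.1 + m * e1)]
        exact pow_le_pow_left₀ (by positivity) h3 2
      have h5 : 0 ≤ (g.2 + m * e2) ^ 2 := sq_nonneg _
      linarith only [h4, h5]
    · have h3 : ‖g‖ / 2 ≤ |g.2 + m * e2| := by
        have := abs_sub_abs_le_abs_sub g.2 (-(m * e2))
        rw [abs_neg, sub_neg_eq_add] at this
        linarith only [h2, h, this]
      have h4 : (‖g‖ / 2) ^ 2 ≤ (g.2 + m * e2) ^ 2 := by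
        rw [← sq_abs (g.2 + m * e2)]
        exact pow_le_pow_left₀ (by positivity) h3 2
      have h5 : 0 ≤ (g.1 + m * e1) ^ 2 := sq_nonneg _
      linarith only [h4, h5]
  · rw [Real.sqrt_le_left (by positivity)]
    have h3 : |g.1 + m * e1| ≤ 3 * ‖g‖ / 2 := by
      have := abs_add_le g.1 (m * e1)
      linarith only [h1, hg1, this]
    have h4 : |g.2 + m * e2| ≤ 3 * ‖g‖ / 2 := by
      have := abs_add_le g.2 (m * e2)
      linarith only [h2, hg2, this]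
    have h5 : (g.1 + m * e1) ^ 2 ≤ (3 * ‖g‖ / 2) ^ 2 := by
      rw [← sq_abs (g.1 + m * e1)]
      exact pow_le_pow_left₀ (abs_nonneg _) h3 2
    have h6 : (g.2 + m * e2) ^ 2 ≤ (3 * ‖g‖ / 2) ^ 2 := by
      rw [← sq_abs (g.2 + m * e2)]
      exact pow_le_pow_left₀ (abs_nonneg _) h4 2
    nlinarith only [h5, h6]

lemma num_tr {τ η p11 p22 : ℝ} (hτ : 0 ≤ τ) (htr : p11 + p22 ≤ -η) :
    τ * (η / 2) ≤ -(τ * (p11 + η / 4) + τ * (p22 + η / 4)) := by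
  have h := mul_le_mul_of_nonneg_left htr hτ
  linarith

lemma num_ABC {τ η L p11 p12 p22 : ℝ} (hη : 0 < η) (h11 : |p11| ≤ L) (h12 : |p12| ≤ L)
    (h22 : |p22| ≤ L) :
    (τ * (p11 + η / 4)) ^ 2 + 2 * (τ * p12) ^ 2 + (τ * (p22 + η / 4)) ^ 2 ≤
      4 * τ ^ 2 * (L + η) ^ 2 := by
  have e1 : (p11 + η / 4) ^ 2 ≤ (L + η) ^ 2 := by
    apply sq_le_sq'
    · linarith only [hη, h11, neg_abs_le p11]
    · linarith only [hη, h11, le_abs_self p11]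
  have e2 : p12 ^ 2 ≤ (L + η) ^ 2 := by
    apply sq_le_sq'
    · linarith [neg_abs_le p12]
    · linarith [le_abs_self p12]
  have e3 : (p22 + η / 4) ^ 2 ≤ (L + η) ^ 2 := by
    apply sq_le_sq'
    · linarith [neg_abs_le p22]
    · linarith only [hη, h22, le_abs_self p22]
  calc (τ * (p11 + η / 4)) ^ 2 + 2 * (τ * p12) ^ 2 + (τ * (p22 + η / 4)) ^ 2
      = τ ^ 2 * ((p11 + η / 4) ^ 2 + 2 * p12 ^ 2 + (p22 + η / 4) ^ 2) := by ring
    _ ≤ τ ^ 2 * ((L + η) ^ 2 + 2 * (L + η) ^ 2 + (L + η) ^ 2) := by gcongr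
    _ = 4 * τ ^ 2 * (L + η) ^ 2 := by ring

lemma num_small {τ η L K X E : ℝ} (hτ : 0 ≤ τ) (hη : 0 < η) (k3 : 1600 * (L + η) ^ 2 ≤ K * η)
    (hτK : τ * K ≤ 2) (hX : X ≤ 4 * τ ^ 2 * (L + η) ^ 2) (hE : τ * (η / 2) ≤ E) :
    X ≤ E / 100 := by
  have h1 : τ * (1600 * (L + η) ^ 2) ≤ τ * (K * η) := mul_le_mul_of_nonneg_left k3 hτ
  have h2 : τ * K * η ≤ 2 * η := mul_le_mul_of_nonneg_right hτK hη.le
  have h3 : 800 * (τ * (L + η) ^ 2) ≤ η := by linarith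
  have h4 : τ * (800 * (τ * (L + η) ^ 2)) ≤ τ * η := mul_le_mul_of_nonneg_left h3 hτ
  have h5 : 4 * τ ^ 2 * (L + η) ^ 2 = τ * (800 * (τ * (L + η) ^ 2)) / 200 := by ring
  linarith only [hX, hE, h4]

lemma num_log {Kt τ η ρ α m G K ℓ E : ℝ} (hKt : 20 ≤ Kt) (hη : 0 < η) (hρ : 0 < ρ)
    (hα0 : 0 < α) (hα2 : α ≤ 3 * G) (hG0 : 0 < G) (hτ0 : 0 < τ) (hτα : τ * α = m * ρ)
    (hm1 : 1 ≤ m) (hm : K * (1 + Real.log (1 + G)) ≤ m)
    (hℓ : ℓ = |Real.log (18 / η)|) (k6 : 16 * Kt * (2 + ℓ) ≤ K * (ρ ^ 2 * η))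
    (hE : τ * (η / 2) ≤ E) : Kt * (1 + Real.log (ρ * α / E)) ≤ τ * (η / 16) * (ρ * α) := by
  have hE0 : 0 < E := lt_of_lt_of_le (by positivity) hE
  have hℓ0 : 0 ≤ ℓ := by rw [hℓ]; exact abs_nonneg _
  have hlogG : 0 ≤ Real.log (1 + G) := Real.log_nonneg (by linarith)
  have hκm : τ * (η / 16) * (ρ * α) = m * ρ ^ 2 * η / 16 := by
    calc τ * (η / 16) * (ρ * α) = (τ * α) * ρ * η / 16 := by ring
      _ = m * ρ ^ 2 * η / 16 := by rw [hτα]; ring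
  rw [hκm]
  have h1 : ρ * α / E ≤ 18 / η * G ^ 2 := by
    rw [div_le_iff₀ hE0]
    have h2 : 18 / η * G ^ 2 * (τ * (η / 2)) ≤ 18 / η * G ^ 2 * E := by gcongr
    have h3 : 18 / η * G ^ 2 * (τ * (η / 2)) = 9 * G ^ 2 * τ := by field_simp; ring
    have h4 : α * (ρ * α) ≤ α * (9 * G ^ 2 * τ) := by
      calc α * (ρ * α) = ρ * α ^ 2 := by ring
        _ ≤ ρ * (3 * G) ^ 2 := by gcongr
        _ = 9 * G ^ 2 * (1 * ρ) := by ring
        _ ≤ 9 * G ^ 2 * (m * ρ) := by gcongr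
        _ = α * (9 * G ^ 2 * τ) := by rw [← hτα]; ring
    have h5 := le_of_mul_le_mul_left h4 hα0
    linarith
  have h2 : Real.log (ρ * α / E) ≤ ℓ + 2 * Real.log (1 + G) := by
    calc Real.log (ρ * α / E) ≤ Real.log (18 / η * G ^ 2) :=
          Real.log_le_log (by positivity) h1
      _ = Real.log (18 / η) + 2 * Real.log G := by
          rw [Real.log_mul (by positivity) (by positivity), Real.log_pow]
          norm_num
      _ ≤ ℓ + 2 * Real.log (1 + G) := by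
          have h3 : Real.log G ≤ Real.log (1 + G) := Real.log_le_log hG0 (by linarith only [])
          have h4 : Real.log (18 / η) ≤ ℓ := by rw [hℓ]; exact le_abs_self _
          linarith only [h3, h4]
  have h3 : Kt * (1 + Real.log (ρ * α / E)) ≤ Kt * ((2 + ℓ) * (1 + Real.log (1 + G))) := by
    have hKt0 : 0 ≤ Kt := by linarith only [hKt]
    refine mul_le_mul_of_nonneg_left ?_ hKt0
    have := mul_nonneg hℓ0 hlogG
    linarith only [h2, this]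
  have h4 : 16 * Kt * (2 + ℓ) * (1 + Real.log (1 + G)) ≤
      K * (ρ ^ 2 * η) * (1 + Real.log (1 + G)) :=
    mul_le_mul_of_nonneg_right k6 (by linarith only [hlogG])
  have h5 : K * (1 + Real.log (1 + G)) * (ρ ^ 2 * η) ≤ m * (ρ ^ 2 * η) :=
    mul_le_mul_of_nonneg_right hm (by positivity)
  linarith only [h3, h4, h5]

lemma num_E {τ η ρ α m E : ℝ} (hτα : τ * α = m * ρ) (hE : τ * (η / 2) ≤ E) :
    m * ρ ^ 3 * α * η / 200 ≤ E * (ρ * α) ^ 2 / 100 := by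
  have h1 : τ * (η / 2) * (ρ * α) ^ 2 / 100 ≤ E * (ρ * α) ^ 2 / 100 := by gcongr
  have h2 : τ * (η / 2) * (ρ * α) ^ 2 / 100 = m * ρ ^ 3 * α * η / 200 := by
    calc τ * (η / 2) * (ρ * α) ^ 2 / 100 = (τ * α) * α * ρ ^ 2 * η / 200 := by ring
      _ = m * ρ ^ 3 * α * η / 200 := by rw [hτα]; ring
  rwa [h2] at h1

lemma num_dq {ς Λ K η ρ α m G : ℝ} (hς : 0 ≤ ς) (hη : 0 < η) (hρ : 0 ≤ ρ) (hm : 0 ≤ m)
    (hα1 : G / 2 ≤ α) (k5 : 400 ≤ K * η) (h : K * ς * Λ ^ 2 ≤ m * G) :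
    ρ * ς * (ρ * Λ) ^ 2 ≤ m * ρ ^ 3 * α * η / 200 := by
  have h1 : K * ς * Λ ^ 2 ≤ m * (2 * α) := h.trans (mul_le_mul_of_nonneg_left (by linarith) hm)
  have h2 : 0 ≤ ς * Λ ^ 2 := by positivity
  have h3 : 400 * (ς * Λ ^ 2) ≤ K * η * (ς * Λ ^ 2) := mul_le_mul_of_nonneg_right k5 h2
  have h4 : η * (K * ς * Λ ^ 2) ≤ η * (m * (2 * α)) := mul_le_mul_of_nonneg_left h1 hη.le
  have h5 : ς * Λ ^ 2 ≤ m * α * η / 200 := by linarith
  calc ρ * ς * (ρ * Λ) ^ 2 = ρ ^ 3 * (ς * Λ ^ 2) := by ring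
    _ ≤ ρ ^ 3 * (m * α * η / 200) := by gcongr
    _ = m * ρ ^ 3 * α * η / 200 := by ring

lemma num_Λ {Λ K α G : ℝ} (hΛ : 0 ≤ Λ) (hK : 0 ≤ K) (hα1 : G / 2 ≤ α)
    (h : K * (1 + Λ) ≤ G) : K ^ 2 * Λ ^ 2 ≤ 4 * α ^ 2 := by
  have h1 : K * Λ ≤ 2 * α := by linarith
  have h2 := pow_le_pow_left₀ (by positivity) h1 2
  calc K ^ 2 * Λ ^ 2 = (K * Λ) ^ 2 := by ring
    _ ≤ (2 * α) ^ 2 := h2
    _ = 4 * α ^ 2 := by ring

lemma num_q {Λ K α ρ : ℝ} (k0 : 200 ≤ K) (h : K ^ 2 * Λ ^ 2 ≤ 4 * α ^ 2) :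
    (ρ * Λ) ^ 2 ≤ (ρ * α) ^ 2 / 5000 := by
  have h1 : 5000 * Λ ^ 2 ≤ α ^ 2 := by
    have h2 : (200 : ℝ) ^ 2 ≤ K ^ 2 := pow_le_pow_left₀ (by norm_num) k0 2
    have h3 := mul_le_mul_of_nonneg_right h2 (sq_nonneg Λ)
    linarith only [h, h3, sq_nonneg Λ]
  have h3 := mul_le_mul_of_nonneg_left h1 (sq_nonneg ρ)
  calc (ρ * Λ) ^ 2 = ρ ^ 2 * (5000 * Λ ^ 2) / 5000 := by ring
    _ ≤ ρ ^ 2 * α ^ 2 / 5000 := by gcongr
    _ = (ρ * α) ^ 2 / 5000 := by ring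

lemma num_Mq {Λ K α ρ τ η L m X E Q : ℝ} (hη : 0 < η) (hL : 0 ≤ L) (hρ : 0 ≤ ρ) (hτ0 : 0 ≤ τ)
    (hτα : τ * α = m * ρ) (hK : 1 ≤ K) (k4 : 1600 * (L + η) ≤ K * η)
    (h : K ^ 2 * Λ ^ 2 ≤ 4 * α ^ 2) (hX : X ≤ 4 * τ ^ 2 * (L + η) ^ 2)
    (hE : m * ρ ^ 3 * α * η / 200 ≤ E * (ρ * α) ^ 2 / 100) (hQ : |Q| ≤ (ρ * Λ) ^ 2) :
    X * Q ^ 2 ≤ (E * (ρ * α) ^ 2 / 100) ^ 2 := by
  have h1 : Q ^ 2 ≤ ((ρ * Λ) ^ 2) ^ 2 := by
    rw [← sq_abs Q]
    exact pow_le_pow_left₀ (abs_nonneg _) hQ 2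
  have h2 : X * Q ^ 2 ≤ 4 * τ ^ 2 * (L + η) ^ 2 * ((ρ * Λ) ^ 2) ^ 2 :=
    (mul_le_mul_of_nonneg_right hX (sq_nonneg Q)).trans
      (mul_le_mul_of_nonneg_left h1 (by positivity))
  refine h2.trans ?_
  have h3 : 4 * τ ^ 2 * (L + η) ^ 2 * ((ρ * Λ) ^ 2) ^ 2 =
      (2 * τ * (L + η) * (ρ * Λ) ^ 2) ^ 2 := by ring
  rw [h3]
  refine pow_le_pow_left₀ (by positivity) ?_ 2
  refine le_trans ?_ hE
  have h4 : 400 * (L + η) * Λ ^ 2 ≤ η * α ^ 2 := by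
    have h5 : K * η ≤ K ^ 2 * η := by
      have : K * 1 ≤ K * K := mul_le_mul_of_nonneg_left hK (by linarith only [hK])
      calc K * η = K * 1 * η := by ring
        _ ≤ K * K * η := mul_le_mul_of_nonneg_right this hη.le
        _ = K ^ 2 * η := by ring
    have h6 : 1600 * (L + η) * Λ ^ 2 ≤ K ^ 2 * η * Λ ^ 2 :=
      mul_le_mul_of_nonneg_right (k4.trans h5) (sq_nonneg _)
    have h7 : η * (K ^ 2 * Λ ^ 2) ≤ η * (4 * α ^ 2) := mul_le_mul_of_nonneg_left h hη.le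
    linarith only [h6, h7]
  calc 2 * τ * (L + η) * (ρ * Λ) ^ 2 = τ * ρ ^ 2 / 200 * (400 * (L + η) * Λ ^ 2) := by ring
    _ ≤ τ * ρ ^ 2 / 200 * (η * α ^ 2) := by gcongr
    _ = (τ * α) * ρ ^ 2 * α * η / 200 := by ring
    _ = m * ρ ^ 3 * α * η / 200 := by rw [hτα]; ring

lemma num_exp {ψz g1 g2 e1 e2 m ρ α τ η p11 p12 p22 x y ψ0 rem : ℝ} (hα0 : 0 < α) (hm0 : 0 ≤ m)
    (hτα : τ * α = m * ρ)
    (hT : ψz ≤ ψ0 + (e1 * (ρ * x) + e2 * (ρ * y)) + (p11 * (ρ * x) ^ 2 +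
      2 * p12 * (ρ * x) * (ρ * y) + p22 * (ρ * y) ^ 2) / 2 + rem)
    (hrem : rem ≤ ρ ^ 2 * (η / 16) * (x ^ 2 + y ^ 2)) :
    g1 * (ρ * x) + g2 * (ρ * y) + m * (ψz - ψ0) ≤
      ρ * α * ((g1 + m * e1) / α * x + (g2 + m * e2) / α * y +
          (τ * (p11 + η / 4) * x ^ 2 + 2 * (τ * p12) * x * y + τ * (p22 + η / 4) * y ^ 2) / 2 -
          τ * (η / 16) * (x ^ 2 + y ^ 2)) := by
  have e2' : ρ * α * ((g1 + m * e1) / α * x + (g2 + m * e2) / α * y +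
          (τ * (p11 + η / 4) * x ^ 2 + 2 * (τ * p12) * x * y + τ * (p22 + η / 4) * y ^ 2) / 2 -
          τ * (η / 16) * (x ^ 2 + y ^ 2)) =
      ρ * (α / α) * ((g1 + m * e1) * x + (g2 + m * e2) * y) +
      (τ * α) * ρ * ((p11 * x ^ 2 + 2 * p12 * x * y + p22 * y ^ 2) / 2 +
        η / 16 * (x ^ 2 + y ^ 2)) := by
    ring
  rw [e2', div_self hα0.ne', hτα]
  have h1 : ψz - ψ0 ≤ (e1 * (ρ * x) + e2 * (ρ * y)) + (p11 * (ρ * x) ^ 2 +
      2 * p12 * (ρ * x) * (ρ * y) + p22 * (ρ * y) ^ 2) / 2 +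
      ρ ^ 2 * (η / 16) * (x ^ 2 + y ^ 2) := by linarith only [hT, hrem]
  have h2 := mul_le_mul_of_nonneg_left h1 hm0
  linarith only [h2]

/-- Touching from above is impossible. -/
lemma no_touch {Kt : ℝ} (hKt : 20 ≤ Kt) (ht : Touch Kt) (P : Par) : ∃ K : ℝ, 1 ≤ K ∧
    ∀ (m Λ ς : ℝ) (g : ℝ × ℝ) (q u ψ : ℝ × ℝ → ℝ) (z : ℝ × ℝ), 0 ≤ Λ → 0 ≤ ς →
    SolS q u Λ ς (closedBall z P.d) → K * m ≤ ‖g‖ → K * (1 + Λ) ≤ ‖g‖ →
    K * (1 + Real.log (1 + ‖g‖)) ≤ m → K * ς * Λ ^ 2 ≤ m * ‖g‖ → Smooth ψ →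
    (∀ w : List Bool, 1 ≤ w.length → w.length ≤ 3 → ∀ y ∈ closedBall z P.d, |der w ψ y| ≤ P.L) →
    lap ψ z ≤ -P.η →
    (∀ p ∈ closedBall z P.d, |u p| ≤ |u z| * Real.exp (g.1 * (p.1 - z.1) + g.2 * (p.2 - z.2) +
      m * (ψ p - ψ z))) → u z = 0 := by
  obtain ⟨L, η, d, μ, R, hL, hη, hd, hμ, hR⟩ := P
  simp only
  obtain ⟨ρ, hρ, hρd, hρη⟩ : ∃ ρ : ℝ, 0 < ρ ∧ ρ ≤ d ∧ ρ ≤ 1 ∧ ρ * (64 * L) ≤ 3 * η := by
    refine ⟨min d (min 1 (3 * η / (64 * L))), lt_min hd (lt_min one_pos (by positivity)),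
      min_le_left _ _, (min_le_right _ _).trans (min_le_left _ _), ?_⟩
    have : min d (min 1 (3 * η / (64 * L))) ≤ 3 * η / (64 * L) :=
      (min_le_right _ _).trans (min_le_right _ _)
    rwa [le_div_iff₀ (by positivity)] at this
  obtain ⟨hρ1, hρη⟩ := hρη
  obtain ⟨ℓ, hℓdef⟩ : ∃ ℓ : ℝ, ℓ = |Real.log (18 / η)| := ⟨_, rfl⟩
  have hℓ : 0 ≤ ℓ := by rw [hℓdef]; exact abs_nonneg _
  obtain ⟨K, k0, k1, k2, k3, k4, k5, k6⟩ : ∃ K : ℝ, 200 ≤ K ∧ 2 * L ≤ K ∧ 2 * Kt ≤ K * ρ ∧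
      1600 * (L + η) ^ 2 ≤ K * η ∧ 1600 * (L + η) ≤ K * η ∧ 400 ≤ K * η ∧
      16 * Kt * (2 + ℓ) ≤ K * (ρ ^ 2 * η) := by
    have t1 : 0 ≤ 2 * Kt / ρ := by positivity
    have t2 : 0 ≤ 1600 * (L + η) ^ 2 / η := by positivity
    have t3 : 0 ≤ 1600 * (L + η) / η := by positivity
    have t4 : 0 ≤ 400 / η := by positivity
    have t5 : 0 ≤ 16 * Kt * (2 + ℓ) / (ρ ^ 2 * η) := by positivity
    refine ⟨200 + 2 * L + 2 * Kt / ρ + 1600 * (L + η) ^ 2 / η + 1600 * (L + η) / η + 400 / η +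
      16 * Kt * (2 + ℓ) / (ρ ^ 2 * η), by linarith, by linarith, ?_, ?_, ?_, ?_, ?_⟩
    · rw [← div_le_iff₀ hρ]; linarith only [hL, t2, t3, t4, t5]
    · rw [← div_le_iff₀ hη]; linarith
    · rw [← div_le_iff₀ hη]; linarith
    · rw [← div_le_iff₀ hη]; linarith only [hL, t1, t2, t3, t5]
    · rw [← div_le_iff₀ (by positivity)]; linarith
  refine ⟨K, by linarith, ?_⟩
  intro m Λ ς g q u ψ z hΛ hς hsol hg1 hg2 hm hςΛ hψ hder hlap hup
  obtain ⟨G, hGdef⟩ : ∃ G : ℝ, G = ‖g‖ := ⟨_, rfl⟩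
  have hK0 : 0 < K := by linarith
  have hKG : K ≤ G := by
    rw [hGdef]
    exact (le_mul_of_one_le_right hK0.le (by linarith)).trans hg2
  have hG0 : 0 < G := by linarith
  have hlogG : 0 ≤ Real.log (1 + G) := Real.log_nonneg (by linarith)
  have hmK : K ≤ m := by
    rw [← hGdef] at hm
    exact (le_mul_of_one_le_right hK0.le (by linarith)).trans hm
  have hm0 : 0 < m := by linarith
  have hzball : z ∈ closedBall z d := mem_closedBall_self hd.le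
  have he1 : |d1 ψ z| ≤ L := hder [false] (by simp) (by simp) z hzball
  have he2 : |d2 ψ z| ≤ L := hder [true] (by simp) (by simp) z hzball
  have h11 : |d1 (d1 ψ) z| ≤ L := hder [false, false] (by simp) (by simp) z hzball
  have h12 : |d1 (d2 ψ) z| ≤ L := hder [false, true] (by simp) (by simp) z hzball
  have h22 : |d2 (d2 ψ) z| ≤ L := hder [true, true] (by simp) (by simp) z hzball
  have hsb := slope_bounds (g := g) hm0.le k1 he1 he2 hg1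
  obtain ⟨α, hαdef⟩ : ∃ α : ℝ, α = √((g.1 + m * d1 ψ z) ^ 2 + (g.2 + m * d2 ψ z) ^ 2) := ⟨_, rfl⟩
  rw [← hαdef, ← hGdef] at hsb
  obtain ⟨hα1, hα2⟩ := hsb
  have hα0 : 0 < α := lt_of_lt_of_le (by positivity) hα1
  have hαsq : (g.1 + m * d1 ψ z) ^ 2 + (g.2 + m * d2 ψ z) ^ 2 = α ^ 2 := by
    rw [hαdef]; exact (Real.sq_sqrt (by positivity)).symm
  obtain ⟨τ, hτ0, hτα⟩ : ∃ τ : ℝ, 0 < τ ∧ τ * α = m * ρ := by
    refine ⟨m * ρ / α, by positivity, ?_⟩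
    field_simp
  have hτK : τ * K ≤ 2 := by
    have h1 : τ * K * α ≤ 2 * α := by
      calc τ * K * α = (τ * α) * K := by ring
        _ = m * ρ * K := by rw [hτα]
        _ ≤ m * 1 * K := by gcongr
        _ = K * m := by ring
        _ ≤ G := by rw [hGdef]; exact hg1
        _ ≤ 2 * α := by linarith
    exact le_of_mul_le_mul_right h1 hα0
  have hElow := num_tr hτ0.le (show d1 (d1 ψ) z + d2 (d2 ψ) z ≤ -η from hlap)
  have hABC := num_ABC (τ := τ) hη h11 h12 h22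
  have hE0 : 0 < -(τ * (d1 (d1 ψ) z + η / 4) + τ * (d2 (d2 ψ) z + η / 4)) :=
    lt_of_lt_of_le (by positivity) hElow
  have hΛ2 : K ^ 2 * Λ ^ 2 ≤ 4 * α ^ 2 := num_Λ hΛ hK0.le hα1 (by rw [hGdef]; exact hg2)
  have hEm := num_E hτα hElow
  have hdq := (num_dq (ρ := ρ) (G := G) hς hη hρ.le hm0.le hα1 k5
    (by rw [hGdef]; exact hςΛ)).trans hEm
  -- the rescaled functions
  have hmaps : ∀ p ∈ closedBall (0 : ℝ × ℝ) 1, z + ρ • p ∈ closedBall z d := by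
    intro p hp
    rw [mem_closedBall, dist_zero_right] at hp
    rw [mem_closedBall, dist_eq_norm, add_sub_cancel_left, norm_smul, Real.norm_eq_abs,
      abs_of_pos hρ]
    calc ρ * ‖p‖ ≤ ρ * 1 := mul_le_mul_of_nonneg_left hp hρ.le
      _ ≤ d := by linarith only [hρd]
  have hsol' := hsol.scale z hρ.le hmaps
  have key := ht (ρ * α) ((g.1 + m * d1 ψ z) / α) ((g.2 + m * d2 ψ z) / α)
    (τ * (d1 (d1 ψ) z + η / 4)) (τ * d1 (d2 ψ) z) (τ * (d2 (d2 ψ) z + η / 4)) (τ * (η / 16))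
    (fun x => ρ ^ 2 * q (z + ρ • x)) (fun x => u (z + ρ • x))
    (by
      have : K * ρ ≤ 2 * α * ρ := mul_le_mul_of_nonneg_right (by linarith only [hKG, hα1]) hρ.le
      linarith only [k2, this])
    (by rw [div_pow, div_pow, ← add_div, hαsq, div_self (by positivity)])
    hE0 (num_small hτ0.le hη k3 hτK hABC hElow) (by positivity)
    (num_log hKt hη hρ hα0 hα2 hG0 hτ0 hτα (by linarith only [k0, hmK]) (by rw [hGdef]; exact hm) hℓdef k6 hElow)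
    hsol'.smooth_q hsol'.smooth_u hsol'.eq
    (by
      intro p hp
      refine ⟨(hsol'.bq p hp).trans (num_q k0 hΛ2), ?_, (hsol'.bq1 p hp).trans hdq,
        (hsol'.bq2 p hp).trans hdq⟩
      exact num_Mq hη (by linarith only [hL]) hρ.le hτ0.le hτα (by linarith only [k0]) k4 hΛ2 hABC hEm
        (hsol'.bq p hp))
    (by
      intro p hp
      have hz := hmaps p hp
      have h1 := hup _ hz
      simp only [smul_zero, add_zero]
      refine h1.trans ?_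
      refine mul_le_mul_of_nonneg_left ?_ (abs_nonneg _)
      rw [Real.exp_le_exp]
      have hT := taylor_psi hψ (L := L) z (ρ • p) (by
        intro l hl y hy
        refine hder l (by omega) (by omega) y ?_
        refine closedBall_subset_closedBall ?_ hy
        rw [mem_closedBall, dist_eq_norm, add_sub_cancel_left] at hz
        exact hz)
      have hpn : ‖p‖ ≤ 1 := by rwa [mem_closedBall, dist_zero_right] at hp
      have hnorm : ‖ρ • p‖ = ρ * ‖p‖ := by rw [norm_smul, Real.norm_eq_abs, abs_of_pos hρ]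
      have hpsq : ‖p‖ ^ 2 ≤ p.1 ^ 2 + p.2 ^ 2 := by
        have hmax : ‖p‖ = |p.1| ∨ ‖p‖ = |p.2| := by
          rw [Prod.norm_def, Real.norm_eq_abs, Real.norm_eq_abs]
          exact max_choice _ _
        rcases hmax with h | h
        · rw [h, sq_abs]; linarith only [sq_nonneg p.2]
        · rw [h, sq_abs]; linarith only [sq_nonneg p.1]
      have hrem : 8 * L * ‖ρ • p‖ ^ 3 / 6 ≤ ρ ^ 2 * (η / 16) * (p.1 ^ 2 + p.2 ^ 2) := by
        rw [hnorm]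
        calc 8 * L * (ρ * ‖p‖) ^ 3 / 6 = (ρ * (64 * L)) * (ρ ^ 2 * ‖p‖ ^ 2) * ‖p‖ / 48 := by ring
          _ ≤ (3 * η) * (ρ ^ 2 * ‖p‖ ^ 2) * 1 / 48 := by gcongr
          _ = ρ ^ 2 * (η / 16) * ‖p‖ ^ 2 := by ring
          _ ≤ ρ ^ 2 * (η / 16) * (p.1 ^ 2 + p.2 ^ 2) := by gcongr
      simp only [Prod.smul_fst, Prod.smul_snd, smul_eq_mul, Prod.fst_add, Prod.snd_add,
        add_sub_cancel_left] at hT ⊢
      exact num_exp hα0 hm0.le hτα hT hrem)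
  simpa using key

end CompAffX

open CompAffX in
theorem comparison_affine (P : Par) : ∃ K : ℝ, 1 ≤ K ∧ ∀ (m c Λ ς : ℝ) (g : ℝ × ℝ)
    (q u : ℝ × ℝ → ℝ) (S : Set (ℝ × ℝ)), 0 ≤ Λ → 0 ≤ ς → SolS q u Λ ς S → K * m ≤ ‖g‖ →
    K * (1 + Λ) ≤ ‖g‖ → K * (1 + Real.log (1 + ‖g‖)) ≤ m → K * ς * Λ ^ 2 ≤ m * ‖g‖ →
    Comp P (tilt c g u) m S := by
  obtain ⟨Kt, hKt, ht⟩ := touching2
  obtain ⟨K, hK1, hK⟩ := no_touch hKt ht P
  refine ⟨K, hK1, ?_⟩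
  intro m c Λ ς g q u S hΛ hς hsol hg1 hg2 hm hςΛ ψ c0 D D' hD hDR hDS hD'D hD'd hψ hder hoff hlap
    z hz
  by_contra hcon
  rw [not_le] at hcon
  have hm0 : 0 < m := by
    have : 0 ≤ Real.log (1 + ‖g‖) := Real.log_nonneg (by linarith [norm_nonneg g])
    nlinarith only [hK1, hm, this]
  have hu := hsol.smooth_u
  have hcont : Continuous fun p => |tilt c g u p| * Real.exp (-(m * ψ p)) :=
    (continuous_tilt hu.continuous c g).abs.mul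
      (Real.continuous_exp.comp (continuous_const.mul hψ.continuous).neg)
  obtain ⟨z0, hz0, hmax⟩ := hD.exists_isMaxOn ⟨z, hz⟩ hcont.continuousOn
  have hmax' : ∀ p ∈ D, |tilt c g u p| * Real.exp (-(m * ψ p)) ≤
      |tilt c g u z0| * Real.exp (-(m * ψ z0)) := fun p hp => hmax hp
  have h1 : Real.exp (m * P.μ) < |tilt c g u z0| * Real.exp (-(m * ψ z0)) := by
    refine lt_of_lt_of_le ?_ (hmax' z hz)
    rw [Real.exp_neg, ← div_eq_mul_inv, lt_div_iff₀ (Real.exp_pos _), ← Real.exp_add]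
    have e : m * P.μ + m * ψ z = m * (ψ z + P.μ) := by ring
    rwa [e]
  have h2 : Real.exp (m * (ψ z0 + P.μ)) < |tilt c g u z0| := by
    rw [Real.exp_neg, ← div_eq_mul_inv, lt_div_iff₀ (Real.exp_pos _), ← Real.exp_add] at h1
    have e : m * P.μ + m * ψ z0 = m * (ψ z0 + P.μ) := by ring
    rwa [e] at h1
  have hmμ : 0 < m * P.μ := mul_pos hm0 P.hμ
  have hz0D' : z0 ∈ D' := by
    by_contra hn
    have h3 := hoff z0 hz0 hn
    have h4 : Real.exp (m * ψ z0) < Real.exp (m * (ψ z0 + P.μ)) := by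
      rw [Real.exp_lt_exp]; linarith
    linarith
  have hball := hD'd z0 hz0D'
  have hzero : u z0 = 0 := by
    refine hK m Λ ς g q u ψ z0 hΛ hς (hsol.mono (hball.trans hDS)) hg1 hg2 hm hςΛ hψ
      (fun w hw hw' y hy => hder w hw hw' y (hball hy)) (hlap z0 hz0D' h2) ?_
    intro p hp
    have h3 := hmax' p (hball hp)
    rw [abs_tilt, abs_tilt] at h3
    have e0 : 0 < Real.exp (-(aff c g p)) * Real.exp (-(m * ψ p)) := by positivity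
    have h4 : |u p| * (Real.exp (-(aff c g p)) * Real.exp (-(m * ψ p))) ≤
        (|u z0| * Real.exp (g.1 * (p.1 - z0.1) + g.2 * (p.2 - z0.2) + m * (ψ p - ψ z0))) *
          (Real.exp (-(aff c g p)) * Real.exp (-(m * ψ p))) := by
      have e1 : (|u z0| * Real.exp (g.1 * (p.1 - z0.1) + g.2 * (p.2 - z0.2) +
          m * (ψ p - ψ z0))) * (Real.exp (-(aff c g p)) * Real.exp (-(m * ψ p))) =
          |u z0| * Real.exp (-(aff c g z0)) * Real.exp (-(m * ψ z0)) := by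
        rw [mul_assoc, mul_assoc, ← Real.exp_add, ← Real.exp_add, ← Real.exp_add]
        congr 2
        simp only [aff]
        ring
      rw [e1]
      calc |u p| * (Real.exp (-(aff c g p)) * Real.exp (-(m * ψ p))) =
          |u p| * Real.exp (-(aff c g p)) * Real.exp (-(m * ψ p)) := by ring
        _ ≤ _ := h3
    exact le_of_mul_le_mul_right h4 e0
  have h5 : |tilt c g u z0| = 0 := by rw [abs_tilt, hzero]; simp
  rw [h5] at h2
  exact absurd h2 (not_lt.2 (Real.exp_pos _).le)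

end Pool.Agent.H5.Yau
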