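import Pool.Agent.H24.Near.Comparison
import Pool.Agent.H5.Yau.CompAffine

set_option autoImplicit false

/-!
# The comparison principle for tilted solutions
-/

namespace Pool.Agent.H5.Yau

open MeasureTheory Set Metric Pool.Agent.H24.Near

namespace CompSolX

/-- The weight `ψ + (c + g · z) / m`. -/
noncomputable def wgt (ψ : ℝ × ℝ → ℝ) (c : ℝ) (g : ℝ × ℝ) (m : ℝ) (z : ℝ × ℝ) : ℝ :=
  ψ z + aff c g z / m

lemma smooth_aff_div (c : ℝ) (g : ℝ × ℝ) (m : ℝ) : Smooth (fun z => aff c g z / m) :=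
  (smooth_aff c g).div_const m

lemma smooth_wgt {ψ : ℝ × ℝ → ℝ} (hψ : Smooth ψ) (c : ℝ) (g : ℝ × ℝ) (m : ℝ) :
    Smooth (wgt ψ c g m) := hψ.add (smooth_aff_div c g m)

lemma hasFDerivAt_aff (c : ℝ) (g p : ℝ × ℝ) :
    HasFDerivAt (aff c g)
      (g.1 • ContinuousLinearMap.fst ℝ ℝ ℝ + g.2 • ContinuousLinearMap.snd ℝ ℝ ℝ) p := by
  have h1 : HasFDerivAt (fun z : ℝ × ℝ => g.1 * z.1) (g.1 • ContinuousLinearMap.fst ℝ ℝ ℝ) p :=
    (hasFDerivAt_fst (p := p)).const_mul g.1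
  have h2 : HasFDerivAt (fun z : ℝ × ℝ => g.2 * z.2) (g.2 • ContinuousLinearMap.snd ℝ ℝ ℝ) p :=
    (hasFDerivAt_snd (p := p)).const_mul g.2
  exact (h1.const_add c).add h2

lemma d1_aff_div (c : ℝ) (g : ℝ × ℝ) (m : ℝ) (p : ℝ × ℝ) :
    d1 (fun z => aff c g z / m) p = g.1 / m := by
  have h : HasFDerivAt (fun z => aff c g z / m) _ p := (hasFDerivAt_aff c g p).mul_const m⁻¹
  unfold d1
  rw [h.fderiv]
  simp
  ring

lemma d2_aff_div (c : ℝ) (g : ℝ × ℝ) (m : ℝ) (p : ℝ × ℝ) :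
    d2 (fun z => aff c g z / m) p = g.2 / m := by
  have h : HasFDerivAt (fun z => aff c g z / m) _ p := (hasFDerivAt_aff c g p).mul_const m⁻¹
  unfold d2
  rw [h.fderiv]
  simp
  ring

lemma d1_wgt {ψ : ℝ × ℝ → ℝ} (hψ : Smooth ψ) (c : ℝ) (g : ℝ × ℝ) (m : ℝ) :
    d1 (wgt ψ c g m) = fun z => d1 ψ z + g.1 / m := by
  funext z
  have := d1_add (f := ψ) (g := fun z => aff c g z / m) (p := z) (hψ.differentiable z)
    ((smooth_aff_div c g m).differentiable z)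
  rw [d1_aff_div] at this
  exact this

lemma d2_wgt {ψ : ℝ × ℝ → ℝ} (hψ : Smooth ψ) (c : ℝ) (g : ℝ × ℝ) (m : ℝ) :
    d2 (wgt ψ c g m) = fun z => d2 ψ z + g.2 / m := by
  funext z
  have := d2_add (f := ψ) (g := fun z => aff c g z / m) (p := z) (hψ.differentiable z)
    ((smooth_aff_div c g m).differentiable z)
  rw [d2_aff_div] at this
  exact this

lemma exists_der_wgt {ψ : ℝ × ℝ → ℝ} (hψ : Smooth ψ) (c : ℝ) (g : ℝ × ℝ) {m : ℝ} (hm : 0 < m)
    (w : List Bool) (hw : 1 ≤ w.length) :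
    ∃ a : ℝ, |a| ≤ ‖g‖ / m ∧ (2 ≤ w.length → a = 0) ∧
      der w (wgt ψ c g m) = fun z => der w ψ z + a := by
  induction w with
  | nil => simp at hw
  | cons b w ih =>
    rcases w with _ | ⟨b', w'⟩
    · cases b
      · refine ⟨g.1 / m, ?_, by simp, d1_wgt hψ c g m⟩
        rw [abs_div, abs_of_pos hm]
        gcongr
        exact norm_fst_le g
      · refine ⟨g.2 / m, ?_, by simp, d2_wgt hψ c g m⟩
        rw [abs_div, abs_of_pos hm]
        gcongr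
        exact norm_snd_le g
    · obtain ⟨a, -, -, ha⟩ := ih (by simp)
      refine ⟨0, by rw [abs_zero]; positivity, fun _ => rfl, ?_⟩
      simp only [add_zero]
      cases b
      · show d1 (der (b' :: w') (wgt ψ c g m)) = d1 (der (b' :: w') ψ)
        rw [ha]
        exact funext (d1_add_const a)
      · show d2 (der (b' :: w') (wgt ψ c g m)) = d2 (der (b' :: w') ψ)
        rw [ha]
        exact funext (d2_add_const a)

lemma lap_wgt {ψ : ℝ × ℝ → ℝ} (hψ : Smooth ψ) (c : ℝ) (g : ℝ × ℝ) (m : ℝ) :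
    lap (wgt ψ c g m) = lap ψ := by
  funext p
  unfold lap
  rw [d1_wgt hψ, d2_wgt hψ, d1_add_const, d2_add_const]

lemma abs_tilt_le_iff' {c : ℝ} {g : ℝ × ℝ} {u ψ : ℝ × ℝ → ℝ} {p : ℝ × ℝ} {m μ : ℝ}
    (hm : 0 < m) :
    |tilt c g u p| ≤ Real.exp (m * (ψ p + μ)) ↔
      |u p| ≤ Real.exp (m * (wgt ψ c g m p + μ)) := by
  rw [abs_tilt_le_iff]
  have e : aff c g p + m * (ψ p + μ) = m * (wgt ψ c g m p + μ) := by
    unfold wgt
    field_simp
    ring
  rw [e]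

lemma abs_tilt_le_iff'' {c : ℝ} {g : ℝ × ℝ} {u ψ : ℝ × ℝ → ℝ} {p : ℝ × ℝ} {m : ℝ}
    (hm : 0 < m) :
    |tilt c g u p| ≤ Real.exp (m * ψ p) ↔ |u p| ≤ Real.exp (m * wgt ψ c g m p) := by
  have := abs_tilt_le_iff' (c := c) (g := g) (u := u) (ψ := ψ) (p := p) (μ := 0) hm
  simpa only [add_zero] using this

end CompSolX

open CompSolX

theorem comp_of_sol (P : Par) : ∃ K : ℝ, 1 ≤ K ∧ ∀ (m c Λ ς : ℝ) (g : ℝ × ℝ)
    (q u : ℝ × ℝ → ℝ) (S : Set (ℝ × ℝ)), 0 ≤ Λ → 0 ≤ ς → SolS q u Λ ς S →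
    K * (1 + Λ) ≤ ‖g‖ + m → K * (1 + Real.log (1 + ‖g‖)) ≤ m →
    K * ς * Λ ^ 2 ≤ m * (‖g‖ + m) → Comp P (tilt c g u) m S := by
  obtain ⟨K1, hK1, H1⟩ := comparison_affine P
  obtain ⟨Kc, hKc, Hc⟩ := comparison (P.L + K1) P.η P.d P.μ P.R (by linarith [P.hL]) P.hη P.hd
    P.hμ P.hR
  refine ⟨2 * K1 + Kc ^ 2 * (K1 + 1), by nlinarith only [hK1], ?_⟩
  intro m c Λ ς g q u S hΛ hς hS h1 h2 h3
  set K := 2 * K1 + Kc ^ 2 * (K1 + 1) with hK
  have hKc2 : Kc ≤ Kc ^ 2 := by nlinarith only [hKc]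
  have hKK1 : 2 * K1 ≤ K := by nlinarith only [hK1, hKc2]
  have hKKc2 : Kc ^ 2 * (K1 + 1) ≤ K := by nlinarith only [hK1]
  have hKKc : Kc * (K1 + 1) ≤ K := by nlinarith only [hK1, hKc2]
  have hK0 : 0 < K := by nlinarith only [hK1, hKK1]
  have hg : 0 ≤ ‖g‖ := norm_nonneg g
  have hlog : 0 ≤ Real.log (1 + ‖g‖) := Real.log_nonneg (by linarith)
  have hmK : K ≤ m := by nlinarith only [hK1, h2, hKK1, hlog]
  have hm : 0 < m := by linarith
  by_cases hcase : K1 * m ≤ ‖g‖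
  · have hmg : m ≤ ‖g‖ := by nlinarith only [hK1, hKK1, hmK, hcase]
    apply H1 m c Λ ς g q u S hΛ hς hS hcase
    · have h4 : 2 * K1 * (1 + Λ) ≤ K * (1 + Λ) := by gcongr
      linarith
    · refine le_trans ?_ h2
      gcongr
      linarith
    · have h4 : 2 * (K1 * ς * Λ ^ 2) ≤ K * ς * Λ ^ 2 := by
        have h5 : 0 ≤ ς * Λ ^ 2 := by positivity
        nlinarith only [hKK1, h5]
      have h6 : m * (‖g‖ + m) ≤ 2 * (m * ‖g‖) := by nlinarith only [hK1, hKK1, hmK, hmg]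
      linarith
  · rw [not_le] at hcase
    intro ψ x D D' k1 k2 k3 k4 k5 k6 k7 k8 k9 z hz
    have hsum : ‖g‖ + m ≤ (K1 + 1) * m := by nlinarith only [hcase]
    set Λ' := max (Λ ^ 2) (ς * Λ ^ 2) with hΛ'
    have hsol : Sol q u Λ' D :=
      ⟨hS.smooth_q, hS.smooth_u, fun p hp => hS.eq p (k3 hp),
        fun p hp => (hS.bq p (k3 hp)).trans (le_max_left _ _),
        fun p hp => (hS.bq1 p (k3 hp)).trans (le_max_right _ _),
        fun p hp => (hS.bq2 p (k3 hp)).trans (le_max_right _ _)⟩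
    have hKcm : Kc ≤ m := by nlinarith only [hK1, hKc2, hmK]
    have hΛm : Kc ^ 2 * Λ' ≤ m ^ 2 := by
      have e1 : Kc ^ 2 * Λ ^ 2 ≤ m ^ 2 := by
        have h4 : Kc * Λ ≤ m := by
          have h5 : Kc * (K1 + 1) * Λ ≤ K * Λ := by gcongr
          have h6 : K * Λ ≤ (K1 + 1) * m := by nlinarith only [hK1, h1, hKK1, hcase]
          have h7 : (K1 + 1) * (Kc * Λ) ≤ (K1 + 1) * m := by linarith
          exact le_of_mul_le_mul_left h7 (by linarith)
        have h8 : 0 ≤ Kc * Λ := by positivity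
        calc Kc ^ 2 * Λ ^ 2 = (Kc * Λ) ^ 2 := by ring
          _ ≤ m ^ 2 := by gcongr
      have e2 : Kc ^ 2 * (ς * Λ ^ 2) ≤ m ^ 2 := by
        have h5 : 0 ≤ ς * Λ ^ 2 := by positivity
        have h6 : Kc ^ 2 * (K1 + 1) * (ς * Λ ^ 2) ≤ K * (ς * Λ ^ 2) := by gcongr
        have h7 : m * (‖g‖ + m) ≤ m * ((K1 + 1) * m) := by gcongr
        have h8 : (K1 + 1) * (Kc ^ 2 * (ς * Λ ^ 2)) ≤ (K1 + 1) * m ^ 2 := by nlinarith only [h3, h6, h7]
        exact le_of_mul_le_mul_left h8 (by linarith)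
      rcases max_choice (Λ ^ 2) (ς * Λ ^ 2) with h | h
      · rw [hΛ', h]; exact e1
      · rw [hΛ', h]; exact e2
    have key := Hc m Λ' q u (wgt ψ c g m) x D D' hKcm (le_max_of_le_left (by positivity)) hΛm k1 k2
      k4 k5 hsol (smooth_wgt k6 c g m)
      (fun w hw hw' p hp => by
        obtain ⟨a, ha, -, he⟩ := exists_der_wgt k6 c g hm w hw
        rw [he]
        have h4 : ‖g‖ / m ≤ K1 := by
          rw [div_le_iff₀ hm]
          exact hcase.le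
        exact (abs_add_le _ _).trans (add_le_add (k7 w hw hw' p hp) (ha.trans h4)))
      (fun p hp hp' => (abs_tilt_le_iff'' hm).1 (k8 p hp hp'))
      (fun p hp hp' => by
        rw [lap_wgt k6]
        apply k9 p hp
        by_contra hcon
        rw [not_lt] at hcon
        exact absurd hp' (not_lt.2 ((abs_tilt_le_iff' hm).1 hcon)))
      z hz
    exact (abs_tilt_le_iff' hm).2 key

/-- The same after rescaling a square of half side `R s` to half side `R`. -/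
theorem comp_scaled (P : Par) : ∃ K : ℝ, 1 ≤ K ∧ ∀ (m c W N s R : ℝ) (g x : ℝ × ℝ)
    (q u : ℝ × ℝ → ℝ), 0 < s → 0 ≤ W → 0 ≤ N → SolS q u (W * N) 1 (closedBall x (R * s)) →
    K * (1 + W * (s * N)) ≤ ‖g‖ * s + m → K * (1 + Real.log (1 + ‖g‖ * s)) ≤ m →
    K * (W ^ 2 * (s ^ 3 * N ^ 2)) ≤ m * (‖g‖ * s + m) →
    Comp P (fun p => tilt c g u (x + s • p)) m (closedBall 0 R) := by
  obtain ⟨K, hK, H⟩ := comp_of_sol P
  refine ⟨K, hK, ?_⟩
  intro m c W N s R g x q u hs hW hN hS h1 h2 h3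
  have hT : ∀ p ∈ closedBall (0 : ℝ × ℝ) R, x + s • p ∈ closedBall x (R * s) := by
    intro p hp
    rw [mem_closedBall, dist_zero_right] at hp
    rw [mem_closedBall, dist_eq_norm, add_sub_cancel_left, norm_smul, Real.norm_eq_abs,
      abs_of_pos hs, mul_comm]
    gcongr
  have hS' := hS.scale x hs.le hT
  have hng : ‖s • g‖ = ‖g‖ * s := by
    rw [norm_smul, Real.norm_eq_abs, abs_of_pos hs, mul_comm]
  have key := H m (c + g.1 * x.1 + g.2 * x.2) (s * (W * N)) (s * 1) (s • g) _ _ _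
    (by positivity) (by positivity) hS'
    (by rw [hng]; calc K * (1 + s * (W * N)) = K * (1 + W * (s * N)) := by ring
        _ ≤ _ := h1)
    (by rw [hng]; exact h2)
    (by rw [hng]; calc K * (s * 1) * (s * (W * N)) ^ 2 = K * (W ^ 2 * (s ^ 3 * N ^ 2)) := by ring
        _ ≤ _ := h3)
  have e : (fun p => tilt c g u (x + s • p)) =
      tilt (c + g.1 * x.1 + g.2 * x.2) (s • g) (fun p => u (x + s • p)) := by
    funext p
    unfold tilt aff
    simp only [Prod.fst_add, Prod.snd_add, Prod.smul_fst, Prod.smul_snd, smul_eq_mul]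
    congr 2
    ring
  rw [e]
  exact key

end Pool.Agent.H5.Yau
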