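import Pool.Agent.H24.Near.Defs
import Pool.Agent.H24.Near.Index

set_option autoImplicit false

/-!
# Affine majorants of `log |u|`: definitions

Functions on the plane `ℝ × ℝ` with its maximum norm; closed balls are closed squares.
-/

namespace Pool.Agent.H5.Yau

open MeasureTheory Set Metric Pool.Agent.H24.Near

/-- The affine function `c + g · p`. -/
def aff (c : ℝ) (g p : ℝ × ℝ) : ℝ := c + g.1 * p.1 + g.2 * p.2

/-- The function `u e^{-(c + g · p)}`. -/
noncomputable def tilt (c : ℝ) (g : ℝ × ℝ) (u : ℝ × ℝ → ℝ) (p : ℝ × ℝ) : ℝ :=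
  u p * Real.exp (-(aff c g p))

/-- The affine function `c + g · p` is above `log |u|` on the square with centre `x` and half side
`128 s`. -/
def Maj (u : ℝ × ℝ → ℝ) (c : ℝ) (g x : ℝ × ℝ) (s : ℝ) : Prop :=
  ∀ z ∈ closedBall x (128 * s), |u z| ≤ Real.exp (aff c g z)

/-- The deficit of the affine majorant `c + g · p` at the scale `s`: the average of
`- log max_{sq (z, s)} (|u| e^{-(c + g · p)})` over the square with centre `x` and half side
`64 s`. -/
noncomputable def dfc (u : ℝ × ℝ → ℝ) (c : ℝ) (g x : ℝ × ℝ) (s : ℝ) : ℝ :=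
  1 / (128 * s) ^ 2 * ∫ z in closedBall x (64 * s), -(Real.log (M (tilt c g u) z s))

/-- The maxima of `|u|` on small squares with centre in `S` are positive. -/
def Pos (u : ℝ × ℝ → ℝ) (S : Set (ℝ × ℝ)) : Prop := ∀ z ∈ S, ∀ r : ℝ, 0 < r → 0 < M u z r

/-- `u` solves `Δu + q u = 0` on `S`, where `|q| ≤ Λ²` and `|∂ᵢ q| ≤ ς Λ²`. -/
structure SolS (q u : ℝ × ℝ → ℝ) (Λ ς : ℝ) (S : Set (ℝ × ℝ)) : Prop where
  smooth_q : Smooth q
  smooth_u : Smooth u
  eq : ∀ p ∈ S, lap u p + q p * u p = 0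
  bq : ∀ p ∈ S, |q p| ≤ Λ ^ 2
  bq1 : ∀ p ∈ S, |d1 q p| ≤ ς * Λ ^ 2
  bq2 : ∀ p ∈ S, |d2 q p| ≤ ς * Λ ^ 2

/-- The parameters of the comparison principle: a bound `L` for the derivatives of the weight, the
strictness `η` of the superharmonicity, the margin `d`, the loss `μ`, the size `R`. -/
structure Par where
  L : ℝ
  η : ℝ
  d : ℝ
  μ : ℝ
  R : ℝ
  hL : 1 ≤ L
  hη : 0 < η
  hd : 0 < d
  hμ : 0 < μ
  hR : 0 < R

/-- The comparison principle for `(1/m) log |v|` on `S`: a weight which is above it near the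
boundary and strictly superharmonic where it is below it, is above it up to `μ`. -/
def Comp (P : Par) (v : ℝ × ℝ → ℝ) (m : ℝ) (S : Set (ℝ × ℝ)) : Prop :=
  ∀ (ψ : ℝ × ℝ → ℝ) (c : ℝ × ℝ) (D D' : Set (ℝ × ℝ)), IsCompact D → D ⊆ closedBall c P.R →
    D ⊆ S → D' ⊆ D → (∀ z ∈ D', closedBall z P.d ⊆ D) → Smooth ψ →
    (∀ w : List Bool, 1 ≤ w.length → w.length ≤ 3 → ∀ z ∈ D, |der w ψ z| ≤ P.L) →
    (∀ z ∈ D, z ∉ D' → |v z| ≤ Real.exp (m * ψ z)) →
    (∀ z ∈ D', Real.exp (m * (ψ z + P.μ)) < |v z| → lap ψ z ≤ -P.η) →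
    ∀ z ∈ D, |v z| ≤ Real.exp (m * (ψ z + P.μ))

/-- `P'` is at least as demanding as `P`. -/
structure Par.le (P P' : Par) : Prop where
  L : P.L ≤ P'.L
  η : P'.η ≤ P.η
  d : P'.d ≤ P.d
  μ : P'.μ ≤ P.μ
  R : P.R ≤ P'.R

/-- The common strengthening of two parameter sets. -/
noncomputable def Par.sup (P P' : Par) : Par where
  L := max P.L P'.L
  η := min P.η P'.η
  d := min P.d P'.d
  μ := min P.μ P'.μ
  R := max P.R P'.R
  hL := le_max_of_le_left P.hL
  hη := lt_min P.hη P'.hη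
  hd := lt_min P.hd P'.hd
  hμ := lt_min P.hμ P'.hμ
  hR := lt_max_of_lt_left P.hR

lemma Par.le_sup_left (P P' : Par) : P.le (P.sup P') :=
  ⟨le_max_left _ _, min_le_left _ _, min_le_left _ _, min_le_left _ _, le_max_left _ _⟩

lemma Par.le_sup_right (P P' : Par) : P'.le (P.sup P') :=
  ⟨le_max_right _ _, min_le_right _ _, min_le_right _ _, min_le_right _ _, le_max_right _ _⟩

lemma Comp.mono_set {P : Par} {v : ℝ × ℝ → ℝ} {m : ℝ} {S T : Set (ℝ × ℝ)} (h : Comp P v m T)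
    (hST : S ⊆ T) : Comp P v m S := by
  intro ψ c D D' h1 h2 h3 h4 h5 h6 h7 h8 h9
  exact h ψ c D D' h1 h2 (h3.trans hST) h4 h5 h6 h7 h8 h9

/-- A constant does not change the derivatives. -/
lemma d1_add_const {f : ℝ × ℝ → ℝ} (a : ℝ) (p : ℝ × ℝ) : d1 (fun x => f x + a) p = d1 f p := by
  unfold d1
  rw [fderiv_add_const]

lemma d2_add_const {f : ℝ × ℝ → ℝ} (a : ℝ) (p : ℝ × ℝ) : d2 (fun x => f x + a) p = d2 f p := by
  unfold d2
  rw [fderiv_add_const]

lemma der_add_const {f : ℝ × ℝ → ℝ} (a : ℝ) {w : List Bool} (hw : 1 ≤ w.length) :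
    der w (fun x => f x + a) = der w f := by
  induction w with
  | nil => simp at hw
  | cons b w ih =>
    rcases w with _ | ⟨b', w'⟩
    · cases b
      · funext p
        exact d1_add_const a p
      · funext p
        exact d2_add_const a p
    · have h := ih (by simp)
      cases b
      · show d1 (der (b' :: w') (fun x => f x + a)) = d1 (der (b' :: w') f)
        rw [h]
      · show d2 (der (b' :: w') (fun x => f x + a)) = d2 (der (b' :: w') f)
        rw [h]

lemma lap_add_const {f : ℝ × ℝ → ℝ} (a : ℝ) : lap (fun x => f x + a) = lap f := by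
  funext p
  have h1 : d1 (fun x => f x + a) = d1 f := funext (d1_add_const a)
  have h2 : d2 (fun x => f x + a) = d2 f := funext (d2_add_const a)
  unfold lap
  rw [h1, h2]

/-- The comparison principle with demanding parameters implies the one with weaker parameters. -/
lemma Comp.mono {P P' : Par} {v : ℝ × ℝ → ℝ} {m : ℝ} {S : Set (ℝ × ℝ)} (hm : 0 ≤ m)
    (h : Comp P' v m S) (hP : P.le P') : Comp P v m S := by
  intro ψ c D D' h1 h2 h3 h4 h5 h6 h7 h8 h9 z hz
  have hμ := hP.μ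
  have key := h (fun x => ψ x + (P.μ - P'.μ)) c D D' h1
    (h2.trans (closedBall_subset_closedBall hP.R)) h3 h4
    (fun z hz => (closedBall_subset_closedBall hP.d).trans (h5 z hz))
    (h6.add contDiff_const)
    (fun w hw hw' z hz => by
      rw [der_add_const _ hw]
      exact (h7 w hw hw' z hz).trans hP.L)
    (fun z hz hz' => (h8 z hz hz').trans (by
      apply Real.exp_le_exp.2
      apply mul_le_mul_of_nonneg_left _ hm
      linarith))
    (fun z hz hz' => by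
      rw [lap_add_const]
      have e : ψ z + (P.μ - P'.μ) + P'.μ = ψ z + P.μ := by ring
      rw [e] at hz'
      exact (h9 z hz hz').trans (neg_le_neg hP.η))
    z hz
  have e : ψ z + (P.μ - P'.μ) + P'.μ = ψ z + P.μ := by ring
  simp only [e] at key
  exact key

/-- Translates. -/
lemma der_translate {f : ℝ × ℝ → ℝ} (hf : Smooth f) (ζ : ℝ × ℝ) (w : List Bool) :
    der w (fun x => f (ζ + x)) = fun x => der w f (ζ + x) := by
  induction w with
  | nil => rfl
  | cons b w ih =>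
    have e : (fun x : ℝ × ℝ => der w f (ζ + x)) = fun x => der w f (ζ + (1 : ℝ) • x) := by
      funext x; rw [one_smul]
    cases b
    · show d1 (der w (fun x => f (ζ + x))) = fun x => d1 (der w f) (ζ + x)
      rw [ih, e]
      funext x
      rw [d1_scale (hf.der w).differentiable ζ 1 x, one_mul, one_smul]
    · show d2 (der w (fun x => f (ζ + x))) = fun x => d2 (der w f) (ζ + x)
      rw [ih, e]
      funext x
      rw [d2_scale (hf.der w).differentiable ζ 1 x, one_mul, one_smul]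

lemma lap_translate {f : ℝ × ℝ → ℝ} (hf : Smooth f) (ζ : ℝ × ℝ) :
    lap (fun x => f (ζ + x)) = fun x => lap f (ζ + x) := by
  have e1 := der_translate hf ζ [false, false]
  have e2 := der_translate hf ζ [true, true]
  simp only [der] at e1 e2
  unfold lap
  rw [e1, e2]

lemma Comp.translate {P : Par} {v : ℝ × ℝ → ℝ} {m : ℝ} {S T : Set (ℝ × ℝ)} (h : Comp P v m S)
    (ζ : ℝ × ℝ) (hT : ∀ z ∈ T, ζ + z ∈ S) : Comp P (fun p => v (ζ + p)) m T := by
  intro ψ c D D' h1 h2 h3 h4 h5 h6 h7 h8 h9 z hz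
  have hsm : Smooth (fun x => ψ (-ζ + x)) := by
    have := h6.scale (-ζ) 1
    simpa only [one_smul] using this
  have hback : ∀ x : ℝ × ℝ, -ζ + (ζ + x) = x := fun x => by rw [neg_add_cancel_left]
  have key := h (fun x => ψ (-ζ + x)) (ζ + c) ((fun x => ζ + x) '' D) ((fun x => ζ + x) '' D')
    (h1.image (continuous_const.add continuous_id))
    (by
      rintro _ ⟨x, hx, rfl⟩
      have := h2 hx
      rw [mem_closedBall] at this ⊢
      simpa using this)
    (by rintro _ ⟨x, hx, rfl⟩; exact hT x (h3 hx))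
    (image_mono h4)
    (by
      rintro _ ⟨x, hx, rfl⟩ y hy
      refine ⟨-ζ + y, h5 x hx ?_, by simp⟩
      rw [mem_closedBall] at hy ⊢
      rw [dist_eq_norm] at hy ⊢
      have e : -ζ + y - x = y - (ζ + x) := by abel
      rwa [e])
    hsm
    (by
      rintro w hw hw' _ ⟨x, hx, rfl⟩
      rw [der_translate h6]
      show |der w ψ (-ζ + (ζ + x))| ≤ P.L
      rw [hback]
      exact h7 w hw hw' x hx)
    (by
      rintro _ ⟨x, hx, rfl⟩ hx'
      show |v (ζ + x)| ≤ Real.exp (m * ψ (-ζ + (ζ + x)))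
      rw [hback]
      exact h8 x hx fun hh => hx' ⟨x, hh, rfl⟩)
    (by
      rintro _ ⟨x, hx, rfl⟩ hx'
      rw [lap_translate h6]
      show lap ψ (-ζ + (ζ + x)) ≤ -P.η
      rw [hback]
      apply h9 x hx
      have e : ψ (-ζ + (ζ + x)) = ψ x := by rw [hback]
      simp only [e] at hx'
      exact hx')
    (ζ + z) ⟨z, hz, rfl⟩
  have e : ψ (-ζ + (ζ + z)) = ψ z := by rw [hback]
  simp only [e] at key
  exact key

/-- Multiplication by a positive constant. -/
lemma Comp.mul_exp {P : Par} {v : ℝ × ℝ → ℝ} {m : ℝ} {S : Set (ℝ × ℝ)} (hm : 0 < m)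
    (h : Comp P v m S) (a : ℝ) : Comp P (fun p => v p * Real.exp a) m S := by
  intro ψ c D D' h1 h2 h3 h4 h5 h6 h7 h8 h9 z hz
  have hiff : ∀ (x y : ℝ), |x * Real.exp a| ≤ Real.exp (m * y) ↔
      |x| ≤ Real.exp (m * (y + -(a / m))) := by
    intro x y
    rw [abs_mul, abs_of_pos (Real.exp_pos a)]
    have e : m * (y + -(a / m)) = m * y - a := by field_simp; ring
    rw [e, Real.exp_sub, le_div_iff₀ (Real.exp_pos a)]
  have key := h (fun x => ψ x + -(a / m)) c D D' h1 h2 h3 h4 h5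
    (h6.add contDiff_const)
    (fun w hw hw' z hz => by
      rw [der_add_const _ hw]
      exact h7 w hw hw' z hz)
    (fun z hz hz' => (hiff _ _).1 (h8 z hz hz'))
    (fun z hz hz' => by
      rw [lap_add_const]
      apply h9 z hz
      by_contra hcon
      rw [not_lt] at hcon
      have := (hiff _ _).1 hcon
      have e : ψ z + P.μ + -(a / m) = ψ z + -(a / m) + P.μ := by ring
      rw [e] at this
      exact absurd hz' (not_lt.2 this))
    z hz
  have e : ψ z + -(a / m) + P.μ = ψ z + P.μ + -(a / m) := by ring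
  simp only [e] at key
  exact (hiff _ _).2 key

lemma SolS.mono {q u : ℝ × ℝ → ℝ} {Λ ς : ℝ} {S T : Set (ℝ × ℝ)} (h : SolS q u Λ ς S)
    (hT : T ⊆ S) : SolS q u Λ ς T :=
  ⟨h.smooth_q, h.smooth_u, fun p hp => h.eq p (hT hp), fun p hp => h.bq p (hT hp),
    fun p hp => h.bq1 p (hT hp), fun p hp => h.bq2 p (hT hp)⟩

/-- Rescaling of solutions. -/
lemma SolS.scale {q u : ℝ × ℝ → ℝ} {Λ ς : ℝ} {S : Set (ℝ × ℝ)} (h : SolS q u Λ ς S) (c : ℝ × ℝ)
    {r : ℝ} (hr : 0 ≤ r) {T : Set (ℝ × ℝ)} (hT : ∀ p ∈ T, c + r • p ∈ S) :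
    SolS (fun x => r ^ 2 * q (c + r • x)) (fun x => u (c + r • x)) (r * Λ) (r * ς) T where
  smooth_q := contDiff_const.mul (h.smooth_q.scale c r)
  smooth_u := h.smooth_u.scale c r
  eq := by
    intro p hp
    rw [lap_scale h.smooth_u]
    linear_combination r ^ 2 * h.eq _ (hT p hp)
  bq := by
    intro p hp
    rw [abs_mul, abs_of_nonneg (by positivity : 0 ≤ r ^ 2), mul_pow]
    exact mul_le_mul_of_nonneg_left (h.bq _ (hT p hp)) (by positivity)
  bq1 := by
    intro p hp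
    rw [d1_const_mul (r ^ 2) ((h.smooth_q.scale c r).differentiable p),
      d1_scale h.smooth_q.differentiable, abs_mul, abs_mul,
      abs_of_nonneg (by positivity : 0 ≤ r ^ 2), abs_of_nonneg hr]
    have h1 := h.bq1 _ (hT p hp)
    calc r ^ 2 * (r * |d1 q (c + r • p)|) ≤ r ^ 2 * (r * (ς * Λ ^ 2)) := by gcongr
      _ = r * ς * (r * Λ) ^ 2 := by ring
  bq2 := by
    intro p hp
    rw [d2_const_mul (r ^ 2) ((h.smooth_q.scale c r).differentiable p),
      d2_scale h.smooth_q.differentiable, abs_mul, abs_mul,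
      abs_of_nonneg (by positivity : 0 ≤ r ^ 2), abs_of_nonneg hr]
    have h1 := h.bq2 _ (hT p hp)
    calc r ^ 2 * (r * |d2 q (c + r • p)|) ≤ r ^ 2 * (r * (ς * Λ ^ 2)) := by gcongr
      _ = r * ς * (r * Λ) ^ 2 := by ring

/-! ### Tilts -/

lemma smooth_aff (c : ℝ) (g : ℝ × ℝ) : Smooth (aff c g) := by
  unfold Smooth aff
  fun_prop

lemma continuous_aff (c : ℝ) (g : ℝ × ℝ) : Continuous (aff c g) := (smooth_aff c g).continuous

lemma continuous_tilt {u : ℝ × ℝ → ℝ} (hu : Continuous u) (c : ℝ) (g : ℝ × ℝ) :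
    Continuous (tilt c g u) :=
  hu.mul (Real.continuous_exp.comp (continuous_aff c g).neg)

lemma smooth_tilt {u : ℝ × ℝ → ℝ} (hu : Smooth u) (c : ℝ) (g : ℝ × ℝ) :
    Smooth (tilt c g u) :=
  hu.mul (Real.contDiff_exp.comp (smooth_aff c g).neg)

lemma abs_tilt (c : ℝ) (g : ℝ × ℝ) (u : ℝ × ℝ → ℝ) (p : ℝ × ℝ) :
    |tilt c g u p| = |u p| * Real.exp (-(aff c g p)) := by
  unfold tilt
  rw [abs_mul, abs_of_pos (Real.exp_pos _)]

lemma abs_tilt_le_iff {c : ℝ} {g : ℝ × ℝ} {u : ℝ × ℝ → ℝ} {p : ℝ × ℝ} {a : ℝ} :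
    |tilt c g u p| ≤ Real.exp a ↔ |u p| ≤ Real.exp (aff c g p + a) := by
  rw [abs_tilt, Real.exp_neg, ← div_eq_mul_inv, div_le_iff₀ (Real.exp_pos _), ← Real.exp_add,
    add_comm a]

lemma tilt_zero (u : ℝ × ℝ → ℝ) : tilt 0 0 u = u := by
  funext p
  simp [tilt, aff]

lemma aff_add (c c' : ℝ) (g g' p : ℝ × ℝ) : aff c g p + aff c' g' p = aff (c + c') (g + g') p := by
  simp only [aff, Prod.fst_add, Prod.snd_add]
  ring

lemma tilt_tilt (c c' : ℝ) (g g' : ℝ × ℝ) (u : ℝ × ℝ → ℝ) :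
    tilt c' g' (tilt c g u) = tilt (c + c') (g + g') u := by
  funext p
  unfold tilt
  rw [mul_assoc, ← Real.exp_add, ← aff_add]
  congr 2
  ring

/-- A tilt of a rescaled function. -/
lemma tilt_scale (c c' : ℝ) (g g' x : ℝ × ℝ) {s : ℝ} (hs : s ≠ 0) (u : ℝ × ℝ → ℝ) :
    tilt c' g' (fun p => tilt c g u (x + s • p)) =
      fun p => tilt (c + c' - (g'.1 * x.1 + g'.2 * x.2) / s) (g + s⁻¹ • g') u (x + s • p) := by
  funext p
  unfold tilt
  rw [mul_assoc, ← Real.exp_add]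
  congr 2
  simp only [aff, Prod.fst_add, Prod.snd_add, Prod.smul_fst, Prod.smul_snd, smul_eq_mul]
  field_simp
  ring

lemma M_tilt_pos {u : ℝ × ℝ → ℝ} (hu : Continuous u) {z : ℝ × ℝ} {r : ℝ} (hr : 0 ≤ r) (c : ℝ)
    (g : ℝ × ℝ) (h : 0 < M u z r) : 0 < M (tilt c g u) z r := by
  obtain ⟨p, hp, hpM⟩ := exists_M hu (z := z) hr
  have h1 := le_M (continuous_tilt hu c g) hp
  rw [abs_tilt, hpM] at h1
  exact lt_of_lt_of_le (by positivity) h1

lemma Pos.tilt {u : ℝ × ℝ → ℝ} (hu : Continuous u) {S : Set (ℝ × ℝ)} (h : Pos u S) (c : ℝ)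
    (g : ℝ × ℝ) : Pos (tilt c g u) S := fun z hz r hr =>
  M_tilt_pos hu hr.le c g (h z hz r hr)

lemma Pos.mono {u : ℝ × ℝ → ℝ} {S T : Set (ℝ × ℝ)} (h : Pos u S) (hT : T ⊆ S) : Pos u T :=
  fun z hz => h z (hT hz)

end Pool.Agent.H5.Yau
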