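import Pool.Agent.H24.Near.Defs
import Pool.Agent.H24.Near.Energy

set_option autoImplicit false

/-!
# Energy estimates up to the second derivatives
-/

namespace Pool.Agent.H5.Yau

open MeasureTheory Set Metric Pool.Agent.H24.Near

/-! ### Mixed derivatives -/

private lemma e2_d1d2 {v : ℝ × ℝ → ℝ} (hv : Smooth v) (p : ℝ × ℝ) :
    d1 (d2 v) p = d2 (d1 v) p := by
  have hsym : IsSymmSndFDerivAt ℝ v p := by
    apply ContDiffAt.isSymmSndFDerivAt (n := (⊤ : ℕ∞)) hv.contDiffAt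
    simp only [minSmoothness_of_isRCLikeNormedField]
    have : ((2 : ℕ∞) : WithTop ℕ∞) ≤ ((⊤ : ℕ∞) : WithTop ℕ∞) := WithTop.coe_le_coe.2 le_top
    exact this
  have hd : DifferentiableAt ℝ (fderiv ℝ v) p := by
    have h1 : ContDiff ℝ (⊤ : ℕ∞) (fderiv ℝ v) := ContDiff.fderiv_right hv (by simp)
    exact (h1.differentiable (by simp)) p
  have e : ∀ w w' : ℝ × ℝ, fderiv ℝ (fun x => fderiv ℝ v x w) p w'
      = fderiv ℝ (fderiv ℝ v) p w' w := by
    intro w w'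
    have h2 := (ContinuousLinearMap.hasFDerivAt (ContinuousLinearMap.apply ℝ ℝ w)).comp p
      hd.hasFDerivAt
    have h3 : fderiv ℝ (fun x => fderiv ℝ v x w) p
        = (ContinuousLinearMap.apply ℝ ℝ w).comp (fderiv ℝ (fderiv ℝ v) p) := h2.fderiv
    rw [h3]
    rfl
  show fderiv ℝ (fun x => fderiv ℝ v x (0, 1)) p (1, 0)
    = fderiv ℝ (fun x => fderiv ℝ v x (1, 0)) p (0, 1)
  rw [e, e]
  exact hsym _ _

/-! ### Cutoff functions -/

private lemma e2_cutoff (r r' : ℝ) (hr : 0 < r) (hrr : r < r') :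
    ∃ χ : ℝ × ℝ → ℝ, Smooth χ ∧ HasCompactSupport χ ∧
      tsupport χ ⊆ closedBall (0 : ℝ × ℝ) r' ∧ (∀ p, 0 ≤ χ p) ∧ (∀ p, χ p ≤ 1) ∧
      (∀ p ∈ closedBall (0 : ℝ × ℝ) r, χ p = 1) ∧ ∃ K : ℝ, 0 ≤ K ∧ (∀ p, |lap χ p| ≤ K) ∧
      (∀ p, |d1 χ p| ≤ K) ∧ ∀ p, |d2 χ p| ≤ K := by
  set b : ContDiffBump (0 : ℝ × ℝ) := ⟨r, (r + r') / 2, hr, by linarith only [hrr]⟩ with hb
  have hs : Smooth (fun p => b p) := b.contDiff
  have hc : HasCompactSupport (fun p => b p) := b.hasCompactSupport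
  refine ⟨fun p => b p, hs, hc, ?_, fun p => b.nonneg, fun p => b.le_one,
    fun p hp => b.one_of_mem_closedBall hp, ?_⟩
  · refine (b.tsupport_eq).subset.trans (closedBall_subset_closedBall ?_)
    show (r + r') / 2 ≤ r'
    linarith only [hrr]
  · have hcs : HasCompactSupport (lap (fun p => b p)) :=
      hc.of_isClosed_subset (isClosed_tsupport _)
        (closure_minimal (fun p hp => by
          by_contra h
          exact hp (lap_eq_zero_of_notMem h)) (isClosed_tsupport _))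
    obtain ⟨K, hK⟩ := hcs.exists_bound_of_continuous hs.lap.continuous
    obtain ⟨K', hK'⟩ := (hasCompactSupport_d1 hc).exists_bound_of_continuous hs.d1.continuous
    obtain ⟨K'', hK''⟩ := (hasCompactSupport_d2 hc).exists_bound_of_continuous hs.d2.continuous
    have h0 : 0 ≤ K := (abs_nonneg _).trans (hK 0)
    have h0' : 0 ≤ K' := (abs_nonneg _).trans (hK' 0)
    have h0'' : 0 ≤ K'' := (abs_nonneg _).trans (hK'' 0)
    exact ⟨K + K' + K'', by positivity, fun p => (hK p).trans (by linarith),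
      fun p => (hK' p).trans (by linarith), fun p => (hK'' p).trans (by linarith)⟩

/-! ### The Hessian determinant -/

private lemma e2_smooth_mul {f g : ℝ × ℝ → ℝ} (hf : Smooth f) (hg : Smooth g) :
    Smooth (fun x => f x * g x) := ContDiff.mul hf hg

private lemma e2_det {η ψ : ℝ × ℝ → ℝ} (hη : Smooth η) (hc : HasCompactSupport η)
    (hψ : Smooth ψ) :
    ∫ p, η p * (d1 (d1 ψ) p * d2 (d2 ψ) p - (d2 (d1 ψ) p) ^ 2) =
      ∫ p, (-(d1 η p * d2 (d2 ψ) p) + d2 η p * d2 (d1 ψ) p) * d1 ψ p := by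
  have hs1 := e2_smooth_mul hη hψ.d2.d2
  have hs2 := e2_smooth_mul hη hψ.d1.d2
  have hc1 : HasCompactSupport (fun x => η x * d2 (d2 ψ) x) := hc.mul_right
  have hc2 : HasCompactSupport (fun x => η x * d2 (d1 ψ) x) := hc.mul_right
  have h1 := integral_mul_d1 hs1 hc1 hψ.d1
  have h2 := integral_mul_d2 hs2 hc2 hψ.d1
  have i1 : Integrable (fun p => η p * d2 (d2 ψ) p * d1 (d1 ψ) p) :=
    (hs1.continuous.mul hψ.d1.d1.continuous).integrable_of_hasCompactSupport hc1.mul_right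
  have i2 : Integrable (fun p => η p * d2 (d1 ψ) p * d2 (d1 ψ) p) :=
    (hs2.continuous.mul hψ.d1.d2.continuous).integrable_of_hasCompactSupport hc2.mul_right
  have i3 : Integrable (fun p => d1 (fun x => η x * d2 (d2 ψ) x) p * d1 ψ p) :=
    (hs1.d1.continuous.mul hψ.d1.continuous).integrable_of_hasCompactSupport
      (hasCompactSupport_d1 hc1).mul_right
  have i4 : Integrable (fun p => d2 (fun x => η x * d2 (d1 ψ) x) p * d1 ψ p) :=
    (hs2.d2.continuous.mul hψ.d1.continuous).integrable_of_hasCompactSupport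
      (hasCompactSupport_d2 hc2).mul_right
  have e1 : ∫ p, η p * (d1 (d1 ψ) p * d2 (d2 ψ) p - (d2 (d1 ψ) p) ^ 2) =
      ∫ p, (η p * d2 (d2 ψ) p * d1 (d1 ψ) p - η p * d2 (d1 ψ) p * d2 (d1 ψ) p) :=
    integral_congr_ae (Filter.Eventually.of_forall fun p => by ring)
  have e2 : ∫ p, (-(d1 η p * d2 (d2 ψ) p) + d2 η p * d2 (d1 ψ) p) * d1 ψ p =
      ∫ p, (-(d1 (fun x => η x * d2 (d2 ψ) x) p * d1 ψ p) +
        d2 (fun x => η x * d2 (d1 ψ) x) p * d1 ψ p) := by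
    refine integral_congr_ae (Filter.Eventually.of_forall fun p => ?_)
    have k1 : d1 (fun x => η x * d2 (d2 ψ) x) p =
        d1 η p * d2 (d2 ψ) p + η p * d1 (d2 (d2 ψ)) p :=
      d1_mul (hη.differentiable p) (hψ.d2.d2.differentiable p)
    have k2 : d2 (fun x => η x * d2 (d1 ψ) x) p =
        d2 η p * d2 (d1 ψ) p + η p * d2 (d2 (d1 ψ)) p :=
      d2_mul (hη.differentiable p) (hψ.d1.d2.differentiable p)
    have k3 : d1 (d2 (d2 ψ)) p = d2 (d2 (d1 ψ)) p := by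
      rw [e2_d1d2 hψ.d2 p]
      have : d1 (d2 ψ) = d2 (d1 ψ) := funext fun x => e2_d1d2 hψ x
      rw [this]
    show _ = _
    simp only [k1, k2, k3]
    ring
  have i3' : Integrable (fun p => -(d1 (fun x => η x * d2 (d2 ψ) x) p * d1 ψ p)) := i3.neg
  rw [e1, e2, integral_sub i1 i2, integral_add i3' i4, integral_neg, h1, h2]
  ring

private lemma e2_hess {χ ψ : ℝ × ℝ → ℝ} (hχ : Smooth χ) (hc : HasCompactSupport χ)
    (hψ : Smooth ψ) {S : Set (ℝ × ℝ)} (hS : IsCompact S) (hχS : tsupport χ ⊆ S) {K : ℝ}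
    (h1 : ∀ p, |d1 χ p| ≤ K) (h2 : ∀ p, |d2 χ p| ≤ K) :
    ∫ p in S, (χ p) ^ 2 * ((d1 (d1 ψ) p) ^ 2 + (d1 (d2 ψ) p) ^ 2 + (d2 (d1 ψ) p) ^ 2 +
      (d2 (d2 ψ) p) ^ 2) ≤
      2 * (∫ p in S, (χ p) ^ 2 * (lap ψ p) ^ 2) +
        64 * K ^ 2 * ∫ p in S, (d1 ψ p) ^ 2 := by
  have cS : ∀ {g : ℝ × ℝ → ℝ}, Continuous g → IntegrableOn g S := fun hg =>
    hg.continuousOn.integrableOn_compact hS
  have hSm : MeasurableSet S := hS.measurableSet
  have hoff : ∀ p, p ∉ S → χ p = 0 := fun p hp =>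
    image_eq_zero_of_notMem_tsupport fun h => hp (hχS h)
  have hη := e2_smooth_mul hχ hχ
  have hηc : HasCompactSupport (fun x => χ x * χ x) := hc.mul_right
  have hdet := e2_det hη hηc hψ
  have ed1 : ∀ p, d1 (fun x => χ x * χ x) p = 2 * (χ p * d1 χ p) := fun p => by
    rw [d1_mul (hχ.differentiable p) (hχ.differentiable p)]; ring
  have ed2 : ∀ p, d2 (fun x => χ x * χ x) p = 2 * (χ p * d2 χ p) := fun p => by
    rw [d2_mul (hχ.differentiable p) (hχ.differentiable p)]; ring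
  -- both sides of the determinant identity as integrals on `S`
  have hdetS : ∫ p in S, χ p * χ p * (d1 (d1 ψ) p * d2 (d2 ψ) p - (d2 (d1 ψ) p) ^ 2) =
      ∫ p in S, (-(2 * (χ p * d1 χ p) * d2 (d2 ψ) p) + 2 * (χ p * d2 χ p) * d2 (d1 ψ) p) *
        d1 ψ p := by
    rw [setIntegral_eq_integral_of_forall_compl_eq_zero (fun p hp => by
        rw [hoff p hp]; ring),
      setIntegral_eq_integral_of_forall_compl_eq_zero (fun p hp => by
        rw [hoff p hp]; ring)]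
    rw [hdet]
    refine integral_congr_ae (Filter.Eventually.of_forall fun p => ?_)
    show _ = _
    simp only [ed1, ed2]
  have c0 := hχ.continuous
  have c1 := hχ.d1.continuous
  have c2 := hχ.d2.continuous
  have q1 := hψ.d1.continuous
  have q11 := hψ.d1.d1.continuous
  have q22 := hψ.d2.d2.continuous
  have q12 := hψ.d1.d2.continuous
  have q21 := hψ.d2.d1.continuous
  set X := ∫ p in S, (χ p) ^ 2 * ((d1 (d1 ψ) p) ^ 2 + (d1 (d2 ψ) p) ^ 2 + (d2 (d1 ψ) p) ^ 2 +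
      (d2 (d2 ψ) p) ^ 2) with hX
  set Y := ∫ p in S, (χ p) ^ 2 * (lap ψ p) ^ 2 with hY
  set W := ∫ p in S, (d1 ψ p) ^ 2 with hW
  have cY : Continuous fun p => (χ p) ^ 2 * (lap ψ p) ^ 2 :=
    (c0.pow 2).mul (hψ.lap.continuous.pow 2)
  have cD : Continuous fun p => χ p * χ p *
      (d1 (d1 ψ) p * d2 (d2 ψ) p - (d2 (d1 ψ) p) ^ 2) :=
    (c0.mul c0).mul ((q11.mul q22).sub (q12.pow 2))
  have cX : Continuous fun p => (χ p) ^ 2 * ((d1 (d1 ψ) p) ^ 2 + (d1 (d2 ψ) p) ^ 2 +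
      (d2 (d1 ψ) p) ^ 2 + (d2 (d2 ψ) p) ^ 2) :=
    (c0.pow 2).mul ((((q11.pow 2).add (q21.pow 2)).add (q12.pow 2)).add (q22.pow 2))
  have cR : Continuous fun p => (-(2 * (χ p * d1 χ p) * d2 (d2 ψ) p) +
      2 * (χ p * d2 χ p) * d2 (d1 ψ) p) * d1 ψ p :=
    (((continuous_const.mul (c0.mul c1)).mul q22).neg.add
      ((continuous_const.mul (c0.mul c2)).mul q12)).mul q1
  -- `X = Y - 2 ∫ det`
  have hXY : X = Y + -2 * ∫ p in S, χ p * χ p *
      (d1 (d1 ψ) p * d2 (d2 ψ) p - (d2 (d1 ψ) p) ^ 2) := by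
    have cD' : Continuous fun p => -2 * (χ p * χ p *
      (d1 (d1 ψ) p * d2 (d2 ψ) p - (d2 (d1 ψ) p) ^ 2)) := continuous_const.mul cD
    rw [hX, hY, ← integral_const_mul, ← integral_add (cS cY) (cS cD')]
    refine setIntegral_congr_fun hSm fun p _ => ?_
    show _ = _
    simp only [lap, e2_d1d2 hψ p]
    ring
  -- Young
  have hR : -2 * ∫ p in S, (-(2 * (χ p * d1 χ p) * d2 (d2 ψ) p) +
      2 * (χ p * d2 χ p) * d2 (d1 ψ) p) * d1 ψ p ≤ 1 / 2 * X + 32 * K ^ 2 * W := by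
    have cX' : Continuous fun p => 1 / 2 * ((χ p) ^ 2 * ((d1 (d1 ψ) p) ^ 2 +
      (d1 (d2 ψ) p) ^ 2 + (d2 (d1 ψ) p) ^ 2 + (d2 (d2 ψ) p) ^ 2)) := continuous_const.mul cX
    have cq' : Continuous fun p => 32 * K ^ 2 * (d1 ψ p) ^ 2 := continuous_const.mul (q1.pow 2)
    have cR' : Continuous fun p => -2 * ((-(2 * (χ p * d1 χ p) * d2 (d2 ψ) p) +
      2 * (χ p * d2 χ p) * d2 (d1 ψ) p) * d1 ψ p) := continuous_const.mul cR
    rw [← integral_const_mul, hX, hW, ← integral_const_mul, ← integral_const_mul,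
      ← integral_add (cS cX') (cS cq')]
    refine setIntegral_mono_on (cS cR') (cS (cX'.add cq')) hSm fun p _ => ?_
    have b1 : (d1 χ p) ^ 2 ≤ K ^ 2 := by
      rw [← sq_abs (d1 χ p)]
      exact pow_le_pow_left₀ (abs_nonneg _) (h1 p) 2
    have b2 : (d2 χ p) ^ 2 ≤ K ^ 2 := by
      rw [← sq_abs (d2 χ p)]
      exact pow_le_pow_left₀ (abs_nonneg _) (h2 p) 2
    have y1 : 4 * (χ p * d2 (d2 ψ) p) * (d1 χ p * d1 ψ p) ≤
        1 / 4 * (χ p * d2 (d2 ψ) p) ^ 2 + 16 * (d1 χ p * d1 ψ p) ^ 2 := by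
      nlinarith [sq_nonneg (1 / 2 * (χ p * d2 (d2 ψ) p) - 4 * (d1 χ p * d1 ψ p))]
    have y2 : -(4 * (χ p * d2 (d1 ψ) p) * (d2 χ p * d1 ψ p)) ≤
        1 / 4 * (χ p * d2 (d1 ψ) p) ^ 2 + 16 * (d2 χ p * d1 ψ p) ^ 2 := by
      nlinarith [sq_nonneg (1 / 2 * (χ p * d2 (d1 ψ) p) + 4 * (d2 χ p * d1 ψ p))]
    have y3 : (d1 χ p * d1 ψ p) ^ 2 ≤ K ^ 2 * (d1 ψ p) ^ 2 := by
      rw [mul_pow]
      exact mul_le_mul_of_nonneg_right b1 (sq_nonneg _)
    have y4 : (d2 χ p * d1 ψ p) ^ 2 ≤ K ^ 2 * (d1 ψ p) ^ 2 := by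
      rw [mul_pow]
      exact mul_le_mul_of_nonneg_right b2 (sq_nonneg _)
    have y5 : 0 ≤ (χ p) ^ 2 * (d1 (d1 ψ) p) ^ 2 := by positivity
    have y6 : 0 ≤ (χ p) ^ 2 * (d1 (d2 ψ) p) ^ 2 := by positivity
    have y7 : 0 ≤ (χ p) ^ 2 * (d2 (d1 ψ) p) ^ 2 := by positivity
    have y8 : 0 ≤ (χ p) ^ 2 * (d2 (d2 ψ) p) ^ 2 := by positivity
    show -2 * ((-(2 * (χ p * d1 χ p) * d2 (d2 ψ) p) +
      2 * (χ p * d2 χ p) * d2 (d1 ψ) p) * d1 ψ p) ≤ 1 / 2 * ((χ p) ^ 2 * ((d1 (d1 ψ) p) ^ 2 +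
      (d1 (d2 ψ) p) ^ 2 + (d2 (d1 ψ) p) ^ 2 + (d2 (d2 ψ) p) ^ 2)) +
        32 * K ^ 2 * (d1 ψ p) ^ 2
    have e : -2 * ((-(2 * (χ p * d1 χ p) * d2 (d2 ψ) p) +
        2 * (χ p * d2 χ p) * d2 (d1 ψ) p) * d1 ψ p) =
        4 * (χ p * d2 (d2 ψ) p) * (d1 χ p * d1 ψ p) +
          -(4 * (χ p * d2 (d1 ψ) p) * (d2 χ p * d1 ψ p)) := by ring
    rw [e]
    have e' : (χ p * d2 (d2 ψ) p) ^ 2 = (χ p) ^ 2 * (d2 (d2 ψ) p) ^ 2 := by ring
    have e'' : (χ p * d2 (d1 ψ) p) ^ 2 = (χ p) ^ 2 * (d2 (d1 ψ) p) ^ 2 := by ring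
    rw [e'] at y1
    rw [e''] at y2
    nlinarith only [y1, y2, y3, y4]
  rw [hXY, hdetS]
  have h3 : X = Y + -2 * ∫ p in S, (-(2 * (χ p * d1 χ p) * d2 (d2 ψ) p) +
      2 * (χ p * d2 χ p) * d2 (d1 ψ) p) * d1 ψ p := by rw [hXY, hdetS]
  linarith only [hdetS, hXY, hR]

theorem energy2 (R C1 : ℝ) (hR : 1 ≤ R) (hC1 : 0 ≤ C1) : ∃ Ce : ℝ, 1 ≤ Ce ∧
    ∀ (H f ψ : ℝ × ℝ → ℝ) (L0 t : ℝ), Continuous H → Smooth f → Smooth ψ → 0 < t → t ≤ 1 →
    0 < L0 → (∀ p ∈ closedBall (0 : ℝ × ℝ) (R + 1), ψ p - t * lap ψ p = f p) →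
    (∀ p ∈ closedBall (0 : ℝ × ℝ) (R + 1), -L0 ≤ ψ p ∧ ψ p ≤ 0) →
    (∀ p ∈ closedBall (0 : ℝ × ℝ) (R + 1), -L0 ≤ f p ∧ f p ≤ 0) →
    (∀ p ∈ closedBall (0 : ℝ × ℝ) (R + 1), H p ≤ f p) →
    (∀ p ∈ closedBall (0 : ℝ × ℝ) (R + 1), H p ≤ ψ p + C1 * t * L0) →
    ∫ p in closedBall (0 : ℝ × ℝ) (R + 1), (f p - H p) ≤ C1 * t * L0 →
    ∫ p in closedBall (0 : ℝ × ℝ) R, |H p - ψ p| ≤ Ce * t * L0 ∧
    ∫ p in closedBall (0 : ℝ × ℝ) R, ((d1 ψ p) ^ 2 + (d2 ψ p) ^ 2) ≤ Ce * L0 ^ 2 ∧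
    ∫ p in closedBall (0 : ℝ × ℝ) R, ((d1 (d1 ψ) p) ^ 2 + (d1 (d2 ψ) p) ^ 2 +
      (d2 (d1 ψ) p) ^ 2 + (d2 (d2 ψ) p) ^ 2) ≤ Ce * L0 ^ 2 / t := by
  obtain ⟨χ, hχ, hχc, hχs, hχ0, hχ1, hχe, Kχ, hKχ0, hKχ, -, -⟩ :=
    e2_cutoff (R + 2 / 3) (R + 1) (by linarith) (by linarith only [])
  obtain ⟨χ₂, h₂, h₂c, h₂s, h₂0, h₂1, h₂e, K₂, hK₂0, hK₂, -, -⟩ :=
    e2_cutoff (R + 1 / 3) (R + 2 / 3) (by linarith) (by linarith)
  obtain ⟨χ₃, h₃, h₃c, h₃s, h₃0, h₃1, h₃e, K₃, hK₃0, -, hK₃a, hK₃b⟩ :=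
    e2_cutoff R (R + 1 / 3) (by linarith) (by linarith)
  set A : ℝ := volume.real (closedBall (0 : ℝ × ℝ) (R + 1)) with hA
  have hA0 : 0 ≤ A := measureReal_nonneg
  set K1 : ℝ := 2 * C1 + 2 * A * C1 + A * Kχ with hK1
  have hK10 : 0 ≤ K1 := by positivity
  set K2 : ℝ := K1 + A * K₂ with hK2
  have hK20 : 0 ≤ K2 := by positivity
  set K3 : ℝ := 2 * K1 + 64 * K₃ ^ 2 * K2 with hK3
  have hK30 : 0 ≤ K3 := by positivity
  refine ⟨1 + C1 + K1 + K2 + K3, by linarith, ?_⟩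
  intro H f ψ L0 t hH hf hψ ht ht1 hL0 heq hψb hfb hHf hHψ hint
  have hAconst : ∀ c : ℝ, ∫ _p in closedBall (0 : ℝ × ℝ) (R + 1), c = A * c := by
    intro c
    rw [setIntegral_const, smul_eq_mul]
  have cint : ∀ {g : ℝ × ℝ → ℝ} {r : ℝ}, Continuous g → IntegrableOn g (closedBall (0 : ℝ × ℝ) r) :=
    fun {g r} hg => hg.continuousOn.integrableOn_compact (isCompact_closedBall 0 r)
  have hLc := hψ.lap.continuous
  have hψc := hψ.continuous
  have hfc := hf.continuous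
  have hχc' := hχ.continuous
  have hCt : 0 ≤ C1 * t * L0 := by positivity
  have hmono : ∀ {r r' : ℝ}, r ≤ r' → ∀ {g : ℝ × ℝ → ℝ}, Continuous g → (∀ p, 0 ≤ g p) →
      ∫ p in closedBall (0 : ℝ × ℝ) r, g p ≤ ∫ p in closedBall (0 : ℝ × ℝ) r', g p := by
    intro r r' hr g hg hg0
    exact setIntegral_mono_set (cint hg) (Filter.Eventually.of_forall fun p => hg0 p)
      (LE.le.eventuallyLE (closedBall_subset_closedBall hr))
  have hsub : ∀ {r r' : ℝ}, r ≤ r' → ∀ {θ : ℝ × ℝ → ℝ}, Continuous θ → (∀ p, 0 ≤ θ p) →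
      (∀ p ∈ closedBall (0 : ℝ × ℝ) r, θ p = 1) → ∀ {g : ℝ × ℝ → ℝ}, Continuous g →
      (∀ p, 0 ≤ g p) →
      ∫ p in closedBall (0 : ℝ × ℝ) r, g p ≤ ∫ p in closedBall (0 : ℝ × ℝ) r', θ p * g p := by
    intro r r' hr θ hθ hθ0 hθe g hg hg0
    have e1 : ∫ p in closedBall (0 : ℝ × ℝ) r, g p = ∫ p in closedBall (0 : ℝ × ℝ) r, θ p * g p := by
      refine setIntegral_congr_fun measurableSet_closedBall fun p hp => ?_
      show g p = θ p * g p
      rw [hθe p hp, one_mul]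
    rw [e1]
    exact hmono hr (hθ.mul hg) fun p => mul_nonneg (hθ0 p) (hg0 p)
  -- Step 1
  have s1 : ∫ p in closedBall (0 : ℝ × ℝ) (R + 1), χ p * |f p - ψ p| ≤ K1 * t * L0 := by
    have hpt : ∀ p ∈ closedBall (0 : ℝ × ℝ) (R + 1), χ p * |f p - ψ p| ≤
        2 * (f p - H p) + 2 * (C1 * t * L0) + t * (χ p * lap ψ p) := by
      intro p hp
      have h1 := heq p hp
      have h2 := hHf p hp
      have h3 := hHψ p hp
      have h4 := hχ0 p
      have h5 := hχ1 p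
      have h6 : |f p - ψ p| ≤ 2 * ((f p - H p) + C1 * t * L0) - (f p - ψ p) := by
        rw [abs_le]
        constructor <;> linarith
      have h7 : χ p * |f p - ψ p| ≤ χ p * (2 * ((f p - H p) + C1 * t * L0) - (f p - ψ p)) :=
        mul_le_mul_of_nonneg_left h6 h4
      have h8 : χ p * (2 * ((f p - H p) + C1 * t * L0)) ≤ 1 * (2 * ((f p - H p) + C1 * t * L0)) :=
        mul_le_mul_of_nonneg_right h5 (by linarith)
      have h9 : χ p * (f p - ψ p) = - (t * (χ p * lap ψ p)) := by rw [← h1]; ring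
      nlinarith only [h7, h8, h9]
    have k0 : Continuous (fun p => χ p * |f p - ψ p|) := hχc'.mul (hfc.sub hψc).abs
    have k1 : Continuous (fun p => 2 * (f p - H p)) := continuous_const.mul (hfc.sub hH)
    have k2 : Continuous (fun _ : ℝ × ℝ => 2 * (C1 * t * L0)) := continuous_const
    have k3 : Continuous (fun p => t * (χ p * lap ψ p)) := continuous_const.mul (hχc'.mul hLc)
    have k12 : Continuous (fun p => 2 * (f p - H p) + 2 * (C1 * t * L0)) := k1.add k2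
    have k123 : Continuous (fun p => 2 * (f p - H p) + 2 * (C1 * t * L0) +
        t * (χ p * lap ψ p)) := k12.add k3
    have h1 := setIntegral_mono_on (cint k0) (cint k123) measurableSet_closedBall hpt
    refine h1.trans ?_
    rw [integral_add (cint k12) (cint k3), integral_add (cint k1) (cint k2),
      hAconst, integral_const_mul, integral_const_mul, green_on hχ hχc hχs hψ]
    have h2 : ∫ p in closedBall (0 : ℝ × ℝ) (R + 1), lap χ p * ψ p ≤ A * (Kχ * L0) := by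
      rw [← hAconst]
      refine setIntegral_mono_on (cint (hχ.lap.continuous.mul hψc)) (cint continuous_const)
        measurableSet_closedBall ?_
      intro p hp
      have h3 := hKχ p
      obtain ⟨h4, h5⟩ := hψb p hp
      have h6 : |ψ p| ≤ L0 := abs_le.2 ⟨h4, by linarith⟩
      calc lap χ p * ψ p ≤ |lap χ p| * |ψ p| := by rw [← abs_mul]; exact le_abs_self _
        _ ≤ Kχ * L0 := mul_le_mul h3 h6 (abs_nonneg _) hKχ0
    have h3 := mul_le_mul_of_nonneg_left h2 ht.le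
    have h4 : K1 * t * L0 = 2 * (C1 * t * L0) + A * (2 * (C1 * t * L0)) + t * (A * (Kχ * L0)) := by
      rw [hK1]; ring
    rw [h4]
    linarith
  have cfψ : Continuous fun p => |f p - ψ p| := (hfc.sub hψc).abs
  have cHf : Continuous fun p => |H p - f p| := (hH.sub hfc).abs
  have s1' : ∫ p in closedBall (0 : ℝ × ℝ) (R + 2 / 3), |f p - ψ p| ≤ K1 * t * L0 :=
    (hsub (by linarith) hχc' hχ0 hχe cfψ fun p => abs_nonneg _).trans s1
  -- the first estimate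
  have r1 : ∫ p in closedBall (0 : ℝ × ℝ) R, |H p - ψ p| ≤ (C1 + K1) * t * L0 := by
    have h1 : ∫ p in closedBall (0 : ℝ × ℝ) R, |H p - ψ p| ≤
        ∫ p in closedBall (0 : ℝ × ℝ) R, (|H p - f p| + |f p - ψ p|) := by
      refine setIntegral_mono_on (cint (hH.sub hψc).abs) (cint (cHf.add cfψ))
        measurableSet_closedBall fun p _ => ?_
      exact abs_sub_le _ _ _
    have h2 : ∫ p in closedBall (0 : ℝ × ℝ) (R + 1), |H p - f p| ≤ C1 * t * L0 := by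
      refine le_trans (le_of_eq ?_) hint
      refine setIntegral_congr_fun measurableSet_closedBall fun p hp => ?_
      show |H p - f p| = f p - H p
      rw [abs_sub_comm, abs_of_nonneg (sub_nonneg.2 (hHf p hp))]
    rw [integral_add (cint cHf) (cint cfψ)] at h1
    have h3 := hmono (show R ≤ R + 1 by linarith) cHf fun p => abs_nonneg _
    have h4 := hmono (show R ≤ R + 2 / 3 by linarith) cfψ fun p => abs_nonneg _
    have h5 : (C1 + K1) * t * L0 = C1 * t * L0 + K1 * t * L0 := by ring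
    rw [h5]
    linarith
  -- Step 2
  have s2 : ∫ p in closedBall (0 : ℝ × ℝ) (R + 2 / 3), χ₂ p * (d1 ψ p ^ 2 + d2 ψ p ^ 2) ≤
      K2 * L0 ^ 2 := by
    have hin : ∀ p ∈ closedBall (0 : ℝ × ℝ) (R + 2 / 3), p ∈ closedBall (0 : ℝ × ℝ) (R + 1) :=
      fun p hp => closedBall_subset_closedBall (by linarith) hp
    have hc₂ := h₂.continuous
    have hg := green_on h₂ h₂c h₂s (g := fun x => ψ x * ψ x) (e2_smooth_mul hψ hψ)
    have e1 : ∫ p in closedBall (0 : ℝ × ℝ) (R + 2 / 3), χ₂ p * lap (fun x => ψ x * ψ x) p =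
        2 * (∫ p in closedBall (0 : ℝ × ℝ) (R + 2 / 3), χ₂ p * (d1 ψ p ^ 2 + d2 ψ p ^ 2)) +
        2 * ∫ p in closedBall (0 : ℝ × ℝ) (R + 2 / 3), χ₂ p * (ψ p * lap ψ p) := by
      have k1 : Continuous (fun p => 2 * (χ₂ p * (d1 ψ p ^ 2 + d2 ψ p ^ 2))) :=
        continuous_const.mul (hc₂.mul ((hψ.d1.continuous.pow 2).add (hψ.d2.continuous.pow 2)))
      have k2 : Continuous (fun p => 2 * (χ₂ p * (ψ p * lap ψ p))) :=
        continuous_const.mul (hc₂.mul (hψc.mul hLc))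
      rw [← integral_const_mul, ← integral_const_mul, ← integral_add (cint k1) (cint k2)]
      refine setIntegral_congr_fun measurableSet_closedBall fun p _ => ?_
      show χ₂ p * lap (fun x => ψ x * ψ x) p = _
      rw [lap_sq hψ]
      ring
    have h2 : ∫ p in closedBall (0 : ℝ × ℝ) (R + 2 / 3), lap χ₂ p * (ψ p * ψ p) ≤
        A * (K₂ * L0 ^ 2) := by
      have h2a : ∫ p in closedBall (0 : ℝ × ℝ) (R + 2 / 3), lap χ₂ p * (ψ p * ψ p) ≤
          ∫ _p in closedBall (0 : ℝ × ℝ) (R + 2 / 3), K₂ * L0 ^ 2 := by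
        refine setIntegral_mono_on (cint (h₂.lap.continuous.mul (hψc.mul hψc)))
          (cint continuous_const) measurableSet_closedBall ?_
        intro p hp
        have h3 := hK₂ p
        obtain ⟨h4, h5⟩ := hψb p (hin p hp)
        have h6 : |ψ p * ψ p| ≤ L0 ^ 2 := by
          rw [abs_mul, ← sq]
          exact pow_le_pow_left₀ (abs_nonneg _) (abs_le.2 ⟨h4, by linarith only [hL0, h5]⟩) 2
        calc lap χ₂ p * (ψ p * ψ p) ≤ |lap χ₂ p| * |ψ p * ψ p| := by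
              rw [← abs_mul]; exact le_abs_self _
          _ ≤ K₂ * L0 ^ 2 := mul_le_mul h3 h6 (abs_nonneg _) hK₂0
      refine h2a.trans ?_
      rw [← hAconst]
      exact hmono (by linarith) continuous_const fun _ => by positivity
    have h3 : - (L0 * (K1 * L0)) ≤
        ∫ p in closedBall (0 : ℝ × ℝ) (R + 2 / 3), χ₂ p * (ψ p * lap ψ p) := by
      have h4 : ∀ p ∈ closedBall (0 : ℝ × ℝ) (R + 2 / 3),
          - (L0 / t) * |f p - ψ p| ≤ χ₂ p * (ψ p * lap ψ p) := by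
        intro p hp
        have h5 := heq p (hin p hp)
        obtain ⟨h6, h7⟩ := hψb p (hin p hp)
        have h8 : lap ψ p = - (f p - ψ p) / t := by
          field_simp
          linarith only [h5]
        have h9 : |ψ p| ≤ L0 := abs_le.2 ⟨h6, by linarith⟩
        have h10 : |χ₂ p * (ψ p * (-(f p - ψ p)))| ≤ L0 * |f p - ψ p| := by
          rw [abs_mul, abs_mul, abs_neg, abs_of_nonneg (h₂0 p)]
          calc χ₂ p * (|ψ p| * |f p - ψ p|) ≤ 1 * (|ψ p| * |f p - ψ p|) :=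
                mul_le_mul_of_nonneg_right (h₂1 p) (by positivity)
            _ ≤ L0 * |f p - ψ p| := by
                rw [one_mul]
                exact mul_le_mul_of_nonneg_right h9 (abs_nonneg _)
        have h11 := (abs_le.1 h10).1
        rw [h8]
        calc - (L0 / t) * |f p - ψ p| = 1 / t * (-(L0 * |f p - ψ p|)) := by ring
          _ ≤ 1 / t * (χ₂ p * (ψ p * (- (f p - ψ p)))) :=
              mul_le_mul_of_nonneg_left h11 (by positivity)
          _ = χ₂ p * (ψ p * (-(f p - ψ p) / t)) := by ring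
      have k1 : Continuous (fun p => - (L0 / t) * |f p - ψ p|) := continuous_const.mul cfψ
      have k2 : Continuous (fun p => χ₂ p * (ψ p * lap ψ p)) := hc₂.mul (hψc.mul hLc)
      have h5 := setIntegral_mono_on (cint k1) (cint k2) measurableSet_closedBall h4
      rw [integral_const_mul] at h5
      refine le_trans ?_ h5
      have h6 := mul_le_mul_of_nonneg_left s1' (div_nonneg hL0.le ht.le)
      have h7 : L0 / t * (K1 * t * L0) = L0 * (K1 * L0) := by field_simp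
      rw [h7] at h6
      linarith only [h6]
    rw [e1] at hg
    have h5 : 0 ≤ A * (K₂ * L0 ^ 2) := by positivity
    have h6 : K2 * L0 ^ 2 = L0 * (K1 * L0) + A * (K₂ * L0 ^ 2) := by rw [hK2]; ring
    rw [h6]
    linarith
  have cS : Continuous fun z => (d1 ψ z) ^ 2 + (d2 ψ z) ^ 2 :=
    (hψ.d1.continuous.pow 2).add (hψ.d2.continuous.pow 2)
  have s2' : ∫ p in closedBall (0 : ℝ × ℝ) (R + 1 / 3), ((d1 ψ p) ^ 2 + (d2 ψ p) ^ 2) ≤
      K2 * L0 ^ 2 :=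
    (hsub (by linarith only []) h₂.continuous h₂0 h₂e cS fun p => by positivity).trans s2
  -- Step 3
  have s3 : ∫ p in closedBall (0 : ℝ × ℝ) R, ((d1 (d1 ψ) p) ^ 2 + (d1 (d2 ψ) p) ^ 2 +
      (d2 (d1 ψ) p) ^ 2 + (d2 (d2 ψ) p) ^ 2) ≤ K3 * L0 ^ 2 / t := by
    have hhess := e2_hess h₃ h₃c hψ (isCompact_closedBall (0 : ℝ × ℝ) (R + 1 / 3)) h₃s hK₃a hK₃b
    have cX : Continuous fun p => ((d1 (d1 ψ) p) ^ 2 + (d1 (d2 ψ) p) ^ 2 +
        (d2 (d1 ψ) p) ^ 2 + (d2 (d2 ψ) p) ^ 2) :=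
      (((hψ.d1.d1.continuous.pow 2).add (hψ.d2.d1.continuous.pow 2)).add
        (hψ.d1.d2.continuous.pow 2)).add (hψ.d2.d2.continuous.pow 2)
    have h1 := hsub (show R ≤ R + 1 / 3 by linarith only []) (θ := fun p => (χ₃ p) ^ 2)
      (h₃.continuous.pow 2) (fun p => sq_nonneg _) (fun p hp => by
        show (χ₃ p) ^ 2 = 1
        rw [h₃e p hp, one_pow]) cX fun p => by positivity
    have h2 : ∫ p in closedBall (0 : ℝ × ℝ) (R + 1 / 3), (χ₃ p) ^ 2 * (lap ψ p) ^ 2 ≤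
        K1 * L0 ^ 2 / t := by
      have h3 : ∫ p in closedBall (0 : ℝ × ℝ) (R + 1 / 3), (χ₃ p) ^ 2 * (lap ψ p) ^ 2 ≤
          ∫ p in closedBall (0 : ℝ × ℝ) (R + 1 / 3), L0 / t ^ 2 * |f p - ψ p| := by
        refine setIntegral_mono_on (cint ((h₃.continuous.pow 2).mul (hLc.pow 2)))
          (cint (continuous_const.mul cfψ)) measurableSet_closedBall fun p hp => ?_
        have hp' := closedBall_subset_closedBall (show R + 1 / 3 ≤ R + 1 by linarith only []) hp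
        have h5 := heq p hp'
        obtain ⟨h6, h7⟩ := hψb p hp'
        obtain ⟨h8, h9⟩ := hfb p hp'
        have h10 : lap ψ p = - (f p - ψ p) / t := by
          field_simp
          linarith only [h5]
        have h11 : |f p - ψ p| ≤ L0 := abs_le.2 ⟨by linarith only [h7, h8], by linarith only [h6, h9]⟩
        have h12 : (χ₃ p) ^ 2 ≤ 1 := pow_le_one₀ (h₃0 p) (h₃1 p)
        have h13 : (lap ψ p) ^ 2 = |f p - ψ p| ^ 2 / t ^ 2 := by
          rw [h10, div_pow, neg_sq, sq_abs]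
        rw [h13]
        calc (χ₃ p) ^ 2 * (|f p - ψ p| ^ 2 / t ^ 2) ≤ 1 * (|f p - ψ p| ^ 2 / t ^ 2) :=
              mul_le_mul_of_nonneg_right h12 (by positivity)
          _ = |f p - ψ p| * |f p - ψ p| / t ^ 2 := by rw [one_mul, sq]
          _ ≤ L0 * |f p - ψ p| / t ^ 2 := by
              apply div_le_div_of_nonneg_right _ (by positivity)
              exact mul_le_mul_of_nonneg_right h11 (abs_nonneg _)
          _ = L0 / t ^ 2 * |f p - ψ p| := by ring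
      refine h3.trans ?_
      rw [integral_const_mul]
      have h4 : ∫ p in closedBall (0 : ℝ × ℝ) (R + 1 / 3), |f p - ψ p| ≤ K1 * t * L0 :=
        (hmono (by linarith only []) cfψ fun p => abs_nonneg _).trans s1'
      calc L0 / t ^ 2 * ∫ p in closedBall (0 : ℝ × ℝ) (R + 1 / 3), |f p - ψ p|
          ≤ L0 / t ^ 2 * (K1 * t * L0) := mul_le_mul_of_nonneg_left h4 (by positivity)
        _ = K1 * L0 ^ 2 / t := by field_simp
    have h3 : ∫ p in closedBall (0 : ℝ × ℝ) (R + 1 / 3), (d1 ψ p) ^ 2 ≤ K2 * L0 ^ 2 := by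
      refine le_trans ?_ s2'
      refine setIntegral_mono_on (cint (hψ.d1.continuous.pow 2)) (cint cS)
        measurableSet_closedBall fun p _ => ?_
      have := sq_nonneg (d2 ψ p)
      show (d1 ψ p) ^ 2 ≤ (d1 ψ p) ^ 2 + (d2 ψ p) ^ 2
      linarith only [this]
    have h4 : K2 * L0 ^ 2 ≤ K2 * L0 ^ 2 / t := by
      rw [le_div_iff₀ ht]
      have : 0 ≤ K2 * L0 ^ 2 := by positivity
      nlinarith only [ht1, this]
    have h5 : 64 * K₃ ^ 2 * ∫ p in closedBall (0 : ℝ × ℝ) (R + 1 / 3), (d1 ψ p) ^ 2 ≤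
        64 * K₃ ^ 2 * (K2 * L0 ^ 2 / t) :=
      mul_le_mul_of_nonneg_left (h3.trans h4) (by positivity)
    have h6 : K3 * L0 ^ 2 / t = 2 * (K1 * L0 ^ 2 / t) + 64 * K₃ ^ 2 * (K2 * L0 ^ 2 / t) := by
      rw [hK3]; ring
    rw [h6]
    linarith only [hhess, h1, h2, h5]
  refine ⟨r1.trans ?_, ?_, s3.trans ?_⟩
  · have : 0 ≤ (1 + K2 + K3) * (t * L0) := by positivity
    nlinarith only [this]
  · refine (hmono (by linarith only []) cS fun p => by positivity).trans (s2'.trans ?_)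
    have : 0 ≤ (1 + C1 + K1 + K3) * L0 ^ 2 := by positivity
    nlinarith only [this]
  · apply div_le_div_of_nonneg_right _ ht.le
    have : 0 ≤ (1 + C1 + K1 + K2) * L0 ^ 2 := by positivity
    nlinarith only [this]

end Pool.Agent.H5.Yau
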