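import Pool.Agent.H24.Near.Resolvent

set_option autoImplicit false

/-!
# The resolvent of the Laplacian of the plane, with the bound of the maximum by the `L²` norm
-/

namespace Pool.Agent.H5.Yau

open MeasureTheory Set Metric Pool.Agent.H24.Near ProbabilityTheory

private lemma gaussianPDFReal_le (x : ℝ) :
    gaussianPDFReal 0 1 x ≤ (Real.sqrt (2 * Real.pi))⁻¹ := by
  unfold gaussianPDFReal
  have h1 : Real.exp (-(x - 0) ^ 2 / (2 * ((1 : NNReal) : ℝ))) ≤ 1 := by
    apply Real.exp_le_one_iff.mpr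
    simp only [NNReal.coe_one]
    have : 0 ≤ (x - 0) ^ 2 := sq_nonneg _
    linarith
  simp only [NNReal.coe_one, mul_one] at h1 ⊢
  exact mul_le_of_le_one_right (by positivity) h1

private lemma integral_resG2_le {F : ℝ × ℝ → ℝ} (hF : Integrable F) (h0 : ∀ z, 0 ≤ F z) :
    ∫ z, F z ∂resG2 ≤ (2 * Real.pi)⁻¹ * ∫ z, F z := by
  have hG : resG = volume.withDensity (gaussianPDF 0 1) := gaussianReal_of_var_ne_zero 0 one_ne_zero
  have h2 : resG2 = (volume : Measure (ℝ × ℝ)).withDensity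
      (fun z => gaussianPDF 0 1 z.1 * gaussianPDF 0 1 z.2) := by
    show resG.prod resG = _
    rw [hG, prod_withDensity (measurable_gaussianPDF 0 1) (measurable_gaussianPDF 0 1)]
    rfl
  have hm : Measurable (fun z : ℝ × ℝ => gaussianPDF 0 1 z.1 * gaussianPDF 0 1 z.2) :=
    ((measurable_gaussianPDF 0 1).comp measurable_fst).mul
      ((measurable_gaussianPDF 0 1).comp measurable_snd)
  rw [h2, integral_withDensity_eq_integral_toReal_smul hm
    (Filter.Eventually.of_forall fun z => ENNReal.mul_lt_top (gaussianPDF_lt_top)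
      (gaussianPDF_lt_top)), ← integral_const_mul]
  apply integral_mono_of_nonneg
  · exact Filter.Eventually.of_forall fun z => mul_nonneg ENNReal.toReal_nonneg (h0 z)
  · exact hF.const_mul _
  · refine Filter.Eventually.of_forall fun z => ?_
    show (gaussianPDF 0 1 z.1 * gaussianPDF 0 1 z.2).toReal • F z ≤ (2 * Real.pi)⁻¹ * F z
    rw [smul_eq_mul]
    apply mul_le_mul_of_nonneg_right _ (h0 z)
    rw [ENNReal.toReal_mul, toReal_gaussianPDF, toReal_gaussianPDF]
    have e : (2 * Real.pi)⁻¹ = (Real.sqrt (2 * Real.pi))⁻¹ * (Real.sqrt (2 * Real.pi))⁻¹ := by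
      rw [← mul_inv, Real.mul_self_sqrt (by positivity)]
    rw [e]
    exact mul_le_mul (gaussianPDFReal_le _) (gaussianPDFReal_le _)
      (gaussianPDFReal_nonneg _ _ _) (by positivity)

private lemma integral_shift_scale {f : ℝ × ℝ → ℝ} (p : ℝ × ℝ) {r : ℝ} (hr : 0 < r) :
    ∫ z, f (p - r • z) = (r ^ 2)⁻¹ * ∫ z, f z := by
  have h1 := MeasureTheory.Measure.integral_comp_smul (volume : Measure (ℝ × ℝ))
    (fun x => f (p - x)) r
  rw [h1, integral_sub_left_eq_self f volume p]
  simp [abs_of_pos hr]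

private lemma sq_integral_le {g : ℝ × ℝ → ℝ} (hg : Integrable g resG2)
    (hg2 : Integrable (fun z => (g z) ^ 2) resG2) :
    (∫ z, g z ∂resG2) ^ 2 ≤ ∫ z, (g z) ^ 2 ∂resG2 := by
  obtain ⟨a, ha⟩ : ∃ a, a = ∫ z, g z ∂resG2 := ⟨_, rfl⟩
  have h0 : 0 ≤ ∫ z, ((g z) ^ 2 - 2 * a * g z + a ^ 2) ∂resG2 :=
    integral_nonneg fun z => by
      show 0 ≤ (g z) ^ 2 - 2 * a * g z + a ^ 2
      have := sq_nonneg (g z - a)
      linarith
  have h1 : Integrable (fun z => 2 * a * g z) resG2 := hg.const_mul _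
  have h2 : Integrable (fun z => (g z) ^ 2 - 2 * a * g z) resG2 := hg2.sub h1
  rw [integral_add h2 (integrable_const _), integral_sub hg2 h1, integral_const_mul,
    ← ha] at h0
  simp only [integral_const, probReal_univ, smul_eq_mul, one_mul] at h0
  rw [← ha]
  linarith

private lemma abs_resV_le {f : ℝ × ℝ → ℝ} (hf : Smooth f) (hc : HasCompactSupport f)
    (p : ℝ × ℝ) {r : ℝ} (hr : 0 < r) :
    |resV f p r| ≤ Real.sqrt ((2 * Real.pi)⁻¹ * ∫ x, (f x) ^ 2) / r := by
  have hf2 : Smooth (fun x => (f x) ^ 2) := ContDiff.pow hf 2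
  have hc2 : HasCompactSupport (fun x => (f x) ^ 2) := by
    have : (fun x => (f x) ^ 2) = fun x => f x * f x := by funext x; ring
    rw [this]
    exact hc.mul_right
  have h1 : (resV f p r) ^ 2 ≤ (2 * Real.pi)⁻¹ * ((r ^ 2)⁻¹ * ∫ z, (f z) ^ 2) := by
    refine (sq_integral_le (res_int_g hf hc p r) (res_int_g hf2 hc2 p r)).trans ?_
    rw [← integral_shift_scale (f := fun x => (f x) ^ 2) p hr]
    apply integral_resG2_le
    · have h1 : Integrable (fun x => (f x) ^ 2) := hf2.continuous.integrable_of_hasCompactSupport hc2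
      have h2 : Integrable (fun x => (f (p - x)) ^ 2) := h1.comp_sub_left p
      exact (integrable_comp_smul_iff (volume : Measure (ℝ × ℝ))
        (fun x => (f (p - x)) ^ 2) hr.ne').mpr h2
    · intro z
      positivity
  have hI : 0 ≤ ∫ x, (f x) ^ 2 := integral_nonneg fun x => sq_nonneg _
  rw [← Real.sqrt_sq_eq_abs, le_div_iff₀ hr]
  have h2 : Real.sqrt ((resV f p r) ^ 2) * r = Real.sqrt ((resV f p r) ^ 2 * r ^ 2) := by
    rw [Real.sqrt_mul (sq_nonneg _), Real.sqrt_sq hr.le]
  rw [h2]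
  apply Real.sqrt_le_sqrt
  calc (resV f p r) ^ 2 * r ^ 2 ≤ (2 * Real.pi)⁻¹ * ((r ^ 2)⁻¹ * ∫ z, (f z) ^ 2) * r ^ 2 :=
        mul_le_mul_of_nonneg_right h1 (by positivity)
    _ = (2 * Real.pi)⁻¹ * ∫ x, (f x) ^ 2 := by field_simp

theorem resolvent2 : ∃ C : ℝ, 1 ≤ C ∧ ∀ (t : ℝ) (f : ℝ × ℝ → ℝ), 0 < t → Smooth f →
    HasCompactSupport f →
    ∃ ψ : ℝ × ℝ → ℝ, Smooth ψ ∧ (∀ p, ψ p - t * lap ψ p = f p) ∧
      (∀ (w : List Bool) (a b : ℝ), a ≤ 0 → 0 ≤ b → (∀ p, a ≤ der w f p ∧ der w f p ≤ b) →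
        ∀ p, a ≤ der w ψ p ∧ der w ψ p ≤ b) ∧
      ∀ p, (ψ p) ^ 2 ≤ C / t * ∫ x, (f x) ^ 2 := by
  refine ⟨1, le_rfl, ?_⟩
  intro t f ht hf hc
  have := res_ν_prob ht
  have hVc : ∀ {g : ℝ × ℝ → ℝ}, Smooth g → HasCompactSupport g → ∀ p, Continuous (resV g p) :=
    fun hg hgc p => continuous_iff_continuousAt.mpr fun r => (res_V_deriv hg hgc p r).continuousAt
  have hVi : ∀ {g : ℝ × ℝ → ℝ}, Smooth g → HasCompactSupport g → ∀ p,
      IntegrableOn (fun r => resρ t r * resV g p r) (Ioi 0) := by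
    intro g hg hgc p
    obtain ⟨C, _, hC⟩ := res_bdd hg hgc
    have h1 := Integrable.bdd_mul (c := C) (res_ρ_integrable ht)
      ((hVc hg hgc p).aestronglyMeasurable) (Filter.Eventually.of_forall fun r => by
        refine (norm_integral_le_of_norm_le_const
          (Filter.Eventually.of_forall fun z => hC _)).trans ?_
        simp)
    refine h1.congr (Filter.Eventually.of_forall fun r => ?_)
    simp only
    ring
  refine ⟨resT (resν t) f, res_smooth _ hf hc, ?_, ?_, ?_⟩
  · intro p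
    rw [res_lap _ hf hc, res_T_eq ht hf hc, res_T_eq ht hf.lap (res_clap hc)]
    rw [← integral_const_mul, ← integral_sub (hVi hf hc p)
      ((hVi hf.lap (res_clap hc) p).const_mul t)]
    have hd : ∀ r ∈ Ioi (0 : ℝ), HasDerivAt (fun r => -Real.exp (-r ^ 2 / (2 * t)) * resV f p r)
        (resρ t r * resV f p r - t * (resρ t r * resV (lap f) p r)) r := by
      intro r _
      have h1 := (res_ρ_deriv ht r).mul (res_V_deriv hf hc p r)
      refine h1.congr_deriv ?_
      have h2 : resρ t r * t = Real.exp (-r ^ 2 / (2 * t)) * r := by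
        unfold resρ
        field_simp
      linear_combination resV (lap f) p r * h2
    rw [integral_Ioi_of_hasDerivAt_of_tendsto (m := 0) ?_ hd
      ((hVi hf hc p).sub ((hVi hf.lap (res_clap hc) p).const_mul t)) ?_]
    · simp [resV]
    · have h1 := (res_ρ_deriv ht 0).mul (res_V_deriv hf hc p 0)
      exact h1.continuousAt.continuousWithinAt
    · obtain ⟨C, _, hC⟩ := res_bdd hf hc
      have h1 : Filter.Tendsto (fun r : ℝ => -Real.exp (-r ^ 2 / (2 * t))) Filter.atTop (nhds 0) := by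
        simpa using (res_exp_tendsto ht).neg
      refine h1.zero_mul_isBoundedUnder_le ⟨C, ?_⟩
      rw [Filter.eventually_map]
      refine Filter.Eventually.of_forall fun r => ?_
      refine (norm_integral_le_of_norm_le_const
        (Filter.Eventually.of_forall fun z => hC _)).trans ?_
      simp
  · intro w a b _ _ h p
    rw [res_der _ hf hc]
    exact res_bounds _ (hf.der w) (res_cder hc w) h p
  · intro p
    rw [res_T_eq ht hf hc]
    obtain ⟨J, hJ⟩ : ∃ J, J = ∫ x, (f x) ^ 2 := ⟨_, rfl⟩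
    have hJ0 : 0 ≤ J := by rw [hJ]; exact integral_nonneg fun x => sq_nonneg _
    obtain ⟨c, hc'⟩ : ∃ c, c = Real.sqrt ((2 * Real.pi)⁻¹ * J) := ⟨_, rfl⟩
    have hc0 : 0 ≤ c := by rw [hc']; positivity
    have hc2 : c ^ 2 = (2 * Real.pi)⁻¹ * J := by rw [hc']; exact Real.sq_sqrt (by positivity)
    have hgi : IntegrableOn (fun r : ℝ => c / t * Real.exp (-(1 / (2 * t)) * r ^ 2)) (Ioi 0) :=
      ((integrable_exp_neg_mul_sq (by positivity : 0 < 1 / (2 * t))).const_mul _).integrableOn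
    have hle : ∀ r ∈ Ioi (0 : ℝ), ‖resρ t r * resV f p r‖ ≤
        c / t * Real.exp (-(1 / (2 * t)) * r ^ 2) := by
      intro r hr
      have hr' : 0 < r := hr
      have hρ0 : 0 ≤ resρ t r := by unfold resρ; positivity
      have h1 := abs_resV_le hf hc p hr'
      rw [← hJ, ← hc'] at h1
      rw [norm_mul, Real.norm_of_nonneg hρ0, Real.norm_eq_abs]
      calc resρ t r * |resV f p r| ≤ resρ t r * (c / r) := mul_le_mul_of_nonneg_left h1 hρ0
        _ = c / t * Real.exp (-(1 / (2 * t)) * r ^ 2) := by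
            have e : -(1 / (2 * t)) * r ^ 2 = -r ^ 2 / (2 * t) := by ring
            unfold resρ
            rw [e]
            field_simp
    have h1 : |∫ r in Ioi (0 : ℝ), resρ t r * resV f p r| ≤
        c / t * (Real.sqrt (Real.pi / (1 / (2 * t))) / 2) := by
      calc |∫ r in Ioi (0 : ℝ), resρ t r * resV f p r|
          ≤ ∫ r in Ioi (0 : ℝ), c / t * Real.exp (-(1 / (2 * t)) * r ^ 2) :=
            norm_integral_le_of_norm_le hgi (by
              filter_upwards [ae_restrict_mem measurableSet_Ioi] with r hr using hle r hr)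
        _ = c / t * (Real.sqrt (Real.pi / (1 / (2 * t))) / 2) := by
            rw [integral_const_mul, integral_gaussian_Ioi]
    calc (∫ r in Ioi (0 : ℝ), resρ t r * resV f p r) ^ 2
        = |∫ r in Ioi (0 : ℝ), resρ t r * resV f p r| ^ 2 := (sq_abs _).symm
      _ ≤ (c / t * (Real.sqrt (Real.pi / (1 / (2 * t))) / 2)) ^ 2 :=
          pow_le_pow_left₀ (abs_nonneg _) h1 2
      _ = c ^ 2 / t ^ 2 * (Real.pi / (1 / (2 * t)) / 4) := by
          rw [mul_pow, div_pow, div_pow, Real.sq_sqrt (by positivity)]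
          ring
      _ = 1 / (4 * t) * J := by
          rw [hc2]
          field_simp
      _ ≤ 1 / t * ∫ x, (f x) ^ 2 := by
          rw [← hJ]
          apply mul_le_mul_of_nonneg_right _ hJ0
          apply one_div_le_one_div_of_le ht
          linarith

end Pool.Agent.H5.Yau
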