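import Pool.Agent.H5.Yau.Defs
import Pool.Agent.H5.Yau.Resolvent2
import Pool.Agent.H24.Near.Mollify
import Pool.Agent.H26.Yau.Tools

set_option autoImplicit false

/-!
# The local maximum principle: a small integral of the positive part gives a small maximum
-/

namespace Pool.Agent.H5.Yau

open MeasureTheory Set Metric Pool.Agent.H24.Near

private lemma log_max_one {x : ℝ} (hx : 0 ≤ x) : Real.log (max 1 x) = max 0 (Real.log x) := by
  rcases le_total 1 x with h | h
  · rw [max_eq_right h, max_eq_right (Real.log_nonneg h)]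
  · rw [max_eq_left h, Real.log_one, max_eq_left (Real.log_nonpos hx h)]

theorem lmp (R1 θ : ℝ) (hR1 : 1 ≤ R1) (hθ : 0 < θ) (hθ1 : θ ≤ 1) : ∃ ε : ℝ, 0 < ε ∧
    ∀ ρ : ℝ, 0 < ρ → ρ ≤ 1 → ∃ P : Par, ∀ (v : ℝ × ℝ → ℝ) (m : ℝ), 0 < m → Continuous v →
      Comp P v m (closedBall 0 (R1 + 4)) →
      (∀ p ∈ closedBall (0 : ℝ × ℝ) (R1 + 4), |v p| ≤ Real.exp m) →
      ∫ z in closedBall (0 : ℝ × ℝ) (R1 + 3), max 0 (Real.log (M v z ρ)) ≤ ε * m →
      ∀ p ∈ closedBall (0 : ℝ × ℝ) R1, |v p| ≤ Real.exp (θ * m) := by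
  obtain ⟨χ1, hχ1, hχ1c, hχ1b, hχ1a, hχ10⟩ := H26.Yau.exists_cutoff (a := R1) (b := R1 + 1)
    (by linarith) (by linarith)
  obtain ⟨χ, hχ, hχc, hχb, hχa, hχ0⟩ := H26.Yau.exists_cutoff (a := R1 + 2) (b := R1 + 5 / 2)
    (by linarith) (by linarith)
  obtain ⟨B1, hB1, hB1b⟩ := H26.Yau.exists_bound hχ1 hχ1c
  obtain ⟨B2, hB2, hB2b⟩ := H26.Yau.exists_bound hχ hχc
  obtain ⟨Cr, hCr, hres⟩ := resolvent2
  obtain ⟨Cm, hCm, hmol⟩ := mollify
  -- the barrier
  obtain ⟨β, hβ⟩ : ∃ β : ℝ × ℝ → ℝ, β = fun p => 1 + (-1) * χ1 p := ⟨_, rfl⟩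
  have hχm : Smooth (fun p => (-1) * χ1 p) := contDiff_const.mul hχ1
  have h1s : Smooth (fun _ : ℝ × ℝ => (1 : ℝ)) := contDiff_const
  have hβs : Smooth β := by rw [hβ]; exact h1s.add hχm
  have hβ0 : ∀ p, 0 ≤ β p := by
    intro p
    rw [hβ]
    have := (hχ1b p).2
    show 0 ≤ 1 + (-1) * χ1 p
    linarith
  have hβd : ∀ w : List Bool, w.length ≤ 3 → ∀ p, |der w β p| ≤ 1 + B1 := by
    intro w hw p
    rw [hβ, H26.Yau.der_add h1s hχm w, H26.Yau.der_const_mul hχ1 (-1) w]
    calc |der w (fun _ => (1 : ℝ)) p + (-1) * der w χ1 p|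
        ≤ |der w (fun _ => (1 : ℝ)) p| + |(-1) * der w χ1 p| := abs_add_le _ _
      _ ≤ |(1 : ℝ)| + |der w χ1 p| := by
          apply add_le_add (H26.Yau.abs_der_const_le 1 w p)
          rw [abs_mul, abs_neg, abs_one, one_mul]
      _ ≤ 1 + B1 := by
          rw [abs_one]
          linarith [hB1b w hw p]
  have hlapβ : ∀ p, lap β p ≤ 2 * (1 + B1) := by
    intro p
    have e1 := hβd [false, false] (by simp) p
    have e2 := hβd [true, true] (by simp) p
    simp only [der] at e1 e2
    have e3 := (abs_le.mp e1).2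
    have e4 := (abs_le.mp e2).2
    unfold lap
    linarith
  -- the parameters
  obtain ⟨Cb, hCb⟩ : ∃ Cb, Cb = 2 * (1 + B1) := ⟨_, rfl⟩
  have hCb0 : 0 < Cb := by rw [hCb]; linarith
  obtain ⟨t, ht⟩ : ∃ t, t = θ / (4 * (Cb + 1)) := ⟨_, rfl⟩
  have ht0 : 0 < t := by rw [ht]; positivity
  have htθ : t * (4 * (Cb + 1)) = θ := by rw [ht]; field_simp
  obtain ⟨ε, hε⟩ : ∃ ε, ε = t * θ ^ 2 / (32 * Cr) := ⟨_, rfl⟩
  have hCr0 : 0 < Cr := by linarith
  have hε0 : 0 < ε := by rw [hε]; positivity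
  have hεt : Cr / t * (2 * ε) = (θ / 4) ^ 2 := by rw [hε]; field_simp; norm_num
  refine ⟨ε, hε0, ?_⟩
  intro ρ hρ hρ1
  obtain ⟨d, hd⟩ : ∃ d, d = min (min ρ (1 / 4)) (ε / (8 * (R1 + 3))) := ⟨_, rfl⟩
  have hd0 : 0 < d := by
    rw [hd]
    apply lt_min (lt_min hρ (by norm_num))
    positivity
  have hdρ : d ≤ ρ := by rw [hd]; exact (min_le_left _ _).trans (min_le_left _ _)
  have hd4 : d ≤ 1 / 4 := by rw [hd]; exact (min_le_left _ _).trans (min_le_right _ _)
  have hdε : 8 * (R1 + 3) * d ≤ ε := by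
    have h1 : d ≤ ε / (8 * (R1 + 3)) := by rw [hd]; exact min_le_right _ _
    rw [le_div_iff₀ (by linarith)] at h1
    linarith
  obtain ⟨X, hX⟩ : ∃ X, X = 8 * (B2 * (Cm * 1 / d ^ 3 + 1)) := ⟨_, rfl⟩
  have hX0 : 0 ≤ X := by rw [hX]; positivity
  refine ⟨⟨X + (1 + B1), 1, 1 / 2, θ / 4, R1 + 2, by linarith only [hB1, hX0], by norm_num, by norm_num,
    by linarith only [hθ], by linarith⟩, ?_⟩
  intro v m hm hv hcomp hvm hint
  -- the truncated logarithm
  obtain ⟨Q, hQ⟩ : ∃ Q : ℝ × ℝ → ℝ, Q = fun z => min 1 ((1 / m) * Real.log (max 1 (M v z ρ))) :=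
    ⟨_, rfl⟩
  have hMc : Continuous fun z => M v z ρ := continuous_M hv hρ.le
  have hLc : Continuous fun z => Real.log (max 1 (M v z ρ)) :=
    (continuous_const.max hMc).log fun z => (lt_of_lt_of_le one_pos (le_max_left _ _)).ne'
  have hQc : Continuous Q := by
    rw [hQ]
    exact continuous_const.min (continuous_const.mul hLc)
  have hL0 : ∀ z, 0 ≤ Real.log (max 1 (M v z ρ)) := fun z => Real.log_nonneg (le_max_left _ _)
  have hQ0 : ∀ z, 0 ≤ Q z := by
    intro z
    rw [hQ]
    have := hL0 z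
    exact le_min zero_le_one (by positivity)
  have hQ1 : ∀ z, Q z ≤ 1 := by
    intro z
    rw [hQ]
    exact min_le_left _ _
  obtain ⟨f0, hf0, hf0b, hf0a, hf0d, hf0i⟩ := hmol (fun z => Q z - 1) 1 d
    (hQc.sub continuous_const) zero_le_one hd0 (by linarith only [hd4])
    (fun p => ⟨by linarith [hQ0 p], by linarith [hQ1 p]⟩)
  -- the source
  have hf1 : Smooth (fun p => f0 p + 1) := hf0.add contDiff_const
  obtain ⟨f, hf⟩ : ∃ f : ℝ × ℝ → ℝ, f = fun p => χ p * (f0 p + 1) := ⟨_, rfl⟩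
  have hfs : Smooth f := by rw [hf]; exact hχ.mul hf1
  have hfc : HasCompactSupport f := by rw [hf]; exact hχc.mul_right
  have hfb : ∀ p, 0 ≤ f p ∧ f p ≤ 1 := by
    intro p
    have h1 := hχb p
    have h2 := hf0b p
    rw [hf]
    constructor
    · exact mul_nonneg h1.1 (by linarith)
    · show χ p * (f0 p + 1) ≤ 1
      have := mul_le_mul h1.2 (show f0 p + 1 ≤ 1 by linarith) (by linarith) zero_le_one
      linarith only [this]
  have hfd : ∀ w : List Bool, w.length ≤ 3 → ∀ p, |der w f p| ≤ X := by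
    intro w hw p
    rw [hf, hX]
    apply H26.Yau.abs_der_mul_le hχ hf1 (fun w hw => hB2b w hw p) _ w hw
    intro w hw
    rw [H26.Yau.der_add hf0 h1s w]
    refine (abs_add_le _ _).trans ?_
    have h1 := H26.Yau.abs_der_const_le 1 w p
    rw [abs_one] at h1
    refine add_le_add ((hf0d w hw p).trans ?_) h1
    apply div_le_div_of_nonneg_left (by linarith only [hCm]) (by positivity)
    exact pow_le_pow_of_le_one hd0.le (by linarith only [hd4]) hw
  obtain ⟨ψ, hψ, hψe, hψb, hψ2⟩ := hres t f ht0 hfs hfc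
  have hψ01 : ∀ p, 0 ≤ ψ p ∧ ψ p ≤ 1 := hψb [] 0 1 le_rfl zero_le_one hfb
  -- the integral of the source
  have hQi : ∀ R, IntegrableOn Q (closedBall (0 : ℝ × ℝ) R) := fun R =>
    hQc.continuousOn.integrableOn_compact (isCompact_closedBall _ _)
  have hf0I : ∀ R, IntegrableOn f0 (closedBall (0 : ℝ × ℝ) R) := fun R =>
    hf0.continuous.continuousOn.integrableOn_compact (isCompact_closedBall _ _)
  have hone : ∀ R, IntegrableOn (fun _ : ℝ × ℝ => (1 : ℝ)) (closedBall (0 : ℝ × ℝ) R) := fun R =>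
    integrableOn_const (isCompact_closedBall _ _).measure_lt_top.ne
  have hint' : ∫ z in closedBall (0 : ℝ × ℝ) (R1 + 3), Real.log (max 1 (M v z ρ)) ≤ ε * m := by
    refine le_trans (le_of_eq ?_) hint
    apply setIntegral_congr_fun isClosed_closedBall.measurableSet
    intro z _
    exact log_max_one M_nonneg
  have hQint : ∫ z in closedBall (0 : ℝ × ℝ) (R1 + 5 / 2 - d), Q z ≤ ε := by
    have hLi : IntegrableOn (fun z => (1 / m) * Real.log (max 1 (M v z ρ)))
        (closedBall (0 : ℝ × ℝ) (R1 + 3)) :=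
      (continuous_const.mul hLc).continuousOn.integrableOn_compact (isCompact_closedBall _ _)
    calc ∫ z in closedBall (0 : ℝ × ℝ) (R1 + 5 / 2 - d), Q z
        ≤ ∫ z in closedBall (0 : ℝ × ℝ) (R1 + 3), Q z := by
          apply setIntegral_mono_set (hQi _)
          · exact Filter.Eventually.of_forall fun z => hQ0 z
          · exact LE.le.eventuallyLE (closedBall_subset_closedBall (by linarith only [hd0]))
      _ ≤ ∫ z in closedBall (0 : ℝ × ℝ) (R1 + 3), (1 / m) * Real.log (max 1 (M v z ρ)) := by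
          apply setIntegral_mono_on (hQi _) hLi isClosed_closedBall.measurableSet
          intro z _
          rw [hQ]
          exact min_le_right _ _
      _ = (1 / m) * ∫ z in closedBall (0 : ℝ × ℝ) (R1 + 3), Real.log (max 1 (M v z ρ)) :=
          integral_const_mul _ _
      _ ≤ (1 / m) * (ε * m) := mul_le_mul_of_nonneg_left hint' (by positivity)
      _ = ε := by field_simp
  have hf2 : ∫ x, (f x) ^ 2 ≤ 2 * ε := by
    have h1 : ∫ x, (f x) ^ 2 = ∫ x in closedBall (0 : ℝ × ℝ) (R1 + 5 / 2), (f x) ^ 2 := by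
      symm
      apply setIntegral_eq_integral_of_forall_compl_eq_zero
      intro x hx
      rw [hf]
      show (χ x * (f0 x + 1)) ^ 2 = 0
      rw [hχ0 x hx]
      ring
    have h2 : ∫ x in closedBall (0 : ℝ × ℝ) (R1 + 5 / 2), (f x) ^ 2 ≤
        ∫ x in closedBall (0 : ℝ × ℝ) (R1 + 5 / 2), (f0 x + 1) := by
      apply setIntegral_mono_on _ ((hf0I _).add (hone _)) isClosed_closedBall.measurableSet
      · intro x _
        have h3 := hfb x
        have h4 := hχb x
        have h5 := hf0b x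
        have h6 : f x ≤ f0 x + 1 := by
          rw [hf]
          show χ x * (f0 x + 1) ≤ f0 x + 1
          exact mul_le_of_le_one_left (by linarith only [h5]) h4.2
        have h7 : (f x) ^ 2 ≤ f x := by
          have := mul_le_mul_of_nonneg_left h3.2 h3.1
          rw [sq]
          linarith only [this]
        show (f x) ^ 2 ≤ f0 x + 1
        linarith only [h6, h7]
      · exact (hfs.continuous.pow 2).continuousOn.integrableOn_compact (isCompact_closedBall _ _)
    have h3 : ∫ x in closedBall (0 : ℝ × ℝ) (R1 + 5 / 2), (f0 x + 1) =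
        (∫ x in closedBall (0 : ℝ × ℝ) (R1 + 5 / 2), f0 x) + (2 * (R1 + 5 / 2)) ^ 2 := by
      rw [integral_add (hf0I _) (hone _), setIntegral_const, H26.Yau.area2 _ (by linarith only [hR1]),
        smul_eq_mul, mul_one]
    have h4 := hf0i (R1 + 5 / 2) (by linarith only [hR1, hd4])
    have h5 : ∫ x in closedBall (0 : ℝ × ℝ) (R1 + 5 / 2 - d), (Q x - 1) =
        (∫ x in closedBall (0 : ℝ × ℝ) (R1 + 5 / 2 - d), Q x) - (2 * (R1 + 5 / 2 - d)) ^ 2 := by
      rw [integral_sub (hQi _) (hone _), setIntegral_const, H26.Yau.area2 _ (by linarith only [hR1, hd4]),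
        smul_eq_mul, mul_one]
    have h6 : (2 * (R1 + 5 / 2)) ^ 2 - (2 * (R1 + 5 / 2 - d)) ^ 2 ≤ 8 * (R1 + 3) * d := by
      have h7 : (2 * (R1 + 5 / 2)) ^ 2 - (2 * (R1 + 5 / 2 - d)) ^ 2 =
          8 * (R1 + 3) * d - (4 * d + 4 * d ^ 2) := by ring
      have h8 : 0 ≤ 4 * d + 4 * d ^ 2 := by positivity
      linarith only [h8]
    rw [h1]
    linarith only [hdε, hQint, h2, h3, h4, h5, h6]
  have hψθ : ∀ p, ψ p ≤ θ / 4 := by
    intro p
    have h1 : (ψ p) ^ 2 ≤ (θ / 4) ^ 2 := by
      calc (ψ p) ^ 2 ≤ Cr / t * ∫ x, (f x) ^ 2 := hψ2 p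
        _ ≤ Cr / t * (2 * ε) := mul_le_mul_of_nonneg_left hf2 (by positivity)
        _ = (θ / 4) ^ 2 := hεt
    have h2 := abs_le_of_sq_le_sq h1 (by linarith only [hθ])
    exact (le_abs_self _).trans h2
  -- the weight
  obtain ⟨c, hc⟩ : ∃ c, c = θ / 4 := ⟨_, rfl⟩
  obtain ⟨Ψ, hΨ⟩ : ∃ Ψ : ℝ × ℝ → ℝ, Ψ = fun p => (ψ p + β p) + c := ⟨_, rfl⟩
  have hψβ : Smooth (fun p => ψ p + β p) := hψ.add hβs
  have hΨs : Smooth Ψ := by rw [hΨ]; exact hψβ.add contDiff_const
  have key : ∀ z ∈ closedBall (0 : ℝ × ℝ) (R1 + 2), |v z| ≤ Real.exp (m * (Ψ z + θ / 4)) := by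
    refine hcomp Ψ 0 (closedBall 0 (R1 + 2)) (closedBall 0 (R1 + 3 / 2))
      (isCompact_closedBall _ _) subset_rfl (closedBall_subset_closedBall (by linarith only []))
      (closedBall_subset_closedBall (by linarith only [])) ?_ hΨs ?_ ?_ ?_
    · intro z hz
      apply closedBall_subset_closedBall'
      rw [mem_closedBall] at hz
      show 1 / 2 + dist z 0 ≤ R1 + 2
      linarith only [hz]
    · intro w hw1 hw3 z _
      show |der w Ψ z| ≤ X + (1 + B1)
      rw [hΨ, der_add_const c hw1, H26.Yau.der_add hψ hβs w]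
      refine (abs_add_le _ _).trans (add_le_add ?_ (hβd w hw3 z))
      exact abs_le.mpr (hψb w _ _ (neg_nonpos.mpr hX0) hX0
        (fun p => abs_le.mp (hfd w hw3 p)) z)
    · intro z hz hz'
      have h1 : |v z| ≤ Real.exp m := hvm z (closedBall_subset_closedBall (by linarith only []) hz)
      have h2 : β z = 1 := by
        rw [hβ]
        show 1 + (-1) * χ1 z = 1
        rw [hχ10 z fun h => hz' (closedBall_subset_closedBall (by linarith only [hd0]) h)]
        ring
      have h3 : 1 ≤ Ψ z := by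
        rw [hΨ]
        show 1 ≤ (ψ z + β z) + c
        rw [h2]
        linarith only [hθ, hc, (hψ01 z).1]
      refine h1.trans (Real.exp_le_exp.mpr ?_)
      have := mul_le_mul_of_nonneg_left h3 hm.le
      linarith only [this]
    · intro z hz hz'
      have hz2 : z ∈ closedBall (0 : ℝ × ℝ) (R1 + 2) :=
        closedBall_subset_closedBall (by linarith only [hd0, hd4]) hz
      have hΨ0 : 0 ≤ ψ z + β z := add_nonneg (hψ01 z).1 (hβ0 z)
      have hΨz : Ψ z = (ψ z + β z) + c := by rw [hΨ]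
      have hz'' : Real.exp (m * (Ψ z + θ / 4)) < |v z| := hz'
      -- the value at z
      obtain ⟨α, hα⟩ : ∃ α, α = Ψ z + θ / 4 := ⟨_, rfl⟩
      rw [← hα] at hz''
      have hα0 : 0 < α := by rw [hα, hΨz, hc]; linarith only [hθ, hΨ0]
      have hα1 : α ≤ 1 := by
        by_contra hcon
        rw [not_le] at hcon
        have h1 : |v z| ≤ Real.exp m := hvm z (closedBall_subset_closedBall (by linarith only []) hz)
        have h2 : Real.exp m ≤ Real.exp (m * α) := by
          apply Real.exp_le_exp.mpr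
          have := mul_le_mul_of_nonneg_left hcon.le hm.le
          linarith only [this]
        linarith only [hz'', h1, h2]
      have hQα : ∀ p' ∈ closedBall z d, α - 1 ≤ Q p' - 1 := by
        intro p' hp'
        have h1 : |v z| ≤ M v p' ρ := by
          apply le_M hv
          rw [mem_closedBall, dist_comm] at hp'
          rw [mem_closedBall]
          linarith only [hdρ, hp']
        have h2 : α ≤ Q p' := by
          rw [hQ]
          apply le_min hα1
          have h3 : m * α ≤ Real.log (max 1 (M v p' ρ)) := by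
            rw [Real.le_log_iff_exp_le (lt_of_lt_of_le one_pos (le_max_left _ _))]
            exact (hz''.le.trans h1).trans (le_max_right _ _)
          have h4 := mul_le_mul_of_nonneg_left h3 (by positivity : 0 ≤ 1 / m)
          have h5 : 1 / m * (m * α) = α := by field_simp
          rw [h5] at h4
          exact h4
        linarith only [h2]
      have hf0z := hf0a z (α - 1) hQα
      have hfz : f z = f0 z + 1 := by
        rw [hf]
        show χ z * (f0 z + 1) = f0 z + 1
        rw [hχa z hz2, one_mul]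
      have h6 := hψe z
      rw [hfz] at h6
      have h7 : t * lap ψ z ≤ -(θ / 2) := by
        have : α = (ψ z + β z) + c + θ / 4 := by rw [hα, hΨz]
        have h8 := hβ0 z
        rw [hc] at this
        linarith only [hc, hΨz, hα, hf0z, h6, h8]
      have h8 : lap ψ z ≤ -(2 * (Cb + 1)) := by
        have h9 : t * lap ψ z ≤ t * (-(2 * (Cb + 1))) := by
          refine h7.trans (le_of_eq ?_)
          linarith only [htθ]
        exact le_of_mul_le_mul_left h9 ht0
      have h9 : lap Ψ z = lap ψ z + lap β z := by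
        rw [hΨ, lap_add_const c]
        have e1 : d1 (fun p => ψ p + β p) = fun p => d1 ψ p + d1 β p := by
          funext p
          exact d1_add (hψ.differentiable p) (hβs.differentiable p)
        have e2 : d2 (fun p => ψ p + β p) = fun p => d2 ψ p + d2 β p := by
          funext p
          exact d2_add (hψ.differentiable p) (hβs.differentiable p)
        unfold lap
        rw [e1, e2, d1_add (hψ.d1.differentiable z) (hβs.d1.differentiable z),
          d2_add (hψ.d2.differentiable z) (hβs.d2.differentiable z)]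
        ring
      show lap Ψ z ≤ -1
      rw [h9]
      have := hlapβ z
      rw [← hCb] at this
      linarith only [hB1, hCb, h8, this]
  intro p hp
  refine (key p (closedBall_subset_closedBall (by linarith only []) hp)).trans ?_
  apply Real.exp_le_exp.mpr
  have h1 : β p = 0 := by
    rw [hβ]
    show 1 + (-1) * χ1 p = 0
    rw [hχ1a p hp]
    ring
  have h2 : Ψ p = ψ p + c := by
    rw [hΨ]
    show (ψ p + β p) + c = ψ p + c
    rw [h1]
    ring
  rw [h2, hc]
  have h3 := hψθ p
  have h4 : ψ p + θ / 4 + θ / 4 ≤ θ := by linarith only [hθ, h3]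
  have := mul_le_mul_of_nonneg_left h4 hm.le
  linarith only [this]

end Pool.Agent.H5.Yau
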