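import Pool.Agent.H5.Yau.Child
import Pool.Agent.H5.Yau.LMP

set_option autoImplicit false

/-!
# Large slopes where no constant is a good majorant
-/

namespace Pool.Agent.H5.Yau

open MeasureTheory Set Metric Pool.Agent.H24.Near

private lemma closedBall_eq (R : ℝ) :
    closedBall (0 : ℝ × ℝ) R = Icc (-R) R ×ˢ Icc (-R) R := by
  have h : closedBall (0 : ℝ) R = Icc (-R) R := by
    rw [Real.closedBall_eq_Icc]; simp
  rw [← h, closedBall_prod_same]
  rfl

private lemma int_sq {F : ℝ × ℝ → ℝ} (hF : Continuous F) (R : ℝ) :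
    ∫ x in closedBall (0 : ℝ × ℝ) R, F x = ∫ a in Icc (-R) R, ∫ b in Icc (-R) R, F (a, b) := by
  rw [closedBall_eq, Measure.volume_eq_prod]
  apply setIntegral_prod
  rw [← Measure.volume_eq_prod]
  exact hF.continuousOn.integrableOn_compact (isCompact_Icc.prod isCompact_Icc)

private lemma int_sq' {F : ℝ × ℝ → ℝ} (hF : Continuous F) (R : ℝ) :
    ∫ x in closedBall (0 : ℝ × ℝ) R, F x = ∫ b in Icc (-R) R, ∫ a in Icc (-R) R, F (a, b) := by
  rw [int_sq hF R]
  apply integral_integral_swap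
  rw [Measure.prod_restrict, ← Measure.volume_eq_prod]
  exact hF.continuousOn.integrableOn_compact (isCompact_Icc.prod isCompact_Icc)

/-- The Poincaré inequality in `L¹` on a square. -/
theorem poincare {ψ : ℝ × ℝ → ℝ} (hψ : Smooth ψ) {R : ℝ} (hR : 0 < R) :
    ∫ x in closedBall (0 : ℝ × ℝ) R,
      |ψ x - 1 / (2 * R) ^ 2 * ∫ y in closedBall (0 : ℝ × ℝ) R, ψ y| ≤
      2 * R * ∫ x in closedBall (0 : ℝ × ℝ) R, (|d1 ψ x| + |d2 ψ x|) := by
  have hψc := hψ.continuous
  have h1c : Continuous fun x => |d1 ψ x| := hψ.d1.continuous.abs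
  have h2c : Continuous fun x => |d2 ψ x| := hψ.d2.continuous.abs
  obtain ⟨A, hA⟩ : ∃ A : ℝ → ℝ, A = fun b => ∫ t in Icc (-R) R, |d1 ψ (t, b)| := ⟨_, rfl⟩
  obtain ⟨B, hB⟩ : ∃ B : ℝ → ℝ, B = fun a => ∫ t in Icc (-R) R, |d2 ψ (a, t)| := ⟨_, rfl⟩
  have hAc : Continuous A := by
    rw [hA]
    apply continuous_parametric_integral_of_continuous _ isCompact_Icc
    exact h1c.comp (by fun_prop)
  have hBc : Continuous B := by
    rw [hB]
    apply continuous_parametric_integral_of_continuous _ isCompact_Icc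
    exact h2c.comp (by fun_prop)
  have hvol : (volume : Measure ℝ).real (Icc (-R) R) = 2 * R := by
    rw [Measure.real, Real.volume_Icc, ENNReal.toReal_ofReal (by linarith)]
    ring
  have hIA : ∫ b in Icc (-R) R, A b = ∫ x in closedBall (0 : ℝ × ℝ) R, |d1 ψ x| := by
    rw [int_sq' h1c R, hA]
  have hIB : ∫ a in Icc (-R) R, B a = ∫ x in closedBall (0 : ℝ × ℝ) R, |d2 ψ x| := by
    rw [int_sq h2c R, hB]
  -- differences along segments
  have hd1 : ∀ a a' b, a ∈ Icc (-R) R → a' ∈ Icc (-R) R → |ψ (a, b) - ψ (a', b)| ≤ A b := by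
    intro a a' b ha ha'
    have hd : ∀ s ∈ uIcc a' a, HasDerivAt (fun s : ℝ => ψ (s, b)) (d1 ψ (s, b)) s := by
      intro s _
      have h1 : HasDerivAt (fun s : ℝ => ((s, b) : ℝ × ℝ)) (1, 0) s :=
        (hasDerivAt_id s).prodMk (hasDerivAt_const s b)
      exact (hψ.hasFDerivAt (s, b)).comp_hasDerivAt s h1
    have hc : Continuous fun s : ℝ => d1 ψ (s, b) := hψ.d1.continuous.comp (by fun_prop)
    have h1 := intervalIntegral.integral_eq_sub_of_hasDerivAt hd (hc.intervalIntegrable _ _)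
    rw [← h1, hA, ← Real.norm_eq_abs]
    refine (intervalIntegral.norm_integral_le_integral_norm_uIoc).trans ?_
    apply setIntegral_mono_set
    · exact hc.abs.continuousOn.integrableOn_compact isCompact_Icc
    · exact Filter.Eventually.of_forall fun _ => abs_nonneg _
    · apply LE.le.eventuallyLE
      exact uIoc_subset_uIcc.trans (uIcc_subset_Icc ha' ha)
  have hd2 : ∀ a b b', b ∈ Icc (-R) R → b' ∈ Icc (-R) R → |ψ (a, b) - ψ (a, b')| ≤ B a := by
    intro a b b' hb hb'
    have hd : ∀ s ∈ uIcc b' b, HasDerivAt (fun s : ℝ => ψ (a, s)) (d2 ψ (a, s)) s := by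
      intro s _
      have h1 : HasDerivAt (fun s : ℝ => ((a, s) : ℝ × ℝ)) (0, 1) s :=
        (hasDerivAt_const s a).prodMk (hasDerivAt_id s)
      exact (hψ.hasFDerivAt (a, s)).comp_hasDerivAt s h1
    have hc : Continuous fun s : ℝ => d2 ψ (a, s) := hψ.d2.continuous.comp (by fun_prop)
    have h1 := intervalIntegral.integral_eq_sub_of_hasDerivAt hd (hc.intervalIntegrable _ _)
    rw [← h1, hB, ← Real.norm_eq_abs]
    refine (intervalIntegral.norm_integral_le_integral_norm_uIoc).trans ?_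
    apply setIntegral_mono_set
    · exact hc.abs.continuousOn.integrableOn_compact isCompact_Icc
    · exact Filter.Eventually.of_forall fun _ => abs_nonneg _
    · apply LE.le.eventuallyLE
      exact uIoc_subset_uIcc.trans (uIcc_subset_Icc hb' hb)
  obtain ⟨J, hJ⟩ : ∃ J, J = ∫ y in closedBall (0 : ℝ × ℝ) R, ψ y := ⟨_, rfl⟩
  obtain ⟨Bt, hBt⟩ : ∃ Bt, Bt = ∫ a in Icc (-R) R, B a := ⟨_, rfl⟩
  rw [← hJ]
  have ci : ∀ {F : ℝ × ℝ → ℝ}, Continuous F → IntegrableOn F (closedBall (0 : ℝ × ℝ) R) :=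
    fun hF => hF.continuousOn.integrableOn_compact (isCompact_closedBall _ _)
  have harea := H26.Yau.area2 (0 : ℝ × ℝ) hR.le
  have hBf : Continuous (fun y : ℝ × ℝ => B y.1) := hBc.comp continuous_fst
  have hAs : Continuous (fun y : ℝ × ℝ => A y.2) := hAc.comp continuous_snd
  -- pointwise
  have hpt : ∀ x ∈ closedBall (0 : ℝ × ℝ) R, |ψ x - 1 / (2 * R) ^ 2 * J| ≤
      A x.2 + Bt / (2 * R) := by
    intro x hx
    rw [closedBall_eq] at hx
    have h1 : ψ x - 1 / (2 * R) ^ 2 * J =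
        1 / (2 * R) ^ 2 * ∫ y in closedBall (0 : ℝ × ℝ) R, (ψ x - ψ y) := by
      rw [integral_sub (ci continuous_const) (ci hψc), setIntegral_const, harea, ← hJ, smul_eq_mul]
      field_simp
    have h2 : |∫ y in closedBall (0 : ℝ × ℝ) R, (ψ x - ψ y)| ≤
        ∫ y in closedBall (0 : ℝ × ℝ) R, (A x.2 + B y.1) := by
      refine (abs_integral_le_integral_abs).trans ?_
      apply setIntegral_mono_on (ci (continuous_const.sub hψc).abs)
        (ci (continuous_const.add hBf)) isClosed_closedBall.measurableSet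
      intro y hy
      rw [closedBall_eq] at hy
      have e1 := hd1 x.1 y.1 x.2 hx.1 hy.1
      have e2 := hd2 y.1 x.2 y.2 hx.2 hy.2
      calc |ψ x - ψ y| = |(ψ (x.1, x.2) - ψ (y.1, x.2)) + (ψ (y.1, x.2) - ψ (y.1, y.2))| := by
            congr 1; ring
        _ ≤ _ := (abs_add_le _ _).trans (add_le_add e1 e2)
    have h3 : ∫ y in closedBall (0 : ℝ × ℝ) R, (A x.2 + B y.1) = (2 * R) ^ 2 * A x.2 +
        2 * R * Bt := by
      rw [integral_add (ci continuous_const) (ci hBf), setIntegral_const,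
        harea, smul_eq_mul, int_sq hBf R]
      congr 1
      have e3 : ∀ a : ℝ, ∫ b in Icc (-R) R, B (a, b).1 = 2 * R * B a := by
        intro a
        show ∫ _ in Icc (-R) R, B a = 2 * R * B a
        rw [setIntegral_const, hvol, smul_eq_mul]
      simp only [e3]
      rw [integral_const_mul, ← hBt]
    rw [h1, abs_mul, abs_of_pos (by positivity : 0 < 1 / (2 * R) ^ 2)]
    rw [h3] at h2
    calc 1 / (2 * R) ^ 2 * |∫ y in closedBall (0 : ℝ × ℝ) R, (ψ x - ψ y)|
        ≤ 1 / (2 * R) ^ 2 * ((2 * R) ^ 2 * A x.2 + 2 * R * Bt) :=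
          mul_le_mul_of_nonneg_left h2 (by positivity)
      _ = A x.2 + Bt / (2 * R) := by field_simp
  calc ∫ x in closedBall (0 : ℝ × ℝ) R, |ψ x - 1 / (2 * R) ^ 2 * J|
      ≤ ∫ x in closedBall (0 : ℝ × ℝ) R, (A x.2 + Bt / (2 * R)) := by
        apply setIntegral_mono_on (ci (hψc.sub continuous_const).abs)
          (ci (hAs.add continuous_const)) isClosed_closedBall.measurableSet
        exact hpt
    _ = 2 * R * (∫ b in Icc (-R) R, A b) + 2 * R * Bt := by
        rw [integral_add (ci hAs) (ci continuous_const), setIntegral_const,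
          harea, smul_eq_mul, int_sq' hAs R]
        congr 1
        · have e3 : ∀ b : ℝ, ∫ a in Icc (-R) R, A (a, b).2 = 2 * R * A b := by
            intro b
            show ∫ _ in Icc (-R) R, A b = 2 * R * A b
            rw [setIntegral_const, hvol, smul_eq_mul]
          simp only [e3]
          rw [integral_const_mul]
        · field_simp
    _ = 2 * R * ∫ x in closedBall (0 : ℝ × ℝ) R, (|d1 ψ x| + |d2 ψ x|) := by
        rw [hBt, hIA, hIB, integral_add (ci h1c) (ci h2c)]
        ring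

private lemma log_cube {κ : ℝ} (hκ : 0 < κ) :
    ∃ a1 : ℝ, ∀ a : ℝ, a1 ≤ a → (Real.log a) ^ 3 ≤ κ * a := by
  have h := (Real.isLittleO_pow_log_id_atTop (n := 3)).def hκ
  obtain ⟨a1, ha1⟩ := Filter.eventually_atTop.1 h
  refine ⟨max a1 0, fun a ha => ?_⟩
  have h1 := ha1 a ((le_max_left _ _).trans ha)
  rw [Real.norm_eq_abs, id, Real.norm_eq_abs, abs_of_nonneg ((le_max_right _ _).trans ha)] at h1
  exact (le_abs_self _).trans h1

/-- If the gradient is large only on a set of small area, then its integral is small. -/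
private lemma slope {ψ : ℝ × ℝ → ℝ} (hψ : Smooth ψ) {c1 lam A X : ℝ} (hc1 : 0 ≤ c1)
    (hlam : 0 < lam)
    (hA : (volume : Measure (ℝ × ℝ)).real
      (closedBall 0 132 ∩ {x | c1 ≤ max |d1 ψ x| |d2 ψ x|}) ≤ A)
    (hX : ∫ x in closedBall (0 : ℝ × ℝ) 132, ((d1 ψ x) ^ 2 + (d2 ψ x) ^ 2) ≤ X) :
    ∫ x in closedBall (0 : ℝ × ℝ) 132, (|d1 ψ x| + |d2 ψ x|) ≤
      2 * c1 * 264 ^ 2 + lam * A + X / (2 * lam) := by
  have h1c : Continuous fun x => |d1 ψ x| := hψ.d1.continuous.abs
  have h2c : Continuous fun x => |d2 ψ x| := hψ.d2.continuous.abs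
  have hsqc : Continuous fun x => (d1 ψ x) ^ 2 + (d2 ψ x) ^ 2 :=
    (hψ.d1.continuous.pow 2).add (hψ.d2.continuous.pow 2)
  have ci : ∀ {F : ℝ × ℝ → ℝ}, Continuous F → IntegrableOn F (closedBall (0 : ℝ × ℝ) 132) :=
    fun hF => hF.continuousOn.integrableOn_compact (isCompact_closedBall _ _)
  have hm : MeasurableSet {x | c1 ≤ max |d1 ψ x| |d2 ψ x|} :=
    (isClosed_le continuous_const (h1c.max h2c)).measurableSet
  obtain ⟨E, hE⟩ : ∃ E : Set (ℝ × ℝ), E = {x | c1 ≤ max |d1 ψ x| |d2 ψ x|} := ⟨_, rfl⟩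
  rw [← hE] at hm hA
  have hpt : ∀ x, |d1 ψ x| + |d2 ψ x| ≤
      2 * c1 + E.indicator (fun _ => lam) x + 1 / (2 * lam) * ((d1 ψ x) ^ 2 + (d2 ψ x) ^ 2) := by
    intro x
    have hq : 0 ≤ 1 / (2 * lam) * ((d1 ψ x) ^ 2 + (d2 ψ x) ^ 2) := by positivity
    by_cases hx : x ∈ E
    · rw [indicator_of_mem hx]
      have e1 : |d1 ψ x| ≤ lam / 2 + 1 / (2 * lam) * (d1 ψ x) ^ 2 := by
        have := sq_nonneg (|d1 ψ x| - lam)
        rw [sub_sq, sq_abs] at this
        have h2 : 1 / (2 * lam) * (d1 ψ x) ^ 2 = (d1 ψ x) ^ 2 / (2 * lam) := by ring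
        rw [h2, ← sub_le_iff_le_add', le_div_iff₀ (by positivity)]
        nlinarith only [this]
      have e2 : |d2 ψ x| ≤ lam / 2 + 1 / (2 * lam) * (d2 ψ x) ^ 2 := by
        have := sq_nonneg (|d2 ψ x| - lam)
        rw [sub_sq, sq_abs] at this
        have h2 : 1 / (2 * lam) * (d2 ψ x) ^ 2 = (d2 ψ x) ^ 2 / (2 * lam) := by ring
        rw [h2, ← sub_le_iff_le_add', le_div_iff₀ (by positivity)]
        nlinarith only [this]
      linarith
    · rw [indicator_of_notMem hx]
      rw [hE] at hx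
      have hx : max |d1 ψ x| |d2 ψ x| < c1 := not_le.1 hx
      have e1 := (le_max_left _ _).trans_lt hx
      have e2 := (le_max_right _ _).trans_lt hx
      linarith
  have hI : IntegrableOn (E.indicator fun _ => lam) (closedBall (0 : ℝ × ℝ) 132) :=
    (ci continuous_const).indicator hm
  have i0 : IntegrableOn (fun _ : ℝ × ℝ => 2 * c1) (closedBall (0 : ℝ × ℝ) 132) :=
    ci continuous_const
  have i1 : IntegrableOn (fun x => 2 * c1 + E.indicator (fun _ => lam) x)
      (closedBall (0 : ℝ × ℝ) 132) := i0.add hI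
  have i2 : IntegrableOn (fun x => 1 / (2 * lam) * ((d1 ψ x) ^ 2 + (d2 ψ x) ^ 2))
      (closedBall (0 : ℝ × ℝ) 132) := ci (continuous_const.mul hsqc)
  calc ∫ x in closedBall (0 : ℝ × ℝ) 132, (|d1 ψ x| + |d2 ψ x|)
      ≤ ∫ x in closedBall (0 : ℝ × ℝ) 132, (2 * c1 + E.indicator (fun _ => lam) x +
          1 / (2 * lam) * ((d1 ψ x) ^ 2 + (d2 ψ x) ^ 2)) :=
        setIntegral_mono_on (ci (h1c.add h2c))
          (i1.add i2)
          isClosed_closedBall.measurableSet fun x _ => hpt x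
    _ = 2 * c1 * 264 ^ 2 + lam * (volume : Measure (ℝ × ℝ)).real (closedBall 0 132 ∩ E) +
          1 / (2 * lam) * ∫ x in closedBall (0 : ℝ × ℝ) 132, ((d1 ψ x) ^ 2 + (d2 ψ x) ^ 2) := by
        rw [integral_add i1 i2, integral_add i0 hI, setIntegral_const,
          H26.Yau.area2 _ (by norm_num : (0 : ℝ) ≤ 132), setIntegral_indicator hm,
          setIntegral_const, integral_const_mul, smul_eq_mul, smul_eq_mul]
        norm_num
        ring
    _ ≤ 2 * c1 * 264 ^ 2 + lam * A + X / (2 * lam) := by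
        have e1 : lam * (volume : Measure (ℝ × ℝ)).real (closedBall 0 132 ∩ E) ≤ lam * A :=
          mul_le_mul_of_nonneg_left hA hlam.le
        have e2 : 1 / (2 * lam) * ∫ x in closedBall (0 : ℝ × ℝ) 132,
            ((d1 ψ x) ^ 2 + (d2 ψ x) ^ 2) ≤ 1 / (2 * lam) * X :=
          mul_le_mul_of_nonneg_left hX (by positivity)
        have e3 : 1 / (2 * lam) * X = X / (2 * lam) := by ring
        rw [e3] at e2
        linarith

/-- A function whose maxima are, in the mean, near a constant, and not much larger anywhere, has a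
good constant majorant. -/
private lemma const_maj {v : ℝ × ℝ → ℝ} (hv : Continuous v) {m θ τ cb ρ : ℝ} (hm : 0 < m)
    (hθ : 0 < θ) (hθ1 : θ ≤ 1 / 12) (hρ : 0 < ρ) (hρ1 : ρ ≤ 1)
    (hpos : ∀ z ∈ closedBall (0 : ℝ × ℝ) 132, 0 < M v z ρ)
    (hint : ∫ z in closedBall (0 : ℝ × ℝ) 132, |Real.log (M v z ρ) - m * cb| ≤ m * τ / 2)
    (hsup : ∀ p ∈ closedBall (0 : ℝ × ℝ) 128,
      |v p| ≤ Real.exp (m * cb + θ * (m * (1 - cb))))
    (hlow : ∃ w ∈ closedBall (0 : ℝ × ℝ) 2, Real.exp (-m) ≤ |v w|) :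
    ∃ c : ℝ, Maj v c 0 0 1 ∧ dfc v c 0 0 1 ≤ 3 * θ * m + m * τ / 2 / 128 ^ 2 := by
  obtain ⟨w, hw, hwv⟩ := hlow
  have h1 := hwv.trans (hsup w (closedBall_subset_closedBall (by norm_num) hw))
  rw [Real.exp_le_exp] at h1
  have h2 : -1 ≤ cb + θ * (1 - cb) := by
    by_contra hcon
    rw [not_le] at hcon
    have := mul_lt_mul_of_pos_left hcon hm
    linarith only [h1, this]
  have hcb : -2 ≤ cb := by
    by_contra hcon
    rw [not_le] at hcon
    nlinarith only [hθ1, h2, hcon]
  have haff : ∀ (c : ℝ) (z : ℝ × ℝ), aff c 0 z = c := by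
    intro c z
    simp [aff]
  have hθcb : θ * (m * (1 - cb)) ≤ 3 * θ * m := by
    have : 1 - cb ≤ 3 := by linarith
    calc θ * (m * (1 - cb)) ≤ θ * (m * 3) := by gcongr
      _ = 3 * θ * m := by ring
  refine ⟨m * cb + 3 * θ * m, ?_, ?_⟩
  · intro z hz
    rw [haff]
    rw [mul_one] at hz
    exact (hsup z hz).trans (Real.exp_le_exp.2 (by linarith only [hθcb]))
  · unfold dfc
    obtain ⟨c, hc⟩ : ∃ c, c = m * cb + 3 * θ * m := ⟨_, rfl⟩
    rw [← hc, mul_one, mul_one]
    have hpos' : ∀ z ∈ closedBall (0 : ℝ × ℝ) 64, 0 < M v z 1 := fun z hz =>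
      (hpos z (closedBall_subset_closedBall (by norm_num) hz)).trans_le
        (M_mono hv hρ.le (closedBall_subset_closedBall hρ1))
    have htc := continuous_tilt hv c 0
    have hMc := continuous_M htc (r := 1) zero_le_one
    have hMp : ∀ z ∈ closedBall (0 : ℝ × ℝ) 64, 0 < M (tilt c 0 v) z 1 := fun z hz =>
      M_tilt_pos hv zero_le_one c 0 (hpos' z hz)
    have hI1 : IntegrableOn (fun z => -(Real.log (M (tilt c 0 v) z 1)))
        (closedBall (0 : ℝ × ℝ) 64) := by
      apply ContinuousOn.integrableOn_compact (isCompact_closedBall _ _)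
      exact (hMc.continuousOn.log fun z hz => (hMp z hz).ne').neg
    have hI2 : IntegrableOn (fun z => |Real.log (M v z ρ) - m * cb|)
        (closedBall (0 : ℝ × ℝ) 132) := by
      apply ContinuousOn.integrableOn_compact (isCompact_closedBall _ _)
      exact (((continuous_M hv hρ.le).continuousOn.log fun z hz => (hpos z hz).ne').sub
        continuousOn_const).abs
    have hI3 : IntegrableOn (fun z => |Real.log (M v z ρ) - m * cb|)
        (closedBall (0 : ℝ × ℝ) 64) :=
      hI2.mono_set (closedBall_subset_closedBall (by norm_num))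
    have hI4 : IntegrableOn (fun _ : ℝ × ℝ => 3 * θ * m) (closedBall (0 : ℝ × ℝ) 64) :=
      continuousOn_const.integrableOn_compact (isCompact_closedBall _ _)
    have hpt : ∀ z ∈ closedBall (0 : ℝ × ℝ) 64, -(Real.log (M (tilt c 0 v) z 1)) ≤
        |Real.log (M v z ρ) - m * cb| + 3 * θ * m := by
      intro z hz
      have hz' : z ∈ closedBall (0 : ℝ × ℝ) 132 := closedBall_subset_closedBall (by norm_num) hz
      obtain ⟨p, hp, hpM⟩ := exists_M hv (z := z) hρ.le
      have e1 := le_M htc (closedBall_subset_closedBall hρ1 hp)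
      rw [abs_tilt, hpM, haff] at e1
      have e2 := Real.log_le_log (mul_pos (hpos z hz') (Real.exp_pos _)) e1
      rw [Real.log_mul (hpos z hz').ne' (Real.exp_pos _).ne', Real.log_exp] at e2
      have e3 := neg_abs_le (Real.log (M v z ρ) - m * cb)
      linarith only [hc, e2, e3]
    have h3 : ∫ z in closedBall (0 : ℝ × ℝ) 64, -(Real.log (M (tilt c 0 v) z 1)) ≤
        m * τ / 2 + 128 ^ 2 * (3 * θ * m) := by
      calc ∫ z in closedBall (0 : ℝ × ℝ) 64, -(Real.log (M (tilt c 0 v) z 1))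
          ≤ ∫ z in closedBall (0 : ℝ × ℝ) 64, (|Real.log (M v z ρ) - m * cb| + 3 * θ * m) :=
            setIntegral_mono_on hI1 (hI3.add hI4) isClosed_closedBall.measurableSet hpt
        _ = (∫ z in closedBall (0 : ℝ × ℝ) 64, |Real.log (M v z ρ) - m * cb|) +
              128 ^ 2 * (3 * θ * m) := by
            rw [integral_add hI3 hI4, setIntegral_const,
              H26.Yau.area2 _ (by norm_num : (0 : ℝ) ≤ 64), smul_eq_mul]
            norm_num
        _ ≤ (∫ z in closedBall (0 : ℝ × ℝ) 132, |Real.log (M v z ρ) - m * cb|) +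
              128 ^ 2 * (3 * θ * m) := by
            have := setIntegral_mono_set hI2 (Filter.Eventually.of_forall fun _ => abs_nonneg _)
              (closedBall_subset_closedBall (x := (0 : ℝ × ℝ))
                (by norm_num : (64 : ℝ) ≤ 132)).eventuallyLE
            linarith only [this]
        _ ≤ _ := by linarith
    calc 1 / 128 ^ 2 * ∫ z in closedBall (0 : ℝ × ℝ) 64, -(Real.log (M (tilt c 0 v) z 1))
        ≤ 1 / 128 ^ 2 * (m * τ / 2 + 128 ^ 2 * (3 * θ * m)) :=
          mul_le_mul_of_nonneg_left h3 (by norm_num)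
      _ = _ := by ring

theorem nondeg_core (B : ℝ) (hB : 1 ≤ B) : ∃ c1 : ℝ, 0 < c1 ∧ ∀ δ : ℝ, 0 < δ →
    ∃ a0 : ℝ, 2 ≤ a0 ∧ ∀ a : ℝ, a0 ≤ a → ∃ (c0 : ℝ) (P : Par) (K : ℝ), 0 < c0 ∧ 1 ≤ K ∧
    ∀ (v : ℝ × ℝ → ℝ) (m : ℝ), K ≤ m → Continuous v →
      (∀ m' : ℝ, m ≤ m' → Comp P v m' (closedBall 0 160)) →
      (∀ p ∈ closedBall (0 : ℝ × ℝ) 160, |v p| ≤ 1) →
      (∀ z ∈ closedBall (0 : ℝ × ℝ) 150, ∃ w ∈ closedBall z 2, Real.exp (-m) ≤ |v w|) →
      (∀ c : ℝ, Maj v c 0 0 1 → m ≤ B * dfc v c 0 0 1) →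
      ∃ E : Set (ℝ × ℝ), MeasurableSet E ∧ E ⊆ closedBall (0 : ℝ × ℝ) 132 ∧
        c0 ≤ (volume E).toReal ∧
        ∀ x' ∈ E, ∃ (c' : ℝ) (g' : ℝ × ℝ), c1 * m ≤ ‖g'‖ ∧
          (∀ z ∈ closedBall x' (130 / a ^ 9), |v z| ≤ Real.exp (aff c' g' z)) ∧
          ∀ x'' ∈ closedBall x' (1 / a ^ 9), dfc v c' g' x'' (1 / a ^ 9) ≤ δ * m / a ^ 9 := by
  obtain ⟨Cs, hCs, hchild⟩ := child 131 (by norm_num)
  have hCs0 : 0 < Cs := by linarith
  have hB0 : 0 < B := by linarith
  obtain ⟨θ, hθ⟩ : ∃ θ, θ = 1 / (12 * B) := ⟨_, rfl⟩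
  have hθ0 : 0 < θ := by rw [hθ]; positivity
  have hθ1 : θ ≤ 1 / 12 := by
    rw [hθ]
    apply one_div_le_one_div_of_le (by norm_num)
    linarith
  obtain ⟨ε, hε, hlmp⟩ := lmp 128 θ (by norm_num) hθ0 (by linarith)
  obtain ⟨τ, hτ⟩ : ∃ τ, τ = min ε (1 / (4 * B)) := ⟨_, rfl⟩
  have hτ0 : 0 < τ := by rw [hτ]; exact lt_min hε (by positivity)
  have hτε : τ ≤ ε := by rw [hτ]; exact min_le_left _ _
  have hτB : τ ≤ 1 / (4 * B) := by rw [hτ]; exact min_le_right _ _
  obtain ⟨c1, hc1⟩ : ∃ c1, c1 = τ / (6336 * 264 ^ 2) := ⟨_, rfl⟩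
  have hc10 : 0 < c1 := by rw [hc1]; positivity
  obtain ⟨Λ, hΛ⟩ : ∃ Λ, Λ = 1584 * Cs / τ := ⟨_, rfl⟩
  have hΛ0 : 0 < Λ := by rw [hΛ]; positivity
  obtain ⟨c00, hc00⟩ : ∃ c00, c00 = τ / (6336 * Λ) := ⟨_, rfl⟩
  have hc000 : 0 < c00 := by rw [hc00]; positivity
  refine ⟨c1, hc10, fun δ hδ => ?_⟩
  obtain ⟨κ, hκ⟩ : ∃ κ, κ = min (c00 * δ / Cs) (τ / (4 * Cs)) := ⟨_, rfl⟩
  have hκ0 : 0 < κ := by rw [hκ]; exact lt_min (by positivity) (by positivity)
  have hκ1 : κ ≤ c00 * δ / Cs := by rw [hκ]; exact min_le_left _ _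
  have hκ2 : κ ≤ τ / (4 * Cs) := by rw [hκ]; exact min_le_right _ _
  obtain ⟨a1, ha1⟩ := log_cube hκ0
  refine ⟨max a1 3, (by norm_num : (2 : ℝ) ≤ 3).trans (le_max_right _ _), fun a ha => ?_⟩
  have ha3 : 3 ≤ a := (le_max_right _ _).trans ha
  have ha0 : 0 < a := by linarith only [ha3]
  have hlog3 := ha1 a ((le_max_left _ _).trans ha)
  have hlog1 : 1 ≤ Real.log a := by
    rw [Real.le_log_iff_exp_le ha0]
    exact (Real.exp_one_lt_d9.le.trans (by norm_num)).trans ha3
  obtain ⟨l, hl⟩ : ∃ l, l = Real.log a := ⟨_, rfl⟩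
  rw [← hl] at hlog3 hlog1
  have hl0 : 0 < l := by linarith only [hlog1]
  have hpow : ∀ n : ℕ, 1 ≤ a ^ n := fun n => one_le_pow₀ (by linarith only [ha3])
  obtain ⟨P1, K, hK, hch⟩ := hchild a (by linarith only [ha3])
  have hρ0 : (0 : ℝ) < 1 / (2 * a ^ 10) := by positivity
  have hρ01 : 1 / (2 * a ^ 10) ≤ 1 := by
    rw [div_le_one (by positivity)]
    linarith only [hpow 10]
  obtain ⟨P2, hlm⟩ := hlmp (1 / (2 * a ^ 10)) hρ0 hρ01
  refine ⟨c00 / l ^ 2, P1.sup P2, K, by positivity, hK, ?_⟩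
  intro v m hm hv hcomp hv1 hlow hnd
  have hm0 : 0 < m := by linarith only [hK, hm]
  obtain ⟨ρ, ψ, Φ, hρ1, hρ2, hψ, hΦ, hΦ0, hMpos, hmaj, hI1, hI2, hI3⟩ := hch v m hm hv
    (((hcomp m le_rfl).mono_set (closedBall_subset_closedBall (by norm_num))).mono hm0.le
      (P1.le_sup_left P2))
    (fun p hp => hv1 p (closedBall_subset_closedBall (by norm_num) hp))
    (fun z hz => hlow z (closedBall_subset_closedBall (by norm_num) hz))
  rw [← hl] at hI1 hI2 hI3
  have e1 : (131 : ℝ) + 1 = 132 := by norm_num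
  have e5 : (131 : ℝ) + 5 = 136 := by norm_num
  rw [e1] at hmaj hI1 hI2 hI3
  rw [e5] at hMpos
  have hρp : 0 < ρ := hρ0.trans_le hρ1
  have hρle : ρ ≤ 1 := hρ2.trans (by rw [div_le_one (by positivity)]; exact hpow 10)
  have hψc := hψ.continuous
  have h1c : Continuous fun x => |d1 ψ x| := hψ.d1.continuous.abs
  have h2c : Continuous fun x => |d2 ψ x| := hψ.d2.continuous.abs
  have ci : ∀ {F : ℝ × ℝ → ℝ}, Continuous F → IntegrableOn F (closedBall (0 : ℝ × ℝ) 132) :=
    fun hF => hF.continuousOn.integrableOn_compact (isCompact_closedBall _ _)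
  -- the sets
  obtain ⟨E1, hE1⟩ : ∃ E : Set (ℝ × ℝ),
    E = closedBall 0 132 ∩ {x | c1 ≤ max |d1 ψ x| |d2 ψ x|} := ⟨_, rfl⟩
  obtain ⟨F, hF⟩ : ∃ F : Set (ℝ × ℝ),
    F = {x | δ * m / a ^ 9 ≤ Φ x} ∩ closedBall 0 132 := ⟨_, rfl⟩
  have hS : MeasurableSet (closedBall (0 : ℝ × ℝ) 132) := isClosed_closedBall.measurableSet
  have hE1m : MeasurableSet E1 := by
    rw [hE1]
    exact hS.inter (isClosed_le continuous_const (h1c.max h2c)).measurableSet
  have hFm' : MeasurableSet {x | δ * m / a ^ 9 ≤ Φ x} :=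
    (isClosed_le continuous_const hΦ).measurableSet
  have hFm : MeasurableSet F := by
    rw [hF]
    exact hFm'.inter hS
  have hfin : (volume : Measure (ℝ × ℝ)) (closedBall (0 : ℝ × ℝ) 132) ≠ ⊤ :=
    (isCompact_closedBall _ _).measure_lt_top.ne
  have hfinE : (volume : Measure (ℝ × ℝ)) E1 ≠ ⊤ :=
    measure_ne_top_of_subset (by rw [hE1]; exact inter_subset_left) hfin
  have hfinF : (volume : Measure (ℝ × ℝ)) F ≠ ⊤ :=
    measure_ne_top_of_subset (by rw [hF]; exact inter_subset_right) hfin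
  -- the set where the deficit is large
  have hareaF : (volume : Measure (ℝ × ℝ)).real F ≤ c00 / l ^ 2 := by
    have h1 := mul_meas_ge_le_integral_of_nonneg
      (μ := (volume : Measure (ℝ × ℝ)).restrict (closedBall 0 132))
      (Filter.Eventually.of_forall hΦ0) (ci hΦ) (δ * m / a ^ 9)
    rw [measureReal_restrict_apply hFm', ← hF] at h1
    have h2 := h1.trans hI1
    have h3 : (volume : Measure (ℝ × ℝ)).real F ≤ Cs * l / (δ * a) := by
      have h4 : Cs * l / a ^ 10 * m = δ * m / a ^ 9 * (Cs * l / (δ * a)) := by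
        field_simp
      rw [h4] at h2
      exact le_of_mul_le_mul_left h2 (by positivity)
    refine h3.trans ?_
    rw [div_le_div_iff₀ (by positivity) (by positivity)]
    have h5 : l ^ 3 ≤ c00 * δ / Cs * a := hlog3.trans (mul_le_mul_of_nonneg_right hκ1 ha0.le)
    calc Cs * l * l ^ 2 = Cs * l ^ 3 := by ring
      _ ≤ Cs * (c00 * δ / Cs * a) := mul_le_mul_of_nonneg_left h5 hCs0.le
      _ = c00 * (δ * a) := by field_simp
  -- the set where the slope is large
  have hareaE : 2 * (c00 / l ^ 2) ≤ (volume : Measure (ℝ × ℝ)).real E1 := by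
    by_contra hcon
    rw [not_le] at hcon
    have hsl := slope hψ hc10.le (lam := Λ * l ^ 2) (A := 2 * (c00 / l ^ 2)) (X := Cs * l ^ 2)
      (by positivity) (by rw [← hE1]; exact hcon.le) hI2
    have e2 : 2 * c1 * 264 ^ 2 + Λ * l ^ 2 * (2 * (c00 / l ^ 2)) + Cs * l ^ 2 / (2 * (Λ * l ^ 2)) =
        τ / 1056 := by
      have f1 : 2 * c1 * 264 ^ 2 = τ / 3168 := by rw [hc1]; ring
      have f2 : Λ * l ^ 2 * (2 * (c00 / l ^ 2)) = τ / 3168 := by
        rw [hc00]; field_simp; norm_num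
      have f3 : Cs * l ^ 2 / (2 * (Λ * l ^ 2)) = τ / 3168 := by
        rw [hΛ]; field_simp; norm_num
      rw [f1, f2, f3]
      ring
    rw [e2] at hsl
    have hpo := poincare hψ (R := 132) (by norm_num)
    obtain ⟨avg, havg⟩ : ∃ avg, avg = 1 / (2 * 132 : ℝ) ^ 2 *
      ∫ y in closedBall (0 : ℝ × ℝ) 132, ψ y := ⟨_, rfl⟩
    rw [← havg] at hpo
    have hpo2 : ∫ x in closedBall (0 : ℝ × ℝ) 132, |ψ x - avg| ≤ τ / 4 := by linarith only [hsl, hpo]
    obtain ⟨cb, hcb⟩ : ∃ cb, cb = min avg 0 := ⟨_, rfl⟩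
    have hcb0 : cb ≤ 0 := by rw [hcb]; exact min_le_right _ _
    have hposρ : ∀ z ∈ closedBall (0 : ℝ × ℝ) 132, 0 < M v z ρ := fun z hz =>
      (hMpos z (closedBall_subset_closedBall (by norm_num) hz)).trans_le
        (M_mono hv hρ0.le (closedBall_subset_closedBall hρ1))
    have hL0 : ∀ z ∈ closedBall (0 : ℝ × ℝ) 132, Real.log (M v z ρ) ≤ 0 := by
      intro z hz
      apply Real.log_nonpos M_nonneg
      apply M_le hρp.le
      intro p hp
      apply hv1 p
      rw [mem_closedBall] at hp hz ⊢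
      linarith only [hρle, hz, hp, dist_triangle p z 0]
    have hpt : ∀ z ∈ closedBall (0 : ℝ × ℝ) 132, |Real.log (M v z ρ) - m * cb| ≤
        |Real.log (M v z ρ) - m * ψ z| + m * |ψ z - avg| := by
      intro z hz
      have g1 : |Real.log (M v z ρ) - m * cb| ≤ |Real.log (M v z ρ) - m * avg| := by
        rcases le_total avg 0 with h | h
        · rw [hcb, min_eq_left h]
        · rw [hcb, min_eq_right h, mul_zero, sub_zero, abs_of_nonpos (hL0 z hz),
            abs_of_nonpos (by linarith only [hL0 z hz, mul_nonneg hm0.le h])]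
          linarith only [mul_nonneg hm0.le h]
      refine g1.trans ?_
      have g2 : m * |ψ z - avg| = |m * ψ z - m * avg| := by
        rw [← mul_sub, abs_mul, abs_of_pos hm0]
      rw [g2]
      calc |Real.log (M v z ρ) - m * avg|
          = |(Real.log (M v z ρ) - m * ψ z) + (m * ψ z - m * avg)| := by congr 1; ring
        _ ≤ _ := abs_add_le _ _
    have hLc : ContinuousOn (fun z => Real.log (M v z ρ)) (closedBall (0 : ℝ × ℝ) 132) :=
      (continuous_M hv hρp.le).continuousOn.log fun z hz => (hposρ z hz).ne'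
    have j1 : IntegrableOn (fun z => |Real.log (M v z ρ) - m * cb|) (closedBall (0 : ℝ × ℝ) 132) :=
      (hLc.sub continuousOn_const).abs.integrableOn_compact (isCompact_closedBall _ _)
    have j2 : IntegrableOn (fun z => |Real.log (M v z ρ) - m * ψ z|)
        (closedBall (0 : ℝ × ℝ) 132) :=
      (hLc.sub (continuous_const.mul hψc).continuousOn).abs.integrableOn_compact
        (isCompact_closedBall _ _)
    have j3 : IntegrableOn (fun z => m * |ψ z - avg|) (closedBall (0 : ℝ × ℝ) 132) :=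
      ci (continuous_const.mul (hψc.sub continuous_const).abs)
    have hint : ∫ z in closedBall (0 : ℝ × ℝ) 132, |Real.log (M v z ρ) - m * cb| ≤ m * τ / 2 := by
      calc ∫ z in closedBall (0 : ℝ × ℝ) 132, |Real.log (M v z ρ) - m * cb|
          ≤ ∫ z in closedBall (0 : ℝ × ℝ) 132,
              (|Real.log (M v z ρ) - m * ψ z| + m * |ψ z - avg|) :=
            setIntegral_mono_on j1 (j2.add j3) hS hpt
        _ = (∫ z in closedBall (0 : ℝ × ℝ) 132, |Real.log (M v z ρ) - m * ψ z|) +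
              m * ∫ z in closedBall (0 : ℝ × ℝ) 132, |ψ z - avg| := by
            rw [integral_add j2 j3, integral_const_mul]
        _ ≤ τ / 4 * m + m * (τ / 4) := by
            apply add_le_add _ (mul_le_mul_of_nonneg_left hpo2 hm0.le)
            refine hI3.trans (mul_le_mul_of_nonneg_right ?_ hm0.le)
            rw [div_le_iff₀ (by positivity)]
            have k1 : l ≤ l ^ 3 := by
              calc l = l * 1 := (mul_one l).symm
                _ ≤ l * l ^ 2 := mul_le_mul_of_nonneg_left (one_le_pow₀ hlog1) hl0.le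
                _ = l ^ 3 := by ring
            have k2 : a ≤ a ^ 12 := by
              calc a = a * 1 := (mul_one a).symm
                _ ≤ a * a ^ 11 := mul_le_mul_of_nonneg_left (hpow 11) ha0.le
                _ = a ^ 12 := by ring
            calc Cs * l ≤ Cs * (κ * a) := mul_le_mul_of_nonneg_left (k1.trans hlog3) hCs0.le
              _ ≤ Cs * (τ / (4 * Cs) * a) := by gcongr
              _ = τ / 4 * a := by field_simp
              _ ≤ τ / 4 * a ^ 12 := mul_le_mul_of_nonneg_left k2 (by positivity)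
        _ = m * τ / 2 := by ring
    -- the local maximum principle
    obtain ⟨mu, hmu⟩ : ∃ mu, mu = m * (1 - cb) := ⟨_, rfl⟩
    have hmcb : m * cb ≤ 0 := mul_nonpos_of_nonneg_of_nonpos hm0.le hcb0
    have hmmu : m ≤ mu := by
      rw [hmu, mul_sub, mul_one]
      linarith only [hmcb]
    have hmu0 : 0 < mu := hm0.trans_le hmmu
    have hcomp' : Comp P2 (fun p => v p * Real.exp (-(m * cb))) mu
        (closedBall (0 : ℝ × ℝ) (128 + 4)) :=
      (((hcomp mu hmmu).mono_set (closedBall_subset_closedBall (by norm_num))).mono hmu0.le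
        (P1.le_sup_right P2)).mul_exp hmu0 _
    have hv'c : Continuous (fun p => v p * Real.exp (-(m * cb))) := hv.mul continuous_const
    have hbd : ∀ p ∈ closedBall (0 : ℝ × ℝ) (128 + 4), |v p * Real.exp (-(m * cb))| ≤
        Real.exp mu := by
      intro p hp
      rw [abs_mul, abs_of_pos (Real.exp_pos _)]
      calc |v p| * Real.exp (-(m * cb)) ≤ 1 * Real.exp (-(m * cb)) :=
            mul_le_mul_of_nonneg_right (hv1 p (closedBall_subset_closedBall (by norm_num) hp))
              (Real.exp_pos _).le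
        _ ≤ Real.exp mu := by
            rw [one_mul, Real.exp_le_exp, hmu, mul_sub, mul_one]
            linarith only [hK, hm]
    have hintp : ∫ z in closedBall (0 : ℝ × ℝ) (128 + 3),
        max 0 (Real.log (M (fun p => v p * Real.exp (-(m * cb))) z (1 / (2 * a ^ 10)))) ≤
          ε * mu := by
      have q1 : ∀ z ∈ closedBall (0 : ℝ × ℝ) (128 + 3),
          max 0 (Real.log (M (fun p => v p * Real.exp (-(m * cb))) z (1 / (2 * a ^ 10)))) ≤
            |Real.log (M v z ρ) - m * cb| := by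
        intro z hz
        have hz' : z ∈ closedBall (0 : ℝ × ℝ) 132 :=
          closedBall_subset_closedBall (by norm_num) hz
        apply max_le (abs_nonneg _)
        have q2 : M (fun p => v p * Real.exp (-(m * cb))) z (1 / (2 * a ^ 10)) ≤
            M v z ρ * Real.exp (-(m * cb)) := by
          apply M_le hρ0.le
          intro p hp
          rw [abs_mul, abs_of_pos (Real.exp_pos _)]
          exact mul_le_mul_of_nonneg_right (le_M hv (closedBall_subset_closedBall hρ1 hp))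
            (Real.exp_pos _).le
        rcases M_nonneg.eq_or_lt with h0 | h0
        · rw [← h0, Real.log_zero]
          exact abs_nonneg _
        · have q3 := Real.log_le_log h0 q2
          rw [Real.log_mul (hposρ z hz').ne' (Real.exp_pos _).ne', Real.log_exp] at q3
          refine q3.trans ?_
          rw [← sub_eq_add_neg]
          exact le_abs_self _
      have q4 : IntegrableOn (fun z => |Real.log (M v z ρ) - m * cb|)
          (closedBall (0 : ℝ × ℝ) (128 + 3)) :=
        j1.mono_set (closedBall_subset_closedBall (by norm_num))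
      have q5 : IntegrableOn (fun z => max 0 (Real.log (M (fun p => v p * Real.exp (-(m * cb)))
          z (1 / (2 * a ^ 10))))) (closedBall (0 : ℝ × ℝ) (128 + 3)) := by
        apply ContinuousOn.integrableOn_compact (isCompact_closedBall _ _)
        refine ContinuousOn.sup continuousOn_const
          ((continuous_M hv'c hρ0.le).continuousOn.log ?_)
        intro z hz
        have hz' : z ∈ closedBall (0 : ℝ × ℝ) 136 :=
          closedBall_subset_closedBall (by norm_num) hz
        obtain ⟨p, hp, hpM⟩ := exists_M hv (z := z) hρ0.le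
        have q6 := le_M hv'c hp
        rw [abs_mul, hpM, abs_of_pos (Real.exp_pos _)] at q6
        exact (lt_of_lt_of_le (mul_pos (hMpos z hz') (Real.exp_pos _)) q6).ne'
      calc _ ≤ ∫ z in closedBall (0 : ℝ × ℝ) (128 + 3), |Real.log (M v z ρ) - m * cb| :=
            setIntegral_mono_on q5 q4 isClosed_closedBall.measurableSet q1
        _ ≤ ∫ z in closedBall (0 : ℝ × ℝ) 132, |Real.log (M v z ρ) - m * cb| :=
            setIntegral_mono_set j1 (Filter.Eventually.of_forall fun _ => abs_nonneg _)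
              (closedBall_subset_closedBall (by norm_num)).eventuallyLE
        _ ≤ m * τ / 2 := hint
        _ ≤ ε * mu := by
            calc m * τ / 2 ≤ m * τ := by
                  have := mul_pos hm0 hτ0
                  linarith only [this]
              _ ≤ mu * ε := by gcongr
              _ = ε * mu := mul_comm _ _
    have hres := hlm _ mu hmu0 hv'c hcomp' hbd hintp
    have hsup : ∀ p ∈ closedBall (0 : ℝ × ℝ) 128,
        |v p| ≤ Real.exp (m * cb + θ * (m * (1 - cb))) := by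
      intro p hp
      have r1 := hres p hp
      rw [abs_mul, abs_of_pos (Real.exp_pos _), Real.exp_neg, ← div_eq_mul_inv,
        div_le_iff₀ (Real.exp_pos _), ← Real.exp_add, hmu] at r1
      rw [add_comm]
      exact r1
    obtain ⟨c, hc1, hc2⟩ := const_maj hv hm0 hθ0 hθ1 hρp hρle hposρ hint hsup
      (hlow 0 (mem_closedBall_self (by norm_num)))
    have hfinal := hnd c hc1
    have s1 : B * dfc v c 0 0 1 ≤ B * (3 * θ * m + m * τ / 2 / 128 ^ 2) :=
      mul_le_mul_of_nonneg_left hc2 hB0.le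
    have s2 : B * (3 * θ * m) = m / 4 := by rw [hθ]; field_simp; norm_num
    have s3 : B * (m * τ / 2 / 128 ^ 2) ≤ m / 4 := by
      calc B * (m * τ / 2 / 128 ^ 2) ≤ B * (m * (1 / (4 * B)) / 2 / 128 ^ 2) := by gcongr
        _ = m / (8 * 128 ^ 2) := by field_simp; norm_num
        _ ≤ m / 4 := by
            apply div_le_div_of_nonneg_left hm0.le (by norm_num) (by norm_num)
    rw [mul_add] at s1
    linarith only [hK, hm, hfinal, s1, s2, s3]
  refine ⟨E1 \ F, hE1m.diff hFm, ?_, ?_, ?_⟩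
  · intro x hx
    rw [hE1] at hx
    exact hx.1.1
  · have t1 : (volume : Measure (ℝ × ℝ)).real E1 ≤ (volume : Measure (ℝ × ℝ)).real (E1 \ F) +
        (volume : Measure (ℝ × ℝ)).real F := by
      calc (volume : Measure (ℝ × ℝ)).real E1 ≤
            (volume : Measure (ℝ × ℝ)).real ((E1 \ F) ∪ F) := by
            apply measureReal_mono
            · intro x hx
              by_cases hxF : x ∈ F
              · exact Or.inr hxF
              · exact Or.inl ⟨hx, hxF⟩
            · exact measure_union_ne_top (measure_ne_top_of_subset sdiff_subset hfinE) hfinF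
        _ ≤ _ := measureReal_union_le _ _
    have t2 : (volume : Measure (ℝ × ℝ)).real (E1 \ F) =
      ((volume : Measure (ℝ × ℝ)) (E1 \ F)).toReal := rfl
    rw [← t2]
    linarith only [hareaF, hareaE, t1]
  · intro x' hx'
    have hxE := hx'.1
    rw [hE1] at hxE
    obtain ⟨c', hc1', hc2'⟩ := hmaj x' hxE.1
    refine ⟨c', (m * d1 ψ x', m * d2 ψ x'), ?_, hc1', ?_⟩
    · rw [Prod.norm_def, Real.norm_eq_abs, Real.norm_eq_abs, abs_mul, abs_mul, abs_of_pos hm0,
        ← mul_max_of_nonneg _ _ hm0.le, mul_comm]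
      exact mul_le_mul_of_nonneg_left hxE.2 hm0.le
    · intro x'' hx''
      refine (hc2' x'' hx'').trans ?_
      by_contra hcon
      rw [not_le] at hcon
      apply hx'.2
      rw [hF]
      exact ⟨hcon.le, hxE.1⟩

end Pool.Agent.H5.Yau
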