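import Pool.Agent.H5.Yau.ThreeBall2
import Pool.Agent.H5.Yau.Energy2
import Pool.Agent.H24.Near.Mollify
import Pool.Agent.H24.Near.Resolvent
import Pool.Agent.H26.Yau.Tools

set_option autoImplicit false

/-!
# The structure of `(1/m) log |v|` at a small scale
-/

namespace Pool.Agent.H5.Yau

open MeasureTheory Set Metric Pool.Agent.H24.Near

namespace StructX

open Pool.Agent.H26.Yau

/-- The comparison property of the function `V` with exponent `m` on the set `S`, for weights with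
derivatives of order `1, 2, 3` at most `L`, collar width `d` and error `μ`. -/
def CompL (V : ℝ × ℝ → ℝ) (m : ℝ) (S : Set (ℝ × ℝ)) (L η d μ : ℝ) : Prop :=
  ∀ (ψ : ℝ × ℝ → ℝ) (D D' : Set (ℝ × ℝ)), IsCompact D → D ⊆ S → D' ⊆ D →
    (∀ z ∈ D', closedBall z d ⊆ D) → Smooth ψ →
    (∀ w : List Bool, 1 ≤ w.length → w.length ≤ 3 → ∀ z ∈ D, |der w ψ z| ≤ L) →
    (∀ z ∈ D, z ∉ D' → |V z| ≤ Real.exp (m * ψ z)) →
    (∀ z ∈ D', Real.exp (m * (ψ z + μ)) < |V z| → lap ψ z ≤ -η) →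
    ∀ z ∈ D, |V z| ≤ Real.exp (m * (ψ z + μ))

lemma smooth_shift {f : ℝ × ℝ → ℝ} (hf : Smooth f) (c : ℝ × ℝ) : Smooth (fun x => f (x - c)) := by
  have h := hf.scale (-c) 1
  have e : (fun x => f (x - c)) = fun x => f (-c + (1 : ℝ) • x) := by
    funext x
    rw [one_smul, neg_add_eq_sub]
  rw [e]
  exact h

lemma der_shift {f : ℝ × ℝ → ℝ} (hf : Smooth f) (c : ℝ × ℝ) (w : List Bool) (z : ℝ × ℝ) :
    der w (fun x => f (x - c)) z = der w f (z - c) := by
  have e : (fun x => f (x - c)) = fun x => f (-c + x) := by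
    funext x
    rw [neg_add_eq_sub]
  rw [e, der_translate hf]
  show der w f (-c + z) = _
  rw [neg_add_eq_sub]

lemma lap_shift {f : ℝ × ℝ → ℝ} (hf : Smooth f) (c : ℝ × ℝ) (z : ℝ × ℝ) :
    lap (fun x => f (x - c)) z = lap f (z - c) := by
  have e1 := der_shift hf c [false, false] z
  have e2 := der_shift hf c [true, true] z
  simp only [der] at e1 e2
  unfold lap
  rw [e1, e2]

lemma Comp.toL {P : Par} {v : ℝ × ℝ → ℝ} {m : ℝ} {S T : Set (ℝ × ℝ)} (h : Comp P v m S)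
    (hT : T ⊆ S) (hR : T ⊆ closedBall 0 P.R) : CompL v m T P.L P.η P.d P.μ := by
  intro ψ D D' h1 h2 h3 h4 h5 h6 h7 h8 z hz
  exact h ψ 0 D D' h1 (h2.trans hR) (h2.trans hT) h3 h4 h5 h6 h7 h8 z hz

lemma cint {g : ℝ × ℝ → ℝ} (r : ℝ) (hg : Continuous g) :
    IntegrableOn g (closedBall (0 : ℝ × ℝ) r) :=
  hg.continuousOn.integrableOn_compact (isCompact_closedBall 0 r)

lemma iconst (r c : ℝ) (hr : 0 ≤ r) :
    ∫ _p in closedBall (0 : ℝ × ℝ) r, c = (2 * r) ^ 2 * c := by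
  rw [setIntegral_const, area2 _ hr, smul_eq_mul]

/-! ### The potential -/

lemma potential (R : ℝ) (hR : 0 < R) : ∃ C : ℝ, 1 ≤ C ∧ ∀ (t d L0 : ℝ) (H Hp : ℝ × ℝ → ℝ),
    0 < t → 0 < d → d ≤ 1 → 0 ≤ L0 → Continuous Hp → (∀ p, -L0 ≤ Hp p ∧ Hp p ≤ 0) →
    (∀ p, ∀ p' ∈ closedBall p d, H p ≤ Hp p') →
    ∃ f ψ : ℝ × ℝ → ℝ, Smooth f ∧ Smooth ψ ∧ (∀ p, ψ p - t * lap ψ p = f p) ∧
      (∀ p, -L0 ≤ f p ∧ f p ≤ 0) ∧ (∀ p, -L0 ≤ ψ p ∧ ψ p ≤ 0) ∧ (∀ p, H p ≤ f p) ∧
      (∀ w : List Bool, w.length ≤ 3 → ∀ p, |der w ψ p| ≤ C * L0 / d ^ 3) ∧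
      ∀ r, d ≤ r → r ≤ R → ∫ p in closedBall (0 : ℝ × ℝ) r, f p ≤
        ∫ p in closedBall (0 : ℝ × ℝ) (r - d), Hp p := by
  obtain ⟨Cm, hCm, hmol⟩ := mollify
  obtain ⟨χ, hχ, hχc, hχ1, hχa, -⟩ := exists_cutoff (a := R) (b := R + 1) hR
    (by linarith)
  obtain ⟨C1, hC1, hχb⟩ := exists_bound hχ hχc
  refine ⟨8 * (C1 * Cm), by nlinarith only [hCm, hC1], ?_⟩
  intro t d L0 H Hp ht hd hd1 hL0 hHp hb hle
  obtain ⟨f0, hf0, hf0b, hf0a, hf0d, hf0i⟩ := hmol Hp L0 d hHp hL0 hd hd1 hb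
  have hfs : Smooth (fun p => χ p * f0 p) := hχ.mul hf0
  obtain ⟨ψ, hψ, hψe, hψb⟩ := resolvent ht hfs hχc.mul_right
  have hX : 0 ≤ 8 * (C1 * Cm) * L0 / d ^ 3 := by positivity
  have hder : ∀ w : List Bool, w.length ≤ 3 → ∀ p,
      |der w (fun p => χ p * f0 p) p| ≤ 8 * (C1 * Cm) * L0 / d ^ 3 := by
    intro w hw p
    have h := abs_der_mul_le hχ hf0 (a := C1) (b := Cm * L0 / d ^ 3) (p := p)
      (fun w hw => hχb w hw p) (fun w hw => (hf0d w hw p).trans ?_) w hw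
    · refine h.trans (le_of_eq ?_)
      ring
    · apply div_le_div_of_nonneg_left (by positivity) (by positivity)
      exact pow_le_pow_of_le_one hd.le hd1 hw
  have hfb : ∀ p, -L0 ≤ χ p * f0 p ∧ χ p * f0 p ≤ 0 := by
    intro p
    have h1 := hχ1 p
    have h2 := hf0b p
    constructor
    · nlinarith only [h2, mul_nonneg (sub_nonneg.mpr h1.2) (neg_nonneg.mpr h2.2)]
    · exact mul_nonpos_of_nonneg_of_nonpos h1.1 h2.2
  refine ⟨_, ψ, hfs, hψ, hψe, hfb, ?_, ?_, ?_, ?_⟩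
  · exact hψb [] (-L0) 0 (by linarith) le_rfl hfb
  · intro p
    have h0 : H p ≤ f0 p := hf0a p (H p) (hle p)
    have h1 := hχ1 p
    have h2 := hf0b p
    show H p ≤ χ p * f0 p
    nlinarith only [h0, mul_nonneg (sub_nonneg.mpr h1.2) (neg_nonneg.mpr h2.2)]
  · intro w hw p
    exact abs_le.mpr (hψb w _ _ (neg_nonpos.mpr hX) hX (fun p => abs_le.mp (hder w hw p)) p)
  · intro r hdr hr
    calc ∫ p in closedBall (0 : ℝ × ℝ) r, χ p * f0 p
        = ∫ p in closedBall (0 : ℝ × ℝ) r, f0 p := by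
          apply setIntegral_congr_fun isClosed_closedBall.measurableSet
          intro p hp
          show χ p * f0 p = f0 p
          rw [hχa p (closedBall_subset_closedBall hr hp), one_mul]
      _ ≤ _ := hf0i r hdr

/-! ### The comparison -/

lemma barrier (R h : ℝ) (hR : 0 < R) (hh : 0 < h) : ∃ Cb : ℝ, 1 ≤ Cb ∧ ∀ (X L0 t : ℝ), 0 ≤ X →
    1 ≤ L0 → 0 < t →
    ∀ (m : ℝ) (V f ψ H : ℝ × ℝ → ℝ) (s : ℝ), 0 < m → Continuous V →
      CompL V m (closedBall 0 (R + 16 * h)) (X + (L0 + 1) * Cb) 1 h ((4 * Cb + 1) * t * L0) →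
      (∀ p ∈ closedBall (0 : ℝ × ℝ) (R + 16 * h), |V p| ≤ 1) → 0 ≤ s → s ≤ 2 * h → Smooth ψ →
      (∀ w : List Bool, w.length ≤ 3 → ∀ p, |der w ψ p| ≤ X) →
      (∀ p, -L0 ≤ ψ p) → (∀ p, ψ p - t * lap ψ p = f p) → (∀ p, H p ≤ f p) →
      (∀ z ∈ closedBall (0 : ℝ × ℝ) (R + 6 * h), 0 < M V z s ∧
        H z = (1 / m) * Real.log (M V z s)) →
      ∀ z ∈ closedBall (0 : ℝ × ℝ) (R + 3 * h), H z ≤ ψ z + (4 * Cb + 1) * t * L0 := by
  obtain ⟨χ, hχ, hχc, hχ1, hχa, hχ0⟩ := exists_cutoff (a := R + 3 * h) (b := R + 4 * h)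
    (by linarith) (by linarith)
  obtain ⟨C2, hC2, hχb⟩ := exists_bound hχ hχc
  obtain ⟨Cb, hCb⟩ : ∃ Cb, Cb = 1 + C2 := ⟨_, rfl⟩
  have hCb1 : 1 ≤ Cb := by linarith
  refine ⟨Cb, hCb1, ?_⟩
  intro X L0 t hX hL0 ht m V f ψ H s hm hVc hcomp hV1 hs hs1 hψ hψb hψL hψe hHf hHz
  have hL0' : 0 < L0 := by linarith
  obtain ⟨μ, hμ⟩ : ∃ μ, μ = (4 * Cb + 1) * t * L0 := ⟨_, rfl⟩
  rw [← hμ] at hcomp ⊢
  -- the barrier
  obtain ⟨β, hβ⟩ : ∃ β : ℝ × ℝ → ℝ, β = fun p => 1 + (-1) * χ p := ⟨_, rfl⟩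
  have hχm : Smooth (fun p => (-1) * χ p) := contDiff_const.mul hχ
  have h1s : Smooth (fun _ : ℝ × ℝ => (1 : ℝ)) := contDiff_const
  have hβs : Smooth β := by rw [hβ]; exact h1s.add hχm
  have hβ0 : ∀ p, 0 ≤ β p := by
    intro p
    rw [hβ]
    have := (hχ1 p).2
    show 0 ≤ 1 + (-1) * χ p
    linarith
  have hβd : ∀ w : List Bool, w.length ≤ 3 → ∀ p, |der w β p| ≤ Cb := by
    intro w hw p
    rw [hβ, der_add h1s hχm w, der_const_mul hχ (-1) w]
    calc |der w (fun _ => (1 : ℝ)) p + (-1) * der w χ p|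
        ≤ |der w (fun _ => (1 : ℝ)) p| + |(-1) * der w χ p| := abs_add_le _ _
      _ ≤ |(1 : ℝ)| + |der w χ p| := by
          apply add_le_add (abs_der_const_le 1 w p)
          rw [abs_mul, abs_neg, abs_one, one_mul]
      _ ≤ Cb := by
          rw [abs_one, hCb]
          linarith [hχb w hw p]
  have hLβ : Smooth (fun p => (L0 + 1) * β p) := contDiff_const.mul hβs
  obtain ⟨Ψ, hΨ⟩ : ∃ Ψ : ℝ × ℝ → ℝ, Ψ = fun p => ψ p + (L0 + 1) * β p := ⟨_, rfl⟩
  have hΨs : Smooth Ψ := by rw [hΨ]; exact hψ.add hLβ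
  have hΨd : ∀ w : List Bool, ∀ p, der w Ψ p = der w ψ p + (L0 + 1) * der w β p := by
    intro w p
    rw [hΨ, der_add hψ hLβ w, der_const_mul hβs (L0 + 1) w]
  have hlap : ∀ p, lap Ψ p = lap ψ p + (L0 + 1) * lap β p := by
    intro p
    have e1 := hΨd [false, false] p
    have e2 := hΨd [true, true] p
    simp only [der] at e1 e2
    unfold lap
    rw [e1, e2]
    ring
  have hlapβ : ∀ p, lap β p ≤ 2 * Cb := by
    intro p
    have e1 := hβd [false, false] (by simp) p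
    have e2 := hβd [true, true] (by simp) p
    simp only [der] at e1 e2
    have e3 := (abs_le.mp e1).2
    have e4 := (abs_le.mp e2).2
    unfold lap
    linarith
  -- the comparison for translates of the weight
  have key : ∀ ξ : ℝ × ℝ, ‖ξ‖ ≤ s → ∀ z ∈ closedBall ξ (R + 6 * h),
      |V z| ≤ Real.exp (m * (Ψ (z - ξ) + μ)) := by
    intro ξ hξ
    apply hcomp (fun x => Ψ (x - ξ)) (closedBall ξ (R + 6 * h)) (closedBall ξ (R + 5 * h))
      (isCompact_closedBall _ _)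
    · apply closedBall_subset_closedBall'
      rw [dist_zero_right]
      linarith
    · exact closedBall_subset_closedBall (by linarith)
    · intro z hz
      apply closedBall_subset_closedBall'
      rw [mem_closedBall] at hz
      linarith
    · exact smooth_shift hΨs ξ
    · intro w _ hw z _
      rw [der_shift hΨs, hΨd w (z - ξ)]
      calc |der w ψ (z - ξ) + (L0 + 1) * der w β (z - ξ)|
          ≤ |der w ψ (z - ξ)| + |(L0 + 1) * der w β (z - ξ)| := abs_add_le _ _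
        _ ≤ X + (L0 + 1) * Cb := by
          apply add_le_add (hψb w hw _)
          rw [abs_mul, abs_of_nonneg (by linarith only [hL0] : 0 ≤ L0 + 1)]
          exact mul_le_mul_of_nonneg_left (hβd w hw _) (by linarith)
    · intro z hz hz'
      have h1 : |V z| ≤ 1 := by
        apply hV1
        refine closedBall_subset_closedBall' ?_ hz
        rw [dist_zero_right]
        linarith
      have h2 : β (z - ξ) = 1 := by
        rw [hβ]
        show 1 + (-1) * χ (z - ξ) = 1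
        rw [hχ0 (z - ξ) fun h3 => hz' ?_]
        · ring
        · rw [mem_closedBall, dist_zero_right] at h3
          rw [mem_closedBall, dist_eq_norm]
          linarith
      have h3 : 1 ≤ Ψ (z - ξ) := by
        rw [hΨ]
        show 1 ≤ ψ (z - ξ) + (L0 + 1) * β (z - ξ)
        rw [h2]
        linarith [hψL (z - ξ)]
      refine h1.trans ?_
      exact Real.one_le_exp (by nlinarith only [hm, h3])
    · intro z hz hz'
      have hz5 : ‖z - ξ‖ ≤ R + 5 * h := by rwa [mem_closedBall, dist_eq_norm] at hz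
      have hz6 : z - ξ ∈ closedBall (0 : ℝ × ℝ) (R + 6 * h) := by
        rw [mem_closedBall, dist_zero_right]
        linarith
      obtain ⟨hMp, hHe⟩ := hHz (z - ξ) hz6
      have h1 : |V z| ≤ M V (z - ξ) s := by
        apply le_M hVc
        rw [mem_closedBall, dist_eq_norm]
        simpa using hξ
      have h2 : m * (Ψ (z - ξ) + μ) < Real.log (M V (z - ξ) s) := by
        rw [Real.lt_log_iff_exp_lt hMp]
        exact lt_of_lt_of_le hz' h1
      have h3 : Real.log (M V (z - ξ) s) = m * H (z - ξ) := by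
        rw [hHe]
        field_simp
      rw [h3] at h2
      have h4 : Ψ (z - ξ) + μ < H (z - ξ) := lt_of_mul_lt_mul_left h2 hm.le
      have h5 : ψ (z - ξ) ≤ Ψ (z - ξ) := by
        rw [hΨ]
        show ψ (z - ξ) ≤ ψ (z - ξ) + (L0 + 1) * β (z - ξ)
        have := mul_nonneg (by linarith : 0 ≤ L0 + 1) (hβ0 (z - ξ))
        linarith
      have h6 := hψe (z - ξ)
      have h7 := hHf (z - ξ)
      have h8 : t * (lap ψ (z - ξ) + (4 * Cb + 1) * L0) < 0 := by
        have : t * (lap ψ (z - ξ) + (4 * Cb + 1) * L0) = t * lap ψ (z - ξ) + μ := by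
          rw [hμ]; ring
        rw [this]
        linarith only [h4, h5, h6, h7]
      have h9 : lap ψ (z - ξ) + (4 * Cb + 1) * L0 < 0 := by
        by_contra hcon
        rw [not_lt] at hcon
        have := mul_nonneg ht.le hcon
        linarith only [hμ, h4, h5, h6, h7, this]
      rw [lap_shift hΨs, hlap (z - ξ)]
      have h10 : (L0 + 1) * lap β (z - ξ) ≤ (L0 + 1) * (2 * Cb) :=
        mul_le_mul_of_nonneg_left (hlapβ (z - ξ)) (by linarith)
      have h11 : 0 ≤ (L0 - 1) * Cb := mul_nonneg (by linarith) (by linarith)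
      nlinarith only [hL0, h9, h10, h11]
  intro z hz
  have hz6 : z ∈ closedBall (0 : ℝ × ℝ) (R + 6 * h) :=
    closedBall_subset_closedBall (by linarith) hz
  obtain ⟨hMp, hHe⟩ := hHz z hz6
  obtain ⟨p, hp, hpM⟩ := exists_M (u := V) hVc (z := z) hs
  have h1 := key (p - z) (by rwa [mem_closedBall, dist_eq_norm] at hp) p (by
    rw [mem_closedBall, dist_eq_norm]
    rw [mem_closedBall, dist_zero_right] at hz6
    simpa using hz6)
  rw [sub_sub_cancel, hpM] at h1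
  have h2 : β z = 0 := by
    rw [hβ]
    show 1 + (-1) * χ z = 0
    rw [hχa z hz]
    ring
  have h3 : Ψ z = ψ z := by
    rw [hΨ]
    show ψ z + (L0 + 1) * β z = ψ z
    rw [h2]
    ring
  rw [h3] at h1
  have h4 : Real.log (M V z s) ≤ m * (ψ z + μ) := by
    rw [Real.log_le_iff_le_exp hMp]
    exact h1
  rw [hHe]
  rw [one_div, ← div_eq_inv_mul, div_le_iff₀ hm]
  linarith


end StructX

open StructX Pool.Agent.H26.Yau in
theorem struct (R1 : ℝ) (hR1 : 1 ≤ R1) : ∃ Cs : ℝ, 1 ≤ Cs ∧ ∀ a : ℝ, 2 ≤ a →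
    ∃ (P : Par) (K : ℝ), 1 ≤ K ∧ ∀ (v : ℝ × ℝ → ℝ) (m : ℝ), K ≤ m → Continuous v →
      Comp P v m (closedBall 0 (R1 + 20)) →
      (∀ p ∈ closedBall (0 : ℝ × ℝ) (R1 + 20), |v p| ≤ 1) →
      (∀ z ∈ closedBall (0 : ℝ × ℝ) (R1 + 8), ∃ w ∈ closedBall z 2, Real.exp (-m) ≤ |v w|) →
      ∃ (ρ : ℝ) (H ψ : ℝ × ℝ → ℝ), 1 / (2 * a ^ 10) ≤ ρ ∧ ρ ≤ 1 / a ^ 10 ∧ Continuous H ∧
        Smooth ψ ∧
        (∀ z ∈ closedBall (0 : ℝ × ℝ) (R1 + 5),
          0 < M v z (1 / (2 * a ^ 10)) ∧ H z = 1 / m * Real.log (M v z ρ)) ∧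
        ∫ z in closedBall (0 : ℝ × ℝ) (R1 + 2), |H z - ψ z| ≤ Cs * Real.log a / a ^ 12 ∧
        ∫ z in closedBall (0 : ℝ × ℝ) (R1 + 2), ((d1 ψ z) ^ 2 + (d2 ψ z) ^ 2) ≤
          Cs * (Real.log a) ^ 2 ∧
        ∫ z in closedBall (0 : ℝ × ℝ) (R1 + 2), ((d1 (d1 ψ) z) ^ 2 + (d1 (d2 ψ) z) ^ 2 +
          (d2 (d1 ψ) z) ^ 2 + (d2 (d2 ψ) z) ^ 2) ≤ Cs * (Real.log a) ^ 2 * a ^ 12 := by
  obtain ⟨q, hq⟩ : ∃ q, q = R1 + 3 := ⟨_, rfl⟩
  have hq4 : 4 ≤ q := by linarith
  obtain ⟨Cp, hCp, hpot⟩ := potential q (by linarith)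
  obtain ⟨Cb, hCb, hbar⟩ := barrier (R1 + 3 / 2) (1 / 2) (by linarith only [hR1]) (by norm_num)
  obtain ⟨C1, hC1⟩ : ∃ C1, C1 = 4 * Cb + 1 + (2 * q) ^ 2 + 8 * q := ⟨_, rfl⟩
  have hC1' : 0 ≤ C1 := by rw [hC1]; positivity
  obtain ⟨Ce, hCe, hen⟩ := energy2 (R1 + 2) C1 (by linarith) hC1'
  refine ⟨900 * Ce, by linarith, ?_⟩
  intro a ha
  have ha0 : 0 < a := by linarith
  have hla : Real.log 2 ≤ Real.log a := Real.log_le_log (by norm_num) ha
  have hl2 : 0.6931471803 < Real.log 2 := Real.log_two_gt_d9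
  have hla0 : 0 < Real.log a := by linarith only [hla, hl2]
  -- the parameters
  obtain ⟨t, ht⟩ : ∃ t, t = 1 / a ^ 12 := ⟨_, rfl⟩
  have ht0 : 0 < t := by rw [ht]; positivity
  have hta : t * a ^ 12 = 1 := by rw [ht]; field_simp
  have ht1 : t ≤ 1 := by
    rw [ht, div_le_one (by positivity)]
    exact one_le_pow₀ (by linarith)
  obtain ⟨s, hs⟩ : ∃ s, s = 1 / (2 * a ^ 10) := ⟨_, rfl⟩
  have hs0 : 0 < s := by rw [hs]; positivity
  have ha10 : (1024 : ℝ) ≤ a ^ 10 := by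
    have := pow_le_pow_left₀ (by norm_num : (0 : ℝ) ≤ 2) ha 10
    norm_num at this
    exact this
  have hs1 : s ≤ 1 / 2048 := by
    rw [hs]
    apply one_div_le_one_div_of_le (by norm_num)
    linarith only [ha10]
  obtain ⟨L0, hL0⟩ : ∃ L0, L0 = 30 * Real.log a := ⟨_, rfl⟩
  have hL1 : 1 ≤ L0 := by rw [hL0]; linarith only [hla, hl2, hs0]
  have hL0' : 0 < L0 := by linarith only [hla, hl2, hs0, hL0]
  have h16 : 2 * Real.log (16 / s) ≤ L0 := by
    have e : 16 / s = 2 ^ 5 * a ^ 10 := by rw [hs]; field_simp; norm_num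
    rw [e, Real.log_mul (by positivity) (by positivity), Real.log_pow, Real.log_pow, hL0]
    push_cast
    linarith only [hla]
  obtain ⟨n, hn⟩ : ∃ n : ℕ, n = ⌈a ^ 12⌉₊ := ⟨_, rfl⟩
  have hna : a ^ 12 ≤ n := by rw [hn]; exact Nat.le_ceil _
  have ha12 : 0 < a ^ 12 := by positivity
  have hn0 : 0 < n := by
    have : (0 : ℝ) < n := by linarith only [hna, ha12]
    exact_mod_cast this
  have hn0' : (0 : ℝ) < n := by exact_mod_cast hn0
  obtain ⟨d, hd⟩ : ∃ d, d = s / n := ⟨_, rfl⟩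
  have hd0 : 0 < d := by rw [hd]; positivity
  have hdn : n * d = s := by rw [hd]; field_simp
  have hd1 : d ≤ s * t := by
    rw [hd, ht, mul_one_div]
    exact div_le_div_of_nonneg_left hs0.le ha12 hna
  have hd2 : d ≤ t := by
    have : s * t ≤ 1 * t := mul_le_mul_of_nonneg_right (by linarith only [hs0, hs1]) ht0.le
    linarith only [this, hd1]
  obtain ⟨X, hX⟩ : ∃ X, X = Cp * L0 / d ^ 3 := ⟨_, rfl⟩
  have hX0 : 0 ≤ X := by rw [hX]; positivity
  have hbar1 := hbar X L0 t hX0 hL1 ht0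
  obtain ⟨P1, K1, hK1, h3b⟩ := three_ball2 s hs0 (by linarith only [hs1])
  obtain ⟨P2, hP2⟩ : ∃ P2 : Par, P2 = ⟨X + (L0 + 1) * Cb, 1, 1 / 2, (4 * Cb + 1) * t * L0, R1 + 20,
    by nlinarith only [hCb, hla, hl2, hL0, hX0], one_pos, by norm_num, by positivity, by linarith only [hR1]⟩ := ⟨_, rfl⟩
  refine ⟨P1.sup P2, K1, hK1, ?_⟩
  intro v m hKm hvc hcomp hv1 hlow
  have hm : 0 < m := by linarith only [hK1, hKm]
  have hcomp1 : Comp P1 v m (closedBall 0 (R1 + 20)) := hcomp.mono hm.le (P1.le_sup_left P2)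
  have hcomp2 : Comp P2 v m (closedBall 0 (R1 + 20)) := hcomp.mono hm.le (P1.le_sup_right P2)
  -- lower bound of the maxima
  have hMlow : ∀ z ∈ closedBall (0 : ℝ × ℝ) (R1 + 8), ∀ r, s ≤ r →
      Real.exp (-(m * L0)) ≤ M v z r := by
    intro z hz r hr
    obtain ⟨y, hy, hyv⟩ := hlow z hz
    rw [mem_closedBall, dist_zero_right] at hz
    have hsub : closedBall z 8 ⊆ closedBall (0 : ℝ × ℝ) (R1 + 20) := by
      apply closedBall_subset_closedBall'
      rw [dist_zero_right]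
      linarith only [hz]
    have h1 := h3b m v z y hKm hvc (hcomp1.mono_set hsub) (fun p hp => hv1 p (hsub hp)) hy hyv
    refine le_trans (Real.exp_le_exp.2 ?_)
      (h1.trans (M_mono hvc hs0.le (closedBall_subset_closedBall hr)))
    have := mul_le_mul_of_nonneg_left h16 hm.le
    linarith only [this]
  have hMup : ∀ z ∈ closedBall (0 : ℝ × ℝ) (R1 + 8), ∀ r, 0 ≤ r → r ≤ 1 → M v z r ≤ 1 := by
    intro z hz r hr hr1
    rw [mem_closedBall, dist_zero_right] at hz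
    apply M_le hr
    intro p hp
    apply hv1
    rw [mem_closedBall, dist_zero_right]
    rw [mem_closedBall, dist_eq_norm] at hp
    have : ‖p‖ ≤ ‖p - z‖ + ‖z‖ := by
      have := norm_add_le (p - z) z
      rwa [sub_add_cancel] at this
    linarith only [hz, hr1, hp, this]
  -- the family
  obtain ⟨G, hG⟩ : ∃ G : ℕ → ℝ × ℝ → ℝ, G = fun (k : ℕ) z => Th m L0 (M v z (s + k * d)) := ⟨_, rfl⟩
  have hGc : ∀ k, Continuous (G k) := by
    intro k
    rw [hG]
    exact (Th_cont m L0).comp (continuous_M hvc (by positivity))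
  have hGb : ∀ k p, -L0 ≤ G k p ∧ G k p ≤ 0 := by
    intro k p
    rw [hG]
    exact ⟨Th_ge hm _, Th_nonpos hm hL0'.le _⟩
  have hGi : ∀ k R, IntegrableOn (G k) (closedBall (0 : ℝ × ℝ) R) := fun k R =>
    (hGc k).continuousOn.integrableOn_compact (isCompact_closedBall _ _)
  have hq0 : 0 ≤ q := by linarith only [hR1, hq]
  obtain ⟨k, hkn, hk⟩ := pigeon hn0 (a := fun k => ∫ p in closedBall (0 : ℝ × ℝ) q, G k p)
    (X := (2 * q) ^ 2 * L0) (by
      show (∫ p in closedBall (0 : ℝ × ℝ) q, G n p) - ∫ p in closedBall (0 : ℝ × ℝ) q, G 0 p ≤ _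
      have h1 : ∫ p in closedBall (0 : ℝ × ℝ) q, G n p ≤ 0 := by
        apply setIntegral_nonpos isClosed_closedBall.measurableSet
        intro p _
        exact (hGb n p).2
      have h2 : ∫ p in closedBall (0 : ℝ × ℝ) q, (-L0) ≤ ∫ p in closedBall (0 : ℝ × ℝ) q, G 0 p := by
        apply setIntegral_mono_on
          (integrableOn_const (isCompact_closedBall _ _).measure_lt_top.ne) (hGi 0 q)
          isClosed_closedBall.measurableSet
        intro p _
        exact (hGb 0 p).1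
      rw [iconst q _ hq0] at h2
      linarith only [h1, h2])
  have hkn' : (k : ℝ) + 1 ≤ n := by exact_mod_cast hkn
  obtain ⟨ρ, hρ⟩ : ∃ ρ, ρ = s + k * d := ⟨_, rfl⟩
  have hρs : s ≤ ρ := by
    rw [hρ]
    have : 0 ≤ (k : ℝ) * d := by positivity
    linarith only [this]
  have hρ2 : ρ ≤ 2 * s := by
    rw [hρ]
    have : (k : ℝ) * d ≤ n * d := mul_le_mul_of_nonneg_right (by linarith only [hkn']) hd0.le
    linarith only [hdn, this]
  have hρ0 : 0 < ρ := by linarith only [hs0, hρs]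
  have hHz : ∀ z ∈ closedBall (0 : ℝ × ℝ) (R1 + 8), G k z = (1 / m) * Real.log (M v z ρ) := by
    intro z hz
    rw [hG]
    show Th m L0 (M v z (s + k * d)) = _
    rw [← hρ]
    exact Th_eq (hMlow z hz ρ hρs) (hMup z hz ρ hρ0.le (by linarith only [hs1, hρ2]))
  have hHp : ∀ p, ∀ p' ∈ closedBall p d, G k p ≤ G (k + 1) p' := by
    intro p p' hp'
    rw [hG]
    show Th m L0 (M v p (s + k * d)) ≤ Th m L0 (M v p' (s + (k + 1 : ℕ) * d))
    apply Th_mono hm
    apply M_mono hvc (by positivity)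
    apply closedBall_subset_closedBall'
    rw [mem_closedBall, dist_comm] at hp'
    push_cast
    linarith only [hp']
  obtain ⟨f, ψ, hf, hψ, hψe, hfb, hψ0, hHf, hψd, hfi⟩ := hpot t d L0 (G k) (G (k + 1)) ht0 hd0
    (by linarith only [ht1, hd2]) hL0'.le (hGc (k + 1)) (hGb (k + 1)) hHp
  have hsubb : closedBall (0 : ℝ × ℝ) (R1 + 3 / 2 + 16 * (1 / 2)) ⊆
      closedBall (0 : ℝ × ℝ) (R1 + 20) := closedBall_subset_closedBall (by linarith only [])
  have hCL : CompL v m (closedBall 0 (R1 + 3 / 2 + 16 * (1 / 2))) (X + (L0 + 1) * Cb) 1 (1 / 2)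
      ((4 * Cb + 1) * t * L0) := by
    have := Comp.toL hcomp2 hsubb (by rw [hP2]; exact hsubb)
    rw [hP2] at this
    exact this
  have hHψ := hbar1 m v f ψ (G k) ρ hm hvc hCL (fun p hp => hv1 p (hsubb hp)) hρ0.le
    (by linarith only [hs1, hρ2]) hψ (fun w hw p => by rw [hX]; exact hψd w hw p) (fun p => (hψ0 p).1) hψe hHf
    (fun z hz => by
      have hz8 : z ∈ closedBall (0 : ℝ × ℝ) (R1 + 8) :=
        closedBall_subset_closedBall (by linarith only []) hz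
      exact ⟨lt_of_lt_of_le (Real.exp_pos _) (hMlow z hz8 ρ hρs), hHz z hz8⟩)
  have htL : 0 ≤ t * L0 := by positivity
  have hHψ' : ∀ z ∈ closedBall (0 : ℝ × ℝ) (R1 + 2 + 1), G k z ≤ ψ z + C1 * t * L0 := by
    intro z hz
    have h1 := hHψ z (closedBall_subset_closedBall (by linarith only []) hz)
    have h2 : C1 * t * L0 = (4 * Cb + 1) * t * L0 + ((2 * q) ^ 2 + 8 * q) * (t * L0) := by
      rw [hC1]; ring
    have h3 : 0 ≤ ((2 * q) ^ 2 + 8 * q) * (t * L0) := by positivity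
    linarith only [h1, h2, h3]
  -- the integral
  have hint : ∫ p in closedBall (0 : ℝ × ℝ) (R1 + 2 + 1), (f p - G k p) ≤ C1 * t * L0 := by
    have hqe : R1 + 2 + 1 = q := by rw [hq]; ring
    rw [hqe]
    have hfI : IntegrableOn f (closedBall (0 : ℝ × ℝ) q) :=
      hf.continuous.continuousOn.integrableOn_compact (isCompact_closedBall _ _)
    rw [integral_sub hfI (hGi k q)]
    have hfi' := hfi q (by linarith only [hR1, hq, ht1, hd2]) le_rfl
    have h1 : ∫ p in closedBall (0 : ℝ × ℝ) (q - d), (G (k + 1) p + L0) ≤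
        ∫ p in closedBall (0 : ℝ × ℝ) q, (G (k + 1) p + L0) := by
      apply setIntegral_mono_set
      · exact ((hGc (k + 1)).add continuous_const).continuousOn.integrableOn_compact
          (isCompact_closedBall _ _)
      · refine Filter.Eventually.of_forall fun p => ?_
        show 0 ≤ G (k + 1) p + L0
        linarith only [(hGb (k + 1) p).1]
      · apply LE.le.eventuallyLE
        exact closedBall_subset_closedBall (by linarith only [hd0])
    rw [integral_add (hGi (k + 1) _) (integrableOn_const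
        (isCompact_closedBall _ _).measure_lt_top.ne),
      integral_add (hGi (k + 1) _) (integrableOn_const
        (isCompact_closedBall _ _).measure_lt_top.ne), iconst (q - d) _ (by linarith only [hR1, hq, ht1, hd2]),
      iconst q _ hq0] at h1
    have h2 : (2 * q) ^ 2 * L0 / n ≤ (2 * q) ^ 2 * L0 * t := by
      rw [ht, mul_one_div]
      exact div_le_div_of_nonneg_left (by positivity) ha12 hna
    have h3 : (2 * q) ^ 2 * L0 - (2 * (q - d)) ^ 2 * L0 ≤ 8 * q * d * L0 := by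
      have h30 : (2 * q) ^ 2 * L0 - (2 * (q - d)) ^ 2 * L0 = 8 * q * d * L0 - 4 * (d ^ 2 * L0) := by
        ring
      have h31 : 0 ≤ d ^ 2 * L0 := by positivity
      linarith only [h30, h31]
    have h4 : 8 * q * d * L0 ≤ 8 * q * (t * L0) := by
      have : d * L0 ≤ t * L0 := mul_le_mul_of_nonneg_right hd2 hL0'.le
      have h41 := mul_le_mul_of_nonneg_left this (by positivity : 0 ≤ 8 * q)
      linarith only [h41]
    have h5 : C1 * t * L0 = (4 * Cb + 1) * (t * L0) + ((2 * q) ^ 2 * (t * L0)) +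
        8 * q * (t * L0) := by
      rw [hC1]; ring
    have h6 : 0 ≤ (4 * Cb + 1) * (t * L0) := by positivity
    have h7 : (2 * q) ^ 2 * L0 * t = (2 * q) ^ 2 * (t * L0) := by ring
    rw [h5]
    rw [h7] at h2
    linarith only [h1, h2, h3, h4, h6, hk, hfi']
  obtain ⟨e1, e2, e3⟩ := hen (G k) f ψ L0 t (hGc k) hf hψ ht0 ht1 hL0' (fun p _ => hψe p)
    (fun p _ => hψ0 p) (fun p _ => hfb p) (fun p _ => hHf p) hHψ' hint
  refine ⟨ρ, G k, ψ, by rw [← hs]; exact hρs, ?_, hGc k, hψ, ?_, ?_, ?_, ?_⟩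
  · have : 1 / a ^ 10 = 2 * s := by rw [hs]; field_simp
    rw [this]; exact hρ2
  · intro z hz
    have hz8 : z ∈ closedBall (0 : ℝ × ℝ) (R1 + 8) :=
      closedBall_subset_closedBall (by linarith only []) hz
    rw [← hs]
    exact ⟨lt_of_lt_of_le (Real.exp_pos _) (hMlow z hz8 s le_rfl), hHz z hz8⟩
  · refine e1.trans ?_
    rw [ht, hL0]
    have : Ce * (1 / a ^ 12) * (30 * Real.log a) = 30 * (Ce * Real.log a / a ^ 12) := by ring
    rw [this]
    have h2 : 900 * Ce * Real.log a / a ^ 12 = 900 * (Ce * Real.log a / a ^ 12) := by ring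
    rw [h2]
    have h3 : 0 ≤ Ce * Real.log a / a ^ 12 := by positivity
    linarith only [h3]
  · refine e2.trans (le_of_eq ?_)
    rw [hL0]; ring
  · refine e3.trans (le_of_eq ?_)
    rw [hL0, ht]
    field_simp
    ring

end Pool.Agent.H5.Yau
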