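import Pool.Agent.H24.Near.ThreeBall
import Pool.Agent.H5.Yau.CompSol

set_option autoImplicit false

/-!
# Lower bounds of maxima on small squares from the comparison principle
-/

namespace Pool.Agent.H5.Yau

open MeasureTheory Set Metric Pool.Agent.H24.Near Pool.Agent.H24.Near.TB

theorem three_ball2 (s : ℝ) (hs : 0 < s) (hs1 : s ≤ 1) : ∃ (P : Par) (K : ℝ), 1 ≤ K ∧
    ∀ (m : ℝ) (v : ℝ × ℝ → ℝ) (c y : ℝ × ℝ), K ≤ m → Continuous v →
      Comp P v m (closedBall c 8) → (∀ p ∈ closedBall c 8, |v p| ≤ 1) → y ∈ closedBall c 2 →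
      Real.exp (-m) ≤ |v y| → Real.exp (-(m * (2 * Real.log (16 / s)))) ≤ M v c s := by
  set a : ℝ := (s ^ 2 / 200) ^ 2 with ha
  have ha0 : 0 < a := by positivity
  set R1 : ℝ := 8 - s / 8 with hR1
  have hR1' : 7 ≤ R1 := by
    rw [hR1]
    linarith only [hs1]
  set ψ0 := psi a R1 (1 / 1000) with hψ0
  have hsm : Smooth ψ0 := smooth_psi ha0 R1 (1 / 1000)
  obtain ⟨L, hL1, hL⟩ := exists_bound hsm
  refine ⟨⟨L, 1 / 500, s / 16, 1 / 20, 8, hL1, by norm_num, by positivity, by norm_num,
    by norm_num⟩, 1, le_rfl, fun m u c y hKm huc hK hu hy hexp => ?_⟩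
  by_contra hcon
  push Not at hcon
  have hm : 1 ≤ m := hKm
  have hlog16 : 0 ≤ Real.log (16 / s) := by
    apply Real.log_nonneg
    rw [le_div_iff₀ hs]
    linarith only [hs1]
  set E : ℝ × ℝ → ℝ := fun z => (z.1 - c.1) ^ 2 + (z.2 - c.2) ^ 2 with hE
  have hEc : Continuous E := by
    simp only [hE]
    fun_prop
  set D : Set (ℝ × ℝ) := {z | (s / 2) ^ 2 ≤ E z ∧ E z ≤ 8 ^ 2} with hD
  set D' : Set (ℝ × ℝ) := {z | (s / 2 + 2 * (s / 16)) ^ 2 ≤ E z ∧ E z ≤ (8 - 2 * (s / 16)) ^ 2}
    with hD'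
  have hsq : ∀ (z : ℝ × ℝ) (r : ℝ), 0 ≤ r → E z ≤ r ^ 2 → z ∈ closedBall c r := by
    intro z r hr h
    rw [mem_cb]
    constructor
    · apply abs_le_of_sq_le_sq _ hr
      have : 0 ≤ (z.2 - c.2) ^ 2 := sq_nonneg _
      simp only [hE] at h
      linarith only [this, h]
    · apply abs_le_of_sq_le_sq _ hr
      have : 0 ≤ (z.1 - c.1) ^ 2 := sq_nonneg _
      simp only [hE] at h
      linarith only [this, h]
  have hDsub : D ⊆ closedBall c 8 := fun z hz => hsq z 8 (by norm_num) hz.2
  have hDc : IsCompact D := by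
    apply (isCompact_closedBall c 8).of_isClosed_subset _ hDsub
    exact (isClosed_le continuous_const hEc).inter (isClosed_le hEc continuous_const)
  have hD'D : D' ⊆ D := by
    intro z hz
    refine ⟨le_trans ?_ hz.1, le_trans hz.2 ?_⟩
    · apply pow_le_pow_left₀ (by positivity)
      linarith
    · apply pow_le_pow_left₀ (by linarith only [hs1])
      linarith
  have hballs : ∀ z ∈ D', closedBall z (s / 16) ⊆ D := by
    intro z hz z' hz'
    rw [mem_cb] at hz'
    have e1 : z'.1 - c.1 = (z.1 - c.1) + (z'.1 - z.1) := by ring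
    have e2 : z'.2 - c.2 = (z.2 - c.2) + (z'.2 - z.2) := by ring
    refine ⟨?_, ?_⟩
    · simp only [hE]
      rw [e1, e2]
      exact euclid_lower (by positivity) (by positivity) hz'.1 hz'.2 hz.1
    · simp only [hE]
      rw [e1, e2]
      exact euclid_upper (by linarith only [hs1]) (by positivity) hz'.1 hz'.2 hz.2
  set ψ : ℝ × ℝ → ℝ := fun x => ψ0 (-c + (1 : ℝ) • x) with hψ
  have hψs : Smooth ψ := hsm.scale (-c) 1
  have hQE : ∀ (b : ℝ) (z : ℝ × ℝ), Q b (-c + (1 : ℝ) • z) = E z + b := by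
    intro b z
    simp only [Q, hE, one_smul, Prod.fst_add, Prod.fst_neg, Prod.snd_add, Prod.snd_neg]
    ring
  have hψz : ∀ z, ψ z = 3 / 4 * (Real.log (E z + a) - Real.log (R1 ^ 2)) +
      1 / 1000 * (64 - E z) := by
    intro z
    simp only [hψ, hψ0, psi]
    rw [hQE, hQE, add_zero]
  have hE0 : ∀ z, 0 ≤ E z := by
    intro z
    simp only [hE]
    positivity
  -- the derivatives
  have hder : ∀ w : List Bool, 1 ≤ w.length → w.length ≤ 3 → ∀ z ∈ D, |der w ψ z| ≤ L := by
    intro w _ hw z hz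
    rw [hψ, TB.der_translate hsm c w z]
    apply hL w hw
    have h1 := mem_cb.1 (hDsub hz)
    rw [mem_cb]
    simp only [one_smul, Prod.fst_add, Prod.fst_neg, Prod.snd_add, Prod.snd_neg, Prod.fst_zero,
      Prod.snd_zero, sub_zero]
    rw [neg_add_eq_sub, neg_add_eq_sub]
    exact h1
  -- the boundary values
  have hlogR : Real.log (R1 ^ 2) ≤ Real.log (8 ^ 2) := by
    apply Real.log_le_log (by positivity)
    apply pow_le_pow_left₀ (by linarith only [hs1, hR1])
    rw [hR1]
    linarith only [hs]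
  have hbd : ∀ z ∈ D, z ∉ D' → |u z| ≤ Real.exp (m * ψ z) := by
    intro z hz hz'
    have h1 : E z < (s / 2 + 2 * (s / 16)) ^ 2 ∨ (8 - 2 * (s / 16)) ^ 2 < E z := by
      by_contra hc
      push Not at hc
      exact hz' ⟨hc.1, hc.2⟩
    have hEpos : 0 < E z := lt_of_lt_of_le (by positivity) hz.1
    rcases h1 with h1 | h1
    · -- inner collar
      have h2 : z ∈ closedBall c s := by
        apply hsq z s hs.le
        refine le_trans h1.le ?_
        apply pow_le_pow_left₀ (by positivity)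
        linarith only [hs]
      have h3 : |u z| ≤ Real.exp (-(m * (2 * Real.log (16 / s)))) :=
        le_trans (le_M huc h2) hcon.le
      refine le_trans h3 (Real.exp_le_exp.2 ?_)
      have h4 : Real.log ((s / 2) ^ 2) ≤ Real.log (E z + a) :=
        Real.log_le_log (by positivity) (by linarith only [ha0, hz.1])
      have h5 : Real.log ((s / 2) ^ 2) - Real.log (8 ^ 2) = -(2 * Real.log (16 / s)) := by
        rw [← Real.log_div (by positivity) (by norm_num)]
        have h6 : (s / 2) ^ 2 / 8 ^ 2 = ((16 / s) ^ 2)⁻¹ := by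
          field_simp
          ring
        rw [h6, Real.log_inv, Real.log_pow]
        norm_num
      have h7 : -(2 * Real.log (16 / s)) ≤ ψ z := by
        rw [hψz]
        have h8 : E z ≤ 64 := le_trans hz.2 (by norm_num)
        have h9 : -(2 * Real.log (16 / s)) ≤ Real.log (E z + a) - Real.log (R1 ^ 2) := by
          rw [← h5]
          exact sub_le_sub h4 hlogR
        linarith only [hlog16, h8, h9]
      nlinarith only [hKm, h7]
    · -- outer collar
      have h2 : |u z| ≤ 1 := hu z (hDsub hz)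
      refine le_trans h2 (Real.one_le_exp ?_)
      apply mul_nonneg (by linarith)
      rw [hψz]
      have h3 : Real.log (R1 ^ 2) ≤ Real.log (E z + a) := by
        apply Real.log_le_log (by positivity)
        have h4 : (8 - 2 * (s / 16)) = R1 := by
          rw [hR1]
          ring
        rw [h4] at h1
        linarith only [ha0, h1]
      have h5 := hz.2
      nlinarith only [h3, h5]
  -- superharmonicity
  have hlap : ∀ z ∈ D', Real.exp (m * (ψ z + 1 / 20)) < |u z| → lap ψ z ≤ -(1 / 500) := by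
    intro z hz _
    have hzD := hD'D hz
    rw [hψ, lap_scale hsm, hψ0, lap_psi ha0, hQE]
    have h1 : (s / 2) ^ 2 ≤ E z + a := by linarith only [ha0, hzD.1]
    have h2 : ((s / 2) ^ 2) ^ 2 ≤ (E z + a) ^ 2 := pow_le_pow_left₀ (by positivity) h1 2
    have h3 : 3 * a / (E z + a) ^ 2 ≤ 1 / 500 := by
      rw [div_le_div_iff₀ (by positivity) (by norm_num)]
      have h4 : 3 * a * 500 ≤ ((s / 2) ^ 2) ^ 2 := by
        rw [ha]
        have : 0 < s ^ 4 := by positivity
        nlinarith only []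
      linarith only [ha, ha0, h2]
    linarith only [h3]
  have hcomp := hK ψ c D D' hDc hDsub hDsub hD'D hballs hψs hder hbd hlap
  by_cases hyD : (s / 2) ^ 2 ≤ E y
  · have hy' := mem_cb.1 hy
    have hEy : E y ≤ 8 := by
      simp only [hE]
      have h1 : (y.1 - c.1) ^ 2 ≤ 2 ^ 2 :=
        sq_le_sq' (neg_le_of_abs_le hy'.1) (le_of_abs_le hy'.1)
      have h2 : (y.2 - c.2) ^ 2 ≤ 2 ^ 2 :=
        sq_le_sq' (neg_le_of_abs_le hy'.2) (le_of_abs_le hy'.2)
      linarith only [h1, h2]
    have h1 := hcomp y ⟨hyD, by linarith only [hEy]⟩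
    have h2 := le_trans hexp h1
    rw [Real.exp_le_exp] at h2
    have ha1 : a ≤ 1 := by
      rw [ha]
      apply pow_le_one₀ (by positivity)
      have : s ^ 2 ≤ 1 := pow_le_one₀ hs.le hs1
      linarith only [this]
    have h3 : Real.log (E y + a) - Real.log (R1 ^ 2) ≤ -(3 / 2) := by
      rw [← Real.log_div (by positivity) (by positivity)]
      have h4 : (E y + a) / R1 ^ 2 ≤ 9 / 49 := by
        rw [div_le_div_iff₀ (by positivity) (by norm_num)]
        have : 49 ≤ R1 ^ 2 := by nlinarith only [hs1, hR1]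
        nlinarith only [hEy, ha1, this]
      have h5 : (9 / 49 : ℝ) ≤ Real.exp (-(3 / 2)) := by
        rw [Real.exp_neg, ← one_div, div_le_div_iff₀ (by norm_num) (Real.exp_pos _)]
        have h6 : Real.exp (3 / 2) ^ 2 = Real.exp 1 ^ 3 := by
          rw [← Real.exp_nat_mul, ← Real.exp_nat_mul]
          norm_num
        have h7 := Real.exp_one_lt_d9
        have h8 : Real.exp 1 ^ 3 ≤ 2.7182818286 ^ 3 :=
          pow_le_pow_left₀ (Real.exp_pos 1).le h7.le 3
        have h9 : Real.exp (3 / 2) ≤ 5 := by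
          apply le_of_sq_le_sq _ (by norm_num)
          rw [h6]
          refine le_trans h8 ?_
          norm_num
        linarith only [h9]
      have h10 : 0 < (E y + a) / R1 ^ 2 := by
        have := hE0 y
        positivity
      calc Real.log ((E y + a) / R1 ^ 2) ≤ Real.log (Real.exp (-(3 / 2))) :=
            Real.log_le_log h10 (le_trans h4 h5)
        _ = -(3 / 2) := Real.log_exp _
    have h11 : ψ y + 1 / 20 < -1 := by
      rw [hψz]
      have := hE0 y
      nlinarith only [h3]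
    nlinarith only [hs, hL1, hKm, h2, h11]
  · push Not at hyD
    have h1 : y ∈ closedBall c s := by
      apply hsq y s hs.le
      refine le_trans hyD.le ?_
      apply pow_le_pow_left₀ (by positivity)
      linarith only [hs]
    have h2 := lt_of_le_of_lt (le_trans hexp (le_M huc h1)) hcon
    rw [Real.exp_lt_exp] at h2
    have h3 : 1 ≤ Real.log (16 / s) := by
      rw [Real.le_log_iff_exp_le (by positivity)]
      have h7 := Real.exp_one_lt_d9
      rw [le_div_iff₀ hs]
      nlinarith only [hs, hs1, h7]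
    nlinarith only [hKm, h2, h3]


/-- Maxima on small squares do not vanish. -/
theorem pos_of_sol {q u : ℝ × ℝ → ℝ} {Λ ς : ℝ} {c : ℝ × ℝ} (hΛ : 0 ≤ Λ) (hς : 0 ≤ ς)
    (h : SolS q u Λ ς (closedBall c 8)) {y : ℝ × ℝ} (hy : y ∈ closedBall c 2) (hu : u y ≠ 0)
    {s : ℝ} (hs : 0 < s) : 0 < M u c s := by
  obtain ⟨P, K1, hK1, h3⟩ := three_ball2 (min s 1) (lt_min hs one_pos) (min_le_right _ _)
  obtain ⟨K2, hK2, hc⟩ := comp_of_sol P
  have huc : Continuous u := h.smooth_u.continuous
  have hy8 : y ∈ closedBall c 8 := closedBall_subset_closedBall (by norm_num) hy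
  have hX : 0 < M u c 8 := lt_of_lt_of_le (abs_pos.2 hu) (le_M huc hy8)
  set v : ℝ × ℝ → ℝ := tilt (Real.log (M u c 8)) 0 u with hv
  have hvu : ∀ p, |v p| = |u p| / M u c 8 := by
    intro p
    rw [hv, abs_tilt]
    simp only [aff, Prod.fst_zero, Prod.snd_zero, zero_mul, add_zero]
    rw [Real.exp_neg, Real.exp_log hX, div_eq_mul_inv]
  have hvy : 0 < |v y| := by
    rw [hvu]
    exact div_pos (abs_pos.2 hu) hX
  set m : ℝ := max (max K1 (K2 * (1 + Λ))) (max (K2 * ς * Λ ^ 2) (max 1 (-Real.log |v y|)))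
    with hm
  have hm1 : K1 ≤ m := (le_max_left _ _).trans (le_max_left _ _)
  have hm2 : K2 * (1 + Λ) ≤ m := (le_max_right _ _).trans (le_max_left _ _)
  have hm3 : K2 * ς * Λ ^ 2 ≤ m := (le_max_left _ _).trans (le_max_right _ _)
  have hm4 : 1 ≤ m := ((le_max_left _ _).trans (le_max_right _ _)).trans (le_max_right _ _)
  have hm5 : -Real.log |v y| ≤ m :=
    ((le_max_right _ _).trans (le_max_right _ _)).trans (le_max_right _ _)
  have hK2m : K2 ≤ m := le_trans (le_mul_of_one_le_right (by linarith) (by linarith)) hm2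
  have hcomp : Comp P v m (closedBall c 8) := by
    apply hc m (Real.log (M u c 8)) Λ ς 0 q u (closedBall c 8) hΛ hς h
    · rw [norm_zero, zero_add]
      exact hm2
    · rw [norm_zero, add_zero, Real.log_one, add_zero, mul_one]
      exact hK2m
    · rw [norm_zero, zero_add]
      refine hm3.trans ?_
      nlinarith only [hK1, hm1]
  have hv1 : ∀ p ∈ closedBall c 8, |v p| ≤ 1 := by
    intro p hp
    rw [hvu, div_le_one hX]
    exact le_M huc hp
  have hexp : Real.exp (-m) ≤ |v y| := by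
    rw [← Real.exp_log hvy]
    apply Real.exp_le_exp.2
    linarith
  have key := h3 m v c y hm1 (continuous_tilt huc _ _) hcomp hv1 hy hexp
  have hMv : 0 < M v c (min s 1) := lt_of_lt_of_le (Real.exp_pos _) key
  obtain ⟨p, hp, hpM⟩ := exists_M (continuous_tilt huc (Real.log (M u c 8)) 0) (z := c)
    (r := min s 1) (lt_min hs one_pos).le
  rw [← hv] at hpM
  rw [← hpM, hvu] at hMv
  have hup : 0 < |u p| := by
    by_contra hcon
    have : |u p| = 0 := le_antisymm (not_lt.1 hcon) (abs_nonneg _)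
    rw [this, zero_div] at hMv
    exact lt_irrefl _ hMv
  exact lt_of_lt_of_le hup (le_M huc (closedBall_subset_closedBall (min_le_left _ _) hp))

/-- The local three ball inequality for solutions. -/
theorem three_ball_local (k : ℝ) (hk : 0 < k) (hk1 : k ≤ 1) : ∃ K : ℝ, 1 ≤ K ∧
    ∀ (m Λ : ℝ) (q u : ℝ × ℝ → ℝ) (c y : ℝ × ℝ), 0 ≤ Λ → K * (1 + Λ) ≤ m →
      SolS q u Λ 1 (closedBall c 8) → (∀ p ∈ closedBall c 8, |u p| ≤ 1) → y ∈ closedBall c 2 →
      Real.exp (-m) ≤ |u y| → Real.exp (-(m * (2 * Real.log (16 / k)))) ≤ M u c k := by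
  obtain ⟨P, K1, hK1, h3⟩ := three_ball2 k hk hk1
  obtain ⟨K2, hK2, hc⟩ := comp_of_sol P
  refine ⟨max K1 K2, hK1.trans (le_max_left _ _), ?_⟩
  intro m Λ q u c y hΛ hKm hS hu hy hexp
  have hKK1 : K1 ≤ max K1 K2 := le_max_left _ _
  have hKK2 : K2 ≤ max K1 K2 := le_max_right _ _
  have h1Λ : (1 : ℝ) ≤ 1 + Λ := by linarith
  have hm2 : K2 * (1 + Λ) ≤ m := (mul_le_mul_of_nonneg_right hKK2 (by linarith)).trans hKm
  have hm1 : K1 ≤ m := by
    refine le_trans ?_ ((mul_le_mul_of_nonneg_right hKK1 (by linarith)).trans hKm)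
    exact le_mul_of_one_le_right (by linarith) h1Λ
  have hK2m : K2 ≤ m := (le_mul_of_one_le_right (by linarith) h1Λ).trans hm2
  have hm0 : 0 < m := by linarith
  have hcomp : Comp P u m (closedBall c 8) := by
    have := hc m 0 Λ 1 0 q u (closedBall c 8) hΛ zero_le_one hS
      (by rw [norm_zero, zero_add]; exact hm2)
      (by rw [norm_zero, add_zero, Real.log_one, add_zero, mul_one]; exact hK2m)
      (by
        rw [norm_zero, zero_add, mul_one]
        have hΛm : Λ ≤ m := by nlinarith only [hK2, hΛ, hm2]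
        have h1 : K2 * Λ ≤ m := by nlinarith only [hK2, hm2]
        calc K2 * Λ ^ 2 = (K2 * Λ) * Λ := by ring
          _ ≤ m * m := mul_le_mul h1 hΛm hΛ hm0.le)
    rwa [tilt_zero] at this
  exact h3 m u c y hm1 hS.smooth_u.continuous hcomp hu hy hexp

end Pool.Agent.H5.Yau
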