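import Pool.Agent.H5.Yau.U3

set_option autoImplicit false

/-!
# Growth of the maxima (statement `U2`)
-/

namespace Pool.Agent.H5.Yau

open MeasureTheory Set Metric Pool.Agent.H24.Near

open U3X Pool.Agent.H88.Yau in
theorem u2 : Pool.Agent.H88.Yau.U2 := by
  intro A hA
  have hA0 : (0 : ℝ) < A := by exact_mod_cast (by omega : 0 < A)
  have hA1 : (1 : ℝ) ≤ A := by exact_mod_cast hA
  obtain ⟨r, hr⟩ : ∃ r : ℝ, r = 1 / (16 * A) := ⟨_, rfl⟩
  have hr0 : 0 < r := by rw [hr]; positivity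
  have hr1 : r ≤ 1 / 16 := by
    rw [hr]
    apply one_div_le_one_div_of_le (by norm_num)
    linarith only [hA1]
  obtain ⟨P, K0, hK0, h3⟩ := three_ball2 r hr0 (by linarith only [hr1])
  obtain ⟨K1, hK1, hcomp⟩ := comp_tw P
  have hlog0 : 0 ≤ Real.log (16 / r) := by
    apply Real.log_nonneg
    rw [le_div_iff₀ hr0]
    linarith only [hr1]
  obtain ⟨K, hK⟩ : ∃ K, K = (10 * (K0 + 4 * K1)) ^ 4 := ⟨_, rfl⟩
  have hKK : K0 + 4 * K1 ≤ K := by
    rw [hK]
    have h1 : K0 + 4 * K1 ≤ 10 * (K0 + 4 * K1) := by linarith only [hK0, hK1]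
    have h2 : 10 * (K0 + 4 * K1) ≤ (10 * (K0 + 4 * K1)) ^ 4 :=
      le_self_pow₀ (by linarith only [hK0, hK1]) (by norm_num)
    linarith only [hK0, hK1, h2]
  refine ⟨K, 3 + 2 * Real.log (16 / r), by linarith, by linarith, ?_⟩
  intro m Λ σ q u a b hsol hΛ hσ hσ1 hpos hmaj hDm hKm hKΛ z hz z' hz'
  rw [← hr]
  have hm1 : 1 ≤ m := by linarith
  have hm0 : 0 < m := by linarith
  have huc : Continuous u := hsol.smooth_u.continuous
  have hsqrt := log_le_sqrt (K := K0 + 4 * K1) (m := m) (by linarith) (by rw [← hK]; exact hKm)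
  have hsm : Real.sqrt m ≤ m := by
    rw [Real.sqrt_le_left hm0.le]
    nlinarith only [hK0, hK1, hKK, hKm]
  have hlog : 0 ≤ Real.log (1 + m) := Real.log_nonneg (by linarith)
  -- nonnegativity of the deficit
  have hD0 : 0 ≤ Defi u a b := by
    unfold Defi
    apply setIntegral_nonneg isClosed_closedBall.measurableSet
    intro z hz
    have h1 : M (tw u a b) z (1 / 16) ≤ 1 := by
      apply M_le (by norm_num)
      intro p hp
      have h2 : |tilt a b u p| ≤ Real.exp 0 := by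
        rw [abs_tilt_le_iff, add_zero]
        apply hmaj
        rw [mem_closedBall] at hz hp ⊢
        have := dist_triangle p z 0
        linarith only [hz, hp, this]
      rw [Real.exp_zero] at h2
      exact h2
    have h3 : Real.log (M (tw u a b) z (1 / 16)) ≤ 0 :=
      Real.log_nonpos M_nonneg h1
    linarith
  have hb : ‖b‖ ≤ m := by linarith
  have hb0 := norm_nonneg b
  -- the point
  have hposv : ∀ z ∈ closedBall (0 : ℝ × ℝ) (1 / 2), 0 < M (tilt a b u) z (1 / 16) :=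
    fun z hz => M_tilt_pos huc (by norm_num) a b
      (hpos z (closedBall_subset_closedBall (by norm_num) hz) _ (by norm_num))
  obtain ⟨z0, hz0, w0, hw0, hw0'⟩ := exists_point (D := m) (continuous_tilt huc a b)
    (r := 1 / 16) (by norm_num) hposv (by
      show Defi u a b ≤ m
      linarith)
  rw [mem_closedBall_zero_iff] at hz hz'
  have hin : ∀ p ∈ closedBall (0 : ℝ × ℝ) 8, z + (7 / 8 : ℝ) • p ∈ closedBall (0 : ℝ × ℝ) 8 := by
    intro p hp
    rw [mem_closedBall_zero_iff] at hp ⊢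
    calc ‖z + (7 / 8 : ℝ) • p‖ ≤ ‖z‖ + ‖(7 / 8 : ℝ) • p‖ := norm_add_le _ _
      _ = ‖z‖ + 7 / 8 * ‖p‖ := by rw [norm_smul]; norm_num
      _ ≤ 8 := by linarith only [hz, hp]
  have hC := hcomp m a Λ σ (7 / 8) b z q u (closedBall 0 8) (closedBall 0 8) hΛ hσ
    (by norm_num) (by norm_num) hm0.le (solS_of hsol) hin
    (by
      have h2 : (K0 + 4 * K1) * Λ ≤ m := (mul_le_mul_of_nonneg_right hKK hΛ).trans hKΛ
      have h3 : 4 * (K1 * (1 + Λ)) ≤ 2 * m := by
        have h4 : 0 ≤ K0 * Λ := by positivity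
        linarith
      linarith only [hK0, hK1, hKK, hKm, hb0, h3])
    (by
      have h1 : Real.log (1 + ‖b‖) ≤ Real.log (1 + m) :=
        Real.log_le_log (by positivity) (by linarith)
      calc K1 * (1 + Real.log (1 + ‖b‖)) ≤ (K0 + 4 * K1) * (1 + Real.log (1 + m)) := by
            apply mul_le_mul (by linarith) (by linarith) _ (by linarith)
            have : 0 ≤ Real.log (1 + ‖b‖) := Real.log_nonneg (by linarith [norm_nonneg b])
            linarith
        _ ≤ _ := hsqrt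
        _ ≤ m := hsm)
    (by
      have h2 : K1 * Λ ≤ m := by
        refine le_trans (mul_le_mul_of_nonneg_right ?_ hΛ) hKΛ
        linarith
      have h3 : Λ ≤ m := by nlinarith only [hK1, hΛ, h2]
      have h4 : K1 * (σ * Λ ^ 2) ≤ K1 * (1 * Λ ^ 2) := by gcongr
      have h5 : K1 * (1 * Λ ^ 2) = (K1 * Λ) * Λ := by ring
      have h6 : (K1 * Λ) * Λ ≤ m * m := mul_le_mul h2 h3 hΛ hm0.le
      have h7 : 0 ≤ m * (7 / 8 * ‖b‖) := by positivity
      linarith only [h4, h6, h7])
  -- the point in the new coordinates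
  obtain ⟨y, hy⟩ : ∃ y : ℝ × ℝ, y = (8 / 7 : ℝ) • (w0 - z) := ⟨_, rfl⟩
  have hyw : z + (7 / 8 : ℝ) • y = w0 := by
    rw [hy]
    module
  have hw0n : ‖w0‖ ≤ 9 / 16 := by
    rw [mem_closedBall] at hz0 hw0
    have := dist_triangle w0 z0 0
    rw [dist_zero_right] at this
    linarith only [hz0, hw0, this]
  have hy2 : y ∈ closedBall (0 : ℝ × ℝ) 2 := by
    rw [mem_closedBall_zero_iff, hy, norm_smul]
    have h1 : ‖w0 - z‖ ≤ ‖w0‖ + ‖z‖ := norm_sub_le _ _
    rw [Real.norm_eq_abs, abs_of_pos (by norm_num : (0 : ℝ) < 8 / 7)]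
    linarith only [hr1, hz, hw0n, h1]
  have hvc : Continuous (fun p => tilt a b u (z + (7 / 8 : ℝ) • p)) :=
    (continuous_tilt huc a b).comp (by fun_prop)
  have key := h3 m (fun p => tilt a b u (z + (7 / 8 : ℝ) • p)) 0 y (by linarith only [hK1, hKK, hKm]) hvc
    hC (by
      intro p hp
      have h2 : |tilt a b u (z + (7 / 8 : ℝ) • p)| ≤ Real.exp 0 := by
        rw [abs_tilt_le_iff, add_zero]
        exact hmaj _ (hin p hp)
      rw [Real.exp_zero] at h2
      exact h2)
    hy2 (by rw [hyw]; exact hw0')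
  obtain ⟨w1, hw1, hw1M⟩ := exists_M hvc (z := 0) (r := r) hr0.le
  rw [← hw1M] at key
  have hw1n : ‖w1‖ ≤ r := by rwa [mem_closedBall_zero_iff] at hw1
  obtain ⟨w2, hw2⟩ : ∃ w2 : ℝ × ℝ, w2 = z + (7 / 8 : ℝ) • w1 := ⟨_, rfl⟩
  have hw2z : w2 ∈ closedBall z r := by
    rw [hw2, mem_closedBall, dist_eq_norm, add_sub_cancel_left, norm_smul, Real.norm_eq_abs,
      abs_of_pos (by norm_num : (0 : ℝ) < 7 / 8)]
    linarith only [hr0, hw1n]
  have key2 : Real.exp (-(m * (2 * Real.log (16 / r)))) ≤ |tilt a b u w2| := by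
    rw [hw2]
    exact key
  rw [abs_tilt, Real.exp_neg (aff a b w2), ← div_eq_mul_inv, le_div_iff₀ (Real.exp_pos _),
    ← Real.exp_add] at key2
  have h1 := hmaj z' (by rw [mem_closedBall_zero_iff]; linarith only [hz'])
  have h2 : Pool.Agent.H88.Yau.aff a b z' ≤ aff a b w2 + 3 * m := by
    have e1 : Pool.Agent.H88.Yau.aff a b z' - aff a b w2 =
        b.1 * (z'.1 - w2.1) + b.2 * (z'.2 - w2.2) := by
      simp only [Pool.Agent.H88.Yau.aff, aff]
      ring
    have h4 : ‖z' - w2‖ ≤ 3 / 2 := by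
      have h5 : ‖z' - w2‖ ≤ ‖z'‖ + ‖w2‖ := norm_sub_le _ _
      have h6 : ‖w2‖ ≤ ‖z‖ + r := by
        rw [mem_closedBall, dist_eq_norm] at hw2z
        have := norm_add_le (w2 - z) z
        rw [sub_add_cancel] at this
        linarith only [hw2z, this]
      linarith only [hr0, hr1, hz, hz', h5, h6]
    have h5 : |b.1 * (z'.1 - w2.1)| ≤ m * (3 / 2) := by
      rw [abs_mul]
      apply mul_le_mul _ _ (abs_nonneg _) hm0.le
      · exact (norm_fst_le b).trans hb
      · exact (norm_fst_le (z' - w2)).trans h4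
    have h6 : |b.2 * (z'.2 - w2.2)| ≤ m * (3 / 2) := by
      rw [abs_mul]
      apply mul_le_mul _ _ (abs_nonneg _) hm0.le
      · exact (norm_snd_le b).trans hb
      · exact (norm_snd_le (z' - w2)).trans h4
    have h7 := (abs_le.1 h5).2
    have h8 := (abs_le.1 h6).2
    linarith only [e1, h7, h8]
  calc |u z'| ≤ Real.exp (Pool.Agent.H88.Yau.aff a b z') := h1
    _ ≤ Real.exp ((-(m * (2 * Real.log (16 / r))) + aff a b w2) +
          (3 + 2 * Real.log (16 / r)) * m) := by
        apply Real.exp_le_exp.2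
        linarith only [h2]
    _ = Real.exp (-(m * (2 * Real.log (16 / r))) + aff a b w2) *
          Real.exp ((3 + 2 * Real.log (16 / r)) * m) := Real.exp_add _ _
    _ ≤ M u z r * Real.exp ((3 + 2 * Real.log (16 / r)) * m) := by
        apply mul_le_mul_of_nonneg_right _ (Real.exp_pos _).le
        exact key2.trans (le_M huc hw2z)

end Pool.Agent.H5.Yau
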