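import Pool.Agent.H5.Yau.Child
import Pool.Agent.H88.Yau.Unit

set_option autoImplicit false

/-!
# One step of the affine majorants (statement `U3`)
-/

namespace Pool.Agent.H5.Yau

open MeasureTheory Set Metric Pool.Agent.H24.Near

namespace U3X

open Pool.Agent.H88.Yau (cen desc Defi tw resc IsMaj)

/-! ### Elementary lemmas -/

lemma solS_of {q u : ℝ × ℝ → ℝ} {Λ σ : ℝ} {S : Set (ℝ × ℝ)}
    (h : Pool.Agent.H88.Yau.SolS q u Λ σ S) : SolS q u Λ σ S :=
  ⟨h.smooth_q, h.smooth_u, h.eq, h.bq, h.bq1, h.bq2⟩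

/-- A tilted function after rescaling. -/
lemma tilt_comp_scale (c s : ℝ) (g x : ℝ × ℝ) (u : ℝ × ℝ → ℝ) :
    (fun p => tilt c g u (x + s • p)) =
      tilt (c + g.1 * x.1 + g.2 * x.2) (s • g) (fun p => u (x + s • p)) := by
  funext p
  unfold tilt
  congr 2
  simp only [aff, Prod.fst_add, Prod.snd_add, Prod.smul_fst, Prod.smul_snd, smul_eq_mul]
  ring

/-- The comparison principle for rescaled tilted solutions. -/
lemma comp_tw (P : Par) : ∃ K : ℝ, 1 ≤ K ∧ ∀ (m c Λ σ s : ℝ) (g x : ℝ × ℝ)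
    (q u : ℝ × ℝ → ℝ) (S T : Set (ℝ × ℝ)), 0 ≤ Λ → 0 ≤ σ → 0 < s → s ≤ 1 → 0 ≤ m →
    SolS q u Λ σ S → (∀ p ∈ T, x + s • p ∈ S) →
    K * (1 + Λ) ≤ s * ‖g‖ + m → K * (1 + Real.log (1 + ‖g‖)) ≤ m →
    K * (σ * Λ ^ 2) ≤ m * (s * ‖g‖ + m) →
    Comp P (fun p => tilt c g u (x + s • p)) m T := by
  obtain ⟨K, hK, h⟩ := comp_of_sol P
  refine ⟨K, hK, ?_⟩
  intro m c Λ σ s g x q u S T hΛ hσ hs hs1 hm hsol hT h1 h2 h3
  rw [tilt_comp_scale]
  have hn : ‖s • g‖ = s * ‖g‖ := by rw [norm_smul, Real.norm_eq_abs, abs_of_pos hs]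
  have hsΛ : s * Λ ≤ Λ := by nlinarith only [hΛ, hs1]
  have hg : s * ‖g‖ ≤ ‖g‖ := by nlinarith only [hs1, norm_nonneg g]
  apply h m _ (s * Λ) (s * σ) (s • g) _ _ T (by positivity) (by positivity)
    (hsol.scale x hs.le hT)
  · rw [hn]
    have : K * (1 + s * Λ) ≤ K * (1 + Λ) := by gcongr
    linarith
  · rw [hn]
    refine le_trans ?_ h2
    apply mul_le_mul_of_nonneg_left _ (by linarith)
    have : Real.log (1 + s * ‖g‖) ≤ Real.log (1 + ‖g‖) :=
      Real.log_le_log (by positivity) (by linarith)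
    linarith
  · rw [hn]
    refine le_trans ?_ h3
    have hs3 : s ^ 3 ≤ 1 := pow_le_one₀ hs.le hs1
    have e : K * (s * σ) * (s * Λ) ^ 2 = s ^ 3 * (K * (σ * Λ ^ 2)) := by ring
    rw [e]
    have : 0 ≤ K * (σ * Λ ^ 2) := by positivity
    nlinarith only [hs3, this]

/-- `5 m^{1/4}` bounds the logarithm. -/
lemma log_le_sqrt {K m : ℝ} (hK : 1 ≤ K) (hm : (10 * K) ^ 4 ≤ m) :
    K * (1 + Real.log (1 + m)) ≤ Real.sqrt m := by
  have h1 : (10 : ℝ) ^ 4 ≤ (10 * K) ^ 4 := by
    apply pow_le_pow_left₀ (by norm_num); linarith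
  have hm0 : 0 < m := by
    have : (0 : ℝ) < 10 ^ 4 := by norm_num
    linarith
  set x := Real.sqrt (Real.sqrt m) with hx
  have hx0 : 0 ≤ x := Real.sqrt_nonneg _
  have hx4 : x ^ 4 = m := by
    have e1 : x ^ 2 = Real.sqrt m := Real.sq_sqrt (Real.sqrt_nonneg _)
    have e2 : Real.sqrt m ^ 2 = m := Real.sq_sqrt hm0.le
    calc x ^ 4 = (x ^ 2) ^ 2 := by ring
      _ = m := by rw [e1, e2]
  have hx2 : x ^ 2 = Real.sqrt m := Real.sq_sqrt (Real.sqrt_nonneg _)
  have hxK : 10 * K ≤ x := by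
    by_contra hcon
    rw [not_le] at hcon
    have : x ^ 4 < (10 * K) ^ 4 := pow_lt_pow_left₀ hcon hx0 (by norm_num)
    rw [hx4] at this
    linarith
  have hx1 : 1 ≤ x := by linarith
  -- `log (1 + m) ≤ log ((2x)^4) = 4 log (2x) ≤ 8x`
  have h2 : Real.log (1 + m) ≤ 8 * x := by
    have h3 : 1 + m ≤ (2 * x) ^ 4 := by
      rw [mul_pow, hx4]
      have : (1 : ℝ) ≤ m := by
        have : (1 : ℝ) ≤ 10 ^ 4 := by norm_num
        linarith
      linarith
    have h4 : Real.log (1 + m) ≤ Real.log ((2 * x) ^ 4) := Real.log_le_log (by linarith) h3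
    rw [Real.log_pow] at h4
    have h5 : Real.log (2 * x) ≤ 2 * x := by
      have := Real.log_le_sub_one_of_pos (show 0 < 2 * x by linarith)
      linarith
    push_cast at h4
    linarith
  calc K * (1 + Real.log (1 + m)) ≤ K * (x + 8 * x) := by gcongr
    _ = 9 * K * x := by ring
    _ ≤ x * x := by nlinarith only [hx0, hxK]
    _ = Real.sqrt m := by rw [← hx2]; ring

lemma vol_cb (z : ℝ × ℝ) {r : ℝ} (hr : 0 ≤ r) :
    volume (closedBall z r) = ENNReal.ofReal ((2 * r) ^ 2) := by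
  have h : closedBall z r = closedBall z.1 r ×ˢ closedBall z.2 r := by
    rw [closedBall_prod_same]
  rw [h, MeasureTheory.Measure.volume_eq_prod, MeasureTheory.Measure.prod_prod,
    Real.volume_closedBall, Real.volume_closedBall, ← ENNReal.ofReal_mul (by positivity)]
  congr 1
  ring

lemma area (z : ℝ × ℝ) {r : ℝ} (hr : 0 ≤ r) :
    (volume : Measure (ℝ × ℝ)).real (closedBall z r) = (2 * r) ^ 2 := by
  rw [measureReal_def, vol_cb z hr, ENNReal.toReal_ofReal (by positivity)]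

/-- A point where the function is not smaller than the mean deficit allows. -/
lemma exists_point {v : ℝ × ℝ → ℝ} (hv : Continuous v) {D r : ℝ} (hr : 0 ≤ r)
    (hpos : ∀ z ∈ closedBall (0 : ℝ × ℝ) (1 / 2), 0 < M v z r)
    (hD : ∫ z in closedBall (0 : ℝ × ℝ) (1 / 2), -Real.log (M v z r) ≤ D) :
    ∃ z ∈ closedBall (0 : ℝ × ℝ) (1 / 2), ∃ w ∈ closedBall z r, Real.exp (-D) ≤ |v w| := by
  have hc : ContinuousOn (fun z => -Real.log (M v z r)) (closedBall (0 : ℝ × ℝ) (1 / 2)) :=
    ((continuous_M hv hr).continuousOn.log fun z hz => (hpos z hz).ne').neg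
  have hvol : volume (closedBall (0 : ℝ × ℝ) (1 / 2)) = 1 := by
    rw [vol_cb _ (by norm_num)]
    norm_num
  obtain ⟨z, hz, hle⟩ := exists_le_setAverage (μ := (volume : Measure (ℝ × ℝ)))
    (s := closedBall (0 : ℝ × ℝ) (1 / 2)) (f := fun z => -Real.log (M v z r))
    (by rw [hvol]; exact one_ne_zero) (by rw [hvol]; exact ENNReal.one_ne_top)
    (hc.integrableOn_compact (isCompact_closedBall _ _))
  rw [setAverage_eq, measureReal_def, hvol, ENNReal.toReal_one, inv_one, one_smul] at hle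
  obtain ⟨w, hw, hwM⟩ := exists_M hv (z := z) hr
  refine ⟨z, hz, w, hw, ?_⟩
  rw [hwM, ← Real.le_log_iff_exp_le (hpos z hz)]
  linarith only [hD, hle]

/-- The lower bound for the majorised function, at unit distance. -/
lemma low : ∃ K : ℝ, 1 ≤ K ∧ ∀ (m d Λ σ : ℝ) (q u : ℝ × ℝ → ℝ) (a : ℝ) (b : ℝ × ℝ),
    Pool.Agent.H88.Yau.SolS q u Λ σ (closedBall 0 8) → 0 ≤ Λ → 0 ≤ σ → σ ≤ 1 →
    Pool.Agent.H88.Yau.PosM u (closedBall 0 1) → IsMaj u a b → m = ‖b‖ + Defi u a b → K ≤ m →
    K * Λ ≤ m → Defi u a b ≤ d → Real.sqrt m ≤ d → K * (σ * Λ ^ 2) / m ≤ d →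
    ∀ z ∈ closedBall (0 : ℝ × ℝ) 9, ∃ w ∈ closedBall z 2,
      Real.exp (-(9 * d)) ≤ |tilt a b u ((0 : ℝ × ℝ) + (1 / 16 : ℝ) • w)| := by
  obtain ⟨P, K0, hK0, h3⟩ := three_ball2 (2 / 9) (by norm_num) (by norm_num)
  obtain ⟨K1, hK1, hcomp⟩ := comp_tw P
  refine ⟨(10 * (K0 + 4 * K1)) ^ 4, one_le_pow₀ (by linarith), ?_⟩
  intro m d Λ σ q u a b hsol hΛ hσ hσ1 hpos hmaj hm hKm hKΛ hDd hsd hcd z hz
  have hKK : K0 + 4 * K1 ≤ (10 * (K0 + 4 * K1)) ^ 4 := by
    have h1 : K0 + 4 * K1 ≤ 10 * (K0 + 4 * K1) := by linarith only [hK0, hK1]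
    have h2 : 10 * (K0 + 4 * K1) ≤ (10 * (K0 + 4 * K1)) ^ 4 :=
      le_self_pow₀ (by linarith) (by norm_num)
    linarith
  have hm1 : 1 ≤ m := by linarith
  have hm0 : 0 < m := by linarith only [hK0, hK1, hKm, hKK]
  have huc : Continuous u := hsol.smooth_u.continuous
  set s9 : ℝ := 9 / 16 with hs9
  have hsqrt := log_le_sqrt (K := K0 + 4 * K1) (by linarith) hKm
  have hlog : 0 ≤ Real.log (1 + m) := Real.log_nonneg (by linarith)
  have hd0 : K0 + 4 * K1 ≤ d := by
    have : (K0 + 4 * K1) * 1 ≤ (K0 + 4 * K1) * (1 + Real.log (1 + m)) := by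
      apply mul_le_mul_of_nonneg_left _ (by linarith)
      linarith
    linarith
  have hd1 : 0 < d := by linarith
  -- the point
  have hposv : ∀ z ∈ closedBall (0 : ℝ × ℝ) (1 / 2), 0 < M (tilt a b u) z (1 / 16) :=
    fun z hz => M_tilt_pos huc (by norm_num) a b
      (hpos z (closedBall_subset_closedBall (by norm_num) hz) _ (by norm_num))
  obtain ⟨z0, hz0, w0, hw0, hw0'⟩ := exists_point (D := d) (continuous_tilt huc a b)
    (r := 1 / 16) (by norm_num) hposv hDd
  -- nonnegativity of the deficit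
  have hD0 : 0 ≤ Defi u a b := by
    unfold Defi
    apply setIntegral_nonneg isClosed_closedBall.measurableSet
    intro z hz
    have h1 : M (tw u a b) z (1 / 16) ≤ 1 := by
      apply M_le (by norm_num)
      intro p hp
      have h2 : |tilt a b u p| ≤ Real.exp 0 := by
        rw [abs_tilt_le_iff, add_zero]
        apply hmaj
        rw [mem_closedBall] at hz hp ⊢
        have := dist_triangle p z 0
        linarith only [hz, hp, this]
      rw [Real.exp_zero] at h2
      exact h2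
    have h3 : Real.log (M (tw u a b) z (1 / 16)) ≤ 0 :=
      Real.log_nonpos M_nonneg h1
    linarith only [h3]
  have hb : ‖b‖ ≤ m := by linarith
  -- the comparison principle on the square of radius `8`
  have hz' : ‖z‖ ≤ 9 := by rwa [mem_closedBall_zero_iff] at hz
  have hC := hcomp d a Λ σ s9 b ((1 / 16 : ℝ) • z) q u (closedBall 0 8) (closedBall 0 8) hΛ hσ
    (by norm_num) (by norm_num) hd1.le (solS_of hsol) (by
      intro p hp
      rw [mem_closedBall_zero_iff] at hp ⊢
      calc ‖(1 / 16 : ℝ) • z + s9 • p‖ ≤ ‖(1 / 16 : ℝ) • z‖ + ‖s9 • p‖ := norm_add_le _ _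
        _ = 1 / 16 * ‖z‖ + 9 / 16 * ‖p‖ := by
          rw [norm_smul, norm_smul, hs9]; norm_num
        _ ≤ 8 := by linarith only [hz', hp])
    (by
      have h1 : (K0 + 4 * K1) * (1 + Λ) ≤ 2 * m := by
        have h2 : (K0 + 4 * K1) * Λ ≤ m := by
          refine le_trans (mul_le_mul_of_nonneg_right hKK hΛ) hKΛ
        linarith only [hKm, hKK, h2]
      have h3 : 4 * (K1 * (1 + Λ)) ≤ 2 * m := by
        have : 0 ≤ K0 * (1 + Λ) := by positivity
        linarith only [h1, this]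
      rw [hs9]
      linarith only [hK0, hK1, hm, hKm, hDd, hKK, hd0, h3])
    (by
      have h1 : Real.log (1 + ‖b‖) ≤ Real.log (1 + m) :=
        Real.log_le_log (by positivity) (by linarith)
      calc K1 * (1 + Real.log (1 + ‖b‖)) ≤ (K0 + 4 * K1) * (1 + Real.log (1 + m)) := by
            apply mul_le_mul (by linarith) (by linarith only [h1]) _ (by linarith)
            have : 0 ≤ Real.log (1 + ‖b‖) := Real.log_nonneg (by linarith [norm_nonneg b])
            linarith
        _ ≤ _ := hsqrt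
        _ ≤ d := hsd)
    (by
      rw [div_le_iff₀ hm0] at hcd
      have h1 : (K0 + 4 * K1) * (σ * Λ ^ 2) ≤ d * m :=
        le_trans (mul_le_mul_of_nonneg_right hKK (by positivity)) hcd
      have h2 : K1 * (σ * Λ ^ 2) ≤ (K0 + 4 * K1) * (σ * Λ ^ 2) / 4 := by
        have : 0 ≤ K0 * (σ * Λ ^ 2) := by positivity
        linarith
      have h3 : m ≤ 4 * (s9 * ‖b‖ + d) := by
        rw [hs9]
        have := norm_nonneg b
        linarith only [hK0, hK1, hm, hKm, hDd, hKK, hd0]
      have h4 : d * m ≤ d * (4 * (s9 * ‖b‖ + d)) := mul_le_mul_of_nonneg_left h3 hd1.le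
      linarith only [h1, h2, h4])
  -- the point in the new coordinates
  obtain ⟨y, hy⟩ : ∃ y : ℝ × ℝ, y = (1 / 9 : ℝ) • ((16 : ℝ) • w0 - z) := ⟨_, rfl⟩
  have hyw : (1 / 16 : ℝ) • z + s9 • y = w0 := by
    rw [hy, hs9]
    module
  have hw0n : ‖w0‖ ≤ 9 / 16 := by
    rw [mem_closedBall] at hz0 hw0
    have := dist_triangle w0 z0 0
    rw [dist_zero_right] at this
    linarith only [hz0, hw0, this]
  have hy2 : y ∈ closedBall (0 : ℝ × ℝ) 2 := by
    rw [mem_closedBall_zero_iff, hy, norm_smul]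
    have h1 : ‖(16 : ℝ) • w0 - z‖ ≤ 18 := by
      calc ‖(16 : ℝ) • w0 - z‖ ≤ ‖(16 : ℝ) • w0‖ + ‖z‖ := norm_sub_le _ _
        _ = 16 * ‖w0‖ + ‖z‖ := by rw [norm_smul]; norm_num
        _ ≤ 18 := by linarith
    rw [Real.norm_eq_abs, abs_of_pos (by norm_num : (0 : ℝ) < 1 / 9)]
    linarith only [h1]
  have hvc : Continuous (fun p => tilt a b u ((1 / 16 : ℝ) • z + s9 • p)) :=
    (continuous_tilt huc a b).comp (by fun_prop)
  have key := h3 d (fun p => tilt a b u ((1 / 16 : ℝ) • z + s9 • p)) 0 y (by linarith only [hK1, hd0])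
    hvc
    hC (by
      intro p hp
      rw [mem_closedBall_zero_iff] at hp
      have h2 : |tilt a b u ((1 / 16 : ℝ) • z + s9 • p)| ≤ Real.exp 0 := by
        rw [abs_tilt_le_iff, add_zero]
        apply hmaj
        rw [mem_closedBall_zero_iff]
        calc ‖(1 / 16 : ℝ) • z + s9 • p‖ ≤ ‖(1 / 16 : ℝ) • z‖ + ‖s9 • p‖ := norm_add_le _ _
          _ = 1 / 16 * ‖z‖ + 9 / 16 * ‖p‖ := by
            rw [norm_smul, norm_smul, hs9]; norm_num
          _ ≤ 8 := by linarith only [hz', hp]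
      rw [Real.exp_zero] at h2
      exact h2)
    hy2 (by rw [hyw]; exact hw0')
  obtain ⟨w1, hw1, hw1M⟩ := exists_M (u := fun p => tilt a b u ((1 / 16 : ℝ) • z + s9 • p))
    hvc (z := 0) (r := 2 / 9) (by norm_num)
  rw [← hw1M] at key
  refine ⟨z + (9 : ℝ) • w1, ?_, ?_⟩
  · rw [mem_closedBall_zero_iff] at hw1
    rw [mem_closedBall, dist_eq_norm, add_sub_cancel_left, norm_smul, Real.norm_eq_abs,
      abs_of_pos (by norm_num : (0 : ℝ) < 9)]
    linarith only [hw1]
  · have e : (0 : ℝ × ℝ) + (1 / 16 : ℝ) • (z + (9 : ℝ) • w1) = (1 / 16 : ℝ) • z + s9 • w1 := by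
      rw [hs9]
      module
    rw [e]
    refine le_trans (Real.exp_le_exp.2 ?_) key
    have h4 : Real.log (16 / (2 / 9)) ≤ 9 / 2 := by
      have h5 : (16 : ℝ) / (2 / 9) = 72 := by norm_num
      rw [h5, Real.log_le_iff_le_exp (by norm_num)]
      have h6 : Real.exp (9 / 2) ^ 2 = Real.exp 1 ^ 9 := by
        rw [← Real.exp_nat_mul, ← Real.exp_nat_mul]
        norm_num
      have h7 := Real.exp_one_gt_d9
      have h8 : (2.7182818283 : ℝ) ^ 9 ≤ Real.exp 1 ^ 9 :=
        pow_le_pow_left₀ (by norm_num) h7.le 9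
      apply le_of_sq_le_sq _ (Real.exp_pos _).le
      rw [h6]
      refine le_trans ?_ h8
      norm_num
    nlinarith only [hK0, hK1, hd0, h4]

/-! ### The change of variables -/

lemma integral_scale (G : ℝ × ℝ → ℝ) (c : ℝ × ℝ) {r : ℝ} (hr : 0 < r) (ρ : ℝ) :
    ∫ z in closedBall (0 : ℝ × ℝ) ρ, G (c + r • z) =
      1 / r ^ 2 * ∫ y in closedBall c (r * ρ), G y := by
  rw [← integral_indicator isClosed_closedBall.measurableSet,
    ← integral_indicator isClosed_closedBall.measurableSet]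
  have e1 : (closedBall (0 : ℝ × ℝ) ρ).indicator (fun z => G (c + r • z)) =
      fun z => (fun w => (closedBall c (r * ρ)).indicator G (c + w)) (r • z) := by
    funext z
    show _ = (closedBall c (r * ρ)).indicator G (c + r • z)
    by_cases hz : z ∈ closedBall (0 : ℝ × ℝ) ρ
    · rw [indicator_of_mem hz, indicator_of_mem]
      rw [mem_closedBall_zero_iff] at hz
      rw [mem_closedBall, dist_eq_norm, add_sub_cancel_left, norm_smul, Real.norm_eq_abs,
        abs_of_pos hr]
      exact mul_le_mul_of_nonneg_left hz hr.le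
    · rw [indicator_of_notMem hz, indicator_of_notMem]
      intro h
      apply hz
      rw [mem_closedBall, dist_eq_norm, add_sub_cancel_left, norm_smul, Real.norm_eq_abs,
        abs_of_pos hr] at h
      rw [mem_closedBall_zero_iff]
      exact le_of_mul_le_mul_left h hr
  rw [e1, Measure.integral_comp_smul (μ := (volume : Measure (ℝ × ℝ)))
    (fun w => (closedBall c (r * ρ)).indicator G (c + w)) r,
    integral_add_left_eq_self (μ := (volume : Measure (ℝ × ℝ)))
      (fun w => (closedBall c (r * ρ)).indicator G w) c]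
  have e2 : Module.finrank ℝ (ℝ × ℝ) = 2 := by
    rw [Module.finrank_prod, Module.finrank_self]
  rw [e2, abs_of_pos (by positivity), smul_eq_mul, one_div]

/-- The tilted rescaled function of a child square. -/
lemma tw_child (A : ℝ) (a0 c' : ℝ) (b g' e : ℝ × ℝ) (u : ℝ × ℝ → ℝ) (z : ℝ × ℝ) :
    tw (resc u e (1 / A)) (c' + a0 + ((16 * g'.1 + b.1) * e.1 + (16 * g'.2 + b.2) * e.2))
        ((1 / A) • ((16 : ℝ) • g' + b)) z =
      tilt c' g' (fun p => tilt a0 b u ((0 : ℝ × ℝ) + (1 / 16 : ℝ) • p))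
        ((16 : ℝ) • e + (16 / A) • z) := by
  have e1 : (0 : ℝ × ℝ) + (1 / 16 : ℝ) • ((16 : ℝ) • e + (16 / A) • z) = e + (1 / A) • z := by
    module
  unfold tw tilt resc
  simp only [e1]
  rw [mul_assoc, ← Real.exp_add]
  congr 2
  simp only [aff, Pool.Agent.H88.Yau.aff, Prod.fst_add, Prod.snd_add, Prod.smul_fst,
    Prod.smul_snd, smul_eq_mul]
  ring

/-- A rescaled affine majorant. -/
lemma isMaj_child {A : ℝ} (hA : 1 ≤ A) {a0 c' : ℝ} {b g' e x' : ℝ × ℝ} {u : ℝ × ℝ → ℝ}
    (hx : x' ∈ closedBall ((16 : ℝ) • e) (1 / (2 * A)))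
    (hmaj : ∀ z ∈ closedBall x' (130 / A),
      |tilt a0 b u ((0 : ℝ × ℝ) + (1 / 16 : ℝ) • z)| ≤ Real.exp (aff c' g' z)) :
    IsMaj (resc u e (1 / A)) (c' + a0 + ((16 * g'.1 + b.1) * e.1 + (16 * g'.2 + b.2) * e.2))
        ((1 / A) • ((16 : ℝ) • g' + b)) := by
  have hA0 : 0 < A := by linarith
  intro z hz
  have h1 := tw_child A a0 c' b g' e u z
  have h2 : |tilt c' g' (fun p => tilt a0 b u ((0 : ℝ × ℝ) + (1 / 16 : ℝ) • p))
      ((16 : ℝ) • e + (16 / A) • z)| ≤ Real.exp 0 := by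
    rw [abs_tilt_le_iff, add_zero]
    apply hmaj
    rw [mem_closedBall_zero_iff] at hz
    rw [mem_closedBall, dist_comm] at hx
    rw [mem_closedBall]
    have h3 : dist ((16 : ℝ) • e + (16 / A) • z) ((16 : ℝ) • e) ≤ 128 / A := by
      rw [dist_eq_norm, add_sub_cancel_left, norm_smul, Real.norm_eq_abs,
        abs_of_pos (by positivity)]
      calc 16 / A * ‖z‖ ≤ 16 / A * 8 := by gcongr
        _ = 128 / A := by ring
    have h4 := dist_triangle ((16 : ℝ) • e + (16 / A) • z) ((16 : ℝ) • e) x'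
    have h5 : 1 / (2 * A) ≤ 2 / A := by
      rw [div_le_div_iff₀ (by positivity) (by positivity)]
      linarith only [hA]
    have h6 : 128 / A + 2 / A = 130 / A := by ring
    linarith only [hx, h3, h4, h5, h6]
  rw [← h1] at h2
  have h3 : |tilt (c' + a0 + ((16 * g'.1 + b.1) * e.1 + (16 * g'.2 + b.2) * e.2))
      ((1 / A) • ((16 : ℝ) • g' + b)) (resc u e (1 / A)) z| ≤ Real.exp 0 := h2
  rw [abs_tilt_le_iff, add_zero] at h3
  exact h3

/-- The deficit of a child square. -/
lemma defi_child {A : ℝ} (hA : 1 ≤ A) {a0 c' : ℝ} {b g' e x' : ℝ × ℝ} {u : ℝ × ℝ → ℝ}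
    (hu : Continuous u) (hx : x' ∈ closedBall ((16 : ℝ) • e) (1 / (2 * A)))
    (hmaj : ∀ z ∈ closedBall x' (130 / A),
      |tilt a0 b u ((0 : ℝ × ℝ) + (1 / 16 : ℝ) • z)| ≤ Real.exp (aff c' g' z))
    (hpos : ∀ z ∈ closedBall ((16 : ℝ) • e) (64 / A),
      0 < M (fun p => tilt a0 b u ((0 : ℝ × ℝ) + (1 / 16 : ℝ) • p)) z (1 / A)) :
    Defi (resc u e (1 / A)) (c' + a0 + ((16 * g'.1 + b.1) * e.1 + (16 * g'.2 + b.2) * e.2))
        ((1 / A) • ((16 : ℝ) • g' + b)) ≤
      64 * dfc (fun p => tilt a0 b u ((0 : ℝ × ℝ) + (1 / 16 : ℝ) • p)) c' g' ((16 : ℝ) • e)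
        (1 / A) := by
  have hA0 : 0 < A := by linarith
  set v : ℝ × ℝ → ℝ := fun p => tilt a0 b u ((0 : ℝ × ℝ) + (1 / 16 : ℝ) • p) with hv
  have hvc : Continuous v := (continuous_tilt hu a0 b).comp (by fun_prop)
  set G : ℝ × ℝ → ℝ := fun y => -Real.log (M (tilt c' g' v) y (1 / A)) with hG
  have hGc : ContinuousOn G (closedBall ((16 : ℝ) • e) (64 / A)) :=
    ((continuous_M (continuous_tilt hvc c' g') (by positivity)).continuousOn.log fun z hz =>
      (M_tilt_pos hvc (by positivity) c' g' (hpos z hz)).ne').neg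
  have hG0 : ∀ y ∈ closedBall ((16 : ℝ) • e) (64 / A), 0 ≤ G y := by
    intro y hy
    have h1 : M (tilt c' g' v) y (1 / A) ≤ 1 := by
      apply M_le (by positivity)
      intro p hp
      have h2 : |tilt c' g' v p| ≤ Real.exp 0 := by
        rw [abs_tilt_le_iff, add_zero]
        apply hmaj
        rw [mem_closedBall] at hy hp ⊢
        rw [mem_closedBall, dist_comm] at hx
        have h3 := dist_triangle p y ((16 : ℝ) • e)
        have h4 := dist_triangle p ((16 : ℝ) • e) x'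
        have h5 : 1 / (2 * A) ≤ 2 / A := by
          rw [div_le_div_iff₀ (by positivity) (by positivity)]
          linarith only [hA]
        have h6 : 1 / A + 64 / A + 2 / A ≤ 130 / A := by
          rw [← add_div, ← add_div, div_le_div_iff_of_pos_right hA0]
          norm_num
        linarith
      rw [Real.exp_zero] at h2
      exact h2
    have h3 : Real.log (M (tilt c' g' v) y (1 / A)) ≤ 0 := Real.log_nonpos M_nonneg h1
    show 0 ≤ -Real.log (M (tilt c' g' v) y (1 / A))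
    linarith
  have e1 : Defi (resc u e (1 / A))
      (c' + a0 + ((16 * g'.1 + b.1) * e.1 + (16 * g'.2 + b.2) * e.2))
      ((1 / A) • ((16 : ℝ) • g' + b)) =
      ∫ z in closedBall (0 : ℝ × ℝ) (1 / 2), G ((16 : ℝ) • e + (16 / A) • z) := by
    unfold Defi
    congr 1
    funext z
    have h1 : tw (resc u e (1 / A))
        (c' + a0 + ((16 * g'.1 + b.1) * e.1 + (16 * g'.2 + b.2) * e.2))
        ((1 / A) • ((16 : ℝ) • g' + b)) =
        fun z => tilt c' g' v ((16 : ℝ) • e + (16 / A) • z) := by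
      funext z
      exact tw_child A a0 c' b g' e u z
    rw [h1, M_scale ((16 : ℝ) • e) (show 0 < 16 / A by positivity)]
    have h2 : 16 / A * (1 / 16) = 1 / A := by ring
    rw [h2]
  rw [e1, integral_scale G ((16 : ℝ) • e) (show 0 < 16 / A by positivity)]
  have h1 : 16 / A * (1 / 2) = 8 / A := by ring
  rw [h1]
  unfold dfc
  have h2 : 64 * (1 / A) = 64 / A := by ring
  rw [h2]
  have hmono : ∫ y in closedBall ((16 : ℝ) • e) (8 / A), G y ≤
      ∫ y in closedBall ((16 : ℝ) • e) (64 / A), G y := by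
    apply setIntegral_mono_set (hGc.integrableOn_compact (isCompact_closedBall _ _))
    · filter_upwards [ae_restrict_mem isClosed_closedBall.measurableSet] with y hy
      exact hG0 y hy
    · apply LE.le.eventuallyLE
      apply closedBall_subset_closedBall
      gcongr
      norm_num
  have e3 : 64 * (1 / (128 * (1 / A)) ^ 2 * ∫ z in closedBall ((16 : ℝ) • e) (64 / A),
      -(Real.log (M (tilt c' g' v) z (1 / A)))) =
      1 / (16 / A) ^ 2 * ∫ y in closedBall ((16 : ℝ) • e) (64 / A), G y := by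
    rw [hG]
    field_simp
    ring
  rw [e3]
  exact mul_le_mul_of_nonneg_left hmono (by positivity)

/-! ### Selection of points in the child squares -/

lemma select {A : ℕ} (hA : 1 ≤ A) {F : ℝ × ℝ → ℝ} (hF : Continuous F) (hF0 : ∀ x, 0 ≤ F x) :
    ∃ X : ℤ × ℤ → ℝ × ℝ,
      (∀ c ∈ desc A 1 0, X c ∈ closedBall ((16 : ℝ) • cen A c) (1 / (2 * A))) ∧
      (∀ c ∈ desc A 1 0, X c ∈ closedBall (0 : ℝ × ℝ) (1 / 2)) ∧
      ∑ c ∈ desc A 1 0, F (X c) ≤ (A : ℝ) ^ 2 * ∫ x in closedBall (0 : ℝ × ℝ) (1 / 2), F x := by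
  have hA0 : (0 : ℝ) < A := by exact_mod_cast (by omega : 0 < A)
  obtain ⟨I, hI⟩ : ∃ I : ℤ → Set ℝ, I = fun i : ℤ =>
    Ico ((i : ℝ) / A - 1 / 2) (((i : ℝ) + 1) / A - 1 / 2) := ⟨_, rfl⟩
  obtain ⟨Bx, hBx⟩ : ∃ Bx : ℤ × ℤ → Set (ℝ × ℝ), Bx = fun c => I c.1 ×ˢ I c.2 := ⟨_, rfl⟩
  have hIm : ∀ i, MeasurableSet (I i) := fun i => by rw [hI]; exact measurableSet_Ico
  have hBm : ∀ c, MeasurableSet (Bx c) := fun c => by
    rw [hBx]; exact (hIm _).prod (hIm _)
  have hIv : ∀ i, volume (I i) = ENNReal.ofReal (1 / A) := fun i => by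
    rw [hI]
    simp only [Real.volume_Ico]
    congr 1
    ring
  have hBv : ∀ c, volume (Bx c) = ENNReal.ofReal (1 / (A : ℝ) ^ 2) := fun c => by
    rw [hBx]
    simp only
    rw [MeasureTheory.Measure.volume_eq_prod, MeasureTheory.Measure.prod_prod, hIv, hIv,
      ← ENNReal.ofReal_mul (by positivity)]
    congr 1
    field_simp
  have hfl : ∀ (i : ℤ) (x : ℝ), x ∈ I i → ⌊(x + 1 / 2) * A⌋ = i := by
    intro i x hx
    rw [hI] at hx
    obtain ⟨h1, h2⟩ := hx
    rw [Int.floor_eq_iff]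
    constructor
    · rw [← div_le_iff₀ hA0]; linarith only [h1]
    · rw [← lt_div_iff₀ hA0]; linarith only [h2]
  have hdisj : (↑(desc A 1 0) : Set (ℤ × ℤ)).PairwiseDisjoint Bx := by
    intro c _ c' _ hcc
    rw [Function.onFun, Set.disjoint_left]
    intro x hx hx'
    apply hcc
    rw [hBx] at hx hx'
    rw [Prod.ext_iff]
    exact ⟨(hfl _ _ hx.1).symm.trans (hfl _ _ hx'.1), (hfl _ _ hx.2).symm.trans (hfl _ _ hx'.2)⟩
  have hmem : ∀ c ∈ desc A 1 0, 0 ≤ c.1 ∧ c.1 + 1 ≤ A ∧ 0 ≤ c.2 ∧ c.2 + 1 ≤ A := by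
    intro c hc
    unfold desc at hc
    rw [Finset.mem_product, Finset.mem_Ico, Finset.mem_Ico] at hc
    simp only [Prod.fst_zero, Prod.snd_zero, zero_mul, zero_add, one_mul, pow_one] at hc
    omega
  have hI01 : ∀ (i : ℤ) (x : ℝ), 0 ≤ i → i + 1 ≤ A → x ∈ I i → |x| ≤ 1 / 2 := by
    intro i x h0 h1 hx
    rw [hI] at hx
    obtain ⟨h2, h3⟩ := hx
    have h4 : (0 : ℝ) ≤ i := by exact_mod_cast h0
    have h5 : (i : ℝ) + 1 ≤ A := by exact_mod_cast h1
    have h6 : 0 ≤ (i : ℝ) / A := by positivity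
    have h7 : ((i : ℝ) + 1) / A ≤ 1 := by rw [div_le_one hA0]; exact h5
    rw [abs_le]
    constructor <;> linarith only [h2, h6, h3, h7]
  have hIc : ∀ (i : ℤ) (x : ℝ), x ∈ I i →
      |x - 16 * ((((i : ℝ) + 1 / 2) / A - 1 / 2) / 16)| ≤ 1 / (2 * A) := by
    intro i x hx
    rw [hI] at hx
    obtain ⟨h2, h3⟩ := hx
    have e1 : ((i : ℝ) + 1 / 2) / A = (i : ℝ) / A + 1 / (2 * A) := by field_simp
    have e2 : ((i : ℝ) + 1) / A = (i : ℝ) / A + 2 * (1 / (2 * A)) := by field_simp
    rw [e2] at h3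
    rw [e1, abs_le]
    constructor <;> linarith only [h2, h3]
  have hB01 : ∀ c ∈ desc A 1 0, Bx c ⊆ closedBall (0 : ℝ × ℝ) (1 / 2) := by
    intro c hc x hx
    obtain ⟨h1, h2, h3, h4⟩ := hmem c hc
    rw [hBx] at hx
    rw [mem_closedBall_zero_iff, Prod.norm_def, max_le_iff, Real.norm_eq_abs, Real.norm_eq_abs]
    exact ⟨hI01 _ _ h1 h2 hx.1, hI01 _ _ h3 h4 hx.2⟩
  have hBc : ∀ c, Bx c ⊆ closedBall ((16 : ℝ) • cen A c) (1 / (2 * A)) := by
    intro c x hx
    rw [hBx] at hx
    rw [mem_closedBall, Prod.dist_eq, max_le_iff, Real.dist_eq, Real.dist_eq]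
    exact ⟨hIc _ _ hx.1, hIc _ _ hx.2⟩
  have hFi : IntegrableOn F (closedBall (0 : ℝ × ℝ) (1 / 2)) :=
    hF.continuousOn.integrableOn_compact (isCompact_closedBall _ _)
  have hsel : ∀ c : ℤ × ℤ, ∃ x : ℝ × ℝ, c ∈ desc A 1 0 →
      x ∈ Bx c ∧ F x ≤ (A : ℝ) ^ 2 * ∫ x in Bx c, F x := by
    intro c
    by_cases hc : c ∈ desc A 1 0
    · obtain ⟨x, hx, hle⟩ := exists_le_setAverage (μ := (volume : Measure (ℝ × ℝ)))
        (s := Bx c) (f := F) (by
          rw [hBv]
          exact (ENNReal.ofReal_pos.mpr (by positivity)).ne') (by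
          rw [hBv]
          exact ENNReal.ofReal_ne_top) (hFi.mono_set (hB01 c hc))
      refine ⟨x, fun _ => ⟨hx, ?_⟩⟩
      rw [setAverage_eq, measureReal_def, hBv, ENNReal.toReal_ofReal (by positivity),
        smul_eq_mul, one_div, inv_inv] at hle
      exact hle
    · exact ⟨0, fun h => absurd h hc⟩
  choose X hX using hsel
  refine ⟨X, fun c hc => hBc c (hX c hc).1, fun c hc => hB01 c hc (hX c hc).1, ?_⟩
  calc ∑ c ∈ desc A 1 0, F (X c) ≤ ∑ c ∈ desc A 1 0, (A : ℝ) ^ 2 * ∫ x in Bx c, F x :=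
        Finset.sum_le_sum fun c hc => (hX c hc).2
    _ = (A : ℝ) ^ 2 * ∑ c ∈ desc A 1 0, ∫ x in Bx c, F x := by rw [Finset.mul_sum]
    _ = (A : ℝ) ^ 2 * ∫ x in ⋃ c ∈ desc A 1 0, Bx c, F x := by
        rw [integral_biUnion_finset _ (fun c _ => hBm c) hdisj
          (fun c hc => hFi.mono_set (hB01 c hc))]
    _ ≤ _ := by
        apply mul_le_mul_of_nonneg_left _ (by positivity)
        apply setIntegral_mono_set hFi (Filter.Eventually.of_forall hF0)
        apply LE.le.eventuallyLE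
        exact iUnion₂_subset hB01

end U3X

open U3X Pool.Agent.H88.Yau in
theorem u3 : Pool.Agent.H88.Yau.U3 := by
  intro κ hκ
  obtain ⟨Cs, hCs, hch⟩ := child 1 le_rfl
  obtain ⟨Kl, hKl, hlow⟩ := low
  obtain ⟨a0, ha0⟩ : ∃ a0 : ℝ, a0 = max 2 ((20736 * Cs / κ) ^ 2) := ⟨_, rfl⟩
  refine ⟨⌈a0 ^ 9⌉₊, ?_⟩
  intro A hA
  have ha02 : 2 ≤ a0 := by rw [ha0]; exact le_max_left _ _
  have hA9 : a0 ^ 9 ≤ A := (Nat.le_ceil _).trans (by exact_mod_cast hA)
  have hA512 : (512 : ℝ) ≤ A := by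
    refine le_trans ?_ hA9
    calc (512 : ℝ) = 2 ^ 9 := by norm_num
      _ ≤ a0 ^ 9 := pow_le_pow_left₀ (by norm_num) ha02 9
  have hA0 : (0 : ℝ) < A := by linarith
  have hA1 : 1 ≤ A := by
    have : (1 : ℝ) ≤ A := by linarith only [hA512]
    exact_mod_cast this
  obtain ⟨a, haA, haa⟩ : ∃ a : ℝ, a ^ 9 = A ∧ a0 ≤ a := by
    refine ⟨(A : ℝ) ^ ((1 : ℝ) / 9), ?_, ?_⟩
    · rw [← Real.rpow_natCast, ← Real.rpow_mul hA0.le]
      norm_num
    · have h1 : a0 = (a0 ^ 9) ^ ((1 : ℝ) / 9) := by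
        rw [← Real.rpow_natCast, ← Real.rpow_mul (by linarith)]
        norm_num
      rw [h1]
      exact Real.rpow_le_rpow (by positivity) hA9 (by norm_num)
  have ha2 : 2 ≤ a := ha02.trans haa
  have hapos : 0 < a := by linarith only [ha02, haa]
  have hloga : 0 < Real.log a := Real.log_pos (by linarith)
  -- the logarithm is small
  have hsmall : 10368 * Cs * (Real.log a / a) ≤ κ := by
    have h1 : Real.log a ≤ 2 * Real.sqrt a := by
      have h2 : Real.log a = 2 * Real.log (Real.sqrt a) := by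
        rw [Real.log_sqrt hapos.le]; ring
      have h3 := Real.log_le_sub_one_of_pos (Real.sqrt_pos.mpr hapos)
      linarith
    have h2 : 20736 * Cs / κ ≤ Real.sqrt a := by
      apply Real.le_sqrt_of_sq_le
      refine le_trans ?_ haa
      rw [ha0]
      exact le_max_right _ _
    rw [div_le_iff₀ hκ] at h2
    have hsq : Real.sqrt a * Real.sqrt a = a := Real.mul_self_sqrt hapos.le
    have hs0 : 0 < Real.sqrt a := Real.sqrt_pos.mpr hapos
    have h3 : 10368 * Cs * Real.log a ≤ κ * a := by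
      calc 10368 * Cs * Real.log a ≤ 10368 * Cs * (2 * Real.sqrt a) := by gcongr
        _ = 20736 * Cs * Real.sqrt a := by ring
        _ ≤ Real.sqrt a * κ * Real.sqrt a := by gcongr
        _ = κ * (Real.sqrt a * Real.sqrt a) := by ring
        _ = κ * a := by rw [hsq]
    rw [mul_div_assoc', div_le_iff₀ hapos]
    exact h3
  obtain ⟨P, K2, hK2, hch'⟩ := hch a ha2
  obtain ⟨K1, hK1, hcomp⟩ := comp_tw P
  obtain ⟨K, hK⟩ : ∃ K, K = Kl + (10 * (32 * K1 + K2)) ^ 4 := ⟨_, rfl⟩
  have hKb : 32 * K1 + K2 ≤ (10 * (32 * K1 + K2)) ^ 4 := by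
    have h1 : 32 * K1 + K2 ≤ 10 * (32 * K1 + K2) := by linarith only [hK2, hK1]
    have h2 : 10 * (32 * K1 + K2) ≤ (10 * (32 * K1 + K2)) ^ 4 :=
      le_self_pow₀ (by linarith only [hK2, hK1]) (by norm_num)
    linarith only [hK2, hK1, h2]
  have hKlK : Kl ≤ K := by rw [hK]; linarith only [hK2, hK1, hKb]
  have hK1 : 1 ≤ K := by linarith
  refine ⟨K, K + 2592 * Cs * Real.log a, hK1, by
    have : 0 ≤ 2592 * Cs * Real.log a := by positivity
    linarith, ?_⟩
  intro m d Λ σ q u ac b hsol hΛ hσ hσ1 hpos hmaj hm hKm hKΛ hDd hsd hcd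
  have hCA : K * (σ * Λ ^ 2) / m ≤ d := by
    refine le_trans ?_ hcd
    apply div_le_div_of_nonneg_right _ (by linarith)
    apply mul_le_mul_of_nonneg_right _ (by positivity)
    have : 0 ≤ 2592 * Cs * Real.log a := by positivity
    linarith only [this]
  have hm1 : 1 ≤ m := by linarith
  have hm0 : 0 < m := by linarith
  have huc : Continuous u := hsol.smooth_u.continuous
  have hlb := hlow m d Λ σ q u ac b hsol hΛ hσ hσ1 hpos hmaj hm (hKlK.trans hKm)
    ((mul_le_mul_of_nonneg_right hKlK hΛ).trans hKΛ) hDd hsd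
    (le_trans (div_le_div_of_nonneg_right (mul_le_mul_of_nonneg_right hKlK (by positivity))
      hm0.le) hCA)
  have hmK : (10 * (32 * K1 + K2)) ^ 4 ≤ m := by linarith only [hKl, hK, hKm]
  have hsqrt := log_le_sqrt (K := 32 * K1 + K2) (by linarith) hmK
  have hlog : 0 ≤ Real.log (1 + m) := Real.log_nonneg (by linarith)
  have hd0 : 32 * K1 + K2 ≤ d := by
    have : (32 * K1 + K2) * 1 ≤ (32 * K1 + K2) * (1 + Real.log (1 + m)) := by
      apply mul_le_mul_of_nonneg_left _ (by linarith)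
      linarith only [hlog]
    linarith
  have hd1 : 0 < d := by linarith
  have hD0 : 0 ≤ Defi u ac b := by
    unfold Defi
    apply setIntegral_nonneg isClosed_closedBall.measurableSet
    intro z hz
    have h1 : M (tw u ac b) z (1 / 16) ≤ 1 := by
      apply M_le (by norm_num)
      intro p hp
      have h2 : |tilt ac b u p| ≤ Real.exp 0 := by
        rw [abs_tilt_le_iff, add_zero]
        apply hmaj
        rw [mem_closedBall] at hz hp ⊢
        have := dist_triangle p z 0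
        linarith only [hz, hp, this]
      rw [Real.exp_zero] at h2
      exact h2
    have h3 : Real.log (M (tw u ac b) z (1 / 16)) ≤ 0 :=
      Real.log_nonpos M_nonneg h1
    linarith only [h3]
  have hb : ‖b‖ ≤ m := by linarith only [hm, hD0]
  obtain ⟨v, hv⟩ : ∃ v : ℝ × ℝ → ℝ, v = fun p => tilt ac b u ((0 : ℝ × ℝ) + (1 / 16 : ℝ) • p) :=
    ⟨_, rfl⟩
  have hvc : Continuous v := by
    rw [hv]
    exact (continuous_tilt huc ac b).comp (by fun_prop)
  have hC : Comp P v (9 * d) (closedBall 0 (1 + 20)) := by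
    rw [hv]
    apply hcomp (9 * d) ac Λ σ (1 / 16) b 0 q u (closedBall 0 8) (closedBall 0 (1 + 20)) hΛ hσ
      (by norm_num) (by norm_num) (by linarith) (solS_of hsol)
    · intro p hp
      rw [mem_closedBall_zero_iff] at hp ⊢
      rw [zero_add, norm_smul, Real.norm_eq_abs, abs_of_pos (by norm_num : (0 : ℝ) < 1 / 16)]
      linarith only [hp]
    · have h1 : (32 * K1 + K2) * (1 + Λ) ≤ 2 * m := by
        have h2 : (32 * K1 + K2) * Λ ≤ m := by
          refine le_trans (mul_le_mul_of_nonneg_right ?_ hΛ) hKΛ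
          linarith only [hKl, hK, hKb]
        linarith only [hKl, hK, hKb, hKm, h2]
      have h3 : 32 * (K1 * (1 + Λ)) ≤ 2 * m := by
        have : 0 ≤ K2 * (1 + Λ) := by positivity
        linarith only [h1, this]
      have := norm_nonneg b
      linarith
    · have h1 : Real.log (1 + ‖b‖) ≤ Real.log (1 + m) :=
        Real.log_le_log (by positivity) (by linarith only [hm, hD0])
      calc K1 * (1 + Real.log (1 + ‖b‖)) ≤ (32 * K1 + K2) * (1 + Real.log (1 + m)) := by
            apply mul_le_mul (by linarith) (by linarith) _ (by linarith)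
            have : 0 ≤ Real.log (1 + ‖b‖) := Real.log_nonneg (by linarith [norm_nonneg b])
            linarith only [this]
        _ ≤ _ := hsqrt
        _ ≤ 9 * d := by linarith
    · rw [div_le_iff₀ hm0] at hCA
      have h1 : (32 * K1 + K2) * (σ * Λ ^ 2) ≤ d * m :=
        le_trans (mul_le_mul_of_nonneg_right (by linarith only [hKl, hK, hKb]) (by positivity)) hCA
      have h2 : 32 * (K1 * (σ * Λ ^ 2)) ≤ (32 * K1 + K2) * (σ * Λ ^ 2) := by
        have : 0 ≤ K2 * (σ * Λ ^ 2) := by positivity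
        linarith
      have h3 : m ≤ 16 * (1 / 16 * ‖b‖ + 9 * d) := by
        have := norm_nonneg b
        linarith
      have h4 : d * m ≤ d * (16 * (1 / 16 * ‖b‖ + 9 * d)) :=
        mul_le_mul_of_nonneg_left h3 hd1.le
      have h5 : 0 ≤ 8 * d * (1 / 16 * ‖b‖ + 9 * d) := by positivity
      linarith only [h1, h2, h4, h5]
  have hv1 : ∀ p ∈ closedBall (0 : ℝ × ℝ) (1 + 20), |v p| ≤ 1 := by
    intro p hp
    rw [mem_closedBall_zero_iff] at hp
    have h2 : |tilt ac b u ((0 : ℝ × ℝ) + (1 / 16 : ℝ) • p)| ≤ Real.exp 0 := by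
      rw [abs_tilt_le_iff, add_zero]
      apply hmaj
      rw [mem_closedBall_zero_iff, zero_add, norm_smul, Real.norm_eq_abs,
        abs_of_pos (by norm_num : (0 : ℝ) < 1 / 16)]
      linarith only [hp]
    rw [Real.exp_zero] at h2
    rw [hv]
    exact h2
  have hlb' : ∀ z ∈ closedBall (0 : ℝ × ℝ) (1 + 8), ∃ w ∈ closedBall z 2,
      Real.exp (-(9 * d)) ≤ |v w| := by
    intro z hz
    rw [hv]
    exact hlb z (closedBall_subset_closedBall (by norm_num) hz)
  obtain ⟨ρ, ψ, Φ, -, -, hψ, hΦc, hΦ0, hMpos, hchild, hΦi, hgi, -⟩ :=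
    hch' v (9 * d) (by linarith) hvc hC hv1 hlb'
  -- the function to be averaged
  obtain ⟨F, hF⟩ : ∃ F : ℝ × ℝ → ℝ, F = fun x =>
      a ^ 10 * Φ x + 9 * d * (|d1 ψ x| + |d2 ψ x|) := ⟨_, rfl⟩
  have hFc : Continuous F := by
    rw [hF]
    exact (continuous_const.mul hΦc).add (continuous_const.mul
      (hψ.d1.continuous.abs.add hψ.d2.continuous.abs))
  have hF0 : ∀ x, 0 ≤ F x := by
    intro x
    rw [hF]
    have := hΦ0 x
    positivity
  have hcb : ∀ {f : ℝ × ℝ → ℝ}, Continuous f → IntegrableOn f (closedBall (0 : ℝ × ℝ) (1 + 1)) :=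
    fun hf => hf.continuousOn.integrableOn_compact (isCompact_closedBall _ _)
  have hFi : ∫ x in closedBall (0 : ℝ × ℝ) (1 / 2), F x ≤ 162 * Cs * Real.log a * d := by
    calc ∫ x in closedBall (0 : ℝ × ℝ) (1 / 2), F x
        ≤ ∫ x in closedBall (0 : ℝ × ℝ) (1 + 1), F x := by
          apply setIntegral_mono_set (hcb hFc) (Filter.Eventually.of_forall hF0)
          apply LE.le.eventuallyLE
          exact closedBall_subset_closedBall (by norm_num)
      _ = a ^ 10 * (∫ x in closedBall (0 : ℝ × ℝ) (1 + 1), Φ x) +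
            9 * d * (∫ x in closedBall (0 : ℝ × ℝ) (1 + 1), (|d1 ψ x| + |d2 ψ x|)) := by
          have hgc : Continuous (fun x => |d1 ψ x| + |d2 ψ x|) :=
            hψ.d1.continuous.abs.add hψ.d2.continuous.abs
          rw [hF, integral_add ((hcb hΦc).const_mul _) ((hcb hgc).const_mul _),
            integral_const_mul, integral_const_mul]
      _ ≤ a ^ 10 * (Cs * Real.log a / a ^ 10 * (9 * d)) +
            9 * d * (17 * Cs * Real.log a) := by
          apply add_le_add
          · exact mul_le_mul_of_nonneg_left hΦi (by positivity)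
          · apply mul_le_mul_of_nonneg_left _ (by positivity)
            have hpt : ∀ x ∈ closedBall (0 : ℝ × ℝ) (1 + 1), |d1 ψ x| + |d2 ψ x| ≤
                1 / (2 * Real.log a) * ((d1 ψ x) ^ 2 + (d2 ψ x) ^ 2) + Real.log a := by
              intro x _
              have h1 : ∀ y : ℝ, |y| ≤ 1 / (2 * Real.log a) * y ^ 2 + Real.log a / 2 := by
                intro y
                have h2 : 0 ≤ (|y| - Real.log a) ^ 2 / (2 * Real.log a) := by positivity
                have h3 : (|y| - Real.log a) ^ 2 / (2 * Real.log a) =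
                    1 / (2 * Real.log a) * y ^ 2 + Real.log a / 2 - |y| := by
                  have : |y| ^ 2 = y ^ 2 := sq_abs y
                  field_simp
                  rw [← this]
                  ring
                linarith only [h2, h3]
              have h2 := h1 (d1 ψ x)
              have h3 := h1 (d2 ψ x)
              linarith only [h2, h3]
            have hci : Continuous (fun x => (d1 ψ x) ^ 2 + (d2 ψ x) ^ 2) :=
              (hψ.d1.continuous.pow 2).add (hψ.d2.continuous.pow 2)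
            calc ∫ x in closedBall (0 : ℝ × ℝ) (1 + 1), (|d1 ψ x| + |d2 ψ x|)
                ≤ ∫ x in closedBall (0 : ℝ × ℝ) (1 + 1),
                  (1 / (2 * Real.log a) * ((d1 ψ x) ^ 2 + (d2 ψ x) ^ 2) + Real.log a) :=
                  setIntegral_mono_on (hcb (hψ.d1.continuous.abs.add hψ.d2.continuous.abs))
                    (hcb ((continuous_const.mul hci).add continuous_const))
                    isClosed_closedBall.measurableSet hpt
              _ = 1 / (2 * Real.log a) * (∫ x in closedBall (0 : ℝ × ℝ) (1 + 1),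
                    ((d1 ψ x) ^ 2 + (d2 ψ x) ^ 2)) + 16 * Real.log a := by
                  rw [integral_add ((hcb hci).const_mul _) (hcb continuous_const),
                    integral_const_mul, setIntegral_const, area _ (by norm_num), smul_eq_mul]
                  norm_num
              _ ≤ 1 / (2 * Real.log a) * (Cs * (Real.log a) ^ 2) + 16 * Real.log a := by
                  gcongr
              _ = (Cs / 2 + 16) * Real.log a := by field_simp
              _ ≤ 17 * Cs * Real.log a := by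
                  apply mul_le_mul_of_nonneg_right _ hloga.le
                  linarith only [hCs]
      _ = 162 * Cs * Real.log a * d := by
          field_simp
          ring
  obtain ⟨X, hX1, hX2, hXF⟩ := select hA1 hFc hF0
  have hX2' : ∀ c ∈ desc A 1 0, X c ∈ closedBall (0 : ℝ × ℝ) (1 + 1) := fun c hc =>
    closedBall_subset_closedBall (by norm_num) (hX2 c hc)
  have hsel : ∀ c : ℤ × ℤ, ∃ c' : ℝ, c ∈ desc A 1 0 →
      (∀ z ∈ closedBall (X c) (130 / a ^ 9),
        |v z| ≤ Real.exp (aff c' (9 * d * d1 ψ (X c), 9 * d * d2 ψ (X c)) z)) ∧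
      ∀ x'' ∈ closedBall (X c) (1 / a ^ 9),
        dfc v c' (9 * d * d1 ψ (X c), 9 * d * d2 ψ (X c)) x'' (1 / a ^ 9) ≤ Φ (X c) := by
    intro c
    by_cases hc : c ∈ desc A 1 0
    · obtain ⟨c', h⟩ := hchild (X c) (hX2' c hc)
      exact ⟨c', fun _ => h⟩
    · exact ⟨0, fun h => absurd h hc⟩
  choose c' hc' using hsel
  rw [haA] at hc'
  have hA1' : (1 : ℝ) ≤ A := by linarith only [hA512]
  refine ⟨fun c => c' c + ac + ((16 * (9 * d * d1 ψ (X c)) + b.1) * (cen A c).1 +
      (16 * (9 * d * d2 ψ (X c)) + b.2) * (cen A c).2),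
    fun c => (1 / (A : ℝ)) • ((16 : ℝ) • (9 * d * d1 ψ (X c), 9 * d * d2 ψ (X c)) + b),
    ?_, ?_, ?_⟩
  · intro c hc
    refine isMaj_child hA1' (g' := (9 * d * d1 ψ (X c), 9 * d * d2 ψ (X c))) (hX1 c hc) ?_
    have := (hc' c hc).1
    rw [hv] at this
    exact this
  · have hone : ∀ c ∈ desc A 1 0, Defi (resc u (cen A c) (1 / A))
        (c' c + ac + ((16 * (9 * d * d1 ψ (X c)) + b.1) * (cen A c).1 +
          (16 * (9 * d * d2 ψ (X c)) + b.2) * (cen A c).2))
        ((1 / (A : ℝ)) • ((16 : ℝ) • (9 * d * d1 ψ (X c), 9 * d * d2 ψ (X c)) + b)) ≤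
        64 / a ^ 10 * F (X c) := by
      intro c hc
      obtain ⟨h1, h2⟩ := hc' c hc
      rw [hv] at h1
      refine (defi_child hA1' (g' := (9 * d * d1 ψ (X c), 9 * d * d2 ψ (X c))) huc (hX1 c hc)
        h1 ?_).trans ?_
      · intro z hz
        have hz6 : z ∈ closedBall (0 : ℝ × ℝ) (1 + 5) := by
          have h3 := hX1 c hc
          have h4 := hX2 c hc
          rw [mem_closedBall] at hz h3 h4 ⊢
          rw [dist_comm] at h3
          have h5 := dist_triangle z ((16 : ℝ) • cen A c) 0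
          have h6 := dist_triangle ((16 : ℝ) • cen A c) (X c) 0
          have h7 : 64 / (A : ℝ) ≤ 1 := by rw [div_le_one hA0]; linarith only [hA512]
          have h8 : 1 / (2 * (A : ℝ)) ≤ 1 := by
            rw [div_le_one (by positivity)]; linarith only [hA512]
          linarith only [hz, h3, h4, h5, h6, h7, h8]
        have h3 := hMpos z hz6
        rw [hv] at h3
        refine lt_of_lt_of_le h3 (M_mono ((continuous_tilt huc ac b).comp (by fun_prop))
          (by positivity) (closedBall_subset_closedBall ?_))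
        rw [← haA]
        rw [div_le_div_iff₀ (by positivity) (by positivity)]
        have : a ^ 10 = a * a ^ 9 := by ring
        rw [this]
        have : 0 < a ^ 9 := by positivity
        nlinarith only [ha02, haA, haa]
      · have h3 : (16 : ℝ) • cen A c ∈ closedBall (X c) (1 / (A : ℝ)) := by
          have h4 := hX1 c hc
          rw [mem_closedBall, dist_comm] at h4
          rw [mem_closedBall]
          refine h4.trans ?_
          apply div_le_div_of_nonneg_left (by norm_num) hA0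
          linarith only []
        have h4 := h2 _ h3
        rw [hv] at h4
        have h5 : a ^ 10 * Φ (X c) ≤ F (X c) := by
          rw [hF]
          have : 0 ≤ 9 * d * (|d1 ψ (X c)| + |d2 ψ (X c)|) := by positivity
          linarith only [this]
        have h6 : Φ (X c) ≤ F (X c) / a ^ 10 := by
          rw [le_div_iff₀ (by positivity)]
          linarith only [h5]
        calc _ ≤ 64 * Φ (X c) := by gcongr
          _ ≤ 64 * (F (X c) / a ^ 10) := by gcongr
          _ = _ := by ring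
    refine (Finset.sum_le_sum hone).trans ?_
    calc ∑ c ∈ desc A 1 0, 64 / a ^ 10 * F (X c)
        = 64 / a ^ 10 * ∑ c ∈ desc A 1 0, F (X c) := by rw [Finset.mul_sum]
      _ ≤ 64 / a ^ 10 * ((A : ℝ) ^ 2 * (162 * Cs * Real.log a * d)) := by
          apply mul_le_mul_of_nonneg_left _ (by positivity)
          exact hXF.trans (mul_le_mul_of_nonneg_left hFi (by positivity))
      _ = (A : ℝ) ^ 2 * ((10368 * Cs * (Real.log a / a)) / A * d) := by
          have : a ^ 10 = a * A := by rw [← haA]; ring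
          rw [this]
          field_simp
          ring
      _ ≤ (A : ℝ) ^ 2 * (κ / A * d) := by
          gcongr
  · have hone : ∀ c ∈ desc A 1 0,
        ‖(A : ℝ) • ((1 / (A : ℝ)) • ((16 : ℝ) • (9 * d * d1 ψ (X c), 9 * d * d2 ψ (X c)) + b)) -
          b‖ ≤ 16 * F (X c) := by
      intro c _
      have e1 : (A : ℝ) • ((1 / (A : ℝ)) • ((16 : ℝ) •
          (9 * d * d1 ψ (X c), 9 * d * d2 ψ (X c)) + b)) - b =
          (16 : ℝ) • ((9 * d * d1 ψ (X c), 9 * d * d2 ψ (X c)) : ℝ × ℝ) := by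
        rw [smul_smul, mul_one_div_cancel hA0.ne', one_smul, add_sub_cancel_right]
      rw [e1, norm_smul, Real.norm_eq_abs, abs_of_pos (by norm_num : (0 : ℝ) < 16)]
      apply mul_le_mul_of_nonneg_left _ (by norm_num)
      rw [Prod.norm_def, max_le_iff]
      simp only [Real.norm_eq_abs, abs_mul]
      have h9 : |(9 : ℝ)| = 9 := abs_of_pos (by norm_num)
      rw [h9, abs_of_pos hd1, hF]
      have h1 := hΦ0 (X c)
      have h2 : 0 ≤ a ^ 10 * Φ (X c) := by positivity
      have h3 : 0 ≤ 9 * d * |d1 ψ (X c)| := by positivity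
      have h4 : 0 ≤ 9 * d * |d2 ψ (X c)| := by positivity
      constructor <;> linarith only [h2, h4, h3]
    refine (Finset.sum_le_sum hone).trans ?_
    calc ∑ c ∈ desc A 1 0, 16 * F (X c)
        = 16 * ∑ c ∈ desc A 1 0, F (X c) := by rw [Finset.mul_sum]
      _ ≤ 16 * ((A : ℝ) ^ 2 * (162 * Cs * Real.log a * d)) := by
          apply mul_le_mul_of_nonneg_left _ (by positivity)
          exact hXF.trans (mul_le_mul_of_nonneg_left hFi (by positivity))
      _ = (A : ℝ) ^ 2 * (2592 * Cs * Real.log a * d) := by ring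
      _ ≤ (A : ℝ) ^ 2 * ((K + 2592 * Cs * Real.log a) * d) := by
          gcongr
          linarith

end Pool.Agent.H5.Yau
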