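import Pool.Agent.H5.Yau.NonDegCore
import Pool.Agent.H5.Yau.U3

set_option autoImplicit false

/-!
# Nondegeneracy at unit scale (statement `U4`)
-/

namespace Pool.Agent.H5.Yau

open MeasureTheory Set Metric Pool.Agent.H24.Near

namespace U4X

open Pool.Agent.H88.Yau (cen Defi tw resc IsMaj)

/-! ### Constant majorants -/

lemma const_isMaj {a0 c : ℝ} {u : ℝ × ℝ → ℝ}
    (h : Maj (fun p => tilt a0 0 u ((0 : ℝ × ℝ) + (1 / 16 : ℝ) • p)) c 0 0 1) :
    IsMaj u (c + a0) 0 := by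
  intro z hz
  have h1 := h ((16 : ℝ) • z) (by
    rw [mem_closedBall_zero_iff] at hz ⊢
    rw [norm_smul, Real.norm_eq_abs, abs_of_pos (by norm_num)]
    linarith)
  have e1 : (0 : ℝ × ℝ) + (1 / 16 : ℝ) • ((16 : ℝ) • z) = z := by module
  simp only [e1] at h1
  rw [abs_tilt_le_iff] at h1
  refine h1.trans (le_of_eq ?_)
  congr 1
  simp only [aff, Pool.Agent.H88.Yau.aff, Prod.fst_zero, Prod.snd_zero]
  ring

lemma const_defi {a0 c : ℝ} {u : ℝ × ℝ → ℝ} (hu : Continuous u)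
    (h : Maj (fun p => tilt a0 0 u ((0 : ℝ × ℝ) + (1 / 16 : ℝ) • p)) c 0 0 1)
    (hpos : ∀ z ∈ closedBall (0 : ℝ × ℝ) 64,
      0 < M (fun p => tilt a0 0 u ((0 : ℝ × ℝ) + (1 / 16 : ℝ) • p)) z 1) :
    Defi u (c + a0) 0 ≤
      64 * dfc (fun p => tilt a0 0 u ((0 : ℝ × ℝ) + (1 / 16 : ℝ) • p)) c 0 0 1 := by
  set v : ℝ × ℝ → ℝ := fun p => tilt a0 0 u ((0 : ℝ × ℝ) + (1 / 16 : ℝ) • p) with hv
  have hvc : Continuous v := (continuous_tilt hu a0 0).comp (by fun_prop)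
  set G : ℝ × ℝ → ℝ := fun y => -Real.log (M (tilt c 0 v) y 1) with hG
  have hGc : ContinuousOn G (closedBall (0 : ℝ × ℝ) 64) :=
    ((continuous_M (continuous_tilt hvc c 0) zero_le_one).continuousOn.log fun z hz =>
      (M_tilt_pos hvc zero_le_one c 0 (hpos z hz)).ne').neg
  have hG0 : ∀ y ∈ closedBall (0 : ℝ × ℝ) 64, 0 ≤ G y := by
    intro y hy
    have h1 : M (tilt c 0 v) y 1 ≤ 1 := by
      apply M_le zero_le_one
      intro p hp
      have h2 : |tilt c 0 v p| ≤ Real.exp 0 := by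
        rw [abs_tilt_le_iff, add_zero]
        apply h
        rw [mem_closedBall] at hy hp ⊢
        linarith only [hy, hp, dist_triangle p y (0 : ℝ × ℝ)]
      rw [Real.exp_zero] at h2
      exact h2
    have h3 : Real.log (M (tilt c 0 v) y 1) ≤ 0 := Real.log_nonpos M_nonneg h1
    show 0 ≤ -Real.log (M (tilt c 0 v) y 1)
    linarith
  have e1 : Defi u (c + a0) 0 =
      ∫ z in closedBall (0 : ℝ × ℝ) (1 / 2), G ((0 : ℝ × ℝ) + (16 : ℝ) • z) := by
    unfold Defi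
    congr 1
    funext z
    have h1 : tw u (c + a0) 0 = fun z => tilt c 0 v ((0 : ℝ × ℝ) + (16 : ℝ) • z) := by
      funext z
      have e1 : (0 : ℝ × ℝ) + (1 / 16 : ℝ) • ((0 : ℝ × ℝ) + (16 : ℝ) • z) = z := by module
      unfold tw
      rw [hv]
      unfold tilt
      simp only [e1]
      rw [mul_assoc, ← Real.exp_add]
      congr 2
      simp only [aff, Pool.Agent.H88.Yau.aff, Prod.fst_zero, Prod.snd_zero]
      ring
    rw [h1, M_scale (0 : ℝ × ℝ) (show (0 : ℝ) < 16 by norm_num)]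
    have h2 : (16 : ℝ) * (1 / 16) = 1 := by norm_num
    rw [h2]
  rw [e1, U3X.integral_scale G (0 : ℝ × ℝ) (show (0 : ℝ) < 16 by norm_num)]
  have h1 : (16 : ℝ) * (1 / 2) = 8 := by norm_num
  rw [h1]
  unfold dfc
  rw [mul_one, mul_one]
  have hmono : ∫ y in closedBall (0 : ℝ × ℝ) 8, G y ≤ ∫ y in closedBall (0 : ℝ × ℝ) 64, G y := by
    apply setIntegral_mono_set (hGc.integrableOn_compact (isCompact_closedBall _ _))
    · filter_upwards [ae_restrict_mem isClosed_closedBall.measurableSet] with y hy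
      exact hG0 y hy
    · exact (closedBall_subset_closedBall (by norm_num)).eventuallyLE
  have e3 : 64 * (1 / (128 : ℝ) ^ 2 * ∫ z in closedBall (0 : ℝ × ℝ) 64,
      -(Real.log (M (tilt c 0 v) z 1))) =
      1 / 16 ^ 2 * ∫ y in closedBall (0 : ℝ × ℝ) 64, G y := by
    rw [hG]
    ring
  rw [e3]
  exact mul_le_mul_of_nonneg_left hmono (by positivity)

/-! ### Counting squares -/

lemma cen16 (A : ℕ) (q : ℤ × ℤ) : (16 : ℝ) • cen A q =
    (((q.1 : ℝ) + 1 / 2) / A - 1 / 2, ((q.2 : ℝ) + 1 / 2) / A - 1 / 2) := by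
  unfold cen
  ext
  · simp only [Prod.smul_fst, smul_eq_mul]
    ring
  · simp only [Prod.smul_snd, smul_eq_mul]
    ring

lemma count {A : ℕ} (hA : 1 ≤ A) {E : Set (ℝ × ℝ)}
    (hE : E ⊆ closedBall (0 : ℝ × ℝ) 132) {c0 : ℝ}
    (hc0 : c0 ≤ (volume : Measure (ℝ × ℝ)).real E) :
    ∃ G : Finset (ℤ × ℤ), c0 * (A : ℝ) ^ 2 ≤ G.card ∧
      ∀ q ∈ G, ∃ x ∈ E, x ∈ closedBall ((16 : ℝ) • cen A q) (1 / (2 * A)) := by
  classical
  have hA0 : (0 : ℝ) < A := by exact_mod_cast (by omega : 0 < A)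
  obtain ⟨idx, hidx⟩ : ∃ idx : ℝ × ℝ → ℤ × ℤ,
    idx = fun x => (⌊(A : ℝ) * (x.1 + 1 / 2)⌋, ⌊(A : ℝ) * (x.2 + 1 / 2)⌋) := ⟨_, rfl⟩
  have hone : ∀ t : ℝ, |t - (((⌊(A : ℝ) * (t + 1 / 2)⌋ : ℝ) + 1 / 2) / A - 1 / 2)| ≤
      1 / (2 * A) := by
    intro t
    have h1 := Int.floor_le ((A : ℝ) * (t + 1 / 2))
    have h2 := Int.lt_floor_add_one ((A : ℝ) * (t + 1 / 2))
    have e : t - (((⌊(A : ℝ) * (t + 1 / 2)⌋ : ℝ) + 1 / 2) / A - 1 / 2) =
        ((A : ℝ) * (t + 1 / 2) - ⌊(A : ℝ) * (t + 1 / 2)⌋ - 1 / 2) / A := by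
      field_simp
      ring
    rw [e, abs_div, abs_of_pos hA0, div_le_div_iff₀ hA0 (by positivity)]
    have h3 : |(A : ℝ) * (t + 1 / 2) - ⌊(A : ℝ) * (t + 1 / 2)⌋ - 1 / 2| ≤ 1 / 2 := by
      rw [abs_le]
      constructor <;> linarith only [h1, h2]
    nlinarith only [h3]
  have hmem : ∀ x : ℝ × ℝ, x ∈ closedBall ((16 : ℝ) • cen A (idx x)) (1 / (2 * A)) := by
    intro x
    rw [cen16, mem_closedBall, Prod.dist_eq, Real.dist_eq, Real.dist_eq, hidx]
    exact max_le (hone x.1) (hone x.2)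
  obtain ⟨N, hN⟩ : ∃ N : ℤ, N = 133 * A := ⟨_, rfl⟩
  obtain ⟨box, hbox⟩ : ∃ box : Finset (ℤ × ℤ), box = Finset.Icc (-N) N ×ˢ Finset.Icc (-N) N :=
    ⟨_, rfl⟩
  have hfl : ∀ t : ℝ, |t| ≤ 132 → ⌊(A : ℝ) * (t + 1 / 2)⌋ ∈ Finset.Icc (-N) N := by
    intro t ht
    rw [abs_le] at ht
    rw [Finset.mem_Icc]
    constructor
    · apply Int.le_floor.2
      rw [hN]
      push_cast
      nlinarith only [ht]
    · have h1 := Int.floor_le ((A : ℝ) * (t + 1 / 2))
      have h2 : ((⌊(A : ℝ) * (t + 1 / 2)⌋ : ℤ) : ℝ) ≤ (N : ℝ) := by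
        rw [hN]
        push_cast
        nlinarith only [hA0, ht, h1]
      exact_mod_cast h2
  have hib : ∀ x ∈ E, idx x ∈ box := by
    intro x hx
    have h1 := hE hx
    rw [mem_closedBall_zero_iff, Prod.norm_def, Real.norm_eq_abs, Real.norm_eq_abs] at h1
    rw [hbox, hidx, Finset.mem_product]
    exact ⟨hfl _ ((le_max_left _ _).trans h1), hfl _ ((le_max_right _ _).trans h1)⟩
  refine ⟨box.filter (fun q => ∃ x ∈ E, idx x = q), ?_, ?_⟩
  · have hsub : E ⊆ ⋃ q ∈ box.filter (fun q => ∃ x ∈ E, idx x = q),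
        closedBall ((16 : ℝ) • cen A q) (1 / (2 * A)) := by
      intro x hx
      rw [mem_iUnion₂]
      exact ⟨idx x, Finset.mem_filter.2 ⟨hib x hx, x, hx, rfl⟩, hmem x⟩
    have h1 : (volume : Measure (ℝ × ℝ)).real E ≤
        ∑ q ∈ box.filter (fun q => ∃ x ∈ E, idx x = q),
          (volume : Measure (ℝ × ℝ)).real (closedBall ((16 : ℝ) • cen A q) (1 / (2 * A))) := by
      refine (measureReal_mono hsub ?_).trans (measureReal_biUnion_finset_le _ _)
      refine ((measure_biUnion_finset_le _ _).trans_lt ?_).ne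
      exact ENNReal.sum_lt_top.2 fun q _ => (isCompact_closedBall _ _).measure_lt_top
    have h2 : ∀ q : ℤ × ℤ, (volume : Measure (ℝ × ℝ)).real
        (closedBall ((16 : ℝ) • cen A q) (1 / (2 * A))) = 1 / (A : ℝ) ^ 2 := by
      intro q
      rw [H26.Yau.area2 _ (by positivity)]
      field_simp
    simp only [h2] at h1
    rw [Finset.sum_const, nsmul_eq_mul] at h1
    have h3 := hc0.trans h1
    calc c0 * (A : ℝ) ^ 2 ≤
        (((box.filter (fun q => ∃ x ∈ E, idx x = q)).card : ℝ) * (1 / (A : ℝ) ^ 2)) *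
          (A : ℝ) ^ 2 := mul_le_mul_of_nonneg_right h3 (by positivity)
      _ = _ := by field_simp
  · intro q hq
    obtain ⟨-, x, hx, rfl⟩ := Finset.mem_filter.1 hq
    exact ⟨x, hx, hmem x⟩

end U4X

open U4X in
theorem u4 : Pool.Agent.H88.Yau.U4 := by
  intro C ε hC hε
  obtain ⟨C', hC'⟩ : ∃ C' : ℝ, C' = max C 1 := ⟨_, rfl⟩
  have hCC' : C ≤ C' := by rw [hC']; exact le_max_left _ _
  have hC'1 : 1 ≤ C' := by rw [hC']; exact le_max_right _ _
  obtain ⟨Bn, hBn⟩ : ∃ Bn : ℝ, Bn = max 1 (64 * C' / ε) := ⟨_, rfl⟩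
  have hBn1 : 1 ≤ Bn := by rw [hBn]; exact le_max_left _ _
  have hBn2 : 64 * C' / ε ≤ Bn := by rw [hBn]; exact le_max_right _ _
  have hBn0 : 0 < Bn := by linarith
  obtain ⟨c1, hc1, hnd⟩ := nondeg_core Bn hBn1
  obtain ⟨δ, hδ⟩ : ∃ δ : ℝ, δ = ε * c1 / 4 := ⟨_, rfl⟩
  have hδ0 : 0 < δ := by rw [hδ]; positivity
  obtain ⟨a0, ha0, hnd⟩ := hnd δ hδ0
  refine ⟨⌈a0 ^ 9⌉₊, ?_⟩
  intro B hB
  have hB9 : a0 ^ 9 ≤ B := (Nat.le_ceil _).trans (by exact_mod_cast hB)
  have hB512 : (512 : ℝ) ≤ B := by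
    refine le_trans ?_ hB9
    calc (512 : ℝ) = 2 ^ 9 := by norm_num
      _ ≤ a0 ^ 9 := pow_le_pow_left₀ (by norm_num) ha0 9
  have hB0 : (0 : ℝ) < B := by linarith only [hB512]
  have hB1' : (1 : ℝ) ≤ B := by linarith only [hB512]
  have hB1 : 1 ≤ B := by exact_mod_cast hB1'
  obtain ⟨a, haB, haa⟩ : ∃ a : ℝ, a ^ 9 = B ∧ a0 ≤ a := by
    refine ⟨(B : ℝ) ^ ((1 : ℝ) / 9), ?_, ?_⟩
    · rw [← Real.rpow_natCast, ← Real.rpow_mul hB0.le]
      norm_num
    · have h1 : a0 = (a0 ^ 9) ^ ((1 : ℝ) / 9) := by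
        rw [← Real.rpow_natCast, ← Real.rpow_mul (by linarith only [ha0])]
        norm_num
      rw [h1]
      exact Real.rpow_le_rpow (by positivity) hB9 (by norm_num)
  obtain ⟨c0, P, K0, hc0, hK0, hnd⟩ := hnd a haa
  obtain ⟨K1, hK1, hcomp⟩ := U3X.comp_tw P
  rw [haB] at hnd
  refine ⟨c0, c1, K0 + 2 * K1, hc0, hc1, by linarith only [hK0, hK1], ?_⟩
  intro m Λ σ q u hsol hΛ hσ hσ1 hpos hKm hKΛ hgrow
  have hm0 : 0 < m := by linarith only [hK0, hK1, hKm]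
  have huc : Continuous u := hsol.smooth_u.continuous
  obtain ⟨mv, hmv⟩ : ∃ mv : ℝ, mv = C' * m := ⟨_, rfl⟩
  have hmmv : m ≤ mv := by rw [hmv]; nlinarith only [hC'1, hK0, hK1, hKm]
  have hCmv : C * m ≤ mv := by rw [hmv]; exact mul_le_mul_of_nonneg_right hCC' hm0.le
  have hmv0 : 0 < mv := by linarith only [hK0, hK1, hKm, hmmv]
  -- normalisation
  obtain ⟨p0, hp0, hp0M⟩ := exists_M huc (z := (0 : ℝ × ℝ)) (r := 64) (by norm_num)
  have hS0 : 0 < M u 0 64 := hpos 0 (mem_closedBall_self (by norm_num)) 64 (by norm_num)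
  obtain ⟨S, hS⟩ : ∃ S : ℝ, S = M u 0 64 := ⟨_, rfl⟩
  rw [← hS] at hS0 hp0M
  obtain ⟨s0, hs0⟩ : ∃ s0 : ℝ, s0 = Real.log S := ⟨_, rfl⟩
  have hes0 : Real.exp s0 = S := by rw [hs0, Real.exp_log hS0]
  obtain ⟨v, hv⟩ : ∃ v : ℝ × ℝ → ℝ,
    v = fun p => tilt s0 0 u ((0 : ℝ × ℝ) + (1 / 16 : ℝ) • p) := ⟨_, rfl⟩
  have hvc : Continuous v := by
    rw [hv]
    exact (continuous_tilt huc s0 0).comp (by fun_prop)
  have habs : ∀ p, |v p| = |u ((0 : ℝ × ℝ) + (1 / 16 : ℝ) • p)| / S := by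
    intro p
    rw [hv]
    show |tilt s0 0 u ((0 : ℝ × ℝ) + (1 / 16 : ℝ) • p)| = _
    rw [abs_tilt, ← hes0, Real.exp_neg, ← div_eq_mul_inv]
    simp [aff]
  have hball : ∀ {R : ℝ}, R ≤ 1024 → ∀ p ∈ closedBall (0 : ℝ × ℝ) R,
      (0 : ℝ × ℝ) + (1 / 16 : ℝ) • p ∈ closedBall (0 : ℝ × ℝ) 64 := by
    intro R hR p hp
    rw [mem_closedBall_zero_iff] at hp
    rw [zero_add, mem_closedBall_zero_iff, norm_smul, Real.norm_eq_abs,
      abs_of_pos (by norm_num)]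
    linarith only [hR, hp]
  have hMpos : ∀ z ∈ closedBall (0 : ℝ × ℝ) 1024, ∀ r : ℝ, 0 < r → 0 < M v z r := by
    intro z hz r hr
    have e : M v z r = M (tilt s0 0 u) ((0 : ℝ × ℝ) + (1 / 16 : ℝ) • z) (1 / 16 * r) := by
      rw [hv]
      exact M_scale (0 : ℝ × ℝ) (by norm_num) z r
    rw [e]
    apply M_tilt_pos huc (by positivity)
    exact hpos _ (hball le_rfl z hz) _ (by positivity)
  have h1 : ∀ m' : ℝ, mv ≤ m' → Comp P v m' (closedBall 0 160) := by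
    intro m' hm'
    have hmm' : m ≤ m' := hmmv.trans hm'
    rw [hv]
    apply hcomp m' s0 Λ σ (1 / 16) 0 0 q u (closedBall 0 64) (closedBall 0 160) hΛ hσ
      (by norm_num) (by norm_num) (by linarith only [hK0, hK1, hKm, hmmv, hm']) (U3X.solS_of hsol)
      (fun p hp => hball (by norm_num) p hp)
    · rw [norm_zero, mul_zero, zero_add]
      have e1 : 2 * K1 * Λ ≤ (K0 + 2 * K1) * Λ := by
        apply mul_le_mul_of_nonneg_right _ hΛ
        linarith only [hK0]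
      linarith only [hK0, hKm, hKΛ, hmmv, hm', e1]
    · rw [norm_zero, add_zero, Real.log_one, add_zero, mul_one]
      linarith only [hK0, hK1, hKm, hmmv, hm']
    · rw [norm_zero, mul_zero, zero_add]
      have e1 : K1 * Λ ≤ m' := by
        have e1 : K1 * Λ ≤ (K0 + 2 * K1) * Λ := by
          apply mul_le_mul_of_nonneg_right _ hΛ
          linarith only [hK0, hK1]
        linarith only [hKΛ, hmmv, hm', e1]
      have e2 : Λ ≤ K1 * Λ := by nlinarith only [hK1, hΛ]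
      calc K1 * (σ * Λ ^ 2) ≤ K1 * (1 * Λ ^ 2) := by gcongr
        _ = (K1 * Λ) * Λ := by ring
        _ ≤ m' * m' := by
            apply mul_le_mul e1 (e2.trans e1) hΛ (by linarith only [hK0, hK1, hKm, hmmv, hm'])
  have h2 : ∀ p ∈ closedBall (0 : ℝ × ℝ) 160, |v p| ≤ 1 := by
    intro p hp
    rw [habs, div_le_one hS0, hS]
    exact le_M huc (hball (by norm_num) p hp)
  have h3 : ∀ z ∈ closedBall (0 : ℝ × ℝ) 150, ∃ w ∈ closedBall z 2,
      Real.exp (-mv) ≤ |v w| := by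
    intro z hz
    have hz' := hball (by norm_num) z hz
    have g1 := hgrow _ hz' p0 hp0
    obtain ⟨w0, hw0, hw0M⟩ := exists_M huc (z := (0 : ℝ × ℝ) + (1 / 16 : ℝ) • z)
      (r := 1 / 16) (by norm_num)
    rw [← hw0M, hp0M] at g1
    refine ⟨(16 : ℝ) • w0, ?_, ?_⟩
    · rw [mem_closedBall, dist_eq_norm] at hw0 ⊢
      have e : (16 : ℝ) • w0 - z = (16 : ℝ) • (w0 - ((0 : ℝ × ℝ) + (1 / 16 : ℝ) • z)) := by
        module
      rw [e, norm_smul, Real.norm_eq_abs, abs_of_pos (by norm_num)]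
      linarith only [hw0]
    · rw [habs]
      have e : (0 : ℝ × ℝ) + (1 / 16 : ℝ) • ((16 : ℝ) • w0) = w0 := by module
      rw [e, le_div_iff₀ hS0]
      calc Real.exp (-mv) * S ≤ Real.exp (-mv) * (|u w0| * Real.exp (C * m)) := by gcongr
        _ ≤ Real.exp (-mv) * (|u w0| * Real.exp mv) := by gcongr
        _ = |u w0| * (Real.exp (-mv) * Real.exp mv) := by ring
        _ = |u w0| := by rw [← Real.exp_add, neg_add_cancel, Real.exp_zero, mul_one]
  by_cases hcase : ∃ c : ℝ, Maj v c 0 0 1 ∧ Bn * dfc v c 0 0 1 < mv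
  · left
    obtain ⟨c, hcM, hcd⟩ := hcase
    rw [hv] at hcM
    refine ⟨c + s0, const_isMaj hcM, ?_⟩
    refine (const_defi huc hcM ?_).trans ?_
    · intro z hz
      rw [← hv]
      exact hMpos z (closedBall_subset_closedBall (by norm_num) hz) 1 one_pos
    · rw [← hv]
      have e1 : dfc v c 0 0 1 ≤ mv / Bn := by
        rw [le_div_iff₀ hBn0, mul_comm]
        exact hcd.le
      have e2 : 64 * (mv / Bn) ≤ ε * m := by
        rw [mul_div_assoc', div_le_iff₀ hBn0, hmv]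
        rw [div_le_iff₀ hε] at hBn2
        calc 64 * (C' * m) = 64 * C' * m := by ring
          _ ≤ Bn * ε * m := mul_le_mul_of_nonneg_right hBn2 hm0.le
          _ = ε * m * Bn := by ring
      linarith only [e1, e2]
  · right
    have h4 : ∀ c : ℝ, Maj v c 0 0 1 → mv ≤ Bn * dfc v c 0 0 1 := by
      intro c hc
      by_contra hcon
      exact hcase ⟨c, hc, not_le.1 hcon⟩
    obtain ⟨E, -, hE, hEa, hEp⟩ := hnd v mv (by linarith only [hK1, hKm, hmmv]) hvc h1 h2 h3 h4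
    obtain ⟨G, hG, hGp⟩ := count hB1 hE hEa
    refine ⟨G, hG, ?_⟩
    intro c hc
    obtain ⟨x, hx, hxc⟩ := hGp c hc
    obtain ⟨c', g', hg', hmaj, hdef⟩ := hEp x hx
    have hhalf : 1 / (2 * (B : ℝ)) ≤ 1 / B := by
      apply one_div_le_one_div_of_le hB0
      linarith
    have hinvB : 1 / (B : ℝ) ≤ 1 := by
      rw [div_le_one hB0]
      exact hB1'
    have hcen : ‖(16 : ℝ) • Pool.Agent.H88.Yau.cen B c‖ ≤ 133 := by
      have e1 := hE hx
      rw [mem_closedBall_zero_iff] at e1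
      rw [mem_closedBall, dist_eq_norm] at hxc
      have e2 := norm_sub_norm_le ((16 : ℝ) • Pool.Agent.H88.Yau.cen B c) x
      rw [← norm_neg, neg_sub] at hxc
      linarith only [hxc, hhalf, hinvB, e1, e2]
    rw [hv] at hmaj
    refine ⟨?_, _, _, U3X.isMaj_child (b := 0) (a0 := s0) hB1' hxc hmaj, ?_, ?_⟩
    · rw [norm_smul, Real.norm_eq_abs, abs_of_pos (by norm_num)] at hcen
      rw [mem_closedBall_zero_iff]
      linarith only [hcen]
    · rw [add_zero, norm_smul, norm_smul, Real.norm_eq_abs, Real.norm_eq_abs,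
        abs_of_pos (by positivity), abs_of_pos (by norm_num)]
      have e1 : (B : ℝ) * (1 / B * (16 * ‖g'‖)) = 16 * ‖g'‖ := by field_simp
      rw [e1]
      have e2 : c1 * m ≤ c1 * mv := mul_le_mul_of_nonneg_left hmmv hc1.le
      linarith only [hg', e2, norm_nonneg g']
    · refine (U3X.defi_child (b := 0) (a0 := s0) hB1' huc hxc hmaj ?_).trans ?_
      · intro z hz
        rw [← hv]
        apply hMpos z _ _ (by positivity)
        rw [mem_closedBall_zero_iff]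
        rw [mem_closedBall, dist_eq_norm] at hz
        have e1 := norm_sub_norm_le z ((16 : ℝ) • Pool.Agent.H88.Yau.cen B c)
        have e2 : 64 / (B : ℝ) ≤ 64 := div_le_self (by norm_num) hB1'
        linarith only [hcen, hz, e1, e2]
      · rw [← hv]
        have e1 := hdef ((16 : ℝ) • Pool.Agent.H88.Yau.cen B c) (by
          rw [mem_closedBall, dist_comm]
          rw [mem_closedBall] at hxc
          linarith only [hxc, hhalf])
        rw [add_zero, norm_smul, norm_smul, Real.norm_eq_abs, Real.norm_eq_abs,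
          abs_of_pos (by positivity), abs_of_pos (by norm_num)]
        calc 64 * dfc v c' g' ((16 : ℝ) • Pool.Agent.H88.Yau.cen B c) (1 / B)
            ≤ 64 * (δ * mv / B) := by linarith only [e1]
          _ = ε * (1 / B * (16 * (c1 * mv))) := by rw [hδ]; ring
          _ ≤ ε * (1 / B * (16 * ‖g'‖)) := by gcongr

end Pool.Agent.H5.Yau
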